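import Pool.Agent.Lib.MP_8622f1_pr.Defs

section
set_option autoImplicit false

open Classical Filter Topology

/-!
# MP_8622f1_pr, unimodular case: averages over random subsets (helper66)

`av u W f` = expectation of `f A`, where `A ⊆ W` contains each point of `W` with probability `u`,
independently.
-/

namespace MP8622

namespace UN

/-- average of `f` over the random subsets of `W` of density `u` -/
noncomputable def av {V : Type} (u : ℝ) (W : Finset V) (f : Finset V → ℝ) : ℝ :=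
  ∑ A ∈ W.powerset, u ^ A.card * (1 - u) ^ (W.card - A.card) * f A

namespace AVG

variable {V : Type}

theorem av_empty (u : ℝ) (f : Finset V → ℝ) : av u ∅ f = f ∅ := by
  simp [av]

theorem av_insert (u : ℝ) {W : Finset V} {a : V} (ha : a ∉ W) (f : Finset V → ℝ) :
    av u (insert a W) f = (1 - u) * av u W f + u * av u W (fun A => f (insert a A)) := by
  unfold av
  rw [Finset.sum_powerset_insert ha, Finset.mul_sum, Finset.mul_sum]
  congr 1
  · apply Finset.sum_congr rfl
    intro A hA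
    have hA' := Finset.card_le_card (Finset.mem_powerset.1 hA)
    rw [Finset.card_insert_of_notMem ha, Nat.succ_sub hA', pow_succ]
    ring
  · apply Finset.sum_congr rfl
    intro A hA
    have hA' := Finset.mem_powerset.1 hA
    have haA : a ∉ A := fun h => ha (hA' h)
    rw [Finset.card_insert_of_notMem ha, Finset.card_insert_of_notMem haA, Nat.add_sub_add_right,
      pow_succ]
    ring

theorem av_mono {u : ℝ} (h0 : 0 ≤ u) (h1 : u ≤ 1) (W : Finset V) {f g : Finset V → ℝ}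
    (h : ∀ A, f A ≤ g A) : av u W f ≤ av u W g := by
  unfold av
  apply Finset.sum_le_sum
  intro A _
  exact mul_le_mul_of_nonneg_left (h A)
    (mul_nonneg (pow_nonneg h0 _) (pow_nonneg (by linarith) _))

/-- only the subsets of `W` matter -/
theorem av_mono' {u : ℝ} (h0 : 0 ≤ u) (h1 : u ≤ 1) (W : Finset V) {f g : Finset V → ℝ}
    (h : ∀ A, A ⊆ W → f A ≤ g A) : av u W f ≤ av u W g := by
  unfold av
  apply Finset.sum_le_sum
  intro A hA
  exact mul_le_mul_of_nonneg_left (h A (Finset.mem_powerset.1 hA))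
    (mul_nonneg (pow_nonneg h0 _) (pow_nonneg (by linarith) _))

theorem av_add (u : ℝ) (W : Finset V) (f g : Finset V → ℝ) :
    av u W (fun A => f A + g A) = av u W f + av u W g := by
  unfold av
  rw [← Finset.sum_add_distrib]
  exact Finset.sum_congr rfl fun A _ => by ring

theorem av_sub (u : ℝ) (W : Finset V) (f g : Finset V → ℝ) :
    av u W (fun A => f A - g A) = av u W f - av u W g := by
  unfold av
  rw [← Finset.sum_sub_distrib]
  exact Finset.sum_congr rfl fun A _ => by ring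

theorem av_smul (u : ℝ) (W : Finset V) (c : ℝ) (f : Finset V → ℝ) :
    av u W (fun A => c * f A) = c * av u W f := by
  unfold av
  rw [Finset.mul_sum]
  exact Finset.sum_congr rfl fun A _ => by ring

theorem av_sum {ι : Type} (u : ℝ) (W : Finset V) (s : Finset ι) (f : ι → Finset V → ℝ) :
    av u W (fun A => ∑ i ∈ s, f i A) = ∑ i ∈ s, av u W (f i) := by
  unfold av
  rw [Finset.sum_comm]
  exact Finset.sum_congr rfl fun A _ => by rw [Finset.mul_sum]

theorem av_const (u : ℝ) (W : Finset V) (c : ℝ) : av u W (fun _ => c) = c := by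
  induction W using Finset.induction_on with
  | empty => exact av_empty _ _
  | insert a W ha ih =>
    rw [av_insert u ha, ih]
    ring

theorem av_nonneg {u : ℝ} (h0 : 0 ≤ u) (h1 : u ≤ 1) (W : Finset V) {f : Finset V → ℝ}
    (h : ∀ A, 0 ≤ f A) : 0 ≤ av u W f := by
  have := av_mono h0 h1 W h
  rwa [av_const] at this

theorem av_one (W : Finset V) (f : Finset V → ℝ) : av 1 W f = f W := by
  induction W using Finset.induction_on generalizing f with
  | empty => exact av_empty _ _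
  | insert a W ha ih =>
    rw [av_insert 1 ha, ih, ih]
    ring

/-- Jensen -/
theorem av_sq {u : ℝ} (h0 : 0 ≤ u) (h1 : u ≤ 1) (W : Finset V) (f : Finset V → ℝ) :
    av u W f ^ 2 ≤ av u W (fun A => f A ^ 2) := by
  have h := av_nonneg h0 h1 W (f := fun A => (f A - av u W f) ^ 2) fun A => sq_nonneg _
  have e : av u W (fun A => (f A - av u W f) ^ 2) =
      av u W (fun A => f A ^ 2) - av u W f ^ 2 := by
    have e1 : (fun A => (f A - av u W f) ^ 2) =
        fun A => (f A ^ 2 - (2 * av u W f) * f A) + av u W f ^ 2 := by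
      funext A; ring
    rw [e1, av_add, av_sub, av_smul, av_const]
    ring
  linarith

/-- antitone in the set -/
theorem av_anti_set {u : ℝ} (h0 : 0 ≤ u) (h1 : u ≤ 1) {f : Finset V → ℝ}
    (hf : ∀ A B, A ⊆ B → f B ≤ f A) {W W' : Finset V} (h : W ⊆ W') :
    av u W' f ≤ av u W f := by
  obtain ⟨T, rfl⟩ : ∃ T, W' = W ∪ T := ⟨W', (Finset.union_eq_right.2 h).symm⟩
  clear h
  induction T using Finset.induction_on with
  | empty => simp
  | insert a T ha ih =>
    rw [Finset.union_insert]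
    by_cases hm : a ∈ W ∪ T
    · rwa [Finset.insert_eq_of_mem hm]
    · rw [av_insert u hm]
      have h2 : av u (W ∪ T) (fun A => f (insert a A)) ≤ av u (W ∪ T) f :=
        av_mono h0 h1 _ fun A => hf _ _ (Finset.subset_insert a A)
      nlinarith

/-- antitone in the density -/
theorem av_anti_u {u u' : ℝ} (h0 : 0 ≤ u) (hu : u ≤ u') (h1 : u' ≤ 1) {f : Finset V → ℝ}
    (hf : ∀ A B, A ⊆ B → f B ≤ f A) (W : Finset V) :
    av u' W f ≤ av u W f := by
  induction W using Finset.induction_on generalizing f with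
  | empty => rw [av_empty, av_empty]
  | insert a W ha ih =>
    rw [av_insert u ha, av_insert u' ha]
    have h2 : av u W (fun A => f (insert a A)) ≤ av u W f :=
      av_mono h0 (hu.trans h1) _ fun A => hf _ _ (Finset.subset_insert a A)
    have h3 := ih hf
    have h4 := ih (f := fun A => f (insert a A))
      fun A B hAB => hf _ _ (Finset.insert_subset_insert a hAB)
    nlinarith

/-- invariance -/
theorem av_image {V' : Type} (u : ℝ) (g : V → V') (hg : Function.Injective g) (W : Finset V)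
    (f : Finset V' → ℝ) : av u (W.image g) f = av u W (fun A => f (A.image g)) := by
  induction W using Finset.induction_on generalizing f with
  | empty => simp [av_empty]
  | insert a W ha ih =>
    have ha' : g a ∉ W.image g := by
      intro h
      obtain ⟨b, hb, hab⟩ := Finset.mem_image.1 h
      exact ha (hg hab ▸ hb)
    rw [Finset.image_insert, av_insert u ha', av_insert u ha, ih, ih]
    simp only [Finset.image_insert]

/-- Russo's formula -/
theorem hasDerivAt_av (W : Finset V) (f : Finset V → ℝ) (u : ℝ) :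
    HasDerivAt (fun u => av u W f)
      (∑ a ∈ W, av u (W.erase a) (fun A => f (insert a A) - f A)) u := by
  induction W using Finset.induction_on generalizing f with
  | empty =>
    simp only [av_empty, Finset.sum_empty]
    exact hasDerivAt_const u _
  | insert a W ha ih =>
    have h1 := ih f
    have h2 := ih (fun A => f (insert a A))
    have e : (fun u => av u (insert a W) f) =
        fun u => (1 - u) * av u W f + u * av u W (fun A => f (insert a A)) := by
      funext u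
      exact av_insert u ha f
    rw [e]
    have h3 : HasDerivAt (fun u : ℝ => 1 - u) (-1) u := (hasDerivAt_id' u).const_sub 1
    have h4 := (h3.mul h1).add ((hasDerivAt_id' u).mul h2)
    refine h4.congr_deriv ?_
    rw [Finset.sum_insert ha, Finset.erase_insert ha, av_sub]
    have e2 : ∀ b ∈ W, av u ((insert a W).erase b) (fun A => f (insert b A) - f A) =
        (1 - u) * av u (W.erase b) (fun A => f (insert b A) - f A) +
          u * av u (W.erase b) (fun A => f (insert a (insert b A)) - f (insert a A)) := by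
      intro b hb
      have hab : a ≠ b := fun h => ha (h ▸ hb)
      have h5 : (insert a W).erase b = insert a (W.erase b) :=
        (Finset.erase_insert_of_ne hab)
      rw [h5, av_insert u (fun h => ha (Finset.mem_of_mem_erase h))]
      simp only [Finset.insert_comm b a]
    rw [Finset.sum_congr rfl e2, Finset.sum_add_distrib, ← Finset.mul_sum, ← Finset.mul_sum]
    ring

theorem continuous_av (W : Finset V) (f : Finset V → ℝ) : Continuous (fun u => av u W f) := by
  unfold av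
  fun_prop

end AVG

end UN

end MP8622
end

section
set_option autoImplicit false

open Classical Filter Topology MeasureTheory

/-!
# MP_8622f1_pr, unimodular case, STEP 3: the Riccati inequality in the trivial direction (helper66)

`Q A x y` = mean conditional covariance of the spins at `x`, `y` given the observations of the blocks
`a ∈ A`. Abstract properties: `Obs`. Conclusion (`step3`): the row sums of `inf_A Q A` are at most
`4/(κ n²)`.
-/

namespace MP8622

namespace UN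

/-- abstract properties of the mean conditional covariances -/
structure Obs (Γ : Type) {V : Type} [Group Γ] [MulAction Γ V] (Q : Finset V → V → V → ℝ)
    (N : V → V → ℝ) (sp : V → Finset V) (n κ X₀ : ℝ) : Prop where
  nonneg : ∀ A x y, 0 ≤ Q A x y
  anti : ∀ A B : Finset V, A ⊆ B → ∀ x y, Q B x y ≤ Q A x y
  inv : ∀ (γ : Γ) (A : Finset V) (x y : V),
    Q (A.image fun z => γ • z) (γ • x) (γ • y) = Q A x y
  bd : ∀ (Y : Finset V) (x : V), ∑ y ∈ Y, Q ∅ x y ≤ X₀
  Nnn : ∀ a z, 0 ≤ N a z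
  Nsum : ∀ a, ∑ z ∈ sp a, N a z = n
  jj : ∀ (A : Finset V) (a : V), a ∉ A → ∀ F : Finset V,
    κ * (∑ y ∈ F, ∑ z ∈ sp a, N a z * Q A z y) ^ 2 ≤
      ∑ x ∈ F, ∑ y ∈ F, (Q A x y - Q (insert a A) x y)

namespace STP

open AVG

variable {Γ V : Type} [Group Γ] [MulAction Γ V] {Q : Finset V → V → V → ℝ}
  {N : V → V → ℝ} {sp : V → Finset V} {n κ X₀ : ℝ}

/-- limit of the averages over the random sets of density `p` -/
noncomputable def qq (Q : Finset V → V → V → ℝ) (p : ℝ) (x y : V) : ℝ :=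
  ⨅ W : Finset V, av p W fun A => Q A x y

/-- the two terms of the drop at `a`, integrated over the densities in `[p/2, p]` -/
noncomputable def Jf (Q : Finset V → V → V → ℝ) (p : ℝ) (a x y : V) (W : Finset V) : ℝ :=
  ∫ u in (p / 2)..p, av u (W.erase a) fun A => Q A x y

noncomputable def Jn (Q : Finset V → V → V → ℝ) (p : ℝ) (a x y : V) (W : Finset V) : ℝ :=
  ∫ u in (p / 2)..p, av u (W.erase a) fun A => Q (insert a A) x y

noncomputable def II (Q : Finset V → V → V → ℝ) (p : ℝ) (a x y : V) : ℝ :=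
  (⨅ W : Finset V, Jf Q p a x y W) - ⨅ W : Finset V, Jn Q p a x y W

/-- an antitone function bounded below converges to its infimum -/
theorem tendsto_inf {f : Finset V → ℝ} (hf : ∀ A B, A ⊆ B → f B ≤ f A) (h0 : ∀ A, 0 ≤ f A) :
    Tendsto f atTop (𝓝 (⨅ A, f A)) :=
  tendsto_atTop_ciInf (fun A B h => hf A B h) ⟨0, by rintro _ ⟨A, rfl⟩; exact h0 A⟩

theorem av_tendsto (h : Obs Γ Q N sp n κ X₀) {p : ℝ} (h0 : 0 ≤ p) (h1 : p ≤ 1) (x y : V) :
    Tendsto (fun W => av p W fun A => Q A x y) atTop (𝓝 (qq Q p x y)) :=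
  tendsto_inf (fun _ _ hAB => av_anti_set h0 h1 (fun A B hAB => h.anti A B hAB x y) hAB)
    fun W => av_nonneg h0 h1 W fun A => h.nonneg A x y

theorem qq_nonneg (h : Obs Γ Q N sp n κ X₀) {p : ℝ} (h0 : 0 ≤ p) (h1 : p ≤ 1) (x y : V) :
    0 ≤ qq Q p x y :=
  le_ciInf fun W => av_nonneg h0 h1 W fun A => h.nonneg A x y

theorem qq_le (h : Obs Γ Q N sp n κ X₀) {p : ℝ} (h0 : 0 ≤ p) (h1 : p ≤ 1) (W : Finset V)
    (x y : V) : qq Q p x y ≤ av p W fun A => Q A x y :=
  ciInf_le ⟨0, by rintro _ ⟨A, rfl⟩; exact av_nonneg h0 h1 A fun A => h.nonneg A x y⟩ W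

theorem qq_inv (h : Obs Γ Q N sp n κ X₀) (p : ℝ) (γ : Γ) (x y : V) :
    qq Q p (γ • x) (γ • y) = qq Q p x y := by
  unfold qq
  have hinj : Function.Injective fun z : V => γ • z := MulAction.injective γ
  have key : ∀ W : Finset V, (av p (W.image fun z => γ • z) fun A => Q A (γ • x) (γ • y)) =
      av p W fun A => Q A x y := by
    intro W
    rw [av_image p _ hinj]
    simp only [h.inv]
  have hsurj : Function.Surjective fun W : Finset V => W.image fun z => γ • z := by
    intro W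
    refine ⟨W.image fun z => γ⁻¹ • z, ?_⟩
    simp [Finset.image_image, Function.comp_def]
  rw [← hsurj.iInf_comp]
  exact iInf_congr key

theorem qq_one (_ : Obs Γ Q N sp n κ X₀) (x y : V) : qq Q 1 x y = ⨅ A, Q A x y := by
  unfold qq
  exact iInf_congr fun W => av_one W _

theorem sum_qq_le (h : Obs Γ Q N sp n κ X₀) {p : ℝ} (h0 : 0 ≤ p) (h1 : p ≤ 1) (Y : Finset V)
    (x : V) : ∑ y ∈ Y, qq Q p x y ≤ X₀ := by
  refine le_trans (Finset.sum_le_sum fun y _ => ?_) (h.bd Y x)
  have := qq_le h h0 h1 ∅ x y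
  rwa [av_empty] at this

theorem summable_qq (h : Obs Γ Q N sp n κ X₀) {p : ℝ} (h0 : 0 ≤ p) (h1 : p ≤ 1) (x : V) :
    Summable fun y => qq Q p x y :=
  summable_of_sum_le (fun y => qq_nonneg h h0 h1 x y) fun Y => sum_qq_le h h0 h1 Y x

/-- the row sum -/
noncomputable def XX (Q : Finset V → V → V → ℝ) (p : ℝ) (x : V) : ℝ := ∑' y, qq Q p x y

theorem XX_inv (h : Obs Γ Q N sp n κ X₀) (p : ℝ) (γ : Γ) (x : V) :
    XX Q p (γ • x) = XX Q p x := by
  unfold XX
  rw [← (MulAction.toPerm γ).tsum_eq]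
  exact tsum_congr fun y => qq_inv h p γ x y

theorem XX_nonneg (h : Obs Γ Q N sp n κ X₀) {p : ℝ} (h0 : 0 ≤ p) (h1 : p ≤ 1) (x : V) :
    0 ≤ XX Q p x := tsum_nonneg fun y => qq_nonneg h h0 h1 x y

theorem XX_le (h : Obs Γ Q N sp n κ X₀) {p : ℝ} (h0 : 0 ≤ p) (h1 : p ≤ 1) (x : V) :
    XX Q p x ≤ X₀ :=
  (summable_qq h h0 h1 x).tsum_le_of_sum_le fun Y => sum_qq_le h h0 h1 Y x

/-! ### the integrals -/

theorem int_mono {p : ℝ} (h0 : 0 ≤ p) {f g : ℝ → ℝ} (hf : Continuous f) (hg : Continuous g)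
    (h : ∀ u, p / 2 ≤ u → u ≤ p → f u ≤ g u) :
    ∫ u in (p / 2)..p, f u ≤ ∫ u in (p / 2)..p, g u :=
  intervalIntegral.integral_mono_on (by linarith) (hf.intervalIntegrable _ _)
    (hg.intervalIntegrable _ _) fun u hu => h u hu.1 hu.2

theorem Jf_anti (h : Obs Γ Q N sp n κ X₀) {p : ℝ} (h0 : 0 ≤ p) (h1 : p ≤ 1) (a x y : V)
    (W W' : Finset V) (hW : W ⊆ W') : Jf Q p a x y W' ≤ Jf Q p a x y W :=
  int_mono h0 (continuous_av _ _) (continuous_av _ _) fun _ hu hu' =>
    av_anti_set (by linarith) (by linarith) (fun A B hAB => h.anti A B hAB x y)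
      (Finset.erase_subset_erase a hW)

theorem Jn_anti (h : Obs Γ Q N sp n κ X₀) {p : ℝ} (h0 : 0 ≤ p) (h1 : p ≤ 1) (a x y : V)
    (W W' : Finset V) (hW : W ⊆ W') : Jn Q p a x y W' ≤ Jn Q p a x y W :=
  int_mono h0 (continuous_av _ _) (continuous_av _ _) fun _ hu hu' =>
    av_anti_set (by linarith) (by linarith)
      (fun A B hAB => h.anti _ _ (Finset.insert_subset_insert a hAB) x y)
      (Finset.erase_subset_erase a hW)

theorem Jf_nonneg (h : Obs Γ Q N sp n κ X₀) {p : ℝ} (h0 : 0 ≤ p) (h1 : p ≤ 1) (a x y : V)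
    (W : Finset V) : 0 ≤ Jf Q p a x y W :=
  intervalIntegral.integral_nonneg (by linarith) fun u hu =>
    av_nonneg (by linarith [hu.1]) (by linarith [hu.2]) _ fun A => h.nonneg _ _ _

theorem Jn_nonneg (h : Obs Γ Q N sp n κ X₀) {p : ℝ} (h0 : 0 ≤ p) (h1 : p ≤ 1) (a x y : V)
    (W : Finset V) : 0 ≤ Jn Q p a x y W :=
  intervalIntegral.integral_nonneg (by linarith) fun u hu =>
    av_nonneg (by linarith [hu.1]) (by linarith [hu.2]) _ fun A => h.nonneg _ _ _

theorem Jd_eq (Q : Finset V → V → V → ℝ) (p : ℝ) (a x y : V) (W : Finset V) :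
    Jf Q p a x y W - Jn Q p a x y W =
      ∫ u in (p / 2)..p, av u (W.erase a) fun A => Q A x y - Q (insert a A) x y := by
  unfold Jf Jn
  rw [← intervalIntegral.integral_sub ((continuous_av _ _).intervalIntegrable _ _)
    ((continuous_av _ _).intervalIntegrable _ _)]
  congr 1
  funext u
  rw [av_sub]

theorem Jd_nonneg (h : Obs Γ Q N sp n κ X₀) {p : ℝ} (h0 : 0 ≤ p) (h1 : p ≤ 1) (a x y : V)
    (W : Finset V) : 0 ≤ Jf Q p a x y W - Jn Q p a x y W := by
  rw [Jd_eq]
  exact intervalIntegral.integral_nonneg (by linarith) fun u hu =>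
    av_nonneg (by linarith [hu.1]) (by linarith [hu.2]) _ fun A =>
      sub_nonneg.2 (h.anti _ _ (Finset.subset_insert a A) x y)

theorem Jd_tendsto (h : Obs Γ Q N sp n κ X₀) {p : ℝ} (h0 : 0 ≤ p) (h1 : p ≤ 1) (a x y : V) :
    Tendsto (fun W => Jf Q p a x y W - Jn Q p a x y W) atTop (𝓝 (II Q p a x y)) :=
  (tendsto_inf (Jf_anti h h0 h1 a x y) (Jf_nonneg h h0 h1 a x y)).sub
    (tendsto_inf (Jn_anti h h0 h1 a x y) (Jn_nonneg h h0 h1 a x y))

theorem II_nonneg (h : Obs Γ Q N sp n κ X₀) {p : ℝ} (h0 : 0 ≤ p) (h1 : p ≤ 1) (a x y : V) :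
    0 ≤ II Q p a x y :=
  ge_of_tendsto' (Jd_tendsto h h0 h1 a x y) fun W => Jd_nonneg h h0 h1 a x y W

theorem II_inv (h : Obs Γ Q N sp n κ X₀) (p : ℝ) (γ : Γ) (a x y : V) :
    II Q p (γ • a) (γ • x) (γ • y) = II Q p a x y := by
  have hinj : Function.Injective fun z : V => γ • z := MulAction.injective γ
  have hsurj : Function.Surjective fun W : Finset V => W.image fun z => γ • z := by
    intro W
    refine ⟨W.image fun z => γ⁻¹ • z, ?_⟩
    simp [Finset.image_image, Function.comp_def]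
  have he : ∀ W : Finset V, (W.image fun z => γ • z).erase (γ • a) =
      (W.erase a).image fun z => γ • z := by
    intro W
    rw [Finset.image_erase hinj]
  have k1 : ∀ W : Finset V, Jf Q p (γ • a) (γ • x) (γ • y) (W.image fun z => γ • z) =
      Jf Q p a x y W := by
    intro W
    unfold Jf
    rw [he]
    congr 1
    funext u
    rw [av_image u _ hinj]
    simp only [h.inv]
  have k2 : ∀ W : Finset V, Jn Q p (γ • a) (γ • x) (γ • y) (W.image fun z => γ • z) =
      Jn Q p a x y W := by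
    intro W
    unfold Jn
    rw [he]
    congr 1
    funext u
    rw [av_image u _ hinj]
    have e : ∀ A : Finset V, Q (insert (γ • a) (A.image fun z => γ • z)) (γ • x) (γ • y) =
        Q (insert a A) x y := by
      intro A
      rw [← h.inv γ (insert a A) x y, Finset.image_insert]
    simp only [e]
  have h1 : (⨅ W, Jf Q p (γ • a) (γ • x) (γ • y) W) = ⨅ W, Jf Q p a x y W := by
    rw [← hsurj.iInf_comp]
    exact iInf_congr k1
  have h2 : (⨅ W, Jn Q p (γ • a) (γ • x) (γ • y) W) = ⨅ W, Jn Q p a x y W := by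
    rw [← hsurj.iInf_comp]
    exact iInf_congr k2
  unfold II
  rw [h1, h2]

/-- the fundamental theorem of calculus -/
theorem ftc (Q : Finset V → V → V → ℝ) (p : ℝ) (x y : V) (W : Finset V) :
    (av (p / 2) W fun A => Q A x y) - (av p W fun A => Q A x y) =
      ∑ a ∈ W, (Jf Q p a x y W - Jn Q p a x y W) := by
  have h := intervalIntegral.integral_eq_sub_of_hasDerivAt (a := p / 2) (b := p)
    (f := fun u => av u W fun A => Q A x y)
    (f' := fun u => ∑ a ∈ W, av u (W.erase a) (fun A => Q (insert a A) x y - Q A x y))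
    (fun u _ => hasDerivAt_av W _ u)
    ((continuous_finsetSum _ fun a _ => continuous_av _ _).intervalIntegrable _ _)
  have h2 : ∀ a ∈ W, Jf Q p a x y W - Jn Q p a x y W =
      -∫ u in (p / 2)..p, av u (W.erase a) fun A => Q (insert a A) x y - Q A x y := by
    intro a _
    rw [Jd_eq, ← intervalIntegral.integral_neg]
    congr 1
    funext u
    rw [av_sub, av_sub]
    ring
  rw [Finset.sum_congr rfl h2, Finset.sum_neg_distrib, ← intervalIntegral.integral_finsetSum
    (fun a _ => (continuous_av _ _).intervalIntegrable _ _), h]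
  ring

/-- (A) -/
theorem drop_ge (h : Obs Γ Q N sp n κ X₀) {p : ℝ} (h0 : 0 ≤ p) (h1 : p ≤ 1) (x y : V)
    (W₀ : Finset V) : ∑ a ∈ W₀, II Q p a x y ≤ qq Q (p / 2) x y - qq Q p x y := by
  have t1 : Tendsto (fun W => ∑ a ∈ W₀, (Jf Q p a x y W - Jn Q p a x y W)) atTop
      (𝓝 (∑ a ∈ W₀, II Q p a x y)) :=
    tendsto_finsetSum _ fun a _ => Jd_tendsto h h0 h1 a x y
  have t2 := (av_tendsto h (by linarith : (0 : ℝ) ≤ p / 2) (by linarith) x y).sub
    (av_tendsto h h0 h1 x y)
  refine le_of_tendsto_of_tendsto t1 t2 ?_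
  filter_upwards [Filter.eventually_ge_atTop W₀] with W hW
  rw [ftc]
  exact Finset.sum_le_sum_of_subset_of_nonneg hW fun a _ _ => Jd_nonneg h h0 h1 a x y W

/-- (B) -/
theorem quad_ge (h : Obs Γ Q N sp n κ X₀) (hκ : 0 ≤ κ) {p : ℝ} (h0 : 0 ≤ p) (h1 : p ≤ 1)
    (a : V) (F : Finset V) :
    p / 2 * (κ * (∑ y ∈ F, ∑ z ∈ sp a, N a z * qq Q p z y) ^ 2) ≤
      ∑ x ∈ F, ∑ y ∈ F, II Q p a x y := by
  have t1 : Tendsto (fun W => ∑ x ∈ F, ∑ y ∈ F, (Jf Q p a x y W - Jn Q p a x y W)) atTop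
      (𝓝 (∑ x ∈ F, ∑ y ∈ F, II Q p a x y)) :=
    tendsto_finsetSum _ fun x _ => tendsto_finsetSum _ fun y _ => Jd_tendsto h h0 h1 a x y
  refine ge_of_tendsto' t1 fun W => ?_
  set c : ℝ := κ * (∑ y ∈ F, ∑ z ∈ sp a, N a z * qq Q p z y) ^ 2 with hc
  have e1 : ∑ x ∈ F, ∑ y ∈ F, (Jf Q p a x y W - Jn Q p a x y W) =
      ∫ u in (p / 2)..p, av u (W.erase a) fun A =>
        ∑ x ∈ F, ∑ y ∈ F, (Q A x y - Q (insert a A) x y) := by
    simp only [Jd_eq]
    have e2 : ∀ x ∈ F, ∑ y ∈ F, (∫ u in (p / 2)..p,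
        av u (W.erase a) fun A => Q A x y - Q (insert a A) x y) =
        ∫ u in (p / 2)..p, ∑ y ∈ F, av u (W.erase a) fun A => Q A x y - Q (insert a A) x y :=
      fun x _ => (intervalIntegral.integral_finsetSum
        (fun y _ => (continuous_av _ _).intervalIntegrable _ _)).symm
    rw [Finset.sum_congr rfl e2, ← intervalIntegral.integral_finsetSum
      (fun x _ => (continuous_finsetSum _ fun y _ => continuous_av _ _).intervalIntegrable _ _)]
    congr 1
    funext u
    rw [av_sum]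
    exact Finset.sum_congr rfl fun x _ => (av_sum _ _ _ _).symm
  rw [e1]
  have e3 : p / 2 * c = ∫ _ in (p / 2)..p, c := by
    rw [intervalIntegral.integral_const, smul_eq_mul]
    ring
  rw [e3]
  refine int_mono h0 continuous_const (continuous_av _ _) fun u hu hu' => ?_
  have hu0 : 0 ≤ u := by linarith
  have hu1 : u ≤ 1 := by linarith
  set g : Finset V → ℝ := fun A => ∑ y ∈ F, ∑ z ∈ sp a, N a z * Q A z y with hg
  have s1 : (av u (W.erase a) fun A => κ * g A ^ 2) ≤
      av u (W.erase a) fun A => ∑ x ∈ F, ∑ y ∈ F, (Q A x y - Q (insert a A) x y) := by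
    refine av_mono' hu0 hu1 _ fun A hA => ?_
    exact h.jj A a (fun haA => (Finset.notMem_erase a W) (hA haA)) F
  refine le_trans ?_ s1
  rw [av_smul, hc]
  refine mul_le_mul_of_nonneg_left ?_ hκ
  refine le_trans ?_ (av_sq hu0 hu1 _ _)
  have s2 : ∑ y ∈ F, ∑ z ∈ sp a, N a z * qq Q p z y ≤ av u (W.erase a) g := by
    rw [hg, av_sum]
    refine Finset.sum_le_sum fun y _ => ?_
    rw [av_sum]
    refine Finset.sum_le_sum fun z _ => ?_
    rw [av_smul]
    refine mul_le_mul_of_nonneg_left ?_ (h.Nnn a z)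
    exact (qq_le h h0 h1 _ z y).trans
      (av_anti_u hu0 hu' h1 (fun A B hAB => h.anti A B hAB z y) _)
  have s3 : 0 ≤ ∑ y ∈ F, ∑ z ∈ sp a, N a z * qq Q p z y :=
    Finset.sum_nonneg fun y _ => Finset.sum_nonneg fun z _ =>
      mul_nonneg (h.Nnn a z) (qq_nonneg h h0 h1 z y)
  exact pow_le_pow_left₀ s3 s2 2

/-- the Riccati inequality -/
theorem riccati (h : Obs Γ Q N sp n κ X₀) (hM : MTP Γ V) (htr : ∀ x y : V, ∃ γ : Γ, γ • x = y)
    (hκ : 0 ≤ κ) {p : ℝ} (h0 : 0 ≤ p) (h1 : p ≤ 1) (o : V) :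
    XX Q p o + p / 2 * (κ * (n * XX Q p o) ^ 2) ≤ XX Q (p / 2) o := by
  have h0' : (0 : ℝ) ≤ p / 2 := by linarith
  have h1' : p / 2 ≤ 1 := by linarith
  -- mass transport
  set F : V → V → ENNReal := fun x a => ∑' y, ENNReal.ofReal (II Q p a x y) with hF
  have hFi : ∀ (γ : Γ) (x y : V), F (γ • x) (γ • y) = F x y := by
    intro γ x a
    rw [hF]
    simp only
    rw [← (MulAction.toPerm γ).tsum_eq]
    exact tsum_congr fun y => by
      rw [MulAction.toPerm_apply, II_inv h]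
  have hmt := hM F hFi o
  -- (B) in the limit
  have hB : ENNReal.ofReal (p / 2 * (κ * (n * XX Q p o) ^ 2)) ≤ ∑' z, F z o := by
    have hX : ∀ z, XX Q p z = XX Q p o := by
      intro z
      obtain ⟨γ, hγ⟩ := htr o z
      rw [← hγ, XX_inv h]
    have t1 : Tendsto (fun Fs : Finset V => ∑ y ∈ Fs, ∑ z ∈ sp o, N o z * qq Q p z y) atTop
        (𝓝 (n * XX Q p o)) := by
      have e : ∀ Fs : Finset V, ∑ y ∈ Fs, ∑ z ∈ sp o, N o z * qq Q p z y =
          ∑ z ∈ sp o, N o z * ∑ y ∈ Fs, qq Q p z y := by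
        intro Fs
        rw [Finset.sum_comm]
        exact Finset.sum_congr rfl fun z _ => by rw [Finset.mul_sum]
      simp only [e]
      have e2 : n * XX Q p o = ∑ z ∈ sp o, N o z * XX Q p z := by
        rw [← h.Nsum o, Finset.sum_mul]
        exact Finset.sum_congr rfl fun z _ => by rw [hX z]
      rw [e2]
      exact tendsto_finsetSum _ fun z _ => ((summable_qq h h0 h1 z).hasSum).const_mul _
    have t2 : Tendsto (fun Fs : Finset V => ENNReal.ofReal
        (p / 2 * (κ * (∑ y ∈ Fs, ∑ z ∈ sp o, N o z * qq Q p z y) ^ 2))) atTop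
        (𝓝 (ENNReal.ofReal (p / 2 * (κ * (n * XX Q p o) ^ 2)))) :=
      ENNReal.tendsto_ofReal (((t1.pow 2).const_mul κ).const_mul (p / 2))
    refine le_of_tendsto' t2 fun Fs => ?_
    refine (ENNReal.ofReal_le_ofReal (quad_ge h hκ h0 h1 o Fs)).trans ?_
    rw [ENNReal.ofReal_sum_of_nonneg
      (fun x _ => Finset.sum_nonneg fun y _ => II_nonneg h h0 h1 o x y)]
    refine le_trans ?_ (ENNReal.sum_le_tsum Fs)
    refine Finset.sum_le_sum fun x _ => ?_
    rw [ENNReal.ofReal_sum_of_nonneg (fun y _ => II_nonneg h h0 h1 o x y)]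
    exact ENNReal.sum_le_tsum Fs
  -- (A) summed
  have hA : ENNReal.ofReal (XX Q p o) + ∑' z, F o z ≤ ENNReal.ofReal (XX Q (p / 2) o) := by
    have e1 : ∑' z, F o z = ∑' y, ∑' a, ENNReal.ofReal (II Q p a o y) := by
      rw [hF]
      exact ENNReal.tsum_comm
    rw [e1]
    unfold XX
    rw [ENNReal.ofReal_tsum_of_nonneg (fun y => qq_nonneg h h0 h1 o y) (summable_qq h h0 h1 o),
      ENNReal.ofReal_tsum_of_nonneg (fun y => qq_nonneg h h0' h1' o y) (summable_qq h h0' h1' o),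
      ← ENNReal.tsum_add]
    refine ENNReal.tsum_le_tsum fun y => ?_
    have h3 : ∑' a, ENNReal.ofReal (II Q p a o y) ≤
        ENNReal.ofReal (qq Q (p / 2) o y - qq Q p o y) := by
      rw [ENNReal.tsum_eq_iSup_sum]
      refine iSup_le fun W₀ => ?_
      rw [← ENNReal.ofReal_sum_of_nonneg (fun a _ => II_nonneg h h0 h1 a o y)]
      exact ENNReal.ofReal_le_ofReal (drop_ge h h0 h1 o y W₀)
    refine (add_le_add_right h3 _).trans ?_
    have h4 : 0 ≤ qq Q (p / 2) o y - qq Q p o y := by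
      have := drop_ge h h0 h1 o y ∅
      simpa using this
    rw [← ENNReal.ofReal_add (qq_nonneg h h0 h1 o y) h4]
    exact ENNReal.ofReal_le_ofReal (by linarith)
  rw [hmt] at hA
  have h5 : 0 ≤ p / 2 * (κ * (n * XX Q p o) ^ 2) :=
    mul_nonneg h0' (mul_nonneg hκ (sq_nonneg _))
  have h6 := (add_le_add_right hB (ENNReal.ofReal (XX Q p o))).trans hA
  rw [← ENNReal.ofReal_add (XX_nonneg h h0 h1 o) h5] at h6
  exact (ENNReal.ofReal_le_ofReal_iff (XX_nonneg h h0' h1' o)).1 h6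

end STP

open STP in
/-- STEP 3 -/
theorem step3 {Γ V : Type} [Group Γ] [MulAction Γ V] {Q : Finset V → V → V → ℝ}
    {N : V → V → ℝ} {sp : V → Finset V} {n κ X₀ : ℝ} (h : Obs Γ Q N sp n κ X₀)
    (hM : MTP Γ V) (htr : ∀ x y : V, ∃ γ : Γ, γ • x = y) (hn : 0 < n) (hκ : 0 < κ) (o : V) :
    ∀ Y : Finset V, ∑ y ∈ Y, ⨅ A, Q A o y ≤ 4 / (κ * n ^ 2) := by
  have hK : 0 < κ * n ^ 2 := by positivity
  have key : XX Q 1 o ≤ 4 / (κ * n ^ 2) := by
    by_contra hcon
    push Not at hcon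
    have hM0 : 4 < κ * n ^ 2 * XX Q 1 o := by
      rw [div_lt_iff₀ hK] at hcon
      linarith
    -- M_j
    set M : ℕ → ℝ := fun j => κ * n ^ 2 * ((1 / 2 : ℝ) ^ j * XX Q ((1 / 2 : ℝ) ^ j) o) with hMdef
    have hp : ∀ j : ℕ, 0 ≤ (1 / 2 : ℝ) ^ j ∧ (1 / 2 : ℝ) ^ j ≤ 1 := fun j =>
      ⟨by positivity, pow_le_one₀ (by norm_num) (by norm_num)⟩
    have hstep : ∀ j, M j / 2 + M j ^ 2 / 4 ≤ M (j + 1) := by
      intro j
      have hr := riccati h hM htr hκ.le (hp j).1 (hp j).2 o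
      have e : (1 / 2 : ℝ) ^ j / 2 = (1 / 2 : ℝ) ^ (j + 1) := by rw [pow_succ]; ring
      rw [e] at hr
      have h7 := mul_le_mul_of_nonneg_left hr
        (show 0 ≤ κ * n ^ 2 * (1 / 2 : ℝ) ^ (j + 1) by positivity)
      have e2 : κ * n ^ 2 * (1 / 2 : ℝ) ^ (j + 1) * (XX Q ((1 / 2 : ℝ) ^ j) o +
          (1 / 2 : ℝ) ^ (j + 1) * (κ * (n * XX Q ((1 / 2 : ℝ) ^ j) o) ^ 2)) =
          M j / 2 + M j ^ 2 / 4 := by
        rw [hMdef, ← e]
        ring
      rw [e2] at h7
      refine h7.trans (le_of_eq ?_)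
      rw [hMdef]
      ring
    have hgrow : ∀ j, 4 * (3 / 2 : ℝ) ^ j ≤ M j := by
      intro j
      induction j with
      | zero =>
        rw [hMdef]
        simp only [pow_zero, mul_one, one_mul]
        exact hM0.le
      | succ j ih =>
        have h8 : (4 : ℝ) ≤ M j := by
          refine le_trans ?_ ih
          have := one_le_pow₀ (show (1 : ℝ) ≤ 3 / 2 by norm_num) (n := j)
          linarith
        have h9 := hstep j
        have h10 : 4 * M j ≤ M j ^ 2 := by nlinarith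
        rw [pow_succ]
        linarith
    have hbd : ∀ j, M j ≤ κ * n ^ 2 * X₀ := by
      intro j
      have h11 := XX_le h (hp j).1 (hp j).2 o
      have h12 := XX_nonneg h (hp j).1 (hp j).2 o
      rw [hMdef]
      simp only
      refine mul_le_mul_of_nonneg_left ?_ hK.le
      calc (1 / 2 : ℝ) ^ j * XX Q ((1 / 2 : ℝ) ^ j) o ≤ 1 * XX Q ((1 / 2 : ℝ) ^ j) o :=
            mul_le_mul_of_nonneg_right (hp j).2 h12
        _ ≤ X₀ := by rw [one_mul]; exact h11
    obtain ⟨j, hj⟩ := pow_unbounded_of_one_lt (κ * n ^ 2 * X₀) (show (1 : ℝ) < 3 / 2 by norm_num)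
    have h13 := (hgrow j).trans (hbd j)
    have h14 : 0 < (3 / 2 : ℝ) ^ j := by positivity
    linarith
  intro Y
  refine le_trans ?_ key
  have e : ∀ y ∈ Y, ⨅ A, Q A o y = qq Q 1 o y := fun y _ => (qq_one h o y).symm
  rw [Finset.sum_congr rfl e]
  exact (summable_qq h zero_le_one le_rfl o).sum_le_tsum _
    fun y _ => qq_nonneg h zero_le_one le_rfl o y

/-- the Schur test -/
theorem schur {Γ V : Type} [Group Γ] [MulAction Γ V] {Q : Finset V → V → V → ℝ}
    {N : V → V → ℝ} {sp : V → Finset V} {n κ X₀ : ℝ} (h : Obs Γ Q N sp n κ X₀)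
    (hM : MTP Γ V) (htr : ∀ x y : V, ∃ γ : Γ, γ • x = y) (hn : 0 < n) (hκ : 0 < κ)
    (hsym : ∀ A x y, Q A x y = Q A y x) (Y : Finset V) (f : V → ℝ) (ε : ℝ) (hε : 0 < ε) :
    ∃ A : Finset V, ∀ B : Finset V, A ⊆ B →
      ∑ x ∈ Y, ∑ y ∈ Y, f x * f y * Q B x y ≤ 4 / (κ * n ^ 2) * ∑ x ∈ Y, f x ^ 2 + ε := by
  have hlim : Tendsto (fun B : Finset V => ∑ x ∈ Y, ∑ y ∈ Y, f x * f y * Q B x y) atTop
      (𝓝 (∑ x ∈ Y, ∑ y ∈ Y, f x * f y * ⨅ A, Q A x y)) :=
    tendsto_finsetSum _ fun x _ => tendsto_finsetSum _ fun y _ =>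
      (STP.tendsto_inf (fun A B hAB => h.anti A B hAB x y) (fun A => h.nonneg A x y)).const_mul _
  have hsy : ∀ x y, (⨅ A, Q A x y) = ⨅ A, Q A y x := fun x y => iInf_congr fun A => hsym A x y
  have hq0 : ∀ x y, 0 ≤ ⨅ A, Q A x y := fun x y => le_ciInf fun A => h.nonneg A x y
  have hle : ∑ x ∈ Y, ∑ y ∈ Y, f x * f y * (⨅ A, Q A x y) ≤
      4 / (κ * n ^ 2) * ∑ x ∈ Y, f x ^ 2 := by
    have h1 : ∑ x ∈ Y, ∑ y ∈ Y, f x * f y * (⨅ A, Q A x y) ≤
        ∑ x ∈ Y, ∑ y ∈ Y, (f x ^ 2 / 2 * (⨅ A, Q A x y) + f y ^ 2 / 2 * (⨅ A, Q A x y)) := by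
      refine Finset.sum_le_sum fun x _ => Finset.sum_le_sum fun y _ => ?_
      have := hq0 x y
      nlinarith [sq_nonneg (f x - f y)]
    have h2 : ∑ x ∈ Y, ∑ y ∈ Y, f x ^ 2 / 2 * (⨅ A, Q A x y) ≤
        4 / (κ * n ^ 2) * ∑ x ∈ Y, f x ^ 2 / 2 := by
      rw [Finset.mul_sum]
      refine Finset.sum_le_sum fun x _ => ?_
      rw [← Finset.mul_sum, mul_comm]
      exact mul_le_mul_of_nonneg_right (step3 h hM htr hn hκ x Y) (by positivity)
    have h3 : ∑ x ∈ Y, ∑ y ∈ Y, f y ^ 2 / 2 * (⨅ A, Q A x y) =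
        ∑ x ∈ Y, ∑ y ∈ Y, f x ^ 2 / 2 * (⨅ A, Q A x y) := by
      rw [Finset.sum_comm]
      exact Finset.sum_congr rfl fun x _ => Finset.sum_congr rfl fun y _ => by rw [hsy]
    have h4 : ∑ x ∈ Y, ∑ y ∈ Y, (f x ^ 2 / 2 * (⨅ A, Q A x y) + f y ^ 2 / 2 * (⨅ A, Q A x y)) =
        ∑ x ∈ Y, ∑ y ∈ Y, f x ^ 2 / 2 * (⨅ A, Q A x y) +
          ∑ x ∈ Y, ∑ y ∈ Y, f y ^ 2 / 2 * (⨅ A, Q A x y) := by
      rw [← Finset.sum_add_distrib]
      exact Finset.sum_congr rfl fun x _ => Finset.sum_add_distrib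
    have h5 : 4 / (κ * n ^ 2) * ∑ x ∈ Y, f x ^ 2 / 2 +
        4 / (κ * n ^ 2) * ∑ x ∈ Y, f x ^ 2 / 2 = 4 / (κ * n ^ 2) * ∑ x ∈ Y, f x ^ 2 := by
      rw [← Finset.sum_div]
      ring
    rw [h4, h3] at h1
    linarith
  have hev := hlim.eventually (gt_mem_nhds (show ∑ x ∈ Y, ∑ y ∈ Y, f x * f y * (⨅ A, Q A x y) <
    4 / (κ * n ^ 2) * ∑ x ∈ Y, f x ^ 2 + ε by linarith))
  obtain ⟨A, hA⟩ := Filter.eventually_atTop.1 hev
  exact ⟨A, fun B hB => (hA B hB).le⟩

end UN

end MP8622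
end
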