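import Pool.Agent.Lib.MP_8622f1_pr.UN.Defs
import Pool.Agent.Lib.MP_8622f1_pr.UN.STP
import Pool.Agent.Lib.MP_8622f1_pr.NU.Defs

set_option autoImplicit false

open Classical Filter Topology

/-!
# S19447, unimodular graphs: top level statements (helper1)

THEOREM U. `G` connected, locally finite, transitive, nonamenable, with mass transport: the free two
point function is bounded on `ℓ²` uniformly for `β₀ ≤ β ≤ β₁` with finite susceptibility.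

PROOF (found by helper32, helper83 and helper1; refereed by helper26, 31, 43, 52, 61, 66, 71, 83,
92). Every block `a` observes the pendant spins of a ball `B a` through a weak binary channel of
mean `φ_a ≈ δ S_a`, `S_a = ∑ N a x * (pendant x)`, `N = A^m`. `Q A x y` = mean posterior covariance.
(POS) for small `δ` the posterior law of the PENDANT spins satisfies the FKG lattice condition for
every outcome, so `Q ≥ 0`, `Q` is antitone in `A` and (J) holds; (STP, helper66, in Lean) mass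
transport: the row sums of `inf_A Q A` are at most `4/(δ² n²)`; (CHL) the information of all blocks
about `F = ∑ f_x (pendant x)`, `f ≥ 0`, is at most `22 δ² ν² |ch f|²` (Ding-Song-Sun), so
`⟨f, Q A f⟩ ≥ ⟨f, ch f⟩ - 22 δ² ν² |ch f|²`, `ν` = norm of `N`. If `K = |ch|` were large, `δ² = 1/(88 ν² K)`
gives `K/2 ≤ 352 ν² K / n²`: false if `n² ≥ 1000 ν²`.

Module `XXX`: file `Pool/Agent/Lib/MP_8622f1_pr/UN/XXX.lean`, namespace `MP8622.UN`,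
`theorem specXXX (hYYY : SpecYYY) .. : SpecXXX`, own lemmas in `MP8622.UN.XXXM`.
-/

namespace MP8622

namespace UN

/-- expectation of the pendant spins in the finite volume `Λ` of the graph `G` -/
noncomputable def eL {V : Type} (G : SimpleGraph V) [G.LocallyFinite] (β : ℝ) (Λ : Finset V)
    (g : Finset V → ℝ) : ℝ := ex (fun _ => pr β) (ed0 G Λ) Λ g

/-- DSS (Ding-Song-Sun): real fields of any sign decrease the covariances of a ferromagnet, and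
they stay nonnegative (FKG). `NU.wf P E Λ b S = sw P E S * ∏ v ∈ Λ, exp (b v * chi {v} S)`. From the
blocks DS (helper52). -/
def SpecDSS : Prop :=
  ∀ (V : Type) (P : Sym2 V → ℝ) (E : Finset (Sym2 V)) (Λ : Finset V) (b : V → ℝ) (x y : V),
    (∀ e, 0 ≤ P e) → (∀ e, P e < 1) → (∀ e ∈ E, ¬ e.IsDiag) → (∀ e ∈ E, ∀ z ∈ e, z ∈ Λ) →
    x ∈ Λ → y ∈ Λ → x ≠ y →
    (∑ S ∈ Λ.powerset, chi {x} S * NU.wf P E Λ b S) *
        (∑ S ∈ Λ.powerset, chi {y} S * NU.wf P E Λ b S) ≤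
      (∑ S ∈ Λ.powerset, chi {x} S * chi {y} S * NU.wf P E Λ b S) *
        ∑ S ∈ Λ.powerset, NU.wf P E Λ b S ∧
    (∑ S ∈ Λ.powerset, chi {x} S * chi {y} S * NU.wf P E Λ b S) *
        (∑ S ∈ Λ.powerset, NU.wf P E Λ b S) -
      (∑ S ∈ Λ.powerset, chi {x} S * NU.wf P E Λ b S) *
        (∑ S ∈ Λ.powerset, chi {y} S * NU.wf P E Λ b S) ≤
      corr P E Λ {x, y} * (∑ S ∈ Λ.powerset, NU.wf P E Λ b S) ^ 2

/-- PST: posterior of the pendant spins with additional site fields `h` (from DSS).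
Proof. Sum over `U` first: given `S`, the pendants are independent, `∑_{u = ±1} (1 + s u / 2) exp (h u) =
2 cosh h (1 + (1/2) tanh h * s)`, so the law of `S` is `sw S * ∏ (1 + (1/2) tanh (h v) chi {v} S)`,
which is proportional to `NU.wf` with `tanh b_v = (1/2) tanh (h v)`; the conditional mean of the
pendant at `x` given `s_x = s` is `(s/2 + t)/(1 + s t/2)`, `t = tanh (h x)`, `= A + k s` with
`k = (1/2)(1 - t²)/(1 - t²/4) ∈ [0, 1/2]`. So for `x ≠ y` the covariance is `k_x k_y` times the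
covariance of the spins; for `x = y` it is a variance, between `0` and `1`. -/
def SpecPST : Prop :=
  ∀ (V : Type) (P : Sym2 V → ℝ) (E : Finset (Sym2 V)) (Λ : Finset V) (h : V → ℝ) (x y : V),
    (∀ e, 0 ≤ P e) → (∀ e, P e < 1) → (∀ e ∈ E, ¬ e.IsDiag) → (∀ e ∈ E, ∀ z ∈ e, z ∈ Λ) →
    x ∈ Λ → y ∈ Λ → ∀ w : Finset V → ℝ,
    (∀ U, w U = pw P E Λ U * ∏ v ∈ Λ, Real.exp (h v * chi {v} U)) →
    (∑ U ∈ Λ.powerset, chi {x} U * w U) * (∑ U ∈ Λ.powerset, chi {y} U * w U) ≤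
      (∑ U ∈ Λ.powerset, chi {x} U * chi {y} U * w U) * ∑ U ∈ Λ.powerset, w U ∧
    (∑ U ∈ Λ.powerset, chi {x} U * chi {y} U * w U) * (∑ U ∈ Λ.powerset, w U) -
      (∑ U ∈ Λ.powerset, chi {x} U * w U) * (∑ U ∈ Λ.powerset, chi {y} U * w U) ≤
      ch P E Λ x y * (∑ U ∈ Λ.powerset, w U) ^ 2

/-- CHL: existence of a channel, and the `ℓ²` bound. From PST and ONE of the two blocks:
(sine) `φ = ph N B s`, `s = 2 exp (1/2) δ`: the garbling theorem `gau` of helper92 with `Om` = the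
subsets `U` of `Λ`, `mu = pw`, `b = s²`, `F = ∑ f_y chi {y}` (mean zero), `G x = ∑_y ch x y f_y`;
`(exp (4 b ν²) - 1)/4 ≤ 2 b ν² = 8 e δ² ν²`;
(linear, helper83) `φ = li N B δ`.
`Chn`: for `ph`: `Real.sin v - v / 2` is increasing on `[-1, 1]` and
`sin (u+p+q) sin u - sin (u+p) sin (u+q) = - sin p sin q`,
`sin (u+p+q) + sin u - sin (u+p) - sin (u+q) = - 4 sin (u + (p+q)/2) sin (p/2) sin (q/2)`. -/
def SpecCHL : Prop :=
  ∀ (V : Type) (G : SimpleGraph V) (N : V → V → ℝ) (B : V → Finset V) (m : ℕ) (n ν δ : ℝ),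
    Ker G N B m n ν → 0 < δ → 8 * δ * n ≤ 1 → 100 * δ ^ 2 * ν ^ 2 ≤ 1 →
    ∃ φ : V → Finset V → ℝ, Chn N B φ δ (100 * δ ^ 2) ∧
      (∀ g : V ≃ V, IsAut G g → ∀ (a : V) (U : Finset V), φ (g a) (U.image g) = φ a U) ∧
      ∀ (P : Sym2 V → ℝ) (E : Finset (Sym2 V)) (Λ A Y : Finset V) (f : V → ℝ),
        (∀ e, 0 ≤ P e) → (∀ e, P e < 1) → (∀ e ∈ E, ¬ e.IsDiag) → (∀ e ∈ E, ∀ z ∈ e, z ∈ Λ) →
        (∀ a ∈ A, B a ⊆ Λ) → Y ⊆ Λ → (∀ x, 0 ≤ f x) →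
        ∑ x ∈ Y, ∑ y ∈ Y, f x * f y * ch P E Λ x y -
            22 * δ ^ 2 * ν ^ 2 * ∑ z ∈ Λ, (∑ y ∈ Y, ch P E Λ z y * f y) ^ 2 ≤
          ∑ x ∈ Y, ∑ y ∈ Y, f x * f y * QQ (ex P E Λ) φ A x y

/-- POS: FKG inequality for the posterior law of the pendant spins, every outcome `Z`, for all
functions increasing in the spins (antitone in the set of minus spins). Specs of the block: helper83
(`SpecP.lean`). -/
def SpecPOS : Prop :=
  ∀ (d m : ℕ) (b₀ b₁ n : ℝ), 0 < b₀ → b₀ ≤ b₁ → ∃ K₀ : ℝ, 0 < K₀ ∧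
    ∀ (V : Type) (G : SimpleGraph V) [G.LocallyFinite] (N : V → V → ℝ) (B : V → Finset V)
      (ν : ℝ) (φ : V → Finset V → ℝ) (δ K β : ℝ),
      (∀ x, (G.neighborFinset x).card ≤ d) → Ker G N B m n ν → Chn N B φ δ K → 0 ≤ K → K ≤ K₀ →
      b₀ ≤ β → β ≤ b₁ → ∀ Λ A : Finset V, (∀ a ∈ A, B a ⊆ Λ) → ∀ Z : Finset V,
      ∀ f g : Finset V → ℝ, (∀ S T, S ⊆ T → T ⊆ Λ → f T ≤ f S) →
        (∀ S T, S ⊆ T → T ⊆ Λ → g T ≤ g S) →
        eL G β Λ (fun U => f U * om φ A Z U) * eL G β Λ (fun U => g U * om φ A Z U) ≤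
          eL G β Λ (fun U => f U * g U * om φ A Z U) * eL G β Λ (om φ A Z)

/-- CAL: the calculus of the channels in finite volume.
Proof. `om φ (insert a A) Z = om φ A (Z ∩ A) * (1 ± φ_a)/2`; with `⟨f⟩ = e (f om) / e (om)` (posterior
given the outcome `Z ⊆ A`), the two outcomes of `a` together:
`(1/2) ∑_± ⟨s_x (1 ± φ)⟩ ⟨s_y (1 ± φ)⟩ / ⟨1 ± φ⟩ = ⟨s_x⟩⟨s_y⟩ + Cov (s_x, φ) Cov (s_y, φ) / (1 - ⟨φ⟩²)`, hence
`Q A x y - Q (insert a A) x y = ∑_Z e (om) Cov (s_x, φ) Cov (s_y, φ) / (1 - ⟨φ⟩²)`, all factors `≥ 0`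
(FKG hypothesis with `f = chi {x}` and `g = φ_a`, increasing in the spins on `Λ` because
`φ_a = (φ_a - δ S_a) + δ S_a`, `N ≥ 0`). `Cov (s_y, φ_a) ≥ δ Cov (s_y, S_a) = δ ∑_z N a z Cov (s_y, s_z)` (FKG
with `g = φ_a - δ S_a`); `∑_Z e(om) Cov_Z (s_z, s_y) = Q A z y`, and `∑_Z e (om) = 1`, Jensen (Cauchy-
Schwarz) gives (J). `Q A ≥ 0`: FKG with `f = chi {x}`, `g = chi {y}`, `∑_Z om φ A Z = 1`. -/
def SpecCAL : Prop :=
  ∀ (V : Type) (w : Finset V → ℝ) (Λ : Finset V) (N : V → V → ℝ) (B : V → Finset V)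
    (φ : V → Finset V → ℝ) (δ K : ℝ) (e : (Finset V → ℝ) → ℝ),
    (∀ U ∈ Λ.powerset, 0 < w U) →
    (∀ g, e g = (∑ U ∈ Λ.powerset, g U * w U) / ∑ U ∈ Λ.powerset, w U) →
    (∀ a x, 0 ≤ N a x) → Chn N B φ δ K → 0 < δ →
    (∀ A : Finset V, (∀ a ∈ A, B a ⊆ Λ) → ∀ Z : Finset V, ∀ f g : Finset V → ℝ,
      (∀ S T, S ⊆ T → T ⊆ Λ → f T ≤ f S) → (∀ S T, S ⊆ T → T ⊆ Λ → g T ≤ g S) →
        e (fun U => f U * om φ A Z U) * e (fun U => g U * om φ A Z U) ≤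
          e (fun U => f U * g U * om φ A Z U) * e (om φ A Z)) →
    ∀ A : Finset V, (∀ a ∈ A, B a ⊆ Λ) →
      (∀ Z, (1 / 4 : ℝ) ^ A.card ≤ e (om φ A Z)) ∧
      (∀ x ∈ Λ, ∀ y ∈ Λ, 0 ≤ QQ e φ A x y) ∧
      ∀ a, a ∉ A → B a ⊆ Λ →
        (∀ x ∈ Λ, ∀ y ∈ Λ, QQ e φ (insert a A) x y ≤ QQ e φ A x y) ∧
        ∀ F : Finset V, F ⊆ Λ →
          δ ^ 2 * (∑ y ∈ F, ∑ z ∈ B a, N a z * QQ e φ A z y) ^ 2 ≤
            ∑ x ∈ F, ∑ y ∈ F, (QQ e φ A x y - QQ e φ (insert a A) x y)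

/-- INF: the infinite volume layer (from CAL, POS as a hypothesis, GKS; helper66).
Proof. For `W` finite and `g` depending only on `U ∩ W` (`Loc W g`) expand `g` in the characters
`chi C`, `C ⊆ W`: `eL (chi C) = (1/2)^|C| * Tf G β Λ C` converges (`tendsto_Tf`), so `eL G β Λ g`
converges; `QQ` is a rational function of such numbers with denominators bounded below (CAL).
Invariance: `eL G β (gΛ) (f ∘ g⁻¹) = eL G β Λ f`. -/
def SpecINF : Prop :=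
  ∀ (Γ V : Type) [Group Γ] [MulAction Γ V] (G : SimpleGraph V) [G.LocallyFinite],
    (∀ (γ : Γ) (x y : V), G.Adj (γ • x) (γ • y) ↔ G.Adj x y) →
    ∀ (β : ℝ) (N : V → V → ℝ) (B : V → Finset V) (m : ℕ) (n ν : ℝ) (φ : V → Finset V → ℝ)
      (δ K X₀ : ℝ), 0 < β → Ker G N B m n ν → Chn N B φ δ K → 0 < δ →
    (∀ g : V ≃ V, IsAut G g → ∀ (a : V) (U : Finset V), φ (g a) (U.image g) = φ a U) →
    (∀ Λ A : Finset V, (∀ a ∈ A, B a ⊆ Λ) → ∀ Z : Finset V, ∀ f g : Finset V → ℝ,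
      (∀ S T, S ⊆ T → T ⊆ Λ → f T ≤ f S) → (∀ S T, S ⊆ T → T ⊆ Λ → g T ≤ g S) →
        eL G β Λ (fun U => f U * om φ A Z U) * eL G β Λ (fun U => g U * om φ A Z U) ≤
          eL G β Λ (fun U => f U * g U * om φ A Z U) * eL G β Λ (om φ A Z)) →
    (∀ (Λ : Finset V) (x : V), ∑ z ∈ Λ, tau G (pr β) Λ x z ≤ X₀) →
    ∃ Q : Finset V → V → V → ℝ, Obs Γ Q N B n (δ ^ 2) (1 + X₀) ∧
      ∀ (A : Finset V) (x y : V),
        Tendsto (fun Λ => QQ (eL G β Λ) φ A x y) atTop (𝓝 (Q A x y))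

/-- KER: the kernel `N = A^m`. `n = d^m`, `ν = r^m`, `r < d` from the isoperimetric inequality
(`Walk.lean`, Cheeger); `N a x` = number of walks of length `m`; `B a` = ball of radius `m`. -/
def SpecKER : Prop :=
  ∀ (d : ℕ) (c R : ℝ), 0 < d → 0 < c → ∃ (m : ℕ) (n ν : ℝ), R * ν ^ 2 ≤ n ^ 2 ∧
    ∀ (V : Type) (G : SimpleGraph V) [G.LocallyFinite], (∀ x, (G.neighborFinset x).card = d) →
    (∀ S : Finset V, c * (S.card : ℝ) ≤ ∑ x ∈ S, ((G.neighborFinset x \ S).card : ℝ)) →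
    ∃ (N : V → V → ℝ) (B : V → Finset V), Ker G N B m n ν

/-- ENH: the library facts used at the end (helper66, `UN/FIN.lean`): `RP.FINM.core` (with
`exists_pos_mag` of `Final.lean`: `β_c < ∞`, so `β ≤ b₁`), `RP.specSHA`, `RP.specPSS`, `specUni`, `specOrb`,
`NU.specNUN` in the nonunimodular case, give the frozen S19447 from `SpecKEY`. -/
def SpecENH : Prop :=
  ∀ (Γ V : Type) [Group Γ] [MulAction Γ V] (G : SimpleGraph V) [G.LocallyFinite], G.Connected →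
    (∀ (γ : Γ) (x y : V), G.Adj (γ • x) (γ • y) ↔ G.Adj x y) → (∀ x y : V, ∃ γ : Γ, γ • x = y) →
    MTP Γ V → ∀ c : ℝ, 0 < c →
    (∀ S : Finset V, c * (S.card : ℝ) ≤ ∑ x ∈ S, ((G.neighborFinset x \ S).card : ℝ)) →
    ∀ o : V, ∃ βc b C : ℝ, 0 < βc ∧ βc < b ∧
      (∀ β : ℝ, 0 < β → β < βc → tp G β {o} = 0) ∧
      (∀ β : ℝ, βc < β → 0 < tp G β {o}) ∧
      ∀ β : ℝ, 0 ≤ β → β ≤ b → ∀ Λ : Finset V, AHP.OB 2 (tau G (pr β) Λ) C

/-- KEY: theorem U (from POS, INF, CHL, KER, `schur`).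
Proof. `n² ≥ 1000 ν²` (KER), `K₀` from POS for `b₀, b₁`. Let `κ` be the supremum of
`∑∑ f x f y ch x y` over all finite `Λ`, `f ≥ 0` on `Y ⊆ Λ`, `∑ f² ≤ 1` (finite: Schur and the
susceptibility). Positive semidefiniteness (`∑∑ f f ch = eL ((∑ f chi)²)`) and Cauchy-Schwarz:
`∑_{z ∈ Λ} (∑ ch z y f y)² ≤ κ² ∑ f²`. Suppose `κ` is larger than a constant (depending on `K₀`, `n`, `ν`
only) such that `δ² := 1/(88 ν² κ)` satisfies `100 δ² ≤ K₀`, `8 δ n ≤ 1`, `100 δ² ν² ≤ 1`. Choose `Λ₀`, `f`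
with `∑∑ f f ch_{Λ₀} ≥ (3/4) κ`; `ch` increases with `Λ` (GKS), so by CHL for all `A` and large `Λ`:
`∑∑ f f QQ ≥ (3/4) κ - 22 δ² ν² κ² = κ/2`. In the limit the same for `Q A`; `schur` gives
`κ/2 ≤ 4/(δ² n²) + ε = 352 ν² κ / n² + ε ≤ 0.352 κ + ε`: contradiction. So `κ ≤ const`, and
`tau G (pr β) Λ x y ≤ 4 ch x y` gives `OB 2`. -/
def SpecKEY : Prop :=
  ∀ (Γ V : Type) [Group Γ] [MulAction Γ V] (G : SimpleGraph V) [G.LocallyFinite], G.Connected →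
    (∀ (γ : Γ) (x y : V), G.Adj (γ • x) (γ • y) ↔ G.Adj x y) → (∀ x y : V, ∃ γ : Γ, γ • x = y) →
    MTP Γ V → ∀ c : ℝ, 0 < c →
    (∀ S : Finset V, c * (S.card : ℝ) ≤ ∑ x ∈ S, ((G.neighborFinset x \ S).card : ℝ)) →
    ∀ b₀ b₁ : ℝ, 0 < b₀ → b₀ ≤ b₁ → ∃ C : ℝ, 0 < C ∧ ∀ β : ℝ, b₀ ≤ β → β ≤ b₁ →
      (∃ X : ℝ, ∀ (Λ : Finset V) (x : V), ∑ z ∈ Λ, tau G (pr β) Λ x z ≤ X) →
      ∀ Λ : Finset V, AHP.OB 2 (tau G (pr β) Λ) C

end UN

end MP8622
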