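import Pool.Agent.Lib.MP_8622f1_pr.UN.Spec

set_option autoImplicit false

open Classical Filter Topology

/-!
# CAL: the calculus of the channels (helper43)
-/

namespace MP8622

namespace UN

namespace CALM

variable {V : Type}

theorem chi_sq (x : V) (Z : Finset V) : chi {x} Z = 1 ∨ chi {x} Z = -1 := by
  unfold chi
  exact neg_one_pow_eq_or ℝ _

theorem chi_insert_ne {a b : V} (h : a ≠ b) (Z : Finset V) :
    chi {a} (insert b Z) = chi {a} Z := by
  unfold chi
  congr 2
  ext z
  simp only [Finset.mem_inter, Finset.mem_singleton, Finset.mem_insert]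
  constructor
  · rintro ⟨h1, h2⟩
    refine ⟨h1, ?_⟩
    rcases h2 with h2 | h2
    · exact absurd (h1.symm.trans h2) h
    · exact h2
  · rintro ⟨h1, h2⟩
    exact ⟨h1, Or.inr h2⟩

theorem chi_not_mem {a : V} {Z : Finset V} (h : a ∉ Z) : chi {a} Z = 1 := by
  unfold chi
  have : ({a} : Finset V) ∩ Z = ∅ := by
    ext z
    simp only [Finset.mem_inter, Finset.mem_singleton, Finset.notMem_empty, iff_false, not_and]
    rintro rfl
    exact h
  rw [this]
  simp

theorem chi_mem {a : V} {Z : Finset V} (h : a ∈ Z) : chi {a} Z = -1 := by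
  unfold chi
  have : ({a} : Finset V) ∩ Z = {a} := by
    ext z
    simp only [Finset.mem_inter, Finset.mem_singleton, and_iff_left_iff_imp]
    rintro rfl
    exact h
  rw [this]
  simp

theorem chi_anti (x : V) {S T : Finset V} (h : S ⊆ T) : chi {x} T ≤ chi {x} S := by
  by_cases hT : x ∈ T
  · rw [chi_mem hT]
    rcases chi_sq x S with h1 | h1
    · rw [h1]; norm_num
    · rw [h1]
  · rw [chi_not_mem hT, chi_not_mem fun hx => hT (h hx)]

theorem om_insert (φ : V → Finset V → ℝ) {A Z : Finset V} {a : V} (ha : a ∉ A) (hZ : Z ⊆ A)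
    (U : Finset V) : om φ (insert a A) Z U = (1 + φ a U) / 2 * om φ A Z U := by
  unfold om
  rw [Finset.prod_insert ha, chi_not_mem fun h => ha (hZ h), one_mul]

theorem om_insert' (φ : V → Finset V → ℝ) {A Z : Finset V} {a : V} (ha : a ∉ A)
    (U : Finset V) : om φ (insert a A) (insert a Z) U = (1 - φ a U) / 2 * om φ A Z U := by
  unfold om
  rw [Finset.prod_insert ha, chi_mem (Finset.mem_insert_self a Z)]
  congr 1
  · ring
  · refine Finset.prod_congr rfl fun b hb => ?_
    rw [chi_insert_ne]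
    rintro rfl
    exact ha hb

theorem om_pos {φ : V → Finset V → ℝ} (hφ : ∀ a U, |φ a U| ≤ 1 / 2) (A Z U : Finset V) :
    0 < om φ A Z U := by
  unfold om
  refine Finset.prod_pos fun b _ => ?_
  have := abs_le.mp (hφ b U)
  rcases chi_sq b Z with h | h <;> rw [h] <;> linarith

theorem sum_insert_powerset {A : Finset V} {a : V} (ha : a ∉ A) (f : Finset V → ℝ) :
    ∑ Z ∈ (insert a A).powerset, f Z = ∑ Z ∈ A.powerset, (f Z + f (insert a Z)) := by
  rw [Finset.sum_powerset_insert ha, Finset.sum_add_distrib]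

/-- `Σ_Z om = 1` -/
theorem sum_om (φ : V → Finset V → ℝ) (A U : Finset V) : ∑ Z ∈ A.powerset, om φ A Z U = 1 := by
  induction A using Finset.induction_on with
  | empty => simp [om]
  | insert a A ha ih =>
    rw [sum_insert_powerset ha, ← ih]
    refine Finset.sum_congr rfl fun Z hZ => ?_
    rw [om_insert φ ha (Finset.mem_powerset.mp hZ), om_insert' φ ha]
    ring

/-- a positive linear functional -/
structure Lin (e : (Finset V → ℝ) → ℝ) : Prop where
  add : ∀ f g : Finset V → ℝ, e (fun U => f U + g U) = e f + e g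
  smul : ∀ (c : ℝ) (f : Finset V → ℝ), e (fun U => c * f U) = c * e f

variable {e : (Finset V → ℝ) → ℝ}

theorem Lin.sub (h : Lin e) (f g : Finset V → ℝ) : e (fun U => f U - g U) = e f - e g := by
  have h1 := h.add f (fun U => (-1) * g U)
  rw [h.smul] at h1
  have h2 : (fun U => f U - g U) = fun U => f U + (-1) * g U := by
    funext U
    ring
  rw [h2, h1]
  ring

theorem Lin.zero (h : Lin e) : e (fun _ => 0) = 0 := by
  have := h.smul 0 (fun _ => 0)
  simpa using this

theorem Lin.sum (h : Lin e) {ι : Type} (s : Finset ι) (f : ι → Finset V → ℝ) :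
    e (fun U => ∑ i ∈ s, f i U) = ∑ i ∈ s, e (f i) := by
  induction s using Finset.induction_on with
  | empty => simpa using h.zero
  | insert i s hi ih =>
    rw [Finset.sum_insert hi, ← ih, ← h.add]
    congr 1
    funext U
    rw [Finset.sum_insert hi]

/-- covariance for the outcome `Z` (not normalised twice: `c = e(fgω)/p - e(fω)e(gω)/p²`) -/
noncomputable def cv (e : (Finset V → ℝ) → ℝ) (φ : V → Finset V → ℝ) (A Z : Finset V)
    (f g : Finset V → ℝ) : ℝ :=
  e (fun U => f U * g U * om φ A Z U) / e (om φ A Z) -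
    e (fun U => f U * om φ A Z U) / e (om φ A Z) * (e (fun U => g U * om φ A Z U) / e (om φ A Z))

theorem cv_comm (φ : V → Finset V → ℝ) (A Z : Finset V) (f g : Finset V → ℝ) :
    cv e φ A Z f g = cv e φ A Z g f := by
  unfold cv
  rw [mul_comm (e (fun U => f U * om φ A Z U) / e (om φ A Z))]
  congr 3
  funext U
  ring

theorem cv_add_left (h : Lin e) (φ : V → Finset V → ℝ) (A Z : Finset V) (f f' g : Finset V → ℝ) :
    cv e φ A Z (fun U => f U + f' U) g = cv e φ A Z f g + cv e φ A Z f' g := by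
  unfold cv
  have h1 : e (fun U => (f U + f' U) * g U * om φ A Z U) =
      e (fun U => f U * g U * om φ A Z U) + e (fun U => f' U * g U * om φ A Z U) := by
    rw [← h.add]
    congr 1
    funext U
    ring
  have h2 : e (fun U => (f U + f' U) * om φ A Z U) =
      e (fun U => f U * om φ A Z U) + e (fun U => f' U * om φ A Z U) := by
    rw [← h.add]
    congr 1
    funext U
    ring
  rw [h1, h2]
  ring

theorem cv_smul_left (h : Lin e) (φ : V → Finset V → ℝ) (A Z : Finset V) (c : ℝ)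
    (f g : Finset V → ℝ) :
    cv e φ A Z (fun U => c * f U) g = c * cv e φ A Z f g := by
  unfold cv
  have h1 : e (fun U => c * f U * g U * om φ A Z U) = c * e (fun U => f U * g U * om φ A Z U) := by
    rw [← h.smul]
    congr 1
    funext U
    ring
  have h2 : e (fun U => c * f U * om φ A Z U) = c * e (fun U => f U * om φ A Z U) := by
    rw [← h.smul]
    congr 1
    funext U
    ring
  rw [h1, h2]
  ring

theorem cv_sum_left (h : Lin e) (φ : V → Finset V → ℝ) (A Z : Finset V) {ι : Type} (s : Finset ι)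
    (f : ι → Finset V → ℝ) (g : Finset V → ℝ) :
    cv e φ A Z (fun U => ∑ i ∈ s, f i U) g = ∑ i ∈ s, cv e φ A Z (f i) g := by
  induction s using Finset.induction_on with
  | empty =>
    have := cv_smul_left h φ A Z 0 (fun _ => 0) g
    simpa using this
  | insert i s hi ih =>
    rw [Finset.sum_insert hi, ← ih, ← cv_add_left h]
    congr 1
    funext U
    rw [Finset.sum_insert hi]

/-- averaged covariance as a sum of covariances -/
theorem QQ_eq (h : Lin e) (φ : V → Finset V → ℝ) (A : Finset V)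
    (hp : ∀ Z ∈ A.powerset, 0 < e (om φ A Z)) (x y : V) :
    QQ e φ A x y = ∑ Z ∈ A.powerset, e (om φ A Z) * cv e φ A Z (chi {x}) (chi {y}) := by
  unfold QQ
  have h1 : e (fun U => chi {x} U * chi {y} U) =
      ∑ Z ∈ A.powerset, e (fun U => chi {x} U * chi {y} U * om φ A Z U) := by
    rw [← h.sum]
    congr 1
    funext U
    rw [← Finset.mul_sum, sum_om, mul_one]
  rw [h1, ← Finset.sum_sub_distrib]
  refine Finset.sum_congr rfl fun Z hZ => ?_
  have h0 := (hp Z hZ).ne'
  unfold cv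
  field_simp

/-- one more block, one outcome -/
theorem one_term (h : Lin e) (φ : V → Finset V → ℝ) {A Z : Finset V} {a : V} (ha : a ∉ A)
    (hZ : Z ⊆ A) (h1 : 0 < e (om φ (insert a A) Z))
    (h2 : 0 < e (om φ (insert a A) (insert a Z))) (f g : Finset V → ℝ) :
    e (fun U => f U * om φ (insert a A) Z U) * e (fun U => g U * om φ (insert a A) Z U) /
          e (om φ (insert a A) Z) +
        e (fun U => f U * om φ (insert a A) (insert a Z) U) *
          e (fun U => g U * om φ (insert a A) (insert a Z) U) /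
          e (om φ (insert a A) (insert a Z)) -
        e (fun U => f U * om φ A Z U) * e (fun U => g U * om φ A Z U) / e (om φ A Z) =
      e (om φ A Z) * (cv e φ A Z f (φ a) * cv e φ A Z g (φ a) /
        (1 - (e (fun U => φ a U * om φ A Z U) / e (om φ A Z)) ^ 2)) := by
  have key : ∀ k : Finset V → ℝ, e (fun U => k U * om φ (insert a A) Z U) =
      (e (fun U => k U * om φ A Z U) + e (fun U => k U * φ a U * om φ A Z U)) / 2 := by
    intro k
    have : (fun U => k U * om φ (insert a A) Z U) =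
        fun U => 1 / 2 * (k U * om φ A Z U + k U * φ a U * om φ A Z U) := by
      funext U
      rw [om_insert φ ha hZ]
      ring
    rw [this, h.smul, h.add]
    ring
  have key' : ∀ k : Finset V → ℝ, e (fun U => k U * om φ (insert a A) (insert a Z) U) =
      (e (fun U => k U * om φ A Z U) - e (fun U => k U * φ a U * om φ A Z U)) / 2 := by
    intro k
    have : (fun U => k U * om φ (insert a A) (insert a Z) U) =
        fun U => 1 / 2 * (k U * om φ A Z U - k U * φ a U * om φ A Z U) := by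
      funext U
      rw [om_insert' φ ha]
      ring
    rw [this, h.smul, h.sub]
    ring
  have k1 : e (om φ (insert a A) Z) =
      (e (om φ A Z) + e (fun U => φ a U * om φ A Z U)) / 2 := by
    have := key (fun _ => 1)
    simpa using this
  have k2 : e (om φ (insert a A) (insert a Z)) =
      (e (om φ A Z) - e (fun U => φ a U * om φ A Z U)) / 2 := by
    have := key' (fun _ => 1)
    simpa using this
  rw [k1] at h1
  rw [k2] at h2
  rw [key, key, key', key', k1, k2]
  unfold cv
  set p := e (om φ A Z) with hp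
  set F := e (fun U => φ a U * om φ A Z U) with hF
  set X := e (fun U => f U * om φ A Z U)
  set Y := e (fun U => g U * om φ A Z U)
  set XF := e (fun U => f U * φ a U * om φ A Z U)
  set YF := e (fun U => g U * φ a U * om φ A Z U)
  have hp0 : 0 < p := by linarith
  have e1 : p + F ≠ 0 := by
    intro h0
    rw [h0] at h1
    norm_num at h1
  have e2 : p - F ≠ 0 := by
    intro h0
    rw [h0] at h2
    norm_num at h2
  have e3 : 1 - (F / p) ^ 2 = (p + F) * (p - F) / p ^ 2 := by
    field_simp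
    ring
  rw [e3]
  have hp1 := hp0.ne'
  field_simp
  ring

/-- one more block -/
theorem QQ_insert (h : Lin e) (φ : V → Finset V → ℝ) {A : Finset V} {a : V} (ha : a ∉ A)
    (hp : ∀ Z ∈ (insert a A).powerset, 0 < e (om φ (insert a A) Z)) (x y : V) :
    QQ e φ A x y - QQ e φ (insert a A) x y = ∑ Z ∈ A.powerset, e (om φ A Z) *
      (cv e φ A Z (chi {x}) (φ a) * cv e φ A Z (chi {y}) (φ a) /
        (1 - (e (fun U => φ a U * om φ A Z U) / e (om φ A Z)) ^ 2)) := by
  unfold QQ
  rw [sum_insert_powerset ha]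
  have : ∀ a b c : ℝ, a - b - (a - c) = c - b := fun a b c => by ring
  rw [this, ← Finset.sum_sub_distrib]
  refine Finset.sum_congr rfl fun Z hZ => ?_
  have hZ' := Finset.mem_powerset.mp hZ
  rw [← one_term h φ ha hZ']
  · exact hp Z (Finset.mem_powerset.mpr (hZ'.trans (Finset.subset_insert _ _)))
  · exact hp _ (Finset.mem_powerset.mpr (Finset.insert_subset_insert _ hZ'))

/-- `p_Z` before and after -/
theorem pos_of_insert (h : Lin e) (φ : V → Finset V → ℝ) {A Z : Finset V} {a : V} (ha : a ∉ A)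
    (hZ : Z ⊆ A) (hp : ∀ Z ∈ (insert a A).powerset, 0 < e (om φ (insert a A) Z)) :
    0 < e (om φ A Z) ∧
      (e (fun U => φ a U * om φ A Z U) / e (om φ A Z)) ^ 2 < 1 := by
  have h1 := hp Z (Finset.mem_powerset.mpr (hZ.trans (Finset.subset_insert _ _)))
  have h2 := hp _ (Finset.mem_powerset.mpr (Finset.insert_subset_insert a hZ))
  have k1 : e (om φ (insert a A) Z) =
      (e (om φ A Z) + e (fun U => φ a U * om φ A Z U)) / 2 := by
    have : (om φ (insert a A) Z) =
        fun U => 1 / 2 * (om φ A Z U + φ a U * om φ A Z U) := by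
      funext U
      rw [om_insert φ ha hZ]
      ring
    rw [this, h.smul, h.add]
    ring
  have k2 : e (om φ (insert a A) (insert a Z)) =
      (e (om φ A Z) - e (fun U => φ a U * om φ A Z U)) / 2 := by
    have : (om φ (insert a A) (insert a Z)) =
        fun U => 1 / 2 * (om φ A Z U - φ a U * om φ A Z U) := by
      funext U
      rw [om_insert' φ ha]
      ring
    rw [this, h.smul, h.sub]
    ring
  rw [k1] at h1
  rw [k2] at h2
  have hp0 : 0 < e (om φ A Z) := by linarith
  refine ⟨hp0, ?_⟩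
  rw [div_pow, div_lt_one (by positivity)]
  nlinarith

/-- the sum over a finite set of vertices -/
theorem jj (h : Lin e) (φ : V → Finset V → ℝ) {N : V → V → ℝ} {B : V → Finset V} {δ K : ℝ}
    (hN : ∀ a x, 0 ≤ N a x) (hC : Chn N B φ δ K) (hδ : 0 ≤ δ) (h1 : e (fun _ => 1) = 1)
    {A : Finset V} {a : V} (ha : a ∉ A)
    (hp : ∀ Z ∈ (insert a A).powerset, 0 < e (om φ (insert a A) Z))
    (hF : ∀ Z ∈ A.powerset, ∀ f g : Finset V → ℝ, (∀ S T, S ⊆ T → f T ≤ f S) →
      (∀ S T, S ⊆ T → g T ≤ g S) → 0 ≤ cv e φ A Z f g) (F : Finset V) :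
    δ ^ 2 * (∑ y ∈ F, ∑ z ∈ B a, N a z * QQ e φ A z y) ^ 2 ≤
      ∑ x ∈ F, ∑ y ∈ F, (QQ e φ A x y - QQ e φ (insert a A) x y) := by
  have hpA : ∀ Z ∈ A.powerset, 0 < e (om φ A Z) := fun Z hZ =>
    (pos_of_insert h φ ha (Finset.mem_powerset.mp hZ) hp).1
  have hlt : ∀ Z ∈ A.powerset, (e (fun U => φ a U * om φ A Z U) / e (om φ A Z)) ^ 2 < 1 :=
    fun Z hZ => (pos_of_insert h φ ha (Finset.mem_powerset.mp hZ) hp).2
  -- right hand side
  have hR : ∑ x ∈ F, ∑ y ∈ F, (QQ e φ A x y - QQ e φ (insert a A) x y) =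
      ∑ Z ∈ A.powerset, e (om φ A Z) * ((∑ y ∈ F, cv e φ A Z (chi {y}) (φ a)) ^ 2 /
        (1 - (e (fun U => φ a U * om φ A Z U) / e (om φ A Z)) ^ 2)) := by
    have : ∀ x ∈ F, ∀ y ∈ F, QQ e φ A x y - QQ e φ (insert a A) x y =
        ∑ Z ∈ A.powerset, e (om φ A Z) *
      (cv e φ A Z (chi {x}) (φ a) * cv e φ A Z (chi {y}) (φ a) /
        (1 - (e (fun U => φ a U * om φ A Z U) / e (om φ A Z)) ^ 2)) :=
      fun x _ y _ => QQ_insert h φ ha hp x y
    rw [Finset.sum_congr rfl fun x hx => Finset.sum_congr rfl fun y hy => this x hx y hy]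
    rw [Finset.sum_congr rfl fun x _ => Finset.sum_comm, Finset.sum_comm]
    refine Finset.sum_congr rfl fun Z _ => ?_
    rw [sq (∑ y ∈ F, cv e φ A Z (chi {y}) (φ a)), Finset.sum_mul_sum, Finset.sum_div, Finset.mul_sum]
    refine Finset.sum_congr rfl fun x _ => ?_
    rw [Finset.sum_div, Finset.mul_sum]
  -- left hand side
  have hL : ∑ y ∈ F, ∑ z ∈ B a, N a z * QQ e φ A z y =
      ∑ Z ∈ A.powerset, e (om φ A Z) * ∑ y ∈ F, cv e φ A Z (chi {y}) (bs N B a) := by
    have h2 : ∀ y z, N a z * QQ e φ A z y =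
        ∑ Z ∈ A.powerset, e (om φ A Z) * (N a z * cv e φ A Z (chi {z}) (chi {y})) := by
      intro y z
      rw [QQ_eq h φ A hpA, Finset.mul_sum]
      exact Finset.sum_congr rfl fun Z _ => by ring
    have h3 : ∀ Z y, cv e φ A Z (chi {y}) (bs N B a) =
        ∑ z ∈ B a, N a z * cv e φ A Z (chi {z}) (chi {y}) := by
      intro Z y
      rw [cv_comm]
      have : (bs N B a) = fun U => ∑ x ∈ B a, (fun x U => N a x * chi {x} U) x U := rfl
      rw [this, cv_sum_left h]
      exact Finset.sum_congr rfl fun z _ => cv_smul_left h φ A Z _ _ _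
    simp_rw [h2, h3]
    rw [Finset.sum_congr rfl fun y _ => Finset.sum_comm, Finset.sum_comm]
    refine Finset.sum_congr rfl fun Z _ => ?_
    rw [Finset.mul_sum]
    exact Finset.sum_congr rfl fun y _ => by rw [Finset.mul_sum]
  have hchi : ∀ y : V, ∀ S T : Finset V, S ⊆ T → chi {y} T ≤ chi {y} S :=
    fun y S T hST => chi_anti y hST
  have hb : ∀ S T : Finset V, S ⊆ T → bs N B a T ≤ bs N B a S := fun S T hST =>
    Finset.sum_le_sum fun x _ => mul_le_mul_of_nonneg_left (chi_anti x hST) (hN a x)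
  -- comparison of the covariances
  have hc : ∀ Z ∈ A.powerset, ∀ y : V, δ * cv e φ A Z (chi {y}) (bs N B a) ≤
      cv e φ A Z (chi {y}) (φ a) := by
    intro Z hZ y
    have h4 := hF Z hZ (fun U => φ a U - δ * bs N B a U) (chi {y}) (hC.mon a) (hchi y)
    have h5 : (fun U => φ a U - δ * bs N B a U) = fun U => φ a U + (-δ) * bs N B a U := by
      funext U
      ring
    rw [h5, cv_add_left h φ A Z (φ a) (fun U => (-δ) * bs N B a U) (chi {y}),
      cv_smul_left h] at h4
    rw [cv_comm φ A Z (chi {y}), cv_comm φ A Z (chi {y}) (φ a)]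
    linarith
  have hpos : ∀ Z ∈ A.powerset, ∀ y : V, 0 ≤ cv e φ A Z (chi {y}) (bs N B a) :=
    fun Z hZ y => hF Z hZ _ _ (hchi y) hb
  rw [hL, hR]
  set D : Finset V → ℝ := fun Z => ∑ y ∈ F, cv e φ A Z (chi {y}) (bs N B a) with hD
  set E : Finset V → ℝ := fun Z => ∑ y ∈ F, cv e φ A Z (chi {y}) (φ a) with hE
  have hDE : ∀ Z ∈ A.powerset, δ * D Z ≤ E Z := by
    intro Z hZ
    rw [hD, hE]
    simp only
    rw [Finset.mul_sum]
    exact Finset.sum_le_sum fun y _ => hc Z hZ y
  have hD0 : ∀ Z ∈ A.powerset, 0 ≤ D Z := fun Z hZ => Finset.sum_nonneg fun y _ => hpos Z hZ y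
  have hsum : ∑ Z ∈ A.powerset, e (om φ A Z) = 1 := by
    rw [← h.sum, ← h1]
    congr 1
    funext U
    exact sum_om φ A U
  -- Jensen
  have hJ : (∑ Z ∈ A.powerset, e (om φ A Z) * (δ * D Z)) ^ 2 ≤
      ∑ Z ∈ A.powerset, e (om φ A Z) * (δ * D Z) ^ 2 := by
    have := Finset.sum_mul_sq_le_sq_mul_sq A.powerset (fun Z => Real.sqrt (e (om φ A Z)))
      (fun Z => Real.sqrt (e (om φ A Z)) * (δ * D Z))
    have t1 : ∀ Z ∈ A.powerset, Real.sqrt (e (om φ A Z)) * (Real.sqrt (e (om φ A Z)) * (δ * D Z)) =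
        e (om φ A Z) * (δ * D Z) := fun Z hZ => by
      rw [← mul_assoc, Real.mul_self_sqrt (hpA Z hZ).le]
    have t2 : ∀ Z ∈ A.powerset, Real.sqrt (e (om φ A Z)) ^ 2 = e (om φ A Z) := fun Z hZ =>
      Real.sq_sqrt (hpA Z hZ).le
    have t3 : ∀ Z ∈ A.powerset, (Real.sqrt (e (om φ A Z)) * (δ * D Z)) ^ 2 =
        e (om φ A Z) * (δ * D Z) ^ 2 := fun Z hZ => by
      rw [mul_pow, t2 Z hZ]
    rw [Finset.sum_congr rfl t1, Finset.sum_congr rfl t2, Finset.sum_congr rfl t3, hsum,
      one_mul] at this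
    exact this
  calc δ ^ 2 * (∑ Z ∈ A.powerset, e (om φ A Z) * D Z) ^ 2
      = (∑ Z ∈ A.powerset, e (om φ A Z) * (δ * D Z)) ^ 2 := by
        rw [← mul_pow, Finset.mul_sum]
        congr 1
        exact Finset.sum_congr rfl fun Z _ => by ring
    _ ≤ ∑ Z ∈ A.powerset, e (om φ A Z) * (δ * D Z) ^ 2 := hJ
    _ ≤ ∑ Z ∈ A.powerset, e (om φ A Z) * (E Z ^ 2 /
        (1 - (e (fun U => φ a U * om φ A Z U) / e (om φ A Z)) ^ 2)) := by
        refine Finset.sum_le_sum fun Z hZ => mul_le_mul_of_nonneg_left ?_ (hpA Z hZ).le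
        have h6 := hlt Z hZ
        have h7 : (δ * D Z) ^ 2 ≤ E Z ^ 2 :=
          pow_le_pow_left₀ (mul_nonneg hδ (hD0 Z hZ)) (hDE Z hZ) 2
        rw [le_div_iff₀ (by linarith)]
        have h8 : 0 ≤ (e (fun U => φ a U * om φ A Z U) / e (om φ A Z)) ^ 2 := sq_nonneg _
        nlinarith [sq_nonneg (δ * D Z)]

theorem lin_of_weight {w : Finset V → ℝ} {Λ : Finset V} {e : (Finset V → ℝ) → ℝ}
    (he : ∀ g, e g = (∑ U ∈ Λ.powerset, g U * w U) / ∑ U ∈ Λ.powerset, w U) : Lin e where
  add f g := by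
    rw [he, he f, he g, ← add_div, ← Finset.sum_add_distrib]
    congr 1
    exact Finset.sum_congr rfl fun U _ => by ring
  smul c f := by
    rw [he, he f, ← mul_div_assoc, Finset.mul_sum]
    congr 1
    exact Finset.sum_congr rfl fun U _ => by ring

theorem le_e {w : Finset V → ℝ} {Λ : Finset V} {e : (Finset V → ℝ) → ℝ}
    (hw : ∀ U ∈ Λ.powerset, 0 < w U)
    (he : ∀ g, e g = (∑ U ∈ Λ.powerset, g U * w U) / ∑ U ∈ Λ.powerset, w U) {c : ℝ}
    {g : Finset V → ℝ} (hg : ∀ U, c ≤ g U) : c ≤ e g := by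
  have hW : 0 < ∑ U ∈ Λ.powerset, w U :=
    Finset.sum_pos hw ⟨∅, Finset.mem_powerset.mpr (Finset.empty_subset _)⟩
  rw [he, le_div_iff₀ hW, Finset.mul_sum]
  exact Finset.sum_le_sum fun U hU => mul_le_mul_of_nonneg_right (hg U) (hw U hU).le

theorem om_ge {φ : V → Finset V → ℝ} (hφ : ∀ a U, |φ a U| ≤ 1 / 2) (A Z U : Finset V) :
    (1 / 4 : ℝ) ^ A.card ≤ om φ A Z U := by
  unfold om
  rw [← Finset.prod_const]
  refine Finset.prod_le_prod (fun _ _ => by norm_num) fun b _ => ?_
  have := abs_le.mp (hφ b U)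
  rcases chi_sq b Z with h | h <;> rw [h] <;> linarith

end CALM

open CALM in
theorem specCAL : SpecCAL := by
  intro V w Λ N B φ δ K e hw he hN hC hδ hFKG A hA
  have hlin : Lin e := lin_of_weight he
  have hom : ∀ A Z : Finset V, (1 / 4 : ℝ) ^ A.card ≤ e (om φ A Z) := fun A Z =>
    le_e hw he (om_ge hC.bnd A Z)
  have hpos : ∀ A Z : Finset V, 0 < e (om φ A Z) := fun A Z =>
    lt_of_lt_of_le (by positivity) (hom A Z)
  have h1 : e (fun _ => 1) = 1 := by
    have hW : 0 < ∑ U ∈ Λ.powerset, w U :=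
      Finset.sum_pos hw ⟨∅, Finset.mem_powerset.mpr (Finset.empty_subset _)⟩
    rw [he]
    simp only [one_mul]
    exact div_self hW.ne'
  have hF : ∀ Z : Finset V, ∀ f g : Finset V → ℝ, (∀ S T, S ⊆ T → f T ≤ f S) →
      (∀ S T, S ⊆ T → g T ≤ g S) → 0 ≤ cv e φ A Z f g := by
    intro Z f g hf hg
    have h2 := hFKG A hA Z f g (fun S T h _ => hf S T h) (fun S T h _ => hg S T h)
    have h3 := hpos A Z
    unfold cv
    rw [div_mul_div_comm, sub_nonneg, div_le_div_iff₀ (by positivity) h3]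
    nlinarith
  refine ⟨hom A, fun x _ y _ => ?_, fun a ha hB => ⟨fun x _ y _ => ?_, fun F _ => ?_⟩⟩
  · rw [QQ_eq hlin φ A fun Z _ => hpos A Z]
    exact Finset.sum_nonneg fun Z _ => mul_nonneg (hpos A Z).le
      (hF Z _ _ (fun S T h => chi_anti x h) fun S T h => chi_anti y h)
  · rw [← sub_nonneg, QQ_insert hlin φ ha fun Z _ => hpos _ Z]
    have hφ : ∀ S T : Finset V, S ⊆ T → φ a T ≤ φ a S := by
      intro S T hST
      have h4 := hC.mon a S T hST
      have h5 : bs N B a T ≤ bs N B a S :=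
        Finset.sum_le_sum fun x _ => mul_le_mul_of_nonneg_left (chi_anti x hST) (hN a x)
      nlinarith
    refine Finset.sum_nonneg fun Z hZ => mul_nonneg (hpos A Z).le (div_nonneg (mul_nonneg ?_ ?_) ?_)
    · exact hF Z _ _ (fun S T h => chi_anti x h) hφ
    · exact hF Z _ _ (fun S T h => chi_anti y h) hφ
    · have := (pos_of_insert hlin φ ha (Finset.mem_powerset.mp hZ) fun Z _ => hpos _ Z).2
      linarith
  · exact jj hlin φ hN hC hδ.le h1 ha (fun Z _ => hpos _ Z) (fun Z _ => hF Z) F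

end UN

end MP8622
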