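import Pool.Agent.Lib.MP_8622f1_pr.UN.Spec
import Pool.Agent.Lib.MP_8622f1_pr.Mtpc
import Pool.Agent.Lib.MP_8622f1_pr.NU.FLD

set_option autoImplicit false

open Classical Filter Topology

/-!
# MP_8622f1_pr, unimodular case: infinite volume limit of the pendant spins (helper66)
-/

namespace MP8622

namespace UN

namespace INFM

variable {V : Type}

/-! ### finite volume: characters -/

theorem chi_insert' {K : Finset V} {x : V} (hx : x ∉ K) (U : Finset V) :
    chi (insert x K) U = chi {x} U * chi K U := by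
  rw [chi_eq_prod, chi_eq_prod, chi_eq_prod, Finset.prod_insert hx, Finset.prod_singleton]

theorem chi_prod (K U : Finset V) : chi K U = ∏ x ∈ K, chi {x} U := by
  rw [chi_eq_prod]
  refine Finset.prod_congr rfl fun x _ => ?_
  rw [chi_eq_prod, Finset.prod_singleton]

theorem sum_prod_powerset (Λ : Finset V) (a b : V → ℝ) :
    ∑ U ∈ Λ.powerset, ∏ x ∈ Λ, (if x ∈ U then a x else b x) = ∏ x ∈ Λ, (a x + b x) := by
  rw [Finset.prod_add]
  refine Finset.sum_congr rfl fun U hU => ?_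
  rw [Finset.mem_powerset] at hU
  rw [Finset.prod_ite]
  congr 1
  · refine Finset.prod_congr ?_ fun _ _ => rfl
    ext x
    simp only [Finset.mem_filter]
    exact ⟨fun h => h.2, fun h => ⟨hU h, h⟩⟩
  · refine Finset.prod_congr ?_ fun _ _ => rfl
    ext x
    simp [Finset.mem_sdiff]

/-- the characters and the pendant weight -/
theorem sum_chi_pw (P : Sym2 V → ℝ) (E : Finset (Sym2 V)) {Λ K : Finset V} (hK : K ⊆ Λ) :
    ∑ U ∈ Λ.powerset, chi K U * pw P E Λ U =
      2 ^ (Λ.card - K.card) * ∑ S ∈ Λ.powerset, chi K S * sw P E S := by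
  have key : ∀ S : Finset V, ∑ U ∈ Λ.powerset,
      chi K U * ∏ x ∈ Λ, (1 + 1 / 2 * (chi {x} S * chi {x} U)) =
        2 ^ (Λ.card - K.card) * chi K S := by
    intro S
    have h1 : ∀ U ∈ Λ.powerset, chi K U * ∏ x ∈ Λ, (1 + 1 / 2 * (chi {x} S * chi {x} U)) =
        ∏ x ∈ Λ, (if x ∈ U then (if x ∈ K then (-1 : ℝ) else 1) * (1 - 1 / 2 * chi {x} S)
          else 1 + 1 / 2 * chi {x} S) := by
      intro U _
      have h2 : chi K U = ∏ x ∈ Λ, (if x ∈ K then chi {x} U else 1) := by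
        rw [Finset.prod_ite, Finset.prod_const_one, mul_one, chi_prod]
        refine Finset.prod_congr ?_ fun _ _ => rfl
        ext x
        simp only [Finset.mem_filter]
        exact ⟨fun h => ⟨hK h, h⟩, fun h => h.2⟩
      rw [h2, ← Finset.prod_mul_distrib]
      refine Finset.prod_congr rfl fun x _ => ?_
      rw [SlM.chi_single x U]
      by_cases hxU : x ∈ U
      · simp only [hxU, if_true]
        by_cases hxK : x ∈ K
        · simp only [hxK, if_true]; ring
        · simp only [hxK, if_false]; ring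
      · simp only [hxU, if_false, mul_one, ite_self, one_mul]
    rw [Finset.sum_congr rfl h1, sum_prod_powerset]
    have h3 : ∀ x ∈ Λ, ((if x ∈ K then (-1 : ℝ) else 1) * (1 - 1 / 2 * chi {x} S) +
        (1 + 1 / 2 * chi {x} S)) = if x ∈ K then chi {x} S else 2 := by
      intro x _
      by_cases hxK : x ∈ K
      · simp only [hxK, if_true]; ring
      · simp only [hxK, if_false]; ring
    rw [Finset.prod_congr rfl h3, Finset.prod_ite, Finset.prod_const]
    have h4 : Λ.filter (fun x => x ∈ K) = K := by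
      ext x
      simp only [Finset.mem_filter]
      exact ⟨fun h => h.2, fun h => ⟨hK h, h⟩⟩
    have h5 : (Λ.filter fun x => ¬ x ∈ K).card = Λ.card - K.card := by
      rw [← Finset.card_sdiff_of_subset hK]
      congr 1
      ext x
      simp [Finset.mem_sdiff]
    rw [h4, h5, ← chi_prod, mul_comm]
  unfold pw
  have h6 : ∀ U ∈ Λ.powerset, chi K U * ∑ S ∈ Λ.powerset, sw P E S *
      ∏ x ∈ Λ, (1 + 1 / 2 * (chi {x} S * chi {x} U)) = ∑ S ∈ Λ.powerset, sw P E S *
        (chi K U * ∏ x ∈ Λ, (1 + 1 / 2 * (chi {x} S * chi {x} U))) := by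
    intro U _
    rw [Finset.mul_sum]
    exact Finset.sum_congr rfl fun S _ => by ring
  rw [Finset.sum_congr rfl h6, Finset.sum_comm, Finset.mul_sum]
  refine Finset.sum_congr rfl fun S _ => ?_
  rw [← Finset.mul_sum, key]
  ring

theorem sum_pw (P : Sym2 V → ℝ) (E : Finset (Sym2 V)) (Λ : Finset V) :
    ∑ U ∈ Λ.powerset, pw P E Λ U = 2 ^ Λ.card * ∑ S ∈ Λ.powerset, sw P E S := by
  have h := sum_chi_pw P E (Finset.empty_subset Λ)
  have e : ∀ S : Finset V, chi (∅ : Finset V) S = 1 := fun S => by simp [chi]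
  simpa only [e, one_mul, Finset.card_empty, Nat.sub_zero] using h

theorem sum_pw_pos {P : Sym2 V → ℝ} (h1 : ∀ e, P e ≤ 1) (E : Finset (Sym2 V)) (Λ : Finset V) :
    0 < ∑ U ∈ Λ.powerset, pw P E Λ U := by
  rw [sum_pw]
  exact mul_pos (by positivity) (Z_pos h1 E Λ)

theorem ex_chi {P : Sym2 V → ℝ} (h1 : ∀ e, P e ≤ 1) (E : Finset (Sym2 V)) {Λ K : Finset V}
    (hK : K ⊆ Λ) : ex P E Λ (chi K) = (1 / 2) ^ K.card * corr P E Λ K := by
  have hZ := Z_pos h1 E Λ
  unfold ex corr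
  rw [sum_chi_pw P E hK, sum_pw]
  have h2 : (2 : ℝ) ^ Λ.card = 2 ^ (Λ.card - K.card) * 2 ^ K.card := by
    rw [← pow_add, Nat.sub_add_cancel (Finset.card_le_card hK)]
  rw [h2, div_pow, one_pow]
  field_simp

theorem ex_sum {ι : Type} (P : Sym2 V → ℝ) (E : Finset (Sym2 V)) (Λ : Finset V) (s : Finset ι)
    (c : ι → ℝ) (f : ι → Finset V → ℝ) :
    ex P E Λ (fun U => ∑ i ∈ s, c i * f i U) = ∑ i ∈ s, c i * ex P E Λ (f i) := by
  unfold ex
  simp only [← mul_div_assoc]
  rw [← Finset.sum_div]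
  congr 1
  simp only [Finset.sum_mul, Finset.mul_sum]
  rw [Finset.sum_comm]
  refine Finset.sum_congr rfl fun i _ => Finset.sum_congr rfl fun U _ => by ring

theorem pw_nonneg {P : Sym2 V → ℝ} (h1 : ∀ e, P e ≤ 1) (E : Finset (Sym2 V)) (Λ U : Finset V) :
    0 ≤ pw P E Λ U := by
  unfold pw
  refine Finset.sum_nonneg fun S _ => mul_nonneg (sw_nonneg h1 E S) (Finset.prod_nonneg fun x _ => ?_)
  have h2 := abs_chi {x} S
  have h3 := abs_chi {x} U
  have h4 : |chi {x} S * chi {x} U| = 1 := by rw [abs_mul, h2, h3, one_mul]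
  have h5 := neg_abs_le (chi {x} S * chi {x} U)
  linarith

theorem ex_mono {P : Sym2 V → ℝ} (h1 : ∀ e, P e ≤ 1) (E : Finset (Sym2 V)) (Λ : Finset V)
    {f g : Finset V → ℝ} (h : ∀ U, f U ≤ g U) : ex P E Λ f ≤ ex P E Λ g := by
  unfold ex
  refine div_le_div_of_nonneg_right ?_ (sum_pw_pos h1 E Λ).le
  exact Finset.sum_le_sum fun U _ => mul_le_mul_of_nonneg_right (h U) (pw_nonneg h1 E Λ U)

theorem ex_const {P : Sym2 V → ℝ} (h1 : ∀ e, P e ≤ 1) (E : Finset (Sym2 V)) (Λ : Finset V)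
    (c : ℝ) : ex P E Λ (fun _ => c) = c := by
  unfold ex
  rw [← Finset.mul_sum, mul_div_assoc, div_self (sum_pw_pos h1 E Λ).ne', mul_one]

/-! ### Fourier expansion of local functions -/

/-- the coefficients -/
noncomputable def fc (W : Finset V) (g : Finset V → ℝ) (K : Finset V) : ℝ :=
  (∑ T ∈ W.powerset, g T * chi K T) / 2 ^ W.card

theorem orth {W T U : Finset V} (hT : T ⊆ W) (hU : U ⊆ W) :
    ∑ K ∈ W.powerset, chi K T * chi K U = if T = U then 2 ^ W.card else 0 := by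
  have h1 : ∀ K ∈ W.powerset, chi K T * chi K U =
      ∏ x ∈ W, (if x ∈ K then chi {x} T * chi {x} U else 1) := by
    intro K hK
    rw [Finset.mem_powerset] at hK
    rw [Finset.prod_ite, Finset.prod_const_one, mul_one, chi_prod K T, chi_prod K U,
      ← Finset.prod_mul_distrib]
    refine Finset.prod_congr ?_ fun _ _ => rfl
    ext x
    simp only [Finset.mem_filter]
    exact ⟨fun h => ⟨hK h, h⟩, fun h => h.2⟩
  rw [Finset.sum_congr rfl h1, sum_prod_powerset]
  split_ifs with h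
  · subst h
    have h2 : ∀ x ∈ W, chi {x} T * chi {x} T + 1 = (2 : ℝ) := by
      intro x _
      rw [SlM.chi_single]
      split_ifs <;> norm_num
    rw [Finset.prod_congr rfl h2, Finset.prod_const]
  · have h3 : ∃ x ∈ W, ¬ (x ∈ T ↔ x ∈ U) := by
      by_contra hcon
      push Not at hcon
      refine h (Finset.ext fun x => ?_)
      by_cases hx : x ∈ W
      · exact hcon x hx
      · exact ⟨fun h' => absurd (hT h') hx, fun h' => absurd (hU h') hx⟩
    obtain ⟨x, hx, hne⟩ := h3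
    refine Finset.prod_eq_zero hx ?_
    rw [SlM.chi_single, SlM.chi_single]
    by_cases h4 : x ∈ T <;> by_cases h5 : x ∈ U <;> simp_all

theorem chi_inter {K W : Finset V} (hK : K ⊆ W) (U : Finset V) : chi K (U ∩ W) = chi K U := by
  unfold chi
  congr 2
  ext x
  simp only [Finset.mem_inter]
  exact ⟨fun h => ⟨h.1, h.2.1⟩, fun h => ⟨h.1, h.2, hK h.1⟩⟩

theorem expand {W : Finset V} {g : Finset V → ℝ} (hg : Loc W g) (U : Finset V) :
    g U = ∑ K ∈ W.powerset, fc W g K * chi K U := by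
  have h1 : ∀ K ∈ W.powerset, fc W g K * chi K U =
      ∑ T ∈ W.powerset, g T / 2 ^ W.card * (chi K T * chi K (U ∩ W)) := by
    intro K hK
    rw [Finset.mem_powerset] at hK
    rw [chi_inter hK, fc, Finset.sum_div, Finset.sum_mul]
    exact Finset.sum_congr rfl fun T _ => by ring
  rw [Finset.sum_congr rfl h1, Finset.sum_comm, hg U]
  have h2 : ∀ T ∈ W.powerset, ∑ K ∈ W.powerset, g T / 2 ^ W.card * (chi K T * chi K (U ∩ W)) =
      if T = U ∩ W then g (U ∩ W) else 0 := by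
    intro T hT
    rw [← Finset.mul_sum, orth (Finset.mem_powerset.1 hT) Finset.inter_subset_right]
    split_ifs with h
    · rw [h]
      field_simp
    · rw [mul_zero]
  rw [Finset.sum_congr rfl h2, Finset.sum_ite_eq' , if_pos]
  exact Finset.mem_powerset.2 Finset.inter_subset_right

/-! ### the limit -/

section Graph

variable (G : SimpleGraph V) [G.LocallyFinite]

/-- infinite volume expectation -/
noncomputable def eI (β : ℝ) (g : Finset V → ℝ) : ℝ := limUnder atTop fun Λ => eL G β Λ g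

theorem eL_tendsto {β : ℝ} (hβ : 0 ≤ β) {W : Finset V} {g : Finset V → ℝ} (hg : Loc W g) :
    Tendsto (fun Λ => eL G β Λ g) atTop (𝓝 (eI G β g)) := by
  have h : Tendsto (fun Λ => eL G β Λ g) atTop
      (𝓝 (∑ K ∈ W.powerset, fc W g K * ((1 / 2) ^ K.card * tf G β K))) := by
    have h1 : Tendsto (fun Λ => ∑ K ∈ W.powerset, fc W g K * ((1 / 2) ^ K.card * Tf G β Λ K)) atTop
        (𝓝 (∑ K ∈ W.powerset, fc W g K * ((1 / 2) ^ K.card * tf G β K))) :=
      tendsto_finsetSum _ fun K _ => ((tendsto_Tf G hβ K).const_mul _).const_mul _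
    refine h1.congr' ?_
    filter_upwards [eventually_ge_atTop W] with Λ hΛ
    have h2 : g = fun U => ∑ K ∈ W.powerset, fc W g K * chi K U := funext (expand hg)
    unfold eL
    conv_rhs => rw [h2]
    rw [ex_sum]
    refine Finset.sum_congr rfl fun K hK => ?_
    rw [ex_chi (fun _ => pr_le_one β) _ ((Finset.mem_powerset.1 hK).trans hΛ)]
    rfl
  rw [show eI G β g = _ from h.limUnder_eq]
  exact h

/-! ### automorphisms -/

theorem pw_map (g : V ≃ V) (P : Sym2 V → ℝ) (E : Finset (Sym2 V)) (Λ U : Finset V) :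
    pw P (E.image (Sym2.map g)) (Λ.map g.toEmbedding) (U.map g.toEmbedding) =
      pw (fun e => P (e.map g)) E Λ U := by
  unfold pw
  rw [sum_powerset_map]
  refine Finset.sum_congr rfl fun S _ => ?_
  rw [sw_map, Finset.prod_map]
  congr 1
  refine Finset.prod_congr rfl fun x _ => ?_
  have e : ∀ T : Finset V, chi {g.toEmbedding x} (T.map g.toEmbedding) = chi {x} T := by
    intro T
    rw [← Finset.map_singleton, chi_map]
  rw [e, e]

theorem ex_map (g : V ≃ V) (P : Sym2 V → ℝ) (E : Finset (Sym2 V)) (Λ : Finset V)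
    (f : Finset V → ℝ) : ex P (E.image (Sym2.map g)) (Λ.map g.toEmbedding) f =
      ex (fun e => P (e.map g)) E Λ fun U => f (U.map g.toEmbedding) := by
  unfold ex
  rw [sum_powerset_map, sum_powerset_map]
  simp only [pw_map]

variable {G} in
theorem eL_map {g : V ≃ V} (hg : IsAut G g) (β : ℝ) (Λ : Finset V) (f : Finset V → ℝ) :
    eL G β (Λ.map g.toEmbedding) f = eL G β Λ fun U => f (U.map g.toEmbedding) := by
  unfold eL
  rw [ed0_map G hg, ex_map]

theorem loc_map {W : Finset V} {f : Finset V → ℝ} (hf : Loc W f) (g : V ≃ V) :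
    Loc (W.map g.symm.toEmbedding) fun U => f (U.map g.toEmbedding) := by
  intro U
  show f (U.map g.toEmbedding) = f ((U ∩ W.map g.symm.toEmbedding).map g.toEmbedding)
  rw [hf (U.map g.toEmbedding), hf ((U ∩ W.map g.symm.toEmbedding).map g.toEmbedding)]
  congr 1
  ext x
  simp only [Finset.mem_inter, Finset.mem_map_equiv, Equiv.symm_symm, Equiv.apply_symm_apply]
  tauto

theorem tendsto_map (g : V ≃ V) :
    Tendsto (fun Λ : Finset V => Λ.map g.toEmbedding) atTop atTop := by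
  rw [tendsto_atTop_atTop]
  intro S
  refine ⟨S.map g.symm.toEmbedding, fun Λ hΛ x hx => ?_⟩
  rw [Finset.mem_map_equiv]
  apply hΛ
  rw [Finset.mem_map_equiv, Equiv.symm_symm, Equiv.apply_symm_apply]
  exact hx

variable {G} in
theorem eI_map {g : V ≃ V} (hg : IsAut G g) {β : ℝ} (hβ : 0 ≤ β) {W : Finset V}
    {f : Finset V → ℝ} (hf : Loc W f) :
    eI G β (fun U => f (U.map g.toEmbedding)) = eI G β f := by
  have h1 := (eL_tendsto G hβ hf).comp (tendsto_map g)
  have h2 := eL_tendsto G hβ (loc_map hf g)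
  refine tendsto_nhds_unique h2 (h1.congr fun Λ => ?_)
  exact eL_map hg β Λ f

/-! ### the averaged posterior covariances -/

theorem loc_mono {W W' : Finset V} (h : W ⊆ W') {f : Finset V → ℝ} (hf : Loc W f) :
    Loc W' f := by
  intro U
  rw [hf U, hf (U ∩ W')]
  congr 1
  ext x
  simp only [Finset.mem_inter]
  exact ⟨fun h' => ⟨⟨h'.1, h h'.2⟩, h'.2⟩, fun h' => ⟨h'.1.1, h'.2⟩⟩

theorem loc_mul {W W' : Finset V} {f g : Finset V → ℝ} (hf : Loc W f) (hg : Loc W' g) :
    Loc (W ∪ W') fun U => f U * g U := by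
  intro U
  show f U * g U = f (U ∩ (W ∪ W')) * g (U ∩ (W ∪ W'))
  rw [← loc_mono Finset.subset_union_left hf U, ← loc_mono Finset.subset_union_right hg U]

theorem loc_chi (x : V) : Loc {x} (chi {x}) := by
  intro U
  rw [chi_inter (Finset.Subset.refl _)]

theorem loc_om {B : V → Finset V} {φ : V → Finset V → ℝ} (hloc : ∀ a U, φ a U = φ a (U ∩ B a))
    (A Z : Finset V) : Loc (A.biUnion B) (om φ A Z) := by
  intro U
  unfold om
  refine Finset.prod_congr rfl fun a ha => ?_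
  have h1 : φ a U = φ a (U ∩ A.biUnion B) :=
    loc_mono (W := B a) (Finset.subset_biUnion_of_mem B ha) (f := φ a) (hloc a) U
  rw [← h1]

theorem om_ge {φ : V → Finset V → ℝ} (hbnd : ∀ a U, |φ a U| ≤ 1 / 2) (A Z U : Finset V) :
    (1 / 4 : ℝ) ^ A.card ≤ om φ A Z U := by
  unfold om
  rw [← Finset.prod_const]
  refine Finset.prod_le_prod (fun _ _ => by norm_num) fun a _ => ?_
  have h1 : |chi {a} Z * φ a U| ≤ 1 / 2 := by
    rw [abs_mul, abs_chi, one_mul]
    exact hbnd a U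
  have h2 := (abs_le.1 h1).1
  linarith

/-- finite volume -/
noncomputable def qL (β : ℝ) (φ : V → Finset V → ℝ) (Λ A : Finset V) (x y : V) : ℝ :=
  QQ (eL G β Λ) φ A x y

/-- infinite volume -/
noncomputable def qI (β : ℝ) (φ : V → Finset V → ℝ) (A : Finset V) (x y : V) : ℝ :=
  QQ (eI G β) φ A x y

theorem eL_om_ge {φ : V → Finset V → ℝ} (hbnd : ∀ a U, |φ a U| ≤ 1 / 2) (β : ℝ)
    (Λ A Z : Finset V) : (1 / 4 : ℝ) ^ A.card ≤ eL G β Λ (om φ A Z) := by
  unfold eL
  rw [← ex_const (P := fun _ => pr β) (fun _ => pr_le_one β) (ed0 G Λ) Λ ((1 / 4 : ℝ) ^ A.card)]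
  exact ex_mono (fun _ => pr_le_one β) _ _ fun U => om_ge hbnd A Z U

theorem qL_tendsto {β : ℝ} (hβ : 0 ≤ β) {B : V → Finset V} {φ : V → Finset V → ℝ}
    (hloc : ∀ a U, φ a U = φ a (U ∩ B a)) (hbnd : ∀ a U, |φ a U| ≤ 1 / 2) (A : Finset V)
    (x y : V) : Tendsto (fun Λ => qL G β φ Λ A x y) atTop (𝓝 (qI G β φ A x y)) := by
  unfold qL qI QQ
  refine (eL_tendsto G hβ (loc_mul (loc_chi x) (loc_chi y))).sub
    (tendsto_finsetSum _ fun Z _ => ?_)
  have h0 := eL_tendsto G hβ (loc_om hloc A Z)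
  have h1 : (1 / 4 : ℝ) ^ A.card ≤ eI G β (om φ A Z) :=
    ge_of_tendsto' h0 fun Λ => eL_om_ge G hbnd β Λ A Z
  have h2 : (0 : ℝ) < (1 / 4 : ℝ) ^ A.card := by positivity
  exact ((eL_tendsto G hβ (loc_mul (loc_chi x) (loc_om hloc A Z))).mul
    (eL_tendsto G hβ (loc_mul (loc_chi y) (loc_om hloc A Z)))).div h0 (h2.trans_le h1).ne'

variable {G} in
theorem qI_map {g : V ≃ V} (hg : IsAut G g) {β : ℝ} (hβ : 0 ≤ β) {B : V → Finset V}
    {φ : V → Finset V → ℝ} (hloc : ∀ a U, φ a U = φ a (U ∩ B a))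
    (hφ : ∀ a U, φ (g a) (U.map g.toEmbedding) = φ a U) (A : Finset V) (x y : V) :
    qI G β φ (A.map g.toEmbedding) (g x) (g y) = qI G β φ A x y := by
  have hc : ∀ (z : V) (T : Finset V), chi {g z} (T.map g.toEmbedding) = chi {z} T := by
    intro z T
    have := chi_map g {z} T
    rwa [Finset.map_singleton] at this
  have hom : ∀ Z U : Finset V, om φ (A.map g.toEmbedding) (Z.map g.toEmbedding)
      (U.map g.toEmbedding) = om φ A Z U := by
    intro Z U
    unfold om
    rw [Finset.prod_map]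
    refine Finset.prod_congr rfl fun a _ => ?_
    show (1 + chi {g a} (Z.map g.toEmbedding) * φ (g a) (U.map g.toEmbedding)) / 2 = _
    rw [hc, hφ]
  unfold qI QQ
  rw [sum_powerset_map]
  congr 1
  · rw [← eI_map hg hβ (loc_mul (loc_chi (g x)) (loc_chi (g y)))]
    simp only [hc]
  · refine Finset.sum_congr rfl fun Z _ => ?_
    rw [← eI_map hg hβ (loc_mul (loc_chi (g x)) (loc_om hloc _ _)),
      ← eI_map hg hβ (loc_mul (loc_chi (g y)) (loc_om hloc _ _)),
      ← eI_map hg hβ (loc_om hloc _ _)]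
    simp only [hc, hom]

/-- finite volume facts used -/
structure FV (β : ℝ) (N : V → V → ℝ) (B : V → Finset V) (φ : V → Finset V → ℝ) (κ : ℝ) :
    Prop where
  nonneg : ∀ A x y, ∀ᶠ Λ in atTop, 0 ≤ qL G β φ Λ A x y
  anti : ∀ A a, a ∉ A → ∀ x y, ∀ᶠ Λ in atTop, qL G β φ Λ (insert a A) x y ≤ qL G β φ Λ A x y
  jj : ∀ A a, a ∉ A → ∀ F : Finset V, ∀ᶠ Λ in atTop,
    κ * (∑ y ∈ F, ∑ z ∈ B a, N a z * qL G β φ Λ A z y) ^ 2 ≤
      ∑ x ∈ F, ∑ y ∈ F, (qL G β φ Λ A x y - qL G β φ Λ (insert a A) x y)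

theorem qL_empty_le {β : ℝ} (hβ : 0 ≤ β) (φ : V → Finset V → ℝ) {Λ : Finset V} {x y : V}
    (hx : x ∈ Λ) (hy : y ∈ Λ) :
    qL G β φ Λ ∅ x y ≤ (if x = y then 1 else 0) + 1 / 4 * tau G (pr β) Λ x y := by
  have hp : ∀ e : Sym2 V, (fun _ : Sym2 V => pr β) e ≤ 1 := fun _ => pr_le_one β
  have hp0 : ∀ e : Sym2 V, 0 ≤ (fun _ : Sym2 V => pr β) e := fun _ => pr_nonneg hβ
  unfold qL QQ
  have h1 : ∑ Z ∈ (∅ : Finset V).powerset, eL G β Λ (fun U => chi {x} U * om φ ∅ Z U) *
      eL G β Λ (fun U => chi {y} U * om φ ∅ Z U) / eL G β Λ (om φ ∅ Z) =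
      eL G β Λ (chi {x}) * eL G β Λ (chi {y}) := by
    have e1 : ∀ Z U : Finset V, om φ ∅ Z U = 1 := fun Z U => by simp [om]
    have e2 : om φ ∅ ∅ = fun _ => (1 : ℝ) := funext fun U => e1 ∅ U
    rw [Finset.powerset_empty, Finset.sum_singleton]
    simp only [e1, mul_one]
    rw [e2, show eL G β Λ (fun _ => (1 : ℝ)) = 1 from ex_const hp _ _ 1, div_one]
  rw [h1]
  have hn : ∀ z, z ∈ Λ → 0 ≤ eL G β Λ (chi {z}) := by
    intro z hz
    unfold eL
    rw [ex_chi hp _ (Finset.singleton_subset_iff.2 hz)]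
    exact mul_nonneg (by positivity) (corr_nonneg hp0 hp _)
  have h2 := mul_nonneg (hn x hx) (hn y hy)
  have h3 : eL G β Λ (fun U => chi {x} U * chi {y} U) ≤
      (if x = y then 1 else 0) + 1 / 4 * tau G (pr β) Λ x y := by
    split_ifs with hxy
    · subst hxy
      have e3 : (fun U : Finset V => chi {x} U * chi {x} U) = fun _ => (1 : ℝ) := by
        funext U
        rw [SlM.chi_single]
        split_ifs <;> norm_num
      rw [e3, show eL G β Λ (fun _ => (1 : ℝ)) = 1 from ex_const hp _ _ 1]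
      have := IsfM.tau_nonneg G (pr_nonneg hβ) (pr_le_one β) Λ x x
      linarith
    · have e4 : (fun U : Finset V => chi {x} U * chi {y} U) = chi (symmDiff {x} {y}) := by
        funext U
        rw [chi_symmDiff_left]
      have e5 : (symmDiff {x} {y} : Finset V) = {x, y} := by
        ext z
        simp only [Finset.mem_symmDiff, Finset.mem_singleton, Finset.mem_insert]
        constructor
        · rintro (⟨h, -⟩ | ⟨h, -⟩)
          · exact Or.inl h
          · exact Or.inr h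
        · rintro (h | h)
          · exact Or.inl ⟨h, fun h' => hxy (h.symm.trans h')⟩
          · exact Or.inr ⟨h, fun h' => hxy (h'.symm.trans h)⟩
      rw [e4]
      unfold eL
      rw [ex_chi hp _ (by
        rw [e5]
        exact Finset.insert_subset hx (Finset.singleton_subset_iff.2 hy)), IsfM.tau_eq G hx hy, e5,
        Finset.card_pair hxy]
      norm_num
  linarith

/-- the properties needed in STEP 3 hold in infinite volume -/
theorem obs {Γ : Type} [Group Γ] [MulAction Γ V]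
    (haut : ∀ (γ : Γ) (x y : V), G.Adj (γ • x) (γ • y) ↔ G.Adj x y) {β : ℝ} (hβ : 0 ≤ β)
    {N : V → V → ℝ} {B : V → Finset V} {φ : V → Finset V → ℝ} {κ n X : ℝ}
    (hloc : ∀ a U, φ a U = φ a (U ∩ B a)) (hbnd : ∀ a U, |φ a U| ≤ 1 / 2)
    (hφ : ∀ (g : V ≃ V), IsAut G g → ∀ a U, φ (g a) (U.map g.toEmbedding) = φ a U)
    (hN : ∀ a z, 0 ≤ N a z) (hrow : ∀ a, ∑ z ∈ B a, N a z = n)
    (hX : ∀ (Λ : Finset V) (x : V), ∑ z ∈ Λ, tau G (pr β) Λ x z ≤ X)
    (h : FV G β N B φ κ) :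
    Obs Γ (qI G β φ) N B n κ (1 + 1 / 4 * X) where
  nonneg A x y := ge_of_tendsto (qL_tendsto G hβ hloc hbnd A x y) (h.nonneg A x y)
  anti := by
    have h1 : ∀ A a, a ∉ A → ∀ x y, qI G β φ (insert a A) x y ≤ qI G β φ A x y :=
      fun A a ha x y => le_of_tendsto_of_tendsto (qL_tendsto G hβ hloc hbnd _ x y)
        (qL_tendsto G hβ hloc hbnd _ x y) (h.anti A a ha x y)
    intro A A' hAA x y
    have h2 : ∀ C : Finset V, qI G β φ (A ∪ C) x y ≤ qI G β φ A x y := by
      intro C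
      induction C using Finset.induction_on with
      | empty => rw [Finset.union_empty]
      | insert c C hc ih =>
        by_cases hcA : c ∈ A ∪ C
        · rw [Finset.union_insert, Finset.insert_eq_of_mem hcA]
          exact ih
        · rw [Finset.union_insert]
          exact (h1 _ c hcA x y).trans ih
    have h3 := h2 A'
    rwa [Finset.union_eq_right.2 hAA] at h3
  inv := by
    intro γ A x y
    have hg : IsAut G (MulAction.toPerm γ : V ≃ V) := fun a b => haut γ a b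
    have h1 := qI_map hg hβ hloc (hφ _ hg) A x y
    rw [Finset.map_eq_image] at h1
    exact h1
  bd := by
    intro Y x
    have h1 : Tendsto (fun Λ => ∑ y ∈ Y, qL G β φ Λ ∅ x y) atTop
        (𝓝 (∑ y ∈ Y, qI G β φ ∅ x y)) :=
      tendsto_finsetSum _ fun y _ => qL_tendsto G hβ hloc hbnd ∅ x y
    refine le_of_tendsto h1 ?_
    filter_upwards [eventually_ge_atTop (insert x Y)] with Λ hΛ
    have hx : x ∈ Λ := hΛ (Finset.mem_insert_self _ _)
    have hY : Y ⊆ Λ := (Finset.subset_insert _ _).trans hΛ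
    have h2 : ∑ y ∈ Y, qL G β φ Λ ∅ x y ≤
        ∑ y ∈ Y, ((if x = y then 1 else 0) + 1 / 4 * tau G (pr β) Λ x y) :=
      Finset.sum_le_sum fun y hy => qL_empty_le G hβ φ hx (hY hy)
    refine h2.trans ?_
    rw [Finset.sum_add_distrib, ← Finset.mul_sum]
    have h3 : ∑ y ∈ Y, (if x = y then (1 : ℝ) else 0) ≤ 1 := by
      rw [Finset.sum_ite_eq]
      split_ifs <;> norm_num
    have h4 : ∑ y ∈ Y, tau G (pr β) Λ x y ≤ X :=
      (Finset.sum_le_sum_of_subset_of_nonneg hY fun z _ _ =>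
        IsfM.tau_nonneg G (pr_nonneg hβ) (pr_le_one β) Λ x z).trans (hX Λ x)
    linarith
  Nnn := hN
  Nsum := hrow
  jj := by
    intro A a ha F
    have t1 : Tendsto (fun Λ => κ * (∑ y ∈ F, ∑ z ∈ B a, N a z * qL G β φ Λ A z y) ^ 2) atTop
        (𝓝 (κ * (∑ y ∈ F, ∑ z ∈ B a, N a z * qI G β φ A z y) ^ 2)) :=
      ((tendsto_finsetSum _ fun y _ => tendsto_finsetSum _ fun z _ =>
        (qL_tendsto G hβ hloc hbnd A z y).const_mul _).pow 2).const_mul κ
    have t2 : Tendsto (fun Λ => ∑ x ∈ F, ∑ y ∈ F,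
        (qL G β φ Λ A x y - qL G β φ Λ (insert a A) x y)) atTop
        (𝓝 (∑ x ∈ F, ∑ y ∈ F, (qI G β φ A x y - qI G β φ (insert a A) x y))) :=
      tendsto_finsetSum _ fun x _ => tendsto_finsetSum _ fun y _ =>
        (qL_tendsto G hβ hloc hbnd A x y).sub (qL_tendsto G hβ hloc hbnd _ x y)
    exact le_of_tendsto_of_tendsto t1 t2 (h.jj A a ha F)

theorem pw_pos (β : ℝ) (Λ U : Finset V) :
    0 < pw (fun _ => pr β) (ed0 G Λ) Λ U := by
  have hp : ∀ e : Sym2 V, (fun _ : Sym2 V => pr β) e ≤ 1 := fun _ => pr_le_one β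
  unfold pw
  have hprod : ∀ S : Finset V, 0 < ∏ x ∈ Λ, (1 + 1 / 2 * (chi {x} S * chi {x} U)) := by
    intro S
    refine Finset.prod_pos fun x _ => ?_
    have h4 : |chi {x} S * chi {x} U| = 1 := by rw [abs_mul, abs_chi, abs_chi, one_mul]
    have h5 := neg_abs_le (chi {x} S * chi {x} U)
    linarith
  refine Finset.sum_pos' (fun S _ => mul_nonneg (sw_nonneg hp _ S) (hprod S).le)
    ⟨∅, Finset.empty_mem_powerset _, ?_⟩
  rw [sw_empty, one_mul]
  exact hprod ∅

/-- the finite volume facts from the channel calculus -/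
theorem fv (hCAL : SpecCAL) {β : ℝ} {N : V → V → ℝ} {B : V → Finset V}
    {φ : V → Finset V → ℝ} {δ K : ℝ} (hN : ∀ a x, 0 ≤ N a x) (hC : Chn N B φ δ K) (hδ : 0 < δ)
    (hFKG : ∀ Λ A : Finset V, (∀ a ∈ A, B a ⊆ Λ) → ∀ Z : Finset V, ∀ f g : Finset V → ℝ,
      (∀ S T, S ⊆ T → T ⊆ Λ → f T ≤ f S) → (∀ S T, S ⊆ T → T ⊆ Λ → g T ≤ g S) →
        eL G β Λ (fun U => f U * om φ A Z U) * eL G β Λ (fun U => g U * om φ A Z U) ≤
          eL G β Λ (fun U => f U * g U * om φ A Z U) * eL G β Λ (om φ A Z)) :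
    FV G β N B φ (δ ^ 2) := by
  have key : ∀ Λ A : Finset V, (∀ a ∈ A, B a ⊆ Λ) → _ := fun Λ A hA =>
    hCAL V (pw (fun _ => pr β) (ed0 G Λ) Λ) Λ N B φ δ K (eL G β Λ)
      (fun U _ => pw_pos G β Λ U) (fun g => rfl) hN hC hδ
      (fun A hA Z f g hf hg => hFKG Λ A hA Z f g hf hg) A hA
  refine ⟨fun A x y => ?_, fun A a ha x y => ?_, fun A a ha F => ?_⟩
  · filter_upwards [eventually_ge_atTop (A.biUnion B ∪ {x, y})] with Λ hΛ
    have hA : ∀ a ∈ A, B a ⊆ Λ := fun a ha => (Finset.subset_biUnion_of_mem B ha).trans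
      (Finset.subset_union_left.trans hΛ)
    exact (key Λ A hA).2.1 x (hΛ (by simp)) y (hΛ (by simp))
  · filter_upwards [eventually_ge_atTop ((insert a A).biUnion B ∪ {x, y})] with Λ hΛ
    have hA : ∀ b ∈ insert a A, B b ⊆ Λ := fun b hb => (Finset.subset_biUnion_of_mem B hb).trans
      (Finset.subset_union_left.trans hΛ)
    exact ((key Λ A fun b hb => hA b (Finset.mem_insert_of_mem hb)).2.2 a ha
      (hA a (Finset.mem_insert_self _ _))).1 x (hΛ (by simp)) y (hΛ (by simp))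
  · filter_upwards [eventually_ge_atTop ((insert a A).biUnion B ∪ F)] with Λ hΛ
    have hA : ∀ b ∈ insert a A, B b ⊆ Λ := fun b hb => (Finset.subset_biUnion_of_mem B hb).trans
      (Finset.subset_union_left.trans hΛ)
    exact ((key Λ A fun b hb => hA b (Finset.mem_insert_of_mem hb)).2.2 a ha
      (hA a (Finset.mem_insert_self _ _))).2 F (Finset.subset_union_right.trans hΛ)

end Graph

end INFM

open INFM in
theorem specINF (hCAL : SpecCAL) : SpecINF := by
  intro Γ V _ _ G _ haut β N B m n ν φ δ K X₀ hβ hK hC hδ hφ hFKG hX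
  have hbnd := hC.bnd
  refine ⟨qI G β φ, ?_, fun A x y => qL_tendsto G hβ.le hC.loc hC.bnd A x y⟩
  have h1 := obs (Γ := Γ) G haut hβ.le (N := N) (B := B) (φ := φ) (κ := δ ^ 2) (n := n)
    (X := X₀) hC.loc hC.bnd (fun g hg a U => by rw [Finset.map_eq_image]; exact hφ g hg a U)
    hK.nonneg hK.row hX (fv G hCAL hK.nonneg hC hδ hFKG)
  refine { h1 with bd := fun Y x => (h1.bd Y x).trans ?_ }
  have h2 := hX ∅ x
  rw [Finset.sum_empty] at h2
  linarith

end UN

end MP8622
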