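import Pool.Agent.Lib.MP_8622f1_pr.SpecIs

set_option autoImplicit false

open Classical Filter Topology

/-!
# S19447, unimodular graphs: the common definitions (helper1)

Finite system: `Λ` the free spins, `E` a finite set of edges INSIDE `Λ`, opening probabilities `P`
(`P e = 1 - exp (-2 J_e)`), weight `sw P E S` of the set `S` of minus spins. Every vertex `x ∈ Λ` has a
PENDANT spin (noisy copy of the spin at `x`: equal to it with probability `3/4`); `U ⊆ Λ` is the set
of MINUS PENDANT spins. `chi {x} U` is the pendant spin at `x`. All observables are functions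
`g : Finset V → ℝ` of `U`.
-/

namespace MP8622

namespace UN

variable {V : Type}

/-- weight of the set `U` of minus pendant spins (`τ = 1/2`) -/
noncomputable def pw (P : Sym2 V → ℝ) (E : Finset (Sym2 V)) (Λ U : Finset V) : ℝ :=
  ∑ S ∈ Λ.powerset, sw P E S * ∏ x ∈ Λ, (1 + 1 / 2 * (chi {x} S * chi {x} U))

/-- expectation of a function of the pendant spins -/
noncomputable def ex (P : Sym2 V → ℝ) (E : Finset (Sym2 V)) (Λ : Finset V) (g : Finset V → ℝ) : ℝ :=
  (∑ U ∈ Λ.powerset, g U * pw P E Λ U) / ∑ U ∈ Λ.powerset, pw P E Λ U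

/-- the block sum `S_a = ∑_{x ∈ B a} N a x * (pendant spin at x)` -/
noncomputable def bs (N : V → V → ℝ) (B : V → Finset V) (a : V) (U : Finset V) : ℝ :=
  ∑ x ∈ B a, N a x * chi {x} U

/-- the mean of the observation of the block `a`: `φ_a = exp (-1/2) * sin (s * S_a)` -/
noncomputable def ph (N : V → V → ℝ) (B : V → Finset V) (s : ℝ) (a : V) (U : Finset V) : ℝ :=
  Real.exp (-(1 / 2)) * Real.sin (s * bs N B a U)

/-- the probability that the blocks `a ∈ A` give the outcome `Z` (`Z ⊆ A` = set of the blocks with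
outcome `-1`), given the pendant spins: `∏_{a ∈ A} (1 + Z_a φ_a) / 2` -/
noncomputable def om (φ : V → Finset V → ℝ) (A Z U : Finset V) : ℝ :=
  ∏ a ∈ A, (1 + chi {a} Z * φ a U) / 2

/-- the averaged posterior covariance of the pendant spins at `x` and `y` after the observation of
the blocks `a ∈ A`; `e` is the expectation -/
noncomputable def QQ (e : (Finset V → ℝ) → ℝ) (φ : V → Finset V → ℝ) (A : Finset V) (x y : V) : ℝ :=
  e (fun U => chi {x} U * chi {y} U) - ∑ Z ∈ A.powerset,
    e (fun U => chi {x} U * om φ A Z U) * e (fun U => chi {y} U * om φ A Z U) / e (om φ A Z)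

/-- the linear channel `φ_a = δ S_a` -/
noncomputable def li (N : V → V → ℝ) (B : V → Finset V) (δ : ℝ) (a : V) (U : Finset V) : ℝ :=
  δ * bs N B a U

/-- the two point function of the pendant spins, finite volume -/
noncomputable def ch (P : Sym2 V → ℝ) (E : Finset (Sym2 V)) (Λ : Finset V) (x y : V) : ℝ :=
  if x = y then 1 else 1 / 4 * corr P E Λ {x, y}

/-- `g` depends only on `U ∩ W` -/
def Loc (W : Finset V) (g : Finset V → ℝ) : Prop := ∀ U, g U = g (U ∩ W)

/-- the block kernel: `B a` contains the support of `N a ·` and paths inside `B a` join its points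
to `a`; `n` is the row sum, `ν` the bound on `ℓ²` -/
structure Ker (G : SimpleGraph V) (N : V → V → ℝ) (B : V → Finset V) (m : ℕ) (n ν : ℝ) : Prop where
  nonneg : ∀ a x, 0 ≤ N a x
  symm : ∀ a x, N a x = N x a
  supp : ∀ a x, x ∉ B a → N a x = 0
  row : ∀ a, ∑ x ∈ B a, N a x = n
  self : ∀ a, a ∈ B a
  mem : ∀ a x, x ∈ B a ↔ ∃ w : G.Walk a x, w.length ≤ m
  inv : ∀ g : V ≃ V, IsAut G g → ∀ a x, N (g a) (g x) = N a x
  npos : 0 < n
  nupos : 0 < ν
  op : ∀ (A : Finset V) (v : V → ℝ), ∑ a ∈ A, (∑ x ∈ B a, N a x * v x) ^ 2 ≤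
    ν ^ 2 * ∑ x ∈ A.biUnion B, v x ^ 2

/-- what is used about the channel functions `φ` (for POS and for (J)): local, at most `1/2`,
`φ_a - δ S_a` is increasing in the spins, and the factor `(1 ± φ_a)/2` loses at most
`1 - K N a x N a y` in the lattice condition. `ph` with `δ = exp (-1/2) s / 2`, `K = 10 s²`, or
`li` with `K = 4 δ²`; both for `s * n ≤ 1`, `δ * n ≤ 1/2`. -/
structure Chn (N : V → V → ℝ) (B : V → Finset V) (φ : V → Finset V → ℝ) (δ K : ℝ) : Prop where
  loc : ∀ a U, φ a U = φ a (U ∩ B a)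
  bnd : ∀ a U, |φ a U| ≤ 1 / 2
  mon : ∀ a S T, S ⊆ T → φ a T - δ * bs N B a T ≤ φ a S - δ * bs N B a S
  lat : ∀ a (z : ℝ), z = 1 ∨ z = -1 → ∀ (x y : V) (U : Finset V), x ≠ y → x ∉ U → y ∉ U →
    (1 - K * N a x * N a y) * ((1 + z * φ a (insert x U)) * (1 + z * φ a (insert y U))) ≤
      (1 + z * φ a (insert x (insert y U))) * (1 + z * φ a U)

end UN

end MP8622
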