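import Pool.Agent.Lib.MP_8622f1_pr.UN.Defs
import Pool.Agent.Lib.MP_8622f1_pr.Mtpc

set_option autoImplicit false

open Classical Filter Topology

/-!
# S19447, unimodular case, block P (positivity for the noisy copies): exact statements (helper83)

`P` = opening probabilities (`P e = 1 - exp (-2 J_e)`), `E` = edges inside the finite set `L`, `S` =
minus set of the Ising spins `s_x = chi {x} S`, `U` = minus set of the noisy copies `h_x = chi {x} U`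
(weight `pw`, `UN/Defs.lean`). The posterior law of the copies after an ARBITRARY outcome `Z` of the
channels (`om φ A Z U`) satisfies the lattice condition, hence all covariances are `≥ 0`.

Module `XXX`: file `Pool/Agent/Lib/MP_8622f1_pr/UN/XXX.lean`, `import ..UN.SpecP` (and library files),
namespace `MP8622.UN`, `theorem specXXX (hYYY : SpecYYY) .. : SpecXXX`; every other Spec may be a
hypothesis; own lemmas in the namespace `MP8622.UN.XXXM`. No double quotes. Library: `Basic.lean`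
(`chi_eq_prod`, `abs_chi`, ..), `Fkg.lean` (`sw_mul_le`, `fkg_anti`, `mono_mk`), `Sl.lean`
(`SlM.chi_single`, `SlM.factor`), `UN/FKG.lean` (`fkg_pairs_anti`).
-/

namespace MP8622

namespace UN

/-- weight of the minus set `S` with bounded fields: single site factors `1 + t x * s_x` -/
noncomputable def wt {V : Type} (P : Sym2 V → ℝ) (E : Finset (Sym2 V)) (L : Finset V) (t : V → ℝ)
    (S : Finset V) : ℝ := sw P E S * ∏ x ∈ L, (1 + t x * chi {x} S)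

/-- unnormalised expectation of `f` for the weight `wt` -/
noncomputable def zt {V : Type} (P : Sym2 V → ℝ) (E : Finset (Sym2 V)) (L : Finset V) (t : V → ℝ)
    (f : Finset V → ℝ) : ℝ := ∑ S ∈ L.powerset, f S * wt P E L t S

/-- covariance of the spins at `x` and `y` for the weight `wt` -/
noncomputable def ct {V : Type} (P : Sym2 V → ℝ) (E : Finset (Sym2 V)) (L : Finset V) (t : V → ℝ)
    (x y : V) : ℝ :=
  zt P E L t (fun S => chi {x} S * chi {y} S) / zt P E L t (fun _ => 1) -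
    zt P E L t (fun S => chi {x} S) / zt P E L t (fun _ => 1) *
      (zt P E L t (fun S => chi {y} S) / zt P E L t (fun _ => 1))

/-- `v` is reached from `u` by `k` edges of `E` -/
def Pth {V : Type} (E : Finset (Sym2 V)) : ℕ → V → V → Prop
  | 0, u, v => u = v
  | k + 1, u, v => ∃ w, s(u, w) ∈ E ∧ Pth E k w v

/-- lower bound for the covariance of neighbours -/
noncomputable def cc (d : ℕ) (p₀ p₁ : ℝ) : ℝ := p₀ * ((1 - p₁) ^ d / 3) ^ 4 / 8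

/-- PFK: FKG for the weights `wt`, decreasing functions of the minus set; positivity.
Proof. (a) `wt S * wt T ≤ wt (S ∩ T) * wt (S ∪ T)`: `sw_mul_le` for `sw`; for a single site `x` the
factor depends only on `x ∈ S`, and the pairs `(x ∈ S, x ∈ T)`, `(x ∈ S ∩ T, x ∈ S ∪ T)` agree up to
order, so the product of the two factors is the same. All factors are `≥ 0` since `|t x| ≤ 1`. Then
`Finset.four_functions_theorem` as in `fkg_anti`. (b) `S₀ = {x ∈ L | t x < 0}` has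
`1 + t x * chi {x} S₀ = 1 + |t x| > 0` and `sw P E S₀ > 0` (`P < 1`); the other terms are `≥ 0`.
(c) `f = 1 + chi {x}`, `g = 1 + chi {y}` are nonnegative and decreasing; expand, divide by `Z²`.
(d) `|chi| = 1`: `ct x y ≤ 1` because `2 ct x y ≤ Var x + Var y ≤ 2` (`0 ≤ Var (s_x - s_y)`). -/
def SpecPFK : Prop :=
  ∀ (V : Type) (P : Sym2 V → ℝ) (E : Finset (Sym2 V)) (L : Finset V) (t : V → ℝ),
    (∀ e, 0 ≤ P e) → (∀ e, P e < 1) → (∀ x, |t x| ≤ 1) →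
    (∀ S, 0 ≤ wt P E L t S) ∧ 0 < zt P E L t (fun _ => 1) ∧
    (∀ g h : Finset V → ℝ, (∀ S, 0 ≤ g S) → (∀ S, 0 ≤ h S) →
      (∀ S T, S ⊆ T → T ⊆ L → g T ≤ g S) → (∀ S T, S ⊆ T → T ⊆ L → h T ≤ h S) →
      zt P E L t g * zt P E L t h ≤ zt P E L t (fun S => g S * h S) * zt P E L t (fun _ => 1)) ∧
    ∀ x ∈ L, ∀ y ∈ L, 0 ≤ ct P E L t x y ∧ ct P E L t x y ≤ 1

/-- PON: conditioning on one spin (from PFK).
Proof. `t₊ = Function.update t w 1`, `t₋ = Function.update t w (-1)`; for `w ∈ L`: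
`wt t S = (1 + t w)/2 * wt t₊ S + (1 - t w)/2 * wt t₋ S` (only the factor of `w` differs, and
`1 + t χ = (1+t)/2 (1+χ) + (1-t)/2 (1-χ)`). With `p = (1 + t w)/2 * Z₊/Z`, `q = (1 - t w)/2 * Z₋/Z`,
`p + q = 1`, `p, q ≥ 0`, every expectation is `p ⟨·⟩₊ + q ⟨·⟩₋`; in the state `+` the spin at `w` is
`1` (`wt t₊ S = 0` if `w ∈ S`), in `-` it is `-1`. With `a = ⟨s_u⟩₊ - ⟨s_u⟩₋`,
`b = ⟨s_v⟩₊ - ⟨s_v⟩₋`: `ct u v = p ct₊ u v + q ct₋ u v + p q a b`, `ct u w = 2 p q a`,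
`ct w v = 2 p q b`. PFK: `ct₊, ct₋ ≥ 0`, `ct u w ≥ 0`, `ct w v ≥ 0`. If `p q = 0` the left side is
`0` and the right side is `≥ 0`. Otherwise `a, b ≥ 0` and `4 p² q² a b ≤ p q a b` as `4 p q ≤ 1`. -/
def SpecPON : Prop :=
  ∀ (V : Type) (P : Sym2 V → ℝ) (E : Finset (Sym2 V)) (L : Finset V) (t : V → ℝ),
    (∀ e, 0 ≤ P e) → (∀ e, P e < 1) → (∀ x, |t x| ≤ 1) → ∀ u ∈ L, ∀ v ∈ L, ∀ w ∈ L,
      ct P E L t u w * ct P E L t w v ≤ ct P E L t u v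

/-- PNB: lower bound for the covariance of neighbours (from PFK).
Proof. `e = s(u, w)`, `E' = E.erase e`, `θ = P e / (2 - P e)`; `wt P E L t S = (2 - P e)/2 *
(1 + θ s_u s_w) * wt P E' L t S` (the factor of `e` is `1` if `Mono`, else `1 - P e`). With
`a, b, c` = expectations of `s_u, s_w, s_u s_w` for `E'`:
`ct P E = ((c + θ)(1 + θ c) - (a + θ b)(b + θ a)) / (1 + θ c)² =
((1 + θ²)(c - a b) + θ (1 + c² - a² - b²)) / (1 + θ c)²`. `c - a b ≥ 0` (PFK). With the probabilities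
`π₁, π₂, π₃, π₄` of the four classes (++), (+,-), (-,+), (-,-): `1 + c² - a² - b² = 8 (π₁ π₄ + π₂ π₃)`, since
`(1+c)² - (a+b)² = 16 π₁ π₄`, `(1-c)² - (a-b)² = 16 π₂ π₃`. Flipping one spin
(`S ↦ symmDiff S {u}`) changes `wt P E' L t` at most by the factor `r = (1 - p₁)^d / 3` (each of the at
most `d` edges at `u` by a factor `≥ 1 - p₁`, the field at `u` by `≥ (1/2)/(3/2)`), so any two
classes have weights with ratio `≥ r²` and `π ≥ r² / 4`. Hence `1 + c² - a² - b² ≥ r⁴` and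
`ct ≥ θ r⁴ / 4 ≥ p₀ r⁴ / 8` (`1 + θ c ≤ 2`, `θ ≥ P e / 2`). -/
def SpecPNB : Prop :=
  ∀ (V : Type) (P : Sym2 V → ℝ) (E : Finset (Sym2 V)) (L : Finset V) (t : V → ℝ) (d : ℕ)
    (p₀ p₁ : ℝ), 0 < p₀ → p₀ ≤ p₁ → p₁ < 1 → (∀ e, p₀ ≤ P e) → (∀ e, P e ≤ p₁) →
    (∀ x, |t x| ≤ 1 / 2) → (∀ x, (E.filter (fun e => x ∈ e)).card ≤ d) →
    ∀ u ∈ L, ∀ w ∈ L, u ≠ w → s(u, w) ∈ E → cc d p₀ p₁ ≤ ct P E L t u w

/-- PCH: lower bound for the covariance of two vertices joined by a path (from PFK, PON, PNB).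
Proof: `0 < cc ≤ 1`. Induction on `k`: `Pth E k u v`, `u ≠ v` imply `cc ^ k ≤ ct u v`. `k = 0` is
excluded. `k + 1`: `s(u, w) ∈ E`, `Pth E k w v`, `w ≠ u` (no loops), `w ∈ L`; if `w = v`: PNB and
`cc ^ (k+1) ≤ cc`; otherwise PON, PNB and the induction hypothesis (all numbers `≥ 0`). -/
def SpecPCH : Prop :=
  ∀ (V : Type) (P : Sym2 V → ℝ) (E : Finset (Sym2 V)) (L : Finset V) (t : V → ℝ) (d k : ℕ)
    (p₀ p₁ : ℝ), 0 < p₀ → p₀ ≤ p₁ → p₁ < 1 → (∀ e, p₀ ≤ P e) → (∀ e, P e ≤ p₁) →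
    (∀ x, |t x| ≤ 1 / 2) → (∀ x, (E.filter (fun e => x ∈ e)).card ≤ d) →
    (∀ e ∈ E, ¬ e.IsDiag) → (∀ e ∈ E, ∀ z ∈ e, z ∈ L) →
    ∀ u ∈ L, ∀ v ∈ L, u ≠ v → (∃ j ≤ k, Pth E j u v) →
      0 < cc d p₀ p₁ ∧ cc d p₀ p₁ ≤ 1 ∧ cc d p₀ p₁ ^ k ≤ ct P E L t u v

/-- PPE: the pair lattice condition of the noisy copies, exact (algebra only).
`t x = chi {x} U / 2` for `x ≠ u, v` and `t u = t v = 0`.
Proof. For `U' = U, insert u U, insert v U, insert u (insert v U)` (with `u, v ∉ U`):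
`pw U' = ∑_S wt t S (1 + ε_u s_u / 2)(1 + ε_v s_v / 2)`, `ε_u = -1` if `u ∈ U'`, else `1` (split the
factors of `u` and `v` from the product over `L`; `chi {x} U' = chi {x} U` for `x ≠ u, v`). With
`Z = zt 1`, `a, b, c` = expectations of `s_u, s_v, s_u s_v`:
`pw U' = Z (1 + ε_u a/2 + ε_v b/2 + ε_u ε_v c/4)`. The difference of the products is
`Z² ((1 + c/4)² - ((a+b)/2)² - (1 - c/4)² + ((a-b)/2)²) = Z² (c - a b)`, and
`pw (insert u U) * pw (insert v U) = Z² ((1 - c/4)² - ((a-b)/2)²) ≤ Z² (5/4)² ≤ 2 Z²`;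
`ct ≥ 0` by PFK. -/
def SpecPPE : Prop :=
  ∀ (V : Type) (P : Sym2 V → ℝ) (E : Finset (Sym2 V)) (L : Finset V),
    (∀ e, 0 ≤ P e) → (∀ e, P e < 1) → (∀ U, 0 < pw P E L U) ∧
    ∀ (U : Finset V) (u v : V), U ⊆ L → u ∈ L → v ∈ L → u ≠ v → u ∉ U → v ∉ U → ∀ t : V → ℝ,
    (∀ x, t x = if x = u ∨ x = v then 0 else chi {x} U / 2) →
      (1 + ct P E L t u v / 2) * (pw P E L (insert u U) * pw P E L (insert v U)) ≤
        pw P E L U * pw P E L (insert u (insert v U))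

/-- PLI: the pair lattice condition of the likelihood `om`.
Proof: multiply the conditions `Chn.lat` over `a ∈ A` (`chi {a} Z = ±1`, the powers of `1/2` cancel),
all factors `1 ± φ` are `≥ 1/2` (`Chn.bnd`); the numbers `x_a = K N a u N a v` are in `[0, 1]`
(`N a u ≤ n`, `N a v ≤ n`, `K n² ≤ 1`), and `∏ (1 - x_a) ≥ 1 - ∑ x_a` (induction). -/
def SpecPLI : Prop :=
  ∀ (V : Type) (N : V → V → ℝ) (B : V → Finset V) (φ : V → Finset V → ℝ) (δ κ n : ℝ)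
    (A Z : Finset V), Chn N B φ δ κ → (∀ a x, 0 ≤ N a x) → (∀ a x, N a x ≤ n) → 0 ≤ κ →
    κ * n ^ 2 ≤ 1 → (∀ U, 0 < om φ A Z U) ∧
    ∀ (U : Finset V) (u v : V), u ≠ v → u ∉ U → v ∉ U →
      (1 - κ * ∑ a ∈ A, N a u * N a v) * (om φ A Z (insert u U) * om φ A Z (insert v U)) ≤
        om φ A Z U * om φ A Z (insert u (insert v U))

/-- PPW: the pair lattice condition of the posterior weight (from PCH, PFK, PPE, PLI).
Proof. If `∑ N a u * N a v = 0`: PPE, `ct ≥ 0` (PFK) and PLI. Otherwise some `a ∈ A` has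
`N a u, N a v ≠ 0`, so `u` and `v` are joined by a path and `c = cc ^ k ≤ ct ≤ 1` (PCH with the `t` of
PPE, `|t| ≤ 1/2`); `∑_a N a u * N a v ≤ n * ∑_a N a v ≤ n²`, so `κ ∑ ≤ c / 4` and
`(1 + c/2)(1 - c/4) ≥ 1`. (`κ n² ≤ c / 4 ≤ 1` for PLI; `c ≤ 1`.) -/
def SpecPPW : Prop :=
  ∀ (V : Type) (P : Sym2 V → ℝ) (E : Finset (Sym2 V)) (L : Finset V) (N : V → V → ℝ)
    (B : V → Finset V) (φ : V → Finset V → ℝ) (δ κ n : ℝ) (A Z : Finset V) (d k : ℕ)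
    (p₀ p₁ : ℝ), 0 < p₀ → p₀ ≤ p₁ → p₁ < 1 → (∀ e, p₀ ≤ P e) → (∀ e, P e ≤ p₁) →
    (∀ x, (E.filter (fun e => x ∈ e)).card ≤ d) → (∀ e ∈ E, ¬ e.IsDiag) →
    (∀ e ∈ E, ∀ z ∈ e, z ∈ L) → Chn N B φ δ κ → (∀ a x, 0 ≤ N a x) → (∀ a x, N a x ≤ n) →
    (∀ x, ∑ a ∈ A, N a x ≤ n) →
    (∀ a ∈ A, ∀ u v, N a u ≠ 0 → N a v ≠ 0 → ∃ j ≤ k, Pth E j u v) →
    0 < n → 0 ≤ κ → 4 * (κ * n ^ 2) ≤ cc d p₀ p₁ ^ k →
    ∀ (U : Finset V) (u v : V), U ⊆ L → u ∈ L → v ∈ L → u ≠ v → u ∉ U → v ∉ U →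
      (pw P E L (insert u U) * om φ A Z (insert u U)) *
          (pw P E L (insert v U) * om φ A Z (insert v U)) ≤
        (pw P E L U * om φ A Z U) *
          (pw P E L (insert u (insert v U)) * om φ A Z (insert u (insert v U)))

/-- POA: FKG for the posterior law of the noisy copies (from PPW, PPE, PLI and `fkg_pairs_anti` of
`UN/FKG.lean`). `g, h` decreasing in the minus set, of any sign. -/
def SpecPOA : Prop :=
  ∀ (V : Type) (P : Sym2 V → ℝ) (E : Finset (Sym2 V)) (L : Finset V) (N : V → V → ℝ)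
    (B : V → Finset V) (φ : V → Finset V → ℝ) (δ κ n : ℝ) (A Z : Finset V) (d k : ℕ)
    (p₀ p₁ : ℝ), 0 < p₀ → p₀ ≤ p₁ → p₁ < 1 → (∀ e, p₀ ≤ P e) → (∀ e, P e ≤ p₁) →
    (∀ x, (E.filter (fun e => x ∈ e)).card ≤ d) → (∀ e ∈ E, ¬ e.IsDiag) →
    (∀ e ∈ E, ∀ z ∈ e, z ∈ L) → Chn N B φ δ κ → (∀ a x, 0 ≤ N a x) → (∀ a x, N a x ≤ n) →
    (∀ x, ∑ a ∈ A, N a x ≤ n) →
    (∀ a ∈ A, ∀ u v, N a u ≠ 0 → N a v ≠ 0 → ∃ j ≤ k, Pth E j u v) →
    0 < n → 0 ≤ κ → 4 * (κ * n ^ 2) ≤ cc d p₀ p₁ ^ k →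
    (∀ U, 0 < pw P E L U * om φ A Z U) ∧
    ∀ g h : Finset V → ℝ, (∀ S T, S ⊆ T → T ⊆ L → g T ≤ g S) →
      (∀ S T, S ⊆ T → T ⊆ L → h T ≤ h S) →
      (∑ U ∈ L.powerset, g U * (pw P E L U * om φ A Z U)) *
          (∑ U ∈ L.powerset, h U * (pw P E L U * om φ A Z U)) ≤
        (∑ U ∈ L.powerset, g U * h U * (pw P E L U * om φ A Z U)) *
          ∑ U ∈ L.powerset, pw P E L U * om φ A Z U

/-- PBX: the box instance: `E = ed0 G L`, blocks inside `L` (from POA).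
`cc > 0`; the constant `c₀ = cc d p₀ p₁ ^ (2 m) / 4`.
Proof. At most `d` edges of `ed0 G L` contain `x` (they are `s(x, y)`, `y ∈ G.neighborFinset x`). If
`N a u ≠ 0`, `N a v ≠ 0` then `u, v ∈ B a ⊆ L` (`Ker.supp`); the walk from `a` to `u` of length `≤ m`
stays in `B a` (`Ker.mem` for its vertices: initial segments), so its edges are in `ed0 G L`; hence
`u` and `v` are joined by `≤ 2 m` edges of `ed0 G L` (reverse the first walk, append the second).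
`∑_{a ∈ A} N a x = ∑_{a ∈ A ∩ B x} N x a ≤ n` (`Ker.symm`, `Ker.supp`, `Ker.row`). -/
def SpecPBX : Prop :=
  ∀ (d m : ℕ) (n p₀ p₁ : ℝ), 0 < p₀ → p₀ ≤ p₁ → p₁ < 1 → 0 < n → ∃ κ₀ : ℝ, 0 < κ₀ ∧
    ∀ (V : Type) (G : SimpleGraph V) [G.LocallyFinite] (N : V → V → ℝ) (B : V → Finset V)
      (ν : ℝ) (φ : V → Finset V → ℝ) (δ κ : ℝ) (p : ℝ) (L A Z : Finset V),
      (∀ x, (G.neighborFinset x).card ≤ d) → Ker G N B m n ν → Chn N B φ δ κ → 0 ≤ κ → κ ≤ κ₀ →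
      p₀ ≤ p → p ≤ p₁ → (∀ a ∈ A, B a ⊆ L) →
      (∀ U, 0 < pw (fun _ => p) (ed0 G L) L U * om φ A Z U) ∧
      ∀ g h : Finset V → ℝ, (∀ S T, S ⊆ T → T ⊆ L → g T ≤ g S) →
        (∀ S T, S ⊆ T → T ⊆ L → h T ≤ h S) →
        (∑ U ∈ L.powerset, g U * (pw (fun _ => p) (ed0 G L) L U * om φ A Z U)) *
            (∑ U ∈ L.powerset, h U * (pw (fun _ => p) (ed0 G L) L U * om φ A Z U)) ≤
          (∑ U ∈ L.powerset, g U * h U * (pw (fun _ => p) (ed0 G L) L U * om φ A Z U)) *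
            ∑ U ∈ L.powerset, pw (fun _ => p) (ed0 G L) L U * om φ A Z U

end UN

end MP8622
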