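import Mathlib
import Pool.Agent.Lib.MP_8622f1_pr.UN.SpecP
import Pool.Agent.Lib.MP_8622f1_pr.UN.Defs
import Pool.Agent.Lib.MP_8622f1_pr.Mtpc

section
set_option autoImplicit false

/-!
The sine channel is a garbling of a Gaussian observation: the exact identity.
-/

open MeasureTheory ProbabilityTheory

namespace MP8622

namespace UN

/-- sign of a bit -/
noncomputable def bsg (b : Bool) : ℝ := if b then 1 else -1

/-- standard Gaussian measure on `H → ℝ` -/
noncomputable abbrev gm (H : Type) [Fintype H] : Measure (H → ℝ) :=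
  Measure.pi (fun _ : H => gaussianReal 0 1)

lemma bsg_sq (b : Bool) : bsg b ^ 2 = 1 := by
  cases b <;> norm_num [bsg]

lemma bsg_not (b : Bool) : bsg (!b) = - bsg b := by
  cases b <;> norm_num [bsg]

lemma bsg_cases (b : Bool) : bsg b = 1 ∨ bsg b = -1 := by
  cases b <;> norm_num [bsg]

namespace GA1M

lemma int_cexp (z : ℂ) : ∫ x : ℝ, Complex.exp (z * x) ∂(gaussianReal 0 1) = Complex.exp (z ^ 2 / 2) := by
  have h := complexMGF_id_gaussianReal (μ := 0) (v := 1) z
  unfold complexMGF at h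
  simp only [id] at h
  rw [h]
  simp

lemma integrable_cexp (z : ℂ) : Integrable (fun x : ℝ => Complex.exp (z * x)) (gaussianReal 0 1) := by
  have h := integrable_exp_mul_gaussianReal (μ := 0) (v := 1) z.re
  refine h.mono ?_ ?_
  · exact (Complex.continuous_exp.comp (continuous_const.mul Complex.continuous_ofReal)).aestronglyMeasurable
  · refine Filter.Eventually.of_forall fun x => ?_
    rw [Complex.norm_exp, Real.norm_eq_abs, abs_of_pos (Real.exp_pos _)]
    simp

lemma int_prod {H : Type} [Fintype H] (z : H → ℂ) :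
    ∫ g : H → ℝ, ∏ j, Complex.exp (z j * g j) ∂(gm H) = ∏ j, Complex.exp (z j ^ 2 / 2) := by
  rw [integral_fintype_prod_eq_prod (fun j (x : ℝ) => Complex.exp (z j * x))]
  exact Finset.prod_congr rfl fun j _ => int_cexp (z j)

lemma integrable_prod {H : Type} [Fintype H] (z : H → ℂ) :
    Integrable (fun g : H → ℝ => ∏ j, Complex.exp (z j * g j)) (gm H) :=
  Integrable.fintype_prod (f := fun j (x : ℝ) => Complex.exp (z j * x)) (fun j => integrable_cexp (z j))

/-- frequencies -/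
noncomputable def fr : Fin 3 → ℝ := ![0, 1, -1]

/-- coefficients of `(1 + b sin v)/2` -/
noncomputable def co (b : ℝ) : Fin 3 → ℂ := ![1 / 2, (b : ℂ) / (4 * Complex.I), -((b : ℂ) / (4 * Complex.I))]

lemma sin_expand (b v w : ℝ) :
    ∑ k : Fin 3, co b k * (Complex.exp (-((fr k : ℝ) : ℂ) ^ 2 * w / 2) * Complex.exp (Complex.I * (fr k : ℝ) * v)) =
      (((1 + b * Real.exp (-w / 2) * Real.sin v) / 2 : ℝ) : ℂ) := by
  rw [Fin.sum_univ_three]
  simp only [co, fr, Matrix.cons_val_zero, Matrix.cons_val_one, Matrix.cons_val]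
  push_cast
  rw [Complex.sin]
  have hI : Complex.I ≠ 0 := Complex.I_ne_zero
  have e1 : Complex.exp (Complex.I * (0 : ℂ) * v) = 1 := by simp
  have e2 : Complex.exp (-(0 : ℂ) ^ 2 * w / 2) = 1 := by simp
  have e3 : Complex.exp (-(1 : ℂ) ^ 2 * w / 2) = Complex.exp (-(w : ℂ) / 2) := by
    congr 1; ring
  have e4 : Complex.exp (-(-1 : ℂ) ^ 2 * w / 2) = Complex.exp (-(w : ℂ) / 2) := by
    congr 1; ring
  have e5 : Complex.exp (Complex.I * (1 : ℂ) * v) = Complex.exp ((v : ℂ) * Complex.I) := by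
    congr 1; ring
  have e6 : Complex.exp (Complex.I * (-1 : ℂ) * v) = Complex.exp (-(v : ℂ) * Complex.I) := by
    congr 1; ring
  rw [e1, e2, e3, e4, e5, e6]
  have hI2 : (b : ℂ) / (4 * Complex.I) = -(b : ℂ) * Complex.I / 4 := by
    rw [div_eq_div_iff (by simp [hI]) (by norm_num)]
    have : Complex.I * Complex.I = -1 := Complex.I_mul_I
    linear_combination ((4 : ℂ) * b) * this
  rw [hI2]
  ring

end GA1M

open GA1M in
/-- The exact garbling identity. -/
theorem sine_id {H A : Type} [Fintype H] [Fintype A] [DecidableEq A] (Q : A → H → ℝ)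
    (hQ : ∀ a b, ∑ j, Q a j * Q b j = if a = b then 1 else 0) (t : H → ℝ) (Z : A → Bool) :
    ∫ g : H → ℝ, (∏ a, (1 + bsg (Z a) * Real.sin (∑ j, Q a j * g j)) / 2) *
        ∏ j, Real.exp (t j * g j - t j ^ 2 / 2) ∂(gm H) =
      ∏ a, (1 + bsg (Z a) * Real.exp (-1 / 2) * Real.sin (∑ j, Q a j * t j)) / 2 := by
  classical
  have key : ∀ g : H → ℝ, (((∏ a, (1 + bsg (Z a) * Real.sin (∑ j, Q a j * g j)) / 2) *
      ∏ j, Real.exp (t j * g j - t j ^ 2 / 2) : ℝ) : ℂ) =
      ∑ κ : A → Fin 3, ((∏ a, co (bsg (Z a)) (κ a)) * ∏ j, Complex.exp (-((t j : ℝ) : ℂ) ^ 2 / 2)) *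
        ∏ j, Complex.exp ((Complex.I * (∑ a, (fr (κ a) : ℂ) * (Q a j : ℂ)) + (t j : ℂ)) * (g j : ℂ)) := by
    intro g
    have h1 : ∀ a, (((1 + bsg (Z a) * Real.sin (∑ j, Q a j * g j)) / 2 : ℝ) : ℂ) =
        ∑ k : Fin 3, co (bsg (Z a)) k * Complex.exp (Complex.I * (fr k : ℝ) * ((∑ j, Q a j * g j : ℝ) : ℂ)) := by
      intro a
      have := sin_expand (bsg (Z a)) (∑ j, Q a j * g j) 0
      simp only [Complex.ofReal_zero, mul_zero, zero_div, Complex.exp_zero, one_mul, neg_zero,
        Real.exp_zero, mul_one] at this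
      exact this.symm
    rw [Complex.ofReal_mul, Complex.ofReal_prod, Complex.ofReal_prod]
    rw [Finset.prod_congr rfl fun a _ => h1 a]
    rw [Finset.prod_univ_sum, Fintype.piFinset_univ, Finset.sum_mul]
    refine Finset.sum_congr rfl fun κ _ => ?_
    rw [Finset.prod_mul_distrib]
    have h2 : ∏ a, Complex.exp (Complex.I * (fr (κ a) : ℝ) * ((∑ j, Q a j * g j : ℝ) : ℂ)) =
        ∏ j, Complex.exp (Complex.I * (∑ a, (fr (κ a) : ℂ) * (Q a j : ℂ)) * (g j : ℂ)) := by
      rw [← Complex.exp_sum, ← Complex.exp_sum]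
      congr 1
      push_cast
      simp only [Finset.mul_sum, Finset.sum_mul]
      rw [Finset.sum_comm]
      refine Finset.sum_congr rfl fun j _ => Finset.sum_congr rfl fun a _ => ?_
      ring
    have h3 : ∏ j, ((Real.exp (t j * g j - t j ^ 2 / 2) : ℝ) : ℂ) =
        (∏ j, Complex.exp (-((t j : ℝ) : ℂ) ^ 2 / 2)) * ∏ j, Complex.exp ((t j : ℂ) * (g j : ℂ)) := by
      rw [← Finset.prod_mul_distrib]
      refine Finset.prod_congr rfl fun j _ => ?_
      rw [← Complex.exp_add, Complex.ofReal_exp]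
      congr 1
      push_cast
      ring
    have h4 : ∏ j, Complex.exp ((Complex.I * (∑ a, (fr (κ a) : ℂ) * (Q a j : ℂ)) + (t j : ℂ)) * (g j : ℂ)) =
        (∏ j, Complex.exp (Complex.I * (∑ a, (fr (κ a) : ℂ) * (Q a j : ℂ)) * (g j : ℂ))) *
          ∏ j, Complex.exp ((t j : ℂ) * (g j : ℂ)) := by
      rw [← Finset.prod_mul_distrib]
      refine Finset.prod_congr rfl fun j _ => ?_
      rw [← Complex.exp_add]
      congr 1
      ring
    rw [h2, h3, h4]
    ring
  have h5 : ((∫ g : H → ℝ, (∏ a, (1 + bsg (Z a) * Real.sin (∑ j, Q a j * g j)) / 2) *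
        ∏ j, Real.exp (t j * g j - t j ^ 2 / 2) ∂(gm H) : ℝ) : ℂ) =
      ((∏ a, (1 + bsg (Z a) * Real.exp (-1 / 2) * Real.sin (∑ j, Q a j * t j)) / 2 : ℝ) : ℂ) := by
    rw [← integral_complex_ofReal]
    simp only [key]
    rw [integral_finsetSum _ fun κ _ => (integrable_prod _).const_mul _]
    simp only [integral_const_mul, int_prod]
    have h6 : ∀ κ : A → Fin 3, ((∏ a, co (bsg (Z a)) (κ a)) * ∏ j, Complex.exp (-((t j : ℝ) : ℂ) ^ 2 / 2)) *
        ∏ j, Complex.exp ((Complex.I * (∑ a, (fr (κ a) : ℂ) * (Q a j : ℂ)) + (t j : ℂ)) ^ 2 / 2) =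
        ∏ a, co (bsg (Z a)) (κ a) * (Complex.exp (-((fr (κ a) : ℝ) : ℂ) ^ 2 * ((1 : ℝ) : ℂ) / 2) *
          Complex.exp (Complex.I * (fr (κ a) : ℝ) * ((∑ j, Q a j * t j : ℝ) : ℂ))) := by
      intro κ
      have hθ : ∑ j, (∑ a, (fr (κ a) : ℂ) * (Q a j : ℂ)) ^ 2 = ∑ a, (fr (κ a) : ℂ) ^ 2 := by
        have hQc : ∀ a b, ∑ j, (Q a j : ℂ) * (Q b j : ℂ) = if a = b then 1 else 0 := by
          intro a b
          have := congrArg (fun x : ℝ => (x : ℂ)) (hQ a b)
          push_cast at this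
          rw [this]
          split_ifs <;> simp
        calc ∑ j, (∑ a, (fr (κ a) : ℂ) * (Q a j : ℂ)) ^ 2
            = ∑ j, ∑ a, ∑ b, ((fr (κ a) : ℂ) * (fr (κ b) : ℂ)) * ((Q a j : ℂ) * (Q b j : ℂ)) := by
              refine Finset.sum_congr rfl fun j _ => ?_
              rw [sq, Finset.sum_mul_sum]
              refine Finset.sum_congr rfl fun a _ => Finset.sum_congr rfl fun b _ => ?_
              ring
          _ = ∑ a, ∑ b, ((fr (κ a) : ℂ) * (fr (κ b) : ℂ)) * ∑ j, (Q a j : ℂ) * (Q b j : ℂ) := by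
              rw [Finset.sum_comm]
              refine Finset.sum_congr rfl fun a _ => ?_
              rw [Finset.sum_comm]
              refine Finset.sum_congr rfl fun b _ => ?_
              rw [Finset.mul_sum]
          _ = ∑ a, (fr (κ a) : ℂ) ^ 2 := by
              refine Finset.sum_congr rfl fun a _ => ?_
              simp only [hQc]
              simp [sq]
      have hlin : ∑ j, (∑ a, (fr (κ a) : ℂ) * (Q a j : ℂ)) * (t j : ℂ) =
          ∑ a, (fr (κ a) : ℂ) * ((∑ j, Q a j * t j : ℝ) : ℂ) := by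
        push_cast
        simp only [Finset.mul_sum, Finset.sum_mul]
        rw [Finset.sum_comm]
        refine Finset.sum_congr rfl fun a _ => Finset.sum_congr rfl fun j _ => ?_
        ring
      rw [Finset.prod_mul_distrib, mul_assoc]
      congr 1
      rw [Finset.prod_mul_distrib, ← Finset.prod_mul_distrib, ← Complex.exp_sum, ← Complex.exp_sum,
        ← Complex.exp_add]
      have h7 : ∀ j, Complex.exp (-((t j : ℝ) : ℂ) ^ 2 / 2) *
          Complex.exp ((Complex.I * (∑ a, (fr (κ a) : ℂ) * (Q a j : ℂ)) + (t j : ℂ)) ^ 2 / 2) =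
          Complex.exp (-(∑ a, (fr (κ a) : ℂ) * (Q a j : ℂ)) ^ 2 / 2 +
            Complex.I * ((∑ a, (fr (κ a) : ℂ) * (Q a j : ℂ)) * (t j : ℂ))) := by
        intro j
        rw [← Complex.exp_add]
        congr 1
        have hI : Complex.I ^ 2 = -1 := Complex.I_sq
        linear_combination ((∑ a, (fr (κ a) : ℂ) * (Q a j : ℂ)) ^ 2 / 2) * hI
      rw [Finset.prod_congr rfl fun j _ => h7 j, ← Complex.exp_sum]
      congr 1
      rw [Finset.sum_add_distrib, ← Finset.mul_sum, hlin]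
      have h8 : ∑ j, -(∑ a, (fr (κ a) : ℂ) * (Q a j : ℂ)) ^ 2 / 2 = -(∑ a, (fr (κ a) : ℂ) ^ 2) / 2 := by
        rw [← hθ, ← Finset.sum_div, Finset.sum_neg_distrib]
      rw [h8, ← Finset.sum_div]
      have h9 : ∑ a, -((fr (κ a) : ℝ) : ℂ) ^ 2 * ((1 : ℝ) : ℂ) = -∑ a, (fr (κ a) : ℂ) ^ 2 := by
        rw [← Finset.sum_neg_distrib]
        refine Finset.sum_congr rfl fun a _ => ?_
        push_cast
        ring
      rw [h9, Finset.mul_sum]
      congr 1
      refine Finset.sum_congr rfl fun a _ => ?_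
      ring
    simp only [h6]
    have h10 := Finset.prod_univ_sum (fun _ : A => (Finset.univ : Finset (Fin 3)))
      (fun a k => co (bsg (Z a)) k * (Complex.exp (-((fr k : ℝ) : ℂ) ^ 2 * ((1 : ℝ) : ℂ) / 2) *
          Complex.exp (Complex.I * (fr k : ℝ) * ((∑ j, Q a j * t j : ℝ) : ℂ))))
    rw [Fintype.piFinset_univ] at h10
    rw [← h10, Complex.ofReal_prod]
    refine Finset.prod_congr rfl fun a _ => ?_
    exact sin_expand _ _ _
  exact_mod_cast h5

end UN

end MP8622
end

section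
set_option autoImplicit false
set_option linter.unusedSectionVars false

/-!
The binary site channel: information of all sites together.
-/

namespace MP8622

namespace UN

/-- tilted sum -/
noncomputable def tm {L Om : Type} [Fintype L] [Fintype Om] (mu : Om → ℝ) (sg : Om → L → ℝ)
    (h : L → ℝ) (f : Om → ℝ) : ℝ := ∑ w, mu w * Real.exp (∑ z, h z * sg w z) * f w

/-- The input of the site channel: all covariances of `F` with the spins, in all real fields, are
between `0` and `G`. -/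
def DssH {L Om : Type} [Fintype L] [Fintype Om] (mu : Om → ℝ) (sg : Om → L → ℝ) (F : Om → ℝ)
    (G : L → ℝ) : Prop :=
  ∀ (h : L → ℝ) (x : L),
    0 ≤ tm mu sg h (fun w => F w * sg w x) * tm mu sg h (fun _ => 1) -
        tm mu sg h F * tm mu sg h (fun w => sg w x) ∧
    tm mu sg h (fun w => F w * sg w x) * tm mu sg h (fun _ => 1) -
        tm mu sg h F * tm mu sg h (fun w => sg w x) ≤ G x * tm mu sg h (fun _ => 1) ^ 2

namespace GA3M

variable {L Om : Type} [Fintype L] [DecidableEq L] [Fintype Om]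

/-- density of the sites in `S` -/
noncomputable def dn (sg : Om → L → ℝ) (e : L → ℝ) (S : Finset L) (ε : L → Bool) (w : Om) : ℝ :=
  ∏ x ∈ S, (1 + bsg (ε x) * e x * sg w x)

noncomputable def av (mu : Om → ℝ) (sg : Om → L → ℝ) (e : L → ℝ) (S : Finset L) (ε : L → Bool)
    (f : Om → ℝ) : ℝ := ∑ w, mu w * dn sg e S ε w * f w

def flp (x : L) (ε : L → Bool) : L → Bool := Function.update ε x (!(ε x))

lemma flp_flp (x : L) (ε : L → Bool) : flp x (flp x ε) = ε := by
  funext y
  unfold flp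
  by_cases h : y = x
  · subst h; simp
  · simp [h]

lemma sum_flp (x : L) (g : (L → Bool) → ℝ) : ∑ ε, g ε = ∑ ε, (g ε + g (flp x ε)) / 2 := by
  have h : ∑ ε, g (flp x ε) = ∑ ε, g ε :=
    Equiv.sum_comp (Function.Involutive.toPerm (flp x) (flp_flp x)) g
  rw [← Finset.sum_div, Finset.sum_add_distrib, h]
  ring

lemma dn_flp (sg : Om → L → ℝ) (e : L → ℝ) {S : Finset L} {x : L} (hx : x ∉ S) (ε : L → Bool)
    (w : Om) : dn sg e S (flp x ε) w = dn sg e S ε w := by
  unfold dn
  refine Finset.prod_congr rfl fun y hy => ?_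
  have : y ≠ x := fun h => hx (h ▸ hy)
  simp [flp, this]

lemma av_flp (mu : Om → ℝ) (sg : Om → L → ℝ) (e : L → ℝ) {S : Finset L} {x : L} (hx : x ∉ S)
    (ε : L → Bool) (f : Om → ℝ) : av mu sg e S (flp x ε) f = av mu sg e S ε f := by
  unfold av
  simp only [dn_flp sg e hx]

lemma av_insert (mu : Om → ℝ) (sg : Om → L → ℝ) (e : L → ℝ) {S : Finset L} {x : L} (hx : x ∉ S)
    (ε : L → Bool) (f : Om → ℝ) : av mu sg e (insert x S) ε f =
      av mu sg e S ε f + bsg (ε x) * e x * av mu sg e S ε (fun w => f w * sg w x) := by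
  unfold av dn
  rw [Finset.mul_sum, ← Finset.sum_add_distrib]
  refine Finset.sum_congr rfl fun w _ => ?_
  rw [Finset.prod_insert hx]
  ring

lemma one_add_eq (t : ℝ) (ht : |t| < 1) (s : ℝ) (hs : s = 1 ∨ s = -1) :
    1 + t * s = Real.exp ((Real.log (1 + t) + Real.log (1 - t)) / 2) *
      Real.exp ((Real.log (1 + t) - Real.log (1 - t)) / 2 * s) := by
  have h := abs_lt.1 ht
  rw [← Real.exp_add]
  rcases hs with rfl | rfl
  · have : (Real.log (1 + t) + Real.log (1 - t)) / 2 + (Real.log (1 + t) - Real.log (1 - t)) / 2 * 1 =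
        Real.log (1 + t) := by ring
    rw [this, Real.exp_log (by linarith)]
    ring
  · have : (Real.log (1 + t) + Real.log (1 - t)) / 2 + (Real.log (1 + t) - Real.log (1 - t)) / 2 * -1 =
        Real.log (1 - t) := by ring
    rw [this, Real.exp_log (by linarith)]
    ring

lemma abs_bsg (b : Bool) (c : ℝ) : |bsg b * c| = |c| := by
  rcases bsg_cases b with h | h <;> rw [h] <;> simp

/-- the field of a binary observation -/
noncomputable def fld (e : L → ℝ) (S : Finset L) (ε : L → Bool) (z : L) : ℝ :=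
  if z ∈ S then (Real.log (1 + bsg (ε z) * e z) - Real.log (1 - bsg (ε z) * e z)) / 2 else 0

noncomputable def cst (e : L → ℝ) (S : Finset L) (ε : L → Bool) : ℝ :=
  ∏ z ∈ S, Real.exp ((Real.log (1 + bsg (ε z) * e z) + Real.log (1 - bsg (ε z) * e z)) / 2)

lemma cst_pos (e : L → ℝ) (S : Finset L) (ε : L → Bool) : 0 < cst e S ε :=
  Finset.prod_pos fun _ _ => Real.exp_pos _

lemma dn_eq (sg : Om → L → ℝ) (hs : ∀ w x, sg w x = 1 ∨ sg w x = -1) (e : L → ℝ)
    (he : ∀ x, |e x| < 1) (S : Finset L) (ε : L → Bool) (w : Om) :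
    dn sg e S ε w = cst e S ε * Real.exp (∑ z, fld e S ε z * sg w z) := by
  unfold dn cst
  have h1 : ∑ z, fld e S ε z * sg w z = ∑ z ∈ S, (Real.log (1 + bsg (ε z) * e z) -
      Real.log (1 - bsg (ε z) * e z)) / 2 * sg w z := by
    rw [← Finset.sum_filter_add_sum_filter_not Finset.univ (fun z => z ∈ S)]
    have : ∑ z ∈ Finset.univ.filter (fun z => ¬ z ∈ S), fld e S ε z * sg w z = 0 := by
      refine Finset.sum_eq_zero fun z hz => ?_
      rw [Finset.mem_filter] at hz
      simp [fld, hz.2]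
    rw [this, add_zero]
    have h2 : Finset.univ.filter (fun z => z ∈ S) = S := by ext z; simp
    rw [h2]
    refine Finset.sum_congr rfl fun z hz => ?_
    simp [fld, hz]
  rw [h1, Real.exp_sum, ← Finset.prod_mul_distrib]
  refine Finset.prod_congr rfl fun z _ => ?_
  exact one_add_eq _ (by rw [abs_bsg]; exact he z) _ (hs w z)

lemma av_eq (mu : Om → ℝ) (sg : Om → L → ℝ) (hs : ∀ w x, sg w x = 1 ∨ sg w x = -1) (e : L → ℝ)
    (he : ∀ x, |e x| < 1) (S : Finset L) (ε : L → Bool) (f : Om → ℝ) :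
    av mu sg e S ε f = cst e S ε * tm mu sg (fld e S ε) f := by
  unfold av tm
  rw [Finset.mul_sum]
  refine Finset.sum_congr rfl fun w _ => ?_
  rw [dn_eq sg hs e he]
  ring

lemma av_one_pos (mu : Om → ℝ) (hmu : ∀ w, 0 ≤ mu w) (hpos : 0 < ∑ w, mu w) (sg : Om → L → ℝ)
    (hs : ∀ w x, sg w x = 1 ∨ sg w x = -1) (e : L → ℝ)
    (he : ∀ x, |e x| < 1) (S : Finset L) (ε : L → Bool) :
    0 < av mu sg e S ε (fun _ => 1) := by
  rw [av_eq mu sg hs e he]
  refine mul_pos (cst_pos e S ε) ?_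
  unfold tm
  obtain ⟨w, _, hw⟩ := Finset.exists_ne_zero_of_sum_ne_zero hpos.ne'
  refine Finset.sum_pos' (fun w _ => by have := hmu w; positivity) ⟨w, Finset.mem_univ _, ?_⟩
  have : 0 < mu w := lt_of_le_of_ne (hmu w) (Ne.symm hw)
  positivity

lemma abs_av_le (mu : Om → ℝ) (hmu : ∀ w, 0 ≤ mu w) (sg : Om → L → ℝ)
    (hs : ∀ w x, sg w x = 1 ∨ sg w x = -1) (e : L → ℝ)
    (he : ∀ x, |e x| < 1) (S : Finset L) (ε : L → Bool) (x : L) :
    |av mu sg e S ε (fun w => sg w x)| ≤ av mu sg e S ε (fun _ => 1) := by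
  unfold av
  refine (Finset.abs_sum_le_sum_abs _ _).trans (Finset.sum_le_sum fun w _ => ?_)
  have h1 : 0 ≤ dn sg e S ε w := by
    rw [dn_eq sg hs e he]
    exact mul_nonneg (cst_pos e S ε).le (Real.exp_pos _).le
  rw [abs_mul, abs_mul, abs_of_nonneg (hmu w), abs_of_nonneg h1]
  have h2 : |sg w x| = 1 := by
    rcases hs w x with h | h <;> rw [h] <;> simp
  simp only [h2]
  exact le_refl _

lemma alg_step (n u v D e G : ℝ) (hD : 0 < D) (hv : |v| ≤ D) (he : |e| < 1)
    (h0 : 0 ≤ u * D - n * v) (h1 : u * D - n * v ≤ G * D ^ 2) :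
    ((n + e * u) ^ 2 / (D + e * v) + (n - e * u) ^ 2 / (D - e * v)) / 2 ≤
      n ^ 2 / D + e ^ 2 / (1 - e ^ 2) * G ^ 2 * D := by
  have hev : |e * v| < D := by
    rw [abs_mul]
    have h2 : 0 ≤ |v| := abs_nonneg v
    rcases h2.eq_or_lt with h3 | h3
    · rw [← h3]; simpa using hD
    · nlinarith
  have ⟨ha, hb⟩ := abs_lt.1 hev
  have he2 : e ^ 2 < 1 := by rw [sq_lt_one_iff_abs_lt_one]; exact he
  have hp : 0 < D + e * v := by linarith
  have hm : 0 < D - e * v := by linarith
  have hv2 : v ^ 2 ≤ D ^ 2 := by rw [sq_le_sq, abs_of_pos hD]; exact hv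
  have hpm : (1 - e ^ 2) * D ^ 2 ≤ (D + e * v) * (D - e * v) := by
    nlinarith [mul_nonneg (sq_nonneg e) (sub_nonneg.2 hv2)]
  have hid : ((n + e * u) ^ 2 / (D + e * v) + (n - e * u) ^ 2 / (D - e * v)) / 2 =
      n ^ 2 / D + e ^ 2 * (u * D - n * v) ^ 2 / (D * ((D + e * v) * (D - e * v))) := by
    field_simp
    ring
  rw [hid]
  have h5 : e ^ 2 * (u * D - n * v) ^ 2 / (D * ((D + e * v) * (D - e * v))) ≤
      e ^ 2 * (G * D ^ 2) ^ 2 / (D * ((1 - e ^ 2) * D ^ 2)) := by
    have h6 : (u * D - n * v) ^ 2 ≤ (G * D ^ 2) ^ 2 := by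
      apply pow_le_pow_left₀ h0 h1
    have h7 : 0 < (1 - e ^ 2) * D ^ 2 := by
      have : 0 < 1 - e ^ 2 := by linarith
      positivity
    apply div_le_div₀
    · positivity
    · exact mul_le_mul_of_nonneg_left h6 (sq_nonneg e)
    · positivity
    · exact mul_le_mul_of_nonneg_left hpm hD.le
  have h8 : e ^ 2 * (G * D ^ 2) ^ 2 / (D * ((1 - e ^ 2) * D ^ 2)) = e ^ 2 / (1 - e ^ 2) * G ^ 2 * D := by
    have : 1 - e ^ 2 ≠ 0 := by linarith
    field_simp
  rw [h8] at h5
  linarith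

lemma sum_av_one (mu : Om → ℝ) (sg : Om → L → ℝ) (e : L → ℝ) (S : Finset L) :
    ∑ ε : L → Bool, av mu sg e S ε (fun _ => 1) = 2 ^ Fintype.card L * ∑ w, mu w := by
  induction S using Finset.induction_on with
  | empty =>
    simp [av, dn]
  | @insert x S hx ih =>
    rw [← ih, sum_flp x]
    refine Finset.sum_congr rfl fun ε _ => ?_
    rw [av_insert mu sg e hx, av_insert mu sg e hx, av_flp mu sg e hx, av_flp mu sg e hx]
    have : bsg (flp x ε x) = - bsg (ε x) := by
      simp only [flp, Function.update_self]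
      exact bsg_not _
    rw [this]
    ring

end GA3M

open GA3M in
/-- The binary site channel. -/
theorem bin_site {L Om : Type} [Fintype L] [DecidableEq L] [Fintype Om] (mu : Om → ℝ)
    (hmu : ∀ w, 0 ≤ mu w) (hpos : 0 < ∑ w, mu w) (sg : Om → L → ℝ)
    (hs : ∀ w x, sg w x = 1 ∨ sg w x = -1) (F : Om → ℝ) (hF : ∑ w, mu w * F w = 0) (G : L → ℝ)
    (hD : DssH mu sg F G) (e : L → ℝ) (he : ∀ x, |e x| < 1) :
    ∑ ε : L → Bool, (∑ w, mu w * F w * ∏ x, (1 + bsg (ε x) * e x * sg w x)) ^ 2 /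
        (∑ w, mu w * ∏ x, (1 + bsg (ε x) * e x * sg w x)) ≤
      2 ^ Fintype.card L * ((∑ x, e x ^ 2 / (1 - e x ^ 2) * G x ^ 2) * ∑ w, mu w) := by
  have key : ∀ S : Finset L, ∑ ε : L → Bool, av mu sg e S ε F ^ 2 / av mu sg e S ε (fun _ => 1) ≤
      2 ^ Fintype.card L * ((∑ x ∈ S, e x ^ 2 / (1 - e x ^ 2) * G x ^ 2) * ∑ w, mu w) := by
    intro S
    induction S using Finset.induction_on with
    | empty =>
      have : ∀ ε : L → Bool, av mu sg e ∅ ε F = 0 := by
        intro ε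
        simpa [av, dn] using hF
      simp [this]
    | @insert x S hx ih =>
      rw [sum_flp x]
      have hstep : ∀ ε : L → Bool,
          (av mu sg e (insert x S) ε F ^ 2 / av mu sg e (insert x S) ε (fun _ => 1) +
            av mu sg e (insert x S) (flp x ε) F ^ 2 /
              av mu sg e (insert x S) (flp x ε) (fun _ => 1)) / 2 ≤
          av mu sg e S ε F ^ 2 / av mu sg e S ε (fun _ => 1) +
            e x ^ 2 / (1 - e x ^ 2) * G x ^ 2 * av mu sg e S ε (fun _ => 1) := by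
        intro ε
        rw [av_insert mu sg e hx, av_insert mu sg e hx, av_insert mu sg e hx,
          av_insert mu sg e hx, av_flp mu sg e hx, av_flp mu sg e hx, av_flp mu sg e hx,
          av_flp mu sg e hx]
        have hb : bsg (flp x ε x) = - bsg (ε x) := by
          simp only [flp, Function.update_self]
          exact bsg_not _
        rw [hb]
        have h1 : (fun w : Om => (1 : ℝ) * sg w x) = fun w => sg w x := by
          funext w; ring
        rw [h1]
        have hc := cst_pos e S ε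
        have hd := hD (fld e S ε) x
        have hq : (bsg (ε x) * e x) ^ 2 = e x ^ 2 := by
          rw [mul_pow, bsg_sq]; ring
        have := alg_step (av mu sg e S ε F) (av mu sg e S ε (fun w => F w * sg w x))
          (av mu sg e S ε (fun w => sg w x)) (av mu sg e S ε (fun _ => 1)) (bsg (ε x) * e x) (G x)
          (av_one_pos mu hmu hpos sg hs e he S ε) (abs_av_le mu hmu sg hs e he S ε x)
          (by rw [abs_bsg]; exact he x)
          (by
            rw [av_eq mu sg hs e he, av_eq mu sg hs e he, av_eq mu sg hs e he, av_eq mu sg hs e he]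
            have := mul_nonneg (sq_nonneg (cst e S ε)) hd.1
            nlinarith)
          (by
            rw [av_eq mu sg hs e he, av_eq mu sg hs e he, av_eq mu sg hs e he, av_eq mu sg hs e he]
            have := mul_le_mul_of_nonneg_left hd.2 (sq_nonneg (cst e S ε))
            nlinarith)
        rw [hq] at this
        have hm : ∀ a b : ℝ, a + -bsg (ε x) * e x * b = a - bsg (ε x) * e x * b := by
          intro a b; ring
        rw [hm, hm]
        exact this
      refine (Finset.sum_le_sum fun ε _ => hstep ε).trans ?_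
      rw [Finset.sum_add_distrib, ← Finset.mul_sum, sum_av_one, Finset.sum_insert hx]
      have : 2 ^ Fintype.card L * ((e x ^ 2 / (1 - e x ^ 2) * G x ^ 2 +
          ∑ x ∈ S, e x ^ 2 / (1 - e x ^ 2) * G x ^ 2) * ∑ w, mu w) =
          2 ^ Fintype.card L * ((∑ x ∈ S, e x ^ 2 / (1 - e x ^ 2) * G x ^ 2) * ∑ w, mu w) +
            e x ^ 2 / (1 - e x ^ 2) * G x ^ 2 * (2 ^ Fintype.card L * ∑ w, mu w) := by ring
      rw [this]
      linarith
  have h := key Finset.univ
  have e1 : ∀ ε : L → Bool, av mu sg e Finset.univ ε F =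
      ∑ w, mu w * F w * ∏ x, (1 + bsg (ε x) * e x * sg w x) := by
    intro ε
    unfold av dn
    refine Finset.sum_congr rfl fun w _ => ?_
    ring
  have e2 : ∀ ε : L → Bool, av mu sg e Finset.univ ε (fun _ => 1) =
      ∑ w, mu w * ∏ x, (1 + bsg (ε x) * e x * sg w x) := by
    intro ε
    unfold av dn
    refine Finset.sum_congr rfl fun w _ => ?_
    ring
  simp only [e1, e2] at h
  exact h

end UN

end MP8622
end

section
set_option autoImplicit false
set_option linter.unusedSectionVars false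

/-!
The information of the block channel (sine channel) is at most the information of site-wise
Gaussian observations of precision `b ν²`.
-/

open MeasureTheory ProbabilityTheory

namespace MP8622

namespace UN

namespace GAUM

/-! ### The square root of the noise -/

section Root

open scoped MatrixOrder
open Matrix

lemma sqrt_exists {n : Type} [Fintype n] [DecidableEq n] (P : Matrix n n ℝ) (hP : P.PosSemidef) :
    ∃ R : Matrix n n ℝ, R * Rᵀ = P := by
  refine ⟨CFC.sqrt P, ?_⟩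
  have h1 : (CFC.sqrt P)ᵀ = CFC.sqrt P := by
    have := (CFC.sqrt_nonneg P).posSemidef.isHermitian
    rw [Matrix.IsHermitian, Matrix.conjTranspose_eq_transpose_of_trivial] at this
    exact this
  rw [h1]
  exact CFC.sqrt_mul_sqrt_self P hP.nonneg

lemma psd_one_sub {L A : Type} [Fintype L] [Fintype A] [DecidableEq A] (M : A → L → ℝ)
    (h : ∀ v : L → ℝ, ∑ a, (∑ x, M a x * v x) ^ 2 ≤ ∑ x, v x ^ 2) :
    ∃ R : A → A → ℝ, ∀ a b, ∑ x, M a x * M b x + ∑ c, R a c * R b c = if a = b then 1 else 0 := by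
  have hT : ∀ u : A → ℝ, ∑ x, (∑ a, u a * M a x) ^ 2 ≤ ∑ a, u a ^ 2 := by
    intro u
    set v : L → ℝ := fun x => ∑ a, u a * M a x with hv
    have h1 : ∑ x, v x ^ 2 = ∑ a, u a * ∑ x, M a x * v x := by
      simp only [Finset.mul_sum]
      rw [Finset.sum_comm]
      refine Finset.sum_congr rfl fun x _ => ?_
      rw [sq]
      nth_rewrite 1 [hv]
      simp only
      rw [Finset.sum_mul]
      refine Finset.sum_congr rfl fun a _ => ?_
      ring
    have h2 := Finset.sum_mul_sq_le_sq_mul_sq Finset.univ u (fun a => ∑ x, M a x * v x)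
    rw [← h1] at h2
    have h3 : 0 ≤ ∑ a, u a ^ 2 := Finset.sum_nonneg fun a _ => sq_nonneg _
    have h4 : 0 ≤ ∑ x, v x ^ 2 := Finset.sum_nonneg fun a _ => sq_nonneg _
    have h5 := h v
    have h6 : (∑ x, v x ^ 2) ^ 2 ≤ (∑ a, u a ^ 2) * ∑ x, v x ^ 2 :=
      h2.trans (mul_le_mul_of_nonneg_left h5 h3)
    rcases h4.eq_or_lt with h7 | h7
    · rw [← h7]; exact h3
    · nlinarith
  set MM : Matrix A L ℝ := Matrix.of M with hMM
  have hP : (1 - MM * MMᵀ).PosSemidef := by
    refine Matrix.PosSemidef.of_dotProduct_mulVec_nonneg ?_ ?_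
    · rw [Matrix.IsHermitian, Matrix.conjTranspose_eq_transpose_of_trivial]
      simp [Matrix.transpose_sub, Matrix.transpose_mul]
    · intro u
      have h1 : star u ⬝ᵥ ((1 - MM * MMᵀ) *ᵥ u) = ∑ a, u a ^ 2 - ∑ x, (∑ a, u a * M a x) ^ 2 := by
        rw [Matrix.sub_mulVec, Matrix.one_mulVec, dotProduct_sub, star_trivial,
          ← Matrix.mulVec_mulVec, Matrix.dotProduct_mulVec, Matrix.mulVec_transpose]
        congr 1
        · simp [dotProduct, sq]
        · simp only [dotProduct, Matrix.vecMul, hMM, Matrix.of_apply, sq]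
      rw [h1]
      linarith [hT u]
  obtain ⟨R, hR⟩ := sqrt_exists _ hP
  refine ⟨R, fun a b => ?_⟩
  have := congrFun (congrFun hR a) b
  rw [Matrix.mul_apply] at this
  simp only [Matrix.transpose_apply, Matrix.sub_apply, Matrix.mul_apply, Matrix.one_apply, hMM,
    Matrix.of_apply] at this
  rw [this]
  ring

end Root

/-! ### One dimensional integrals -/

lemma int_exp (t : ℝ) : ∫ x : ℝ, Real.exp (t * x) ∂(gaussianReal 0 1) = Real.exp (t ^ 2 / 2) := by
  have h := congrFun (mgf_fun_id_gaussianReal (μ := 0) (v := 1)) t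
  unfold mgf at h
  rw [h]
  simp

lemma integrable_exp (t : ℝ) : Integrable (fun x : ℝ => Real.exp (t * x)) (gaussianReal 0 1) :=
  integrable_exp_mul_gaussianReal t

lemma integrable_cosh (t : ℝ) : Integrable (fun x : ℝ => Real.cosh (t * x)) (gaussianReal 0 1) := by
  have h := ((integrable_exp t).add (integrable_exp (-t))).div_const 2
  refine h.congr (Filter.Eventually.of_forall fun x => ?_)
  simp only [Pi.add_apply, Real.cosh_eq, neg_mul]

lemma int_cosh (t : ℝ) : ∫ x : ℝ, Real.cosh (t * x) ∂(gaussianReal 0 1) = Real.exp (t ^ 2 / 2) := by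
  have h1 : ∀ x : ℝ, Real.cosh (t * x) = Real.exp (t * x) / 2 + Real.exp (-t * x) / 2 := by
    intro x
    rw [Real.cosh_eq, neg_mul]
    ring
  simp only [h1]
  rw [integral_add ((integrable_exp t).div_const 2) ((integrable_exp (-t)).div_const 2),
    integral_div, integral_div, int_exp, int_exp]
  rw [neg_sq]
  ring

lemma cosh_sinh_sq (u : ℝ) : Real.cosh u * Real.sinh u ^ 2 = Real.cosh (3 * u) / 4 - Real.cosh u / 4 := by
  have h := Real.cosh_three_mul u
  have h2 := Real.cosh_sq u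
  rw [h]
  have h3 : Real.sinh u ^ 2 = Real.cosh u ^ 2 - 1 := by linarith
  rw [h3]
  ring

/-- the site factors -/
noncomputable def k0 (r : ℝ) (x : ℝ) : ℝ := Real.exp (-(r ^ 2) / 2) * Real.cosh (r * x)

lemma k0_pos (r x : ℝ) : 0 < k0 r x := mul_pos (Real.exp_pos _) (Real.cosh_pos _)

lemma integrable_k0 (r : ℝ) : Integrable (k0 r) (gaussianReal 0 1) :=
  (integrable_cosh r).const_mul _

lemma int_k0 (r : ℝ) : ∫ x, k0 r x ∂(gaussianReal 0 1) = 1 := by
  unfold k0
  rw [integral_const_mul, int_cosh, ← Real.exp_add]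
  have : -(r ^ 2) / 2 + r ^ 2 / 2 = 0 := by ring
  rw [this, Real.exp_zero]

noncomputable def k1 (r : ℝ) (x : ℝ) : ℝ := k0 r x * Real.sinh (r * x) ^ 2

lemma k1_eq (r x : ℝ) : k1 r x = Real.exp (-(r ^ 2) / 2) / 4 * Real.cosh ((3 * r) * x) -
    Real.exp (-(r ^ 2) / 2) / 4 * Real.cosh (r * x) := by
  unfold k1 k0
  rw [mul_assoc, cosh_sinh_sq]
  have : 3 * (r * x) = 3 * r * x := by ring
  rw [this]
  ring

lemma integrable_k1 (r : ℝ) : Integrable (k1 r) (gaussianReal 0 1) := by
  have := ((integrable_cosh (3 * r)).const_mul (Real.exp (-(r ^ 2) / 2) / 4)).sub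
    ((integrable_cosh r).const_mul (Real.exp (-(r ^ 2) / 2) / 4))
  refine this.congr (Filter.Eventually.of_forall fun x => ?_)
  simp only [Pi.sub_apply]
  rw [k1_eq]

lemma int_k1 (r : ℝ) : ∫ x, k1 r x ∂(gaussianReal 0 1) = (Real.exp (4 * r ^ 2) - 1) / 4 := by
  simp only [k1_eq]
  rw [integral_sub ((integrable_cosh (3 * r)).const_mul _) ((integrable_cosh r).const_mul _),
    integral_const_mul, integral_const_mul, int_cosh, int_cosh]
  have h1 : Real.exp (-(r ^ 2) / 2) * Real.exp ((3 * r) ^ 2 / 2) = Real.exp (4 * r ^ 2) := by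
    rw [← Real.exp_add]
    congr 1
    ring
  have h2 : Real.exp (-(r ^ 2) / 2) * Real.exp (r ^ 2 / 2) = 1 := by
    rw [← Real.exp_add]
    have : -(r ^ 2) / 2 + r ^ 2 / 2 = 0 := by ring
    rw [this, Real.exp_zero]
  linear_combination h1 / 4 - h2 / 4

/-! ### Cauchy-Schwarz -/

lemma cs {X : Type} [MeasurableSpace X] (m : Measure X) (K n D : X → ℝ) (hK : ∀ x, 0 ≤ K x)
    (hD : ∀ x, 0 < D x) (h1 : Integrable (fun x => K x * n x) m)
    (h2 : Integrable (fun x => K x * D x) m) (h3 : Integrable (fun x => K x * (n x ^ 2 / D x)) m) :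
    (∫ x, K x * n x ∂m) ^ 2 / (∫ x, K x * D x ∂m) ≤ ∫ x, K x * (n x ^ 2 / D x) ∂m := by
  have hr : 0 ≤ ∫ x, K x * (n x ^ 2 / D x) ∂m := integral_nonneg fun x =>
    mul_nonneg (hK x) (div_nonneg (sq_nonneg _) (hD x).le)
  have hd : 0 ≤ ∫ x, K x * D x ∂m := integral_nonneg fun x => mul_nonneg (hK x) (hD x).le
  rcases hd.eq_or_lt with h0 | h0
  · rw [← h0, div_zero]; exact hr
  set c : ℝ := (∫ x, K x * n x ∂m) / (∫ x, K x * D x ∂m) with hc
  have h4 : 0 ≤ ∫ x, (K x * (n x ^ 2 / D x) - (2 * c) * (K x * n x) + c ^ 2 * (K x * D x)) ∂m := by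
    refine integral_nonneg fun x => ?_
    have hDx := hD x
    have : K x * (n x ^ 2 / D x) - (2 * c) * (K x * n x) + c ^ 2 * (K x * D x) =
        K x * ((n x - c * D x) ^ 2 / D x) := by
      field_simp
      ring
    show 0 ≤ K x * (n x ^ 2 / D x) - (2 * c) * (K x * n x) + c ^ 2 * (K x * D x)
    rw [this]
    exact mul_nonneg (hK x) (div_nonneg (sq_nonneg _) hDx.le)
  have h6 : ∫ x, (K x * (n x ^ 2 / D x) - (2 * c) * (K x * n x) + c ^ 2 * (K x * D x)) ∂m =
      ∫ x, K x * (n x ^ 2 / D x) ∂m - (2 * c) * ∫ x, K x * n x ∂m + c ^ 2 * ∫ x, K x * D x ∂m := by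
    have e1 : ∫ x, (K x * (n x ^ 2 / D x) - (2 * c) * (K x * n x) + c ^ 2 * (K x * D x)) ∂m =
        ∫ x, (K x * (n x ^ 2 / D x) - (2 * c) * (K x * n x)) ∂m + ∫ x, c ^ 2 * (K x * D x) ∂m :=
      integral_add (h3.sub (h1.const_mul _)) (h2.const_mul _)
    have e2 : ∫ x, (K x * (n x ^ 2 / D x) - (2 * c) * (K x * n x)) ∂m =
        ∫ x, K x * (n x ^ 2 / D x) ∂m - ∫ x, (2 * c) * (K x * n x) ∂m :=
      integral_sub h3 (h1.const_mul _)
    rw [e1, e2, integral_const_mul, integral_const_mul]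
  rw [h6] at h4
  have h5 : (∫ x, K x * n x ∂m) ^ 2 / (∫ x, K x * D x ∂m) =
      2 * c * (∫ x, K x * n x ∂m) - c ^ 2 * ∫ x, K x * D x ∂m := by
    rw [hc]
    field_simp
    ring
  rw [h5]
  linarith

/-! ### Densities -/

section Dens

variable {L A Om : Type} [Fintype L] [DecidableEq L] [Fintype A] [DecidableEq A] [Fintype Om]

/-- likelihood of the Gaussian observation -/
noncomputable def T (r : ℝ) (sg : Om → L → ℝ) (w : Om) (g : L ⊕ A → ℝ) : ℝ :=
  ∏ x, Real.exp (r * sg w x * g (Sum.inl x) - r ^ 2 / 2)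

lemma T_pos (r : ℝ) (sg : Om → L → ℝ) (w : Om) (g : L ⊕ A → ℝ) : 0 < T r sg w g :=
  Finset.prod_pos fun _ _ => Real.exp_pos _

/-- the tilting vector -/
noncomputable def tv (r : ℝ) (sg : Om → L → ℝ) (w : Om) : L ⊕ A → ℝ :=
  Sum.elim (fun x => r * sg w x) (fun _ => 0)

lemma T_eq (r : ℝ) (sg : Om → L → ℝ) (hs : ∀ w x, sg w x = 1 ∨ sg w x = -1) (w : Om)
    (g : L ⊕ A → ℝ) : T r sg w g =
      ∏ j, Real.exp (tv (A := A) r sg w j * g j - tv (A := A) r sg w j ^ 2 / 2) := by
  rw [Fintype.prod_sum_type]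
  have h2 : ∏ a : A, Real.exp (tv (A := A) r sg w (Sum.inr a) * g (Sum.inr a) -
      tv (A := A) r sg w (Sum.inr a) ^ 2 / 2) = 1 := by
    refine Finset.prod_eq_one fun a _ => ?_
    simp [tv]
  rw [h2, mul_one]
  unfold T
  refine Finset.prod_congr rfl fun x _ => ?_
  have h3 : (r * sg w x) ^ 2 = r ^ 2 := by
    rw [mul_pow]
    rcases hs w x with h | h <;> rw [h] <;> ring
  simp only [tv, Sum.elim_inl]
  rw [h3]

lemma T_continuous (r : ℝ) (sg : Om → L → ℝ) (w : Om) :
    Continuous (T (A := A) r sg w) := by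
  unfold T
  refine continuous_finsetProd _ fun x _ => ?_
  exact Real.continuous_exp.comp ((continuous_const.mul (continuous_apply _)).sub continuous_const)

lemma T_integrable (r : ℝ) (sg : Om → L → ℝ) (hs : ∀ w x, sg w x = 1 ∨ sg w x = -1) (w : Om) :
    Integrable (T (A := A) r sg w) (gm (L ⊕ A)) := by
  have h1 : T (A := A) r sg w = fun g => ∏ j, (fun j (y : ℝ) =>
      Real.exp (-(tv (A := A) r sg w j ^ 2) / 2) * Real.exp (tv (A := A) r sg w j * y)) j (g j) := by
    funext g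
    rw [T_eq r sg hs]
    refine Finset.prod_congr rfl fun j _ => ?_
    simp only
    rw [← Real.exp_add]
    congr 1
    ring
  rw [h1]
  exact Integrable.fintype_prod (f := fun j (y : ℝ) =>
      Real.exp (-(tv (A := A) r sg w j ^ 2) / 2) * Real.exp (tv (A := A) r sg w j * y))
      (fun j => (integrable_exp _).const_mul _)

/-- the kernel of the garbling -/
noncomputable def Ker (Q : A → L ⊕ A → ℝ) (Z : A → Bool) (g : L ⊕ A → ℝ) : ℝ :=
  ∏ a, (1 + bsg (Z a) * Real.sin (∑ j, Q a j * g j)) / 2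

lemma fac_bd (b : Bool) (v : ℝ) : 0 ≤ (1 + bsg b * Real.sin v) / 2 ∧
    (1 + bsg b * Real.sin v) / 2 ≤ 1 := by
  have h1 := Real.neg_one_le_sin v
  have h2 := Real.sin_le_one v
  rcases bsg_cases b with h | h <;> rw [h] <;> constructor <;> linarith

lemma Ker_nonneg (Q : A → L ⊕ A → ℝ) (Z : A → Bool) (g : L ⊕ A → ℝ) : 0 ≤ Ker Q Z g :=
  Finset.prod_nonneg fun _ _ => (fac_bd _ _).1

lemma Ker_le_one (Q : A → L ⊕ A → ℝ) (Z : A → Bool) (g : L ⊕ A → ℝ) : Ker Q Z g ≤ 1 :=
  Finset.prod_le_one (fun _ _ => (fac_bd _ _).1) fun _ _ => (fac_bd _ _).2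

lemma Ker_continuous (Q : A → L ⊕ A → ℝ) (Z : A → Bool) : Continuous (Ker Q Z) := by
  unfold Ker
  refine continuous_finsetProd _ fun a _ => ?_
  refine Continuous.div_const ?_ _
  refine continuous_const.add (continuous_const.mul (Real.continuous_sin.comp ?_))
  exact continuous_finsetSum _ fun j _ => continuous_const.mul (continuous_apply _)

lemma sum_Ker (Q : A → L ⊕ A → ℝ) (g : L ⊕ A → ℝ) : ∑ Z : A → Bool, Ker Q Z g = 1 := by
  have h := Finset.prod_univ_sum (fun _ : A => (Finset.univ : Finset Bool))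
    (fun a b => (1 + bsg b * Real.sin (∑ j, Q a j * g j)) / 2)
  rw [Fintype.piFinset_univ] at h
  unfold Ker
  rw [← h]
  refine Finset.prod_eq_one fun a _ => ?_
  simp [bsg]
  ring

noncomputable def nn (mu F : Om → ℝ) (r : ℝ) (sg : Om → L → ℝ) (g : L ⊕ A → ℝ) : ℝ :=
  ∑ w, mu w * F w * T r sg w g

noncomputable def DD (mu : Om → ℝ) (r : ℝ) (sg : Om → L → ℝ) (g : L ⊕ A → ℝ) : ℝ :=
  ∑ w, mu w * T r sg w g

lemma DD_pos (mu : Om → ℝ) (hmu : ∀ w, 0 ≤ mu w) (hpos : 0 < ∑ w, mu w) (r : ℝ)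
    (sg : Om → L → ℝ) (g : L ⊕ A → ℝ) : 0 < DD mu r sg g := by
  unfold DD
  obtain ⟨w, _, hw⟩ := Finset.exists_ne_zero_of_sum_ne_zero hpos.ne'
  refine Finset.sum_pos' (fun w _ => mul_nonneg (hmu w) (T_pos r sg w g).le)
    ⟨w, Finset.mem_univ _, ?_⟩
  exact mul_pos (lt_of_le_of_ne (hmu w) (Ne.symm hw)) (T_pos r sg w g)

lemma nn_continuous (mu F : Om → ℝ) (r : ℝ) (sg : Om → L → ℝ) :
    Continuous (nn (A := A) mu F r sg) := by
  unfold nn
  exact continuous_finsetSum _ fun w _ => continuous_const.mul (T_continuous r sg w)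

lemma DD_continuous (mu : Om → ℝ) (r : ℝ) (sg : Om → L → ℝ) :
    Continuous (DD (A := A) mu r sg) := by
  unfold DD
  exact continuous_finsetSum _ fun w _ => continuous_const.mul (T_continuous r sg w)

lemma nn_integrable (mu F : Om → ℝ) (r : ℝ) (sg : Om → L → ℝ)
    (hs : ∀ w x, sg w x = 1 ∨ sg w x = -1) : Integrable (nn (A := A) mu F r sg) (gm (L ⊕ A)) := by
  unfold nn
  exact integrable_finsetSum _ fun w _ => (T_integrable r sg hs w).const_mul _

lemma DD_integrable (mu : Om → ℝ) (r : ℝ) (sg : Om → L → ℝ)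
    (hs : ∀ w x, sg w x = 1 ∨ sg w x = -1) : Integrable (DD (A := A) mu r sg) (gm (L ⊕ A)) := by
  unfold DD
  exact integrable_finsetSum _ fun w _ => (T_integrable r sg hs w).const_mul _

lemma abs_nn_le (mu F : Om → ℝ) (hmu : ∀ w, 0 ≤ mu w) (r : ℝ) (sg : Om → L → ℝ)
    (g : L ⊕ A → ℝ) : |nn mu F r sg g| ≤ (∑ w, |F w|) * DD mu r sg g := by
  unfold nn DD
  rw [Finset.mul_sum]
  refine (Finset.abs_sum_le_sum_abs _ _).trans (Finset.sum_le_sum fun w _ => ?_)
  rw [abs_mul, abs_mul, abs_of_nonneg (hmu w), abs_of_pos (T_pos r sg w g)]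
  have h1 : |F w| ≤ ∑ w, |F w| :=
    Finset.single_le_sum (f := fun w => |F w|) (fun w _ => abs_nonneg _) (Finset.mem_univ w)
  have h2 : 0 ≤ mu w * T r sg w g := mul_nonneg (hmu w) (T_pos r sg w g).le
  nlinarith

/-- the conditional second moment density -/
noncomputable def Ph (mu F : Om → ℝ) (r : ℝ) (sg : Om → L → ℝ) (g : L ⊕ A → ℝ) : ℝ :=
  nn mu F r sg g ^ 2 / DD mu r sg g

lemma Ph_nonneg (mu F : Om → ℝ) (hmu : ∀ w, 0 ≤ mu w) (hpos : 0 < ∑ w, mu w) (r : ℝ)
    (sg : Om → L → ℝ) (g : L ⊕ A → ℝ) : 0 ≤ Ph mu F r sg g :=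
  div_nonneg (sq_nonneg _) (DD_pos mu hmu hpos r sg g).le

lemma Ph_le (mu F : Om → ℝ) (hmu : ∀ w, 0 ≤ mu w) (hpos : 0 < ∑ w, mu w) (r : ℝ)
    (sg : Om → L → ℝ) (g : L ⊕ A → ℝ) : Ph mu F r sg g ≤ (∑ w, |F w|) ^ 2 * DD mu r sg g := by
  have hD := DD_pos mu hmu hpos r sg g
  unfold Ph
  rw [div_le_iff₀ hD]
  have h := abs_nn_le mu F hmu r sg g
  have h2 : nn mu F r sg g ^ 2 ≤ ((∑ w, |F w|) * DD mu r sg g) ^ 2 := by
    rw [← sq_abs]
    exact pow_le_pow_left₀ (abs_nonneg _) h 2
  calc nn mu F r sg g ^ 2 ≤ ((∑ w, |F w|) * DD mu r sg g) ^ 2 := h2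
    _ = (∑ w, |F w|) ^ 2 * DD mu r sg g * DD mu r sg g := by ring

lemma Ph_continuous (mu F : Om → ℝ) (hmu : ∀ w, 0 ≤ mu w) (hpos : 0 < ∑ w, mu w) (r : ℝ)
    (sg : Om → L → ℝ) : Continuous (Ph (A := A) mu F r sg) := by
  unfold Ph
  exact ((nn_continuous mu F r sg).pow 2).div (DD_continuous mu r sg)
    fun g => (DD_pos mu hmu hpos r sg g).ne'

lemma Ph_integrable (mu F : Om → ℝ) (hmu : ∀ w, 0 ≤ mu w) (hpos : 0 < ∑ w, mu w) (r : ℝ)
    (sg : Om → L → ℝ) (hs : ∀ w x, sg w x = 1 ∨ sg w x = -1) :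
    Integrable (Ph (A := A) mu F r sg) (gm (L ⊕ A)) := by
  refine ((DD_integrable mu r sg hs).const_mul ((∑ w, |F w|) ^ 2)).mono
    (Ph_continuous mu F hmu hpos r sg).aestronglyMeasurable
    (Filter.Eventually.of_forall fun g => ?_)
  rw [Real.norm_eq_abs, Real.norm_eq_abs, abs_of_nonneg (Ph_nonneg mu F hmu hpos r sg g)]
  exact (Ph_le mu F hmu hpos r sg g).trans (le_abs_self _)

lemma Ker_mul_integrable (Q : A → L ⊕ A → ℝ) (Z : A → Bool) {f : (L ⊕ A → ℝ) → ℝ}
    (hf : Integrable f (gm (L ⊕ A))) : Integrable (fun g => Ker Q Z g * f g) (gm (L ⊕ A)) := by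
  refine hf.mono ((Ker_continuous Q Z).aestronglyMeasurable.mul hf.aestronglyMeasurable)
    (Filter.Eventually.of_forall fun g => ?_)
  rw [norm_mul, Real.norm_eq_abs, abs_of_nonneg (Ker_nonneg Q Z g)]
  exact mul_le_of_le_one_left (norm_nonneg _) (Ker_le_one Q Z g)

/-- probability of the outcome `Z` of the sine channel -/
noncomputable def pc (N : A → L → ℝ) (b : ℝ) (sg : Om → L → ℝ) (Z : A → Bool) (w : Om) : ℝ :=
  ∏ a, (1 + bsg (Z a) * Real.exp (-1 / 2) * Real.sin (Real.sqrt b * ∑ x, N a x * sg w x)) / 2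

/-- data processing -/
lemma data (mu F : Om → ℝ) (hmu : ∀ w, 0 ≤ mu w) (hpos : 0 < ∑ w, mu w)
    (sg : Om → L → ℝ) (hs : ∀ w x, sg w x = 1 ∨ sg w x = -1) (N : A → L → ℝ) (nu b : ℝ)
    (hnu : 0 < nu) (hN : ∀ v : L → ℝ, ∑ a, (∑ x, N a x * v x) ^ 2 ≤ nu ^ 2 * ∑ x, v x ^ 2) :
    ∑ Z : A → Bool, (∑ w, mu w * F w * pc N b sg Z w) ^ 2 / (∑ w, mu w * pc N b sg Z w) ≤
      ∫ g, Ph mu F (Real.sqrt b * nu) sg g ∂(gm (L ⊕ A)) := by
  set r := Real.sqrt b * nu with hr
  obtain ⟨R, hR⟩ := psd_one_sub (fun a x => N a x / nu) (fun v => by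
    have h1 : ∀ a, ∑ x, N a x / nu * v x = (∑ x, N a x * v x) / nu := by
      intro a
      rw [Finset.sum_div]
      refine Finset.sum_congr rfl fun x _ => ?_
      ring
    simp only [h1, div_pow]
    rw [← Finset.sum_div, div_le_iff₀ (by positivity), mul_comm]
    exact hN v)
  set Q : A → L ⊕ A → ℝ := fun a => Sum.elim (fun x => N a x / nu) (fun c => R a c) with hQ
  have hQo : ∀ a c, ∑ j, Q a j * Q c j = if a = c then 1 else 0 := by
    intro a c
    rw [Fintype.sum_sum_type]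
    simpa [hQ] using hR a c
  have hv : ∀ w a, ∑ j, Q a j * tv (A := A) r sg w j = Real.sqrt b * ∑ x, N a x * sg w x := by
    intro w a
    rw [Fintype.sum_sum_type]
    simp only [hQ, tv, Sum.elim_inl, Sum.elim_inr, mul_zero, Finset.sum_const_zero, add_zero]
    rw [Finset.mul_sum]
    refine Finset.sum_congr rfl fun x _ => ?_
    rw [hr]
    field_simp
  have hI : ∀ Z w, ∫ g, Ker Q Z g * T r sg w g ∂(gm (L ⊕ A)) = pc N b sg Z w := by
    intro Z w
    have h1 := sine_id Q hQo (tv (A := A) r sg w) Z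
    simp only [hv] at h1
    unfold pc
    rw [← h1]
    refine integral_congr_ae (Filter.Eventually.of_forall fun g => ?_)
    simp only [T_eq r sg hs]
    rfl
  have hn : ∀ Z, ∫ g, Ker Q Z g * nn mu F r sg g ∂(gm (L ⊕ A)) = ∑ w, mu w * F w * pc N b sg Z w := by
    intro Z
    have h1 : ∀ g, Ker Q Z g * nn mu F r sg g = ∑ w, (mu w * F w) * (Ker Q Z g * T r sg w g) := by
      intro g
      unfold nn
      rw [Finset.mul_sum]
      refine Finset.sum_congr rfl fun w _ => ?_
      ring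
    simp only [h1]
    rw [integral_finsetSum _ fun w _ => (Ker_mul_integrable Q Z (T_integrable r sg hs w)).const_mul _]
    refine Finset.sum_congr rfl fun w _ => ?_
    rw [integral_const_mul, hI]
  have hd : ∀ Z, ∫ g, Ker Q Z g * DD mu r sg g ∂(gm (L ⊕ A)) = ∑ w, mu w * pc N b sg Z w := by
    intro Z
    have h1 : ∀ g, Ker Q Z g * DD mu r sg g = ∑ w, mu w * (Ker Q Z g * T r sg w g) := by
      intro g
      unfold DD
      rw [Finset.mul_sum]
      refine Finset.sum_congr rfl fun w _ => ?_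
      ring
    simp only [h1]
    rw [integral_finsetSum _ fun w _ => (Ker_mul_integrable Q Z (T_integrable r sg hs w)).const_mul _]
    refine Finset.sum_congr rfl fun w _ => ?_
    rw [integral_const_mul, hI]
  have hPi := Ph_integrable (A := A) mu F hmu hpos r sg hs
  calc ∑ Z : A → Bool, (∑ w, mu w * F w * pc N b sg Z w) ^ 2 / (∑ w, mu w * pc N b sg Z w)
      ≤ ∑ Z : A → Bool, ∫ g, Ker Q Z g * Ph mu F r sg g ∂(gm (L ⊕ A)) := by
        refine Finset.sum_le_sum fun Z _ => ?_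
        rw [← hn, ← hd]
        exact cs (gm (L ⊕ A)) (Ker Q Z) (nn mu F r sg) (DD mu r sg) (Ker_nonneg Q Z)
          (fun g => DD_pos mu hmu hpos r sg g)
          (Ker_mul_integrable Q Z (nn_integrable mu F r sg hs))
          (Ker_mul_integrable Q Z (DD_integrable mu r sg hs))
          (Ker_mul_integrable Q Z hPi)
    _ = ∫ g, Ph mu F r sg g ∂(gm (L ⊕ A)) := by
        rw [← integral_finsetSum _ fun Z _ => Ker_mul_integrable Q Z hPi]
        refine integral_congr_ae (Filter.Eventually.of_forall fun g => ?_)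
        simp only
        rw [← Finset.sum_mul, sum_Ker, one_mul]

/-! ### Symmetrisation -/

/-- signs of the coordinates -/
noncomputable def sn (ε : L → Bool) : L ⊕ A → ℝ := Sum.elim (fun x => bsg (ε x)) (fun _ => 1)

lemma sn_cases (ε : L → Bool) (j : L ⊕ A) : sn (A := A) ε j = 1 ∨ sn (A := A) ε j = -1 := by
  rcases j with x | a
  · exact bsg_cases (ε x)
  · left; rfl

lemma mp_sn (ε : L → Bool) : MeasurePreserving
    (fun (g : L ⊕ A → ℝ) (j : L ⊕ A) => sn (A := A) ε j * g j) (gm (L ⊕ A)) (gm (L ⊕ A)) := by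
  refine measurePreserving_pi (fun _ : L ⊕ A => gaussianReal 0 1) (fun _ : L ⊕ A => gaussianReal 0 1)
    (f := fun j (y : ℝ) => sn (A := A) ε j * y) (fun j => ?_)
  rcases sn_cases (A := A) ε j with h | h
  · rw [h]
    have : (fun y : ℝ => 1 * y) = id := by funext y; simp
    rw [this]
    exact MeasurePreserving.id _
  · rw [h]
    have : (fun y : ℝ => -1 * y) = fun y => -y := by funext y; ring
    rw [this]
    refine ⟨measurable_neg, ?_⟩
    rw [gaussianReal_map_neg, neg_zero]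

/-- the symmetric density -/
noncomputable def kap (r : ℝ) (g : L ⊕ A → ℝ) : ℝ := ∏ x : L, k0 r (g (Sum.inl x))

lemma kap_pos (r : ℝ) (g : L ⊕ A → ℝ) : 0 < kap r g := Finset.prod_pos fun _ _ => k0_pos _ _

lemma T_sn (r : ℝ) (sg : Om → L → ℝ) (hs : ∀ w x, sg w x = 1 ∨ sg w x = -1) (ε : L → Bool)
    (w : Om) (g : L ⊕ A → ℝ) : T r sg w (fun j => sn (A := A) ε j * g j) =
      kap r g * ∏ x, (1 + bsg (ε x) * Real.tanh (r * g (Sum.inl x)) * sg w x) := by
  unfold T kap
  rw [← Finset.prod_mul_distrib]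
  refine Finset.prod_congr rfl fun x _ => ?_
  have hc : Real.cosh (r * g (Sum.inl x)) ≠ 0 := (Real.cosh_pos _).ne'
  have h1 : ∀ s : ℝ, (s = 1 ∨ s = -1) → Real.exp (s * (r * g (Sum.inl x))) =
      Real.cosh (r * g (Sum.inl x)) * (1 + s * Real.tanh (r * g (Sum.inl x))) := by
    intro s hs'
    rw [Real.tanh_eq_sinh_div_cosh]
    have h2 : Real.cosh (r * g (Sum.inl x)) * (1 + s * (Real.sinh (r * g (Sum.inl x)) /
        Real.cosh (r * g (Sum.inl x)))) = Real.cosh (r * g (Sum.inl x)) +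
          s * Real.sinh (r * g (Sum.inl x)) := by
      field_simp
    rw [h2, Real.cosh_eq, Real.sinh_eq]
    rcases hs' with rfl | rfl
    · rw [one_mul]; ring
    · rw [neg_one_mul]; ring
  have h3 : bsg (ε x) * sg w x = 1 ∨ bsg (ε x) * sg w x = -1 := by
    rcases bsg_cases (ε x) with h | h <;> rcases hs w x with h' | h' <;> rw [h, h'] <;> norm_num
  have h4 : r * sg w x * (sn (A := A) ε (Sum.inl x) * g (Sum.inl x)) - r ^ 2 / 2 =
      -(r ^ 2) / 2 + (bsg (ε x) * sg w x) * (r * g (Sum.inl x)) := by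
    simp only [sn, Sum.elim_inl]
    ring
  simp only
  rw [h4, Real.exp_add, h1 _ h3]
  unfold k0
  ring

/-- the final density -/
noncomputable def Ps (r : ℝ) (G : L → ℝ) (m : ℝ) (g : L ⊕ A → ℝ) : ℝ :=
  kap r g * ((∑ x, Real.sinh (r * g (Sum.inl x)) ^ 2 * G x ^ 2) * m)

lemma sym_bound (mu F : Om → ℝ) (hmu : ∀ w, 0 ≤ mu w) (hpos : 0 < ∑ w, mu w) (r : ℝ)
    (sg : Om → L → ℝ) (hs : ∀ w x, sg w x = 1 ∨ sg w x = -1) (hF : ∑ w, mu w * F w = 0)
    (G : L → ℝ) (hD : DssH mu sg F G) (g : L ⊕ A → ℝ) :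
    ∑ ε : L → Bool, Ph mu F r sg (fun j => sn (A := A) ε j * g j) ≤
      2 ^ Fintype.card L * Ps r G (∑ w, mu w) g := by
  have hk := kap_pos r g
  have h1 : ∀ ε : L → Bool, Ph mu F r sg (fun j => sn (A := A) ε j * g j) =
      kap r g * ((∑ w, mu w * F w * ∏ x, (1 + bsg (ε x) * Real.tanh (r * g (Sum.inl x)) * sg w x)) ^ 2 /
        (∑ w, mu w * ∏ x, (1 + bsg (ε x) * Real.tanh (r * g (Sum.inl x)) * sg w x))) := by
    intro ε
    unfold Ph nn DD
    simp only [T_sn r sg hs ε]
    have e1 : ∑ w, mu w * F w * (kap r g * ∏ x, (1 + bsg (ε x) * Real.tanh (r * g (Sum.inl x)) * sg w x)) =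
        kap r g * ∑ w, mu w * F w * ∏ x, (1 + bsg (ε x) * Real.tanh (r * g (Sum.inl x)) * sg w x) := by
      rw [Finset.mul_sum]
      refine Finset.sum_congr rfl fun w _ => ?_
      ring
    have e2 : ∑ w, mu w * (kap r g * ∏ x, (1 + bsg (ε x) * Real.tanh (r * g (Sum.inl x)) * sg w x)) =
        kap r g * ∑ w, mu w * ∏ x, (1 + bsg (ε x) * Real.tanh (r * g (Sum.inl x)) * sg w x) := by
      rw [Finset.mul_sum]
      refine Finset.sum_congr rfl fun w _ => ?_
      ring
    rw [e1, e2, mul_pow, sq (kap r g), mul_assoc, mul_div_mul_left _ _ hk.ne', mul_div_assoc]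
  simp only [h1]
  rw [← Finset.mul_sum]
  have h2 := bin_site mu hmu hpos sg hs F hF G hD (fun x => Real.tanh (r * g (Sum.inl x)))
    (fun x => Real.abs_tanh_lt_one _)
  have h3 : ∀ x, Real.tanh (r * g (Sum.inl x)) ^ 2 / (1 - Real.tanh (r * g (Sum.inl x)) ^ 2) =
      Real.sinh (r * g (Sum.inl x)) ^ 2 := by
    intro x
    have hc : Real.cosh (r * g (Sum.inl x)) ≠ 0 := (Real.cosh_pos _).ne'
    have hcs := Real.cosh_sq (r * g (Sum.inl x))
    rw [Real.tanh_eq_sinh_div_cosh, div_pow]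
    have h4 : 1 - Real.sinh (r * g (Sum.inl x)) ^ 2 / Real.cosh (r * g (Sum.inl x)) ^ 2 =
        1 / Real.cosh (r * g (Sum.inl x)) ^ 2 := by
      field_simp
      linarith
    rw [h4]
    field_simp
  simp only [h3] at h2
  calc kap r g * ∑ ε : L → Bool, (∑ w, mu w * F w * ∏ x, (1 + bsg (ε x) *
        Real.tanh (r * g (Sum.inl x)) * sg w x)) ^ 2 /
        (∑ w, mu w * ∏ x, (1 + bsg (ε x) * Real.tanh (r * g (Sum.inl x)) * sg w x))
      ≤ kap r g * (2 ^ Fintype.card L * ((∑ x, Real.sinh (r * g (Sum.inl x)) ^ 2 * G x ^ 2) *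
        ∑ w, mu w)) := mul_le_mul_of_nonneg_left h2 hk.le
    _ = 2 ^ Fintype.card L * Ps r G (∑ w, mu w) g := by
        unfold Ps
        ring

/-- one site -/
noncomputable def fx (r : ℝ) (x : L) : L ⊕ A → ℝ → ℝ :=
  Sum.elim (fun y => if y = x then k1 r else k0 r) (fun _ _ => 1)

lemma fx_integrable (r : ℝ) (x : L) (j : L ⊕ A) : Integrable (fx (A := A) r x j) (gaussianReal 0 1) := by
  rcases j with y | a
  · by_cases h : y = x
    · simpa [fx, h] using integrable_k1 r
    · simpa [fx, h] using integrable_k0 r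
  · exact integrable_const _

lemma fx_prod (r : ℝ) (x : L) (g : L ⊕ A → ℝ) : ∏ j, fx (A := A) r x j (g j) =
    kap r g * Real.sinh (r * g (Sum.inl x)) ^ 2 := by
  rw [Fintype.prod_sum_type]
  have h2 : ∏ a : A, fx (A := A) r x (Sum.inr a) (g (Sum.inr a)) = 1 :=
    Finset.prod_eq_one fun a _ => rfl
  rw [h2, mul_one]
  unfold kap
  rw [← Finset.mul_prod_erase Finset.univ (fun y : L => fx (A := A) r x (Sum.inl y) (g (Sum.inl y)))
    (Finset.mem_univ x), ← Finset.mul_prod_erase Finset.univ (fun y : L => k0 r (g (Sum.inl y)))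
    (Finset.mem_univ x)]
  have h3 : ∏ y ∈ Finset.univ.erase x, fx (A := A) r x (Sum.inl y) (g (Sum.inl y)) =
      ∏ y ∈ Finset.univ.erase x, k0 r (g (Sum.inl y)) := by
    refine Finset.prod_congr rfl fun y hy => ?_
    have : y ≠ x := (Finset.mem_erase.1 hy).1
    simp [fx, this]
  rw [h3]
  simp only [fx, Sum.elim_inl, if_true]
  unfold k1
  ring

lemma fx_int (r : ℝ) (x : L) : ∫ g, ∏ j, fx (A := A) r x j (g j) ∂(gm (L ⊕ A)) =
    (Real.exp (4 * r ^ 2) - 1) / 4 := by
  rw [integral_fintype_prod_eq_prod (fx (A := A) r x), Fintype.prod_sum_type]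
  have h2 : ∏ a : A, ∫ y, fx (A := A) r x (Sum.inr a) y ∂(gaussianReal 0 1) = 1 := by
    refine Finset.prod_eq_one fun a _ => ?_
    simp [fx]
  rw [h2, mul_one, ← Finset.mul_prod_erase Finset.univ
    (fun y : L => ∫ z, fx (A := A) r x (Sum.inl y) z ∂(gaussianReal 0 1)) (Finset.mem_univ x)]
  have h3 : ∏ y ∈ Finset.univ.erase x, ∫ z, fx (A := A) r x (Sum.inl y) z ∂(gaussianReal 0 1) = 1 := by
    refine Finset.prod_eq_one fun y hy => ?_
    have : y ≠ x := (Finset.mem_erase.1 hy).1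
    simp only [fx, Sum.elim_inl, this, if_false]
    exact int_k0 r
  rw [h3, mul_one]
  simp only [fx, Sum.elim_inl, if_true]
  exact int_k1 r

lemma Ps_eq (r : ℝ) (G : L → ℝ) (m : ℝ) (g : L ⊕ A → ℝ) : Ps r G m g =
    ∑ x, (G x ^ 2 * m) * ∏ j, fx (A := A) r x j (g j) := by
  simp only [fx_prod]
  unfold Ps
  rw [Finset.sum_mul, Finset.mul_sum]
  refine Finset.sum_congr rfl fun x _ => ?_
  ring

lemma Ps_integrable (r : ℝ) (G : L → ℝ) (m : ℝ) : Integrable (Ps (A := A) r G m) (gm (L ⊕ A)) := by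
  have h : Ps (A := A) r G m = fun g => ∑ x, (G x ^ 2 * m) * ∏ j, fx (A := A) r x j (g j) := by
    funext g; exact Ps_eq r G m g
  rw [h]
  exact integrable_finsetSum _ fun x _ =>
    (Integrable.fintype_prod (f := fx (A := A) r x) (fx_integrable r x)).const_mul _

lemma Ps_int (r : ℝ) (G : L → ℝ) (m : ℝ) : ∫ g, Ps (A := A) r G m g ∂(gm (L ⊕ A)) =
    (Real.exp (4 * r ^ 2) - 1) / 4 * (∑ x, G x ^ 2) * m := by
  simp only [Ps_eq]
  rw [integral_finsetSum _ fun x _ =>
    (Integrable.fintype_prod (f := fx (A := A) r x) (fx_integrable r x)).const_mul _]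
  simp only [integral_const_mul, fx_int]
  rw [Finset.mul_sum, Finset.sum_mul]
  refine Finset.sum_congr rfl fun x _ => ?_
  ring

lemma Ph_int_le (mu F : Om → ℝ) (hmu : ∀ w, 0 ≤ mu w) (hpos : 0 < ∑ w, mu w) (r : ℝ)
    (sg : Om → L → ℝ) (hs : ∀ w x, sg w x = 1 ∨ sg w x = -1) (hF : ∑ w, mu w * F w = 0)
    (G : L → ℝ) (hD : DssH mu sg F G) :
    ∫ g, Ph mu F r sg g ∂(gm (L ⊕ A)) ≤
      (Real.exp (4 * r ^ 2) - 1) / 4 * (∑ x, G x ^ 2) * ∑ w, mu w := by
  have hPi := Ph_integrable (A := A) mu F hmu hpos r sg hs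
  have h1 : ∀ ε : L → Bool, ∫ g, Ph mu F r sg (fun j => sn (A := A) ε j * g j) ∂(gm (L ⊕ A)) =
      ∫ g, Ph mu F r sg g ∂(gm (L ⊕ A)) := by
    intro ε
    have hm := mp_sn (A := A) ε
    have := integral_map hm.measurable.aemeasurable (f := Ph mu F r sg)
      (by rw [hm.map_eq]; exact hPi.aestronglyMeasurable)
    rw [hm.map_eq] at this
    exact this.symm
  have h2 : ∀ ε : L → Bool, Integrable (fun g => Ph mu F r sg (fun j => sn (A := A) ε j * g j))
      (gm (L ⊕ A)) := by
    intro ε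
    exact (mp_sn (A := A) ε).integrable_comp_of_integrable hPi
  have h3 : (2 : ℝ) ^ Fintype.card L * ∫ g, Ph mu F r sg g ∂(gm (L ⊕ A)) =
      ∫ g, ∑ ε : L → Bool, Ph mu F r sg (fun j => sn (A := A) ε j * g j) ∂(gm (L ⊕ A)) := by
    rw [integral_finsetSum _ fun ε _ => h2 ε]
    simp only [h1]
    rw [Finset.sum_const, Finset.card_univ, Fintype.card_fun, Fintype.card_bool, nsmul_eq_mul]
    push_cast
    ring
  have h4 : ∫ g, ∑ ε : L → Bool, Ph mu F r sg (fun j => sn (A := A) ε j * g j) ∂(gm (L ⊕ A)) ≤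
      ∫ g, 2 ^ Fintype.card L * Ps (A := A) r G (∑ w, mu w) g ∂(gm (L ⊕ A)) := by
    refine integral_mono (integrable_finsetSum _ fun ε _ => h2 ε) ((Ps_integrable r G _).const_mul _)
      fun g => ?_
    exact sym_bound mu F hmu hpos r sg hs hF G hD g
  rw [integral_const_mul, Ps_int, ← h3] at h4
  exact le_of_mul_le_mul_left h4 (by positivity)

end Dens

end GAUM

open GAUM in
/-- THEOREM GAU: the information of the sine channel. -/
theorem gau {L A Om : Type} [Fintype L] [DecidableEq L] [Fintype A] [DecidableEq A] [Fintype Om]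
    (mu F : Om → ℝ) (hmu : ∀ w, 0 ≤ mu w) (hpos : 0 < ∑ w, mu w)
    (sg : Om → L → ℝ) (hs : ∀ w x, sg w x = 1 ∨ sg w x = -1) (N : A → L → ℝ) (nu b : ℝ)
    (hnu : 0 < nu) (hb : 0 ≤ b)
    (hN : ∀ v : L → ℝ, ∑ a, (∑ x, N a x * v x) ^ 2 ≤ nu ^ 2 * ∑ x, v x ^ 2)
    (hF : ∑ w, mu w * F w = 0) (G : L → ℝ) (hD : DssH mu sg F G) :
    ∑ Z : A → Bool,
      (∑ w, mu w * F w * ∏ a, (1 + bsg (Z a) * Real.exp (-1 / 2) *
        Real.sin (Real.sqrt b * ∑ x, N a x * sg w x)) / 2) ^ 2 /
      (∑ w, mu w * ∏ a, (1 + bsg (Z a) * Real.exp (-1 / 2) *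
        Real.sin (Real.sqrt b * ∑ x, N a x * sg w x)) / 2) ≤
      (Real.exp (4 * (b * nu ^ 2)) - 1) / 4 * (∑ x, G x ^ 2) * ∑ w, mu w := by
  have h1 := data mu F hmu hpos sg hs N nu b hnu hN
  have h2 := Ph_int_le (A := A) mu F hmu hpos (Real.sqrt b * nu) sg hs hF G hD
  have h3 : (Real.sqrt b * nu) ^ 2 = b * nu ^ 2 := by
    rw [mul_pow, Real.sq_sqrt hb]
  rw [h3] at h2
  exact h1.trans h2

end UN

end MP8622
end

section
set_option autoImplicit false

/-!
MP_8622f1_pr, block UN (unimodular case): the FKG inequality from the lattice condition for pairs.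
-/

namespace MP8622

namespace UN

namespace FKGM

variable {V : Type} [DecidableEq V]

/-- the lattice condition for pairs -/
def Pairs (L : Finset V) (w : Finset V → ℝ) : Prop :=
  ∀ S : Finset V, S ⊆ L → ∀ x ∈ L, ∀ y ∈ L, x ≠ y → x ∉ S → y ∉ S →
    w (insert x S) * w (insert y S) ≤ w S * w (insert x (insert y S))

/-- adding a set `T` increases the ratio `w (insert x S) / w S` -/
theorem ratio_mono {L : Finset V} {w : Finset V → ℝ} (hpos : ∀ S : Finset V, S ⊆ L → 0 < w S)
    (hp : Pairs L w) {x : V} (hx : x ∈ L) (S : Finset V) (hS : S ⊆ L) (hxS : x ∉ S) :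
    ∀ T : Finset V, T ⊆ L → x ∉ T →
      w (insert x S) * w (S ∪ T) ≤ w S * w (insert x (S ∪ T)) := by
  intro T
  induction T using Finset.induction_on with
  | empty => intro _ _; simp [mul_comm]
  | insert y T hy ih =>
    intro hT hxT
    have hyL : y ∈ L := hT (Finset.mem_insert_self _ _)
    have hTL : T ⊆ L := (Finset.subset_insert _ _).trans hT
    have hxT' : x ∉ T := fun h => hxT (Finset.mem_insert_of_mem h)
    have hxy : x ≠ y := by rintro rfl; exact hxT (Finset.mem_insert_self _ _)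
    have h1 := ih hTL hxT'
    by_cases hyS : y ∈ S ∪ T
    · have e1 : S ∪ insert y T = S ∪ T := by
        rw [Finset.union_insert, Finset.insert_eq_of_mem hyS]
      rw [e1]; exact h1
    · have hU : S ∪ T ⊆ L := Finset.union_subset hS hTL
      have hxU : x ∉ S ∪ T := by
        rw [Finset.mem_union]; rintro (h | h)
        · exact hxS h
        · exact hxT' h
      have h2 := hp (S ∪ T) hU x hx y hyL hxy hxU hyS
      have e1 : S ∪ insert y T = insert y (S ∪ T) := Finset.union_insert _ _ _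
      rw [e1]
      have p1 := hpos (S ∪ T) hU
      have p2 := hpos S hS
      have p3 := hpos (insert x S) (Finset.insert_subset hx hS)
      have p4 := hpos (insert y (S ∪ T)) (Finset.insert_subset hyL hU)
      have p5 := hpos (insert x (S ∪ T)) (Finset.insert_subset hx hU)
      have h3 : w (insert x S) * w (insert y (S ∪ T)) * w (S ∪ T)
          ≤ w S * w (insert x (insert y (S ∪ T))) * w (S ∪ T) := by
        calc w (insert x S) * w (insert y (S ∪ T)) * w (S ∪ T)
            = (w (insert x S) * w (S ∪ T)) * w (insert y (S ∪ T)) := by ring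
          _ ≤ (w S * w (insert x (S ∪ T))) * w (insert y (S ∪ T)) :=
              mul_le_mul_of_nonneg_right h1 p4.le
          _ = w S * (w (insert x (S ∪ T)) * w (insert y (S ∪ T))) := by ring
          _ ≤ w S * (w (S ∪ T) * w (insert x (insert y (S ∪ T)))) :=
              mul_le_mul_of_nonneg_left h2 p2.le
          _ = _ := by ring
      exact le_of_mul_le_mul_right h3 p1

/-- the lattice condition -/
theorem lattice {L : Finset V} {w : Finset V → ℝ} (hpos : ∀ S : Finset V, S ⊆ L → 0 < w S)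
    (hp : Pairs L w) : ∀ S T : Finset V, S ⊆ L → T ⊆ L → w S * w T ≤ w (S ∩ T) * w (S ∪ T) := by
  -- add the points of `A` one after the other
  have key : ∀ (C T : Finset V), C ⊆ T → T ⊆ L → ∀ A : Finset V, A ⊆ L → Disjoint A T →
      w (C ∪ A) * w T ≤ w C * w (T ∪ A) := by
    intro C T hCT hT A
    induction A using Finset.induction_on with
    | empty => intro _ _; simp
    | insert y A hy ih =>
      intro hA hd
      have hyL : y ∈ L := hA (Finset.mem_insert_self _ _)
      have hAL : A ⊆ L := (Finset.subset_insert _ _).trans hA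
      rw [Finset.disjoint_insert_left] at hd
      have h1 := ih hAL hd.2
      have hC : C ⊆ L := hCT.trans hT
      have hyCA : y ∉ C ∪ A := by
        rw [Finset.mem_union]; rintro (h | h)
        · exact hd.1 (hCT h)
        · exact hy h
      have h2 := ratio_mono hpos hp hyL (C ∪ A) (Finset.union_subset hC hAL) hyCA T hT hd.1
      have e1 : C ∪ A ∪ T = T ∪ A := by
        ext z
        simp only [Finset.mem_union]
        constructor
        · rintro ((h | h) | h)
          · exact Or.inl (hCT h)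
          · exact Or.inr h
          · exact Or.inl h
        · rintro (h | h)
          · exact Or.inr h
          · exact Or.inl (Or.inr h)
      rw [e1] at h2
      have e2 : C ∪ insert y A = insert y (C ∪ A) := Finset.union_insert _ _ _
      have e3 : T ∪ insert y A = insert y (T ∪ A) := Finset.union_insert _ _ _
      rw [e2, e3]
      have p1 := hpos (C ∪ A) (Finset.union_subset hC hAL)
      have p2 := hpos C hC
      have p3 := hpos T hT
      have p4 := hpos (T ∪ A) (Finset.union_subset hT hAL)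
      have p5 := hpos (insert y (C ∪ A)) (Finset.insert_subset hyL (Finset.union_subset hC hAL))
      have p6 := hpos (insert y (T ∪ A)) (Finset.insert_subset hyL (Finset.union_subset hT hAL))
      -- h2 : w (insert y (C ∪ A)) * w (T ∪ A) ≤ w (C ∪ A) * w (insert y (T ∪ A))
      have h3 : w (insert y (C ∪ A)) * w T * (w (T ∪ A) * w (C ∪ A)) ≤
          w C * w (insert y (T ∪ A)) * (w (T ∪ A) * w (C ∪ A)) := by
        calc w (insert y (C ∪ A)) * w T * (w (T ∪ A) * w (C ∪ A))
            = (w (insert y (C ∪ A)) * w (T ∪ A)) * (w (C ∪ A) * w T) := by ring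
          _ ≤ (w (C ∪ A) * w (insert y (T ∪ A))) * (w C * w (T ∪ A)) :=
              mul_le_mul h2 h1 (mul_pos p1 p3).le (mul_pos p1 p6).le
          _ = _ := by ring
      exact le_of_mul_le_mul_right h3 (mul_pos p4 p1)
  intro S T hS hT
  have h1 := key (S ∩ T) T Finset.inter_subset_right hT (S \ T) (Finset.sdiff_subset.trans hS)
    Finset.sdiff_disjoint
  have e1 : S ∩ T ∪ S \ T = S := by
    ext z; simp only [Finset.mem_union, Finset.mem_inter, Finset.mem_sdiff]; tauto
  have e2 : T ∪ S \ T = S ∪ T := by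
    ext z; simp only [Finset.mem_union, Finset.mem_sdiff]; tauto
  rw [e1, e2] at h1
  exact h1

end FKGM

/-- FKG for increasing functions from the lattice condition for pairs (all weights positive). -/
theorem fkg_pairs {V : Type} [DecidableEq V] (L : Finset V) (w f g : Finset V → ℝ)
    (hpos : ∀ S : Finset V, S ⊆ L → 0 < w S)
    (hp : ∀ S : Finset V, S ⊆ L → ∀ x ∈ L, ∀ y ∈ L, x ≠ y → x ∉ S → y ∉ S →
      w (insert x S) * w (insert y S) ≤ w S * w (insert x (insert y S)))
    (hf : ∀ S T : Finset V, S ⊆ T → T ⊆ L → f S ≤ f T)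
    (hg : ∀ S T : Finset V, S ⊆ T → T ⊆ L → g S ≤ g T) :
    (∑ S ∈ L.powerset, f S * w S) * (∑ S ∈ L.powerset, g S * w S) ≤
      (∑ S ∈ L.powerset, f S * g S * w S) * ∑ S ∈ L.powerset, w S := by
  -- nonnegative functions first
  have hlat := FKGM.lattice hpos hp
  have main : ∀ f g : Finset V → ℝ, (∀ S : Finset V, S ⊆ L → 0 ≤ f S) →
      (∀ S : Finset V, S ⊆ L → 0 ≤ g S) →
      (∀ S T : Finset V, S ⊆ T → T ⊆ L → f S ≤ f T) →
      (∀ S T : Finset V, S ⊆ T → T ⊆ L → g S ≤ g T) →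
      (∑ S ∈ L.powerset, f S * w S) * (∑ S ∈ L.powerset, g S * w S) ≤
      (∑ S ∈ L.powerset, f S * g S * w S) * ∑ S ∈ L.powerset, w S := by
    intro f g hf0 hg0 hf hg
    set w' : Finset V → ℝ := fun S => if S ⊆ L then w S else 0 with hw'
    set f' : Finset V → ℝ := fun S => if S ⊆ L then f S else 0 with hf'
    set g' : Finset V → ℝ := fun S => if S ⊆ L then g S else 0 with hg'
    have w0 : ∀ S, 0 ≤ w' S := by
      intro S; simp only [hw']; split_ifs with h
      · exact (hpos S h).le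
      · exact le_rfl
    have f0 : ∀ S, 0 ≤ f' S := by
      intro S; simp only [hf']; split_ifs with h
      · exact hf0 S h
      · exact le_rfl
    have g0 : ∀ S, 0 ≤ g' S := by
      intro S; simp only [hg']; split_ifs with h
      · exact hg0 S h
      · exact le_rfl
    have := Finset.four_functions_theorem (f₁ := fun S => f' S * w' S)
      (f₂ := fun S => g' S * w' S) (f₃ := fun S => w' S)
      (f₄ := fun S => f' S * g' S * w' S) L
      (fun S => mul_nonneg (f0 S) (w0 S))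
      (fun S => mul_nonneg (g0 S) (w0 S))
      (fun S => w0 S)
      (fun S => mul_nonneg (mul_nonneg (f0 S) (g0 S)) (w0 S)) ?_
      (Finset.Subset.refl L.powerset) (Finset.Subset.refl L.powerset)
    · rw [Finset.powerset_infs_powerset_self, Finset.powerset_sups_powerset_self] at this
      have s1 : ∀ h : Finset V → ℝ, ∀ k : Finset V → ℝ, (∀ S : Finset V, S ⊆ L → h S = k S) →
          ∑ S ∈ L.powerset, h S = ∑ S ∈ L.powerset, k S := by
        intro h k hk
        exact Finset.sum_congr rfl fun S hS => hk S (Finset.mem_powerset.1 hS)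
      rw [s1 (fun S => f' S * w' S) (fun S => f S * w S)
          (fun S hS => by simp only [hf', hw', if_pos hS]),
        s1 (fun S => g' S * w' S) (fun S => g S * w S)
          (fun S hS => by simp only [hg', hw', if_pos hS]),
        s1 w' w (fun S hS => by simp only [hw', if_pos hS]),
        s1 (fun S => f' S * g' S * w' S) (fun S => f S * g S * w S)
          (fun S hS => by simp only [hf', hg', hw', if_pos hS])] at this
      linarith
    · intro S hS T hT
      show f' S * w' S * (g' T * w' T) ≤ w' (S ∩ T) * (f' (S ∪ T) * g' (S ∪ T) * w' (S ∪ T))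
      have hU : S ∪ T ⊆ L := Finset.union_subset hS hT
      have hI : S ∩ T ⊆ L := Finset.inter_subset_left.trans hS
      simp only [hf', hg', hw', if_pos hS, if_pos hT, if_pos hU, if_pos hI]
      have e1 : f S ≤ f (S ∪ T) := hf _ _ Finset.subset_union_left hU
      have e2 : g T ≤ g (S ∪ T) := hg _ _ Finset.subset_union_right hU
      have e3 := hlat S T hS hT
      calc f S * w S * (g T * w T) = (f S * g T) * (w S * w T) := by ring
        _ ≤ (f (S ∪ T) * g (S ∪ T)) * (w (S ∩ T) * w (S ∪ T)) :=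
            mul_le_mul (mul_le_mul e1 e2 (hg0 T hT) (hf0 _ hU)) e3
              (mul_pos (hpos S hS) (hpos T hT)).le (mul_nonneg (hf0 _ hU) (hg0 _ hU))
        _ = _ := by ring
  have hf0 : ∀ S : Finset V, S ⊆ L → 0 ≤ f S - f ∅ := fun S hS => by
    linarith [hf ∅ S (Finset.empty_subset _) hS]
  have hg0 : ∀ S : Finset V, S ⊆ L → 0 ≤ g S - g ∅ := fun S hS => by
    linarith [hg ∅ S (Finset.empty_subset _) hS]
  have h := main (fun S => f S - f ∅) (fun S => g S - g ∅) hf0 hg0
    (fun S T h1 h2 => by linarith [hf S T h1 h2]) (fun S T h1 h2 => by linarith [hg S T h1 h2])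
  have x1 : ∑ S ∈ L.powerset, (f S - f ∅) * w S =
      (∑ S ∈ L.powerset, f S * w S) - f ∅ * ∑ S ∈ L.powerset, w S := by
    rw [Finset.mul_sum, ← Finset.sum_sub_distrib]
    exact Finset.sum_congr rfl fun S _ => by ring
  have x2 : ∑ S ∈ L.powerset, (g S - g ∅) * w S =
      (∑ S ∈ L.powerset, g S * w S) - g ∅ * ∑ S ∈ L.powerset, w S := by
    rw [Finset.mul_sum, ← Finset.sum_sub_distrib]
    exact Finset.sum_congr rfl fun S _ => by ring
  have x3 : ∑ S ∈ L.powerset, (f S - f ∅) * (g S - g ∅) * w S =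
      (∑ S ∈ L.powerset, f S * g S * w S) - f ∅ * (∑ S ∈ L.powerset, g S * w S)
        - g ∅ * (∑ S ∈ L.powerset, f S * w S) + f ∅ * g ∅ * ∑ S ∈ L.powerset, w S := by
    rw [Finset.mul_sum, Finset.mul_sum, Finset.mul_sum, ← Finset.sum_sub_distrib,
      ← Finset.sum_sub_distrib, ← Finset.sum_add_distrib]
    exact Finset.sum_congr rfl fun S _ => by ring
  rw [x1, x2, x3] at h
  nlinarith [h]

/-- FKG for decreasing functions from the lattice condition for pairs (all weights positive). -/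
theorem fkg_pairs_anti {V : Type} [DecidableEq V] (L : Finset V) (w f g : Finset V → ℝ)
    (hpos : ∀ S : Finset V, S ⊆ L → 0 < w S)
    (hp : ∀ S : Finset V, S ⊆ L → ∀ x ∈ L, ∀ y ∈ L, x ≠ y → x ∉ S → y ∉ S →
      w (insert x S) * w (insert y S) ≤ w S * w (insert x (insert y S)))
    (hf : ∀ S T : Finset V, S ⊆ T → T ⊆ L → f T ≤ f S)
    (hg : ∀ S T : Finset V, S ⊆ T → T ⊆ L → g T ≤ g S) :
    (∑ S ∈ L.powerset, f S * w S) * (∑ S ∈ L.powerset, g S * w S) ≤
      (∑ S ∈ L.powerset, f S * g S * w S) * ∑ S ∈ L.powerset, w S := by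
  have h := fkg_pairs L w (fun S => - f S) (fun S => - g S) hpos hp
    (fun S T h1 h2 => by linarith [hf S T h1 h2]) (fun S T h1 h2 => by linarith [hg S T h1 h2])
  simp only [neg_mul, Finset.sum_neg_distrib, mul_neg, neg_neg] at h
  exact h

end UN

end MP8622
end

section
set_option autoImplicit false

open Classical Filter Topology

/-!
POA: FKG for the posterior law of the noisy copies.
-/

namespace MP8622

namespace UN

theorem specPOA (hPPW : SpecPPW) (hPPE : SpecPPE) (hPLI : SpecPLI) : SpecPOA := by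
  intro V P E L N B φ δ κ n A Z d k p₀ p₁ hp₀ hp hp₁ hP₀ hP₁ hdeg hdiag hin hC hN hNn hcol hpath
    hn hκ hκc
  have hcc1 : cc d p₀ p₁ ≤ 1 := by
    have h1 : ((1 - p₁) ^ d / 3) ^ 4 ≤ 1 := by
      refine pow_le_one₀ (div_nonneg (pow_nonneg (by linarith) _) (by norm_num)) ?_
      have h2 : (1 - p₁) ^ d ≤ 1 := pow_le_one₀ (by linarith) (by linarith)
      linarith
    have h0 : 0 ≤ ((1 - p₁) ^ d / 3) ^ 4 :=
      pow_nonneg (div_nonneg (pow_nonneg (by linarith) _) (by norm_num)) _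
    unfold cc
    nlinarith
  have hcc0 : 0 ≤ cc d p₀ p₁ := by
    have h0 : 0 ≤ ((1 - p₁) ^ d / 3) ^ 4 :=
      pow_nonneg (div_nonneg (pow_nonneg (by linarith) _) (by norm_num)) _
    unfold cc
    positivity
  have hcck : cc d p₀ p₁ ^ k ≤ 1 := pow_le_one₀ hcc0 hcc1
  have hκ1 : κ * n ^ 2 ≤ 1 := by linarith [mul_nonneg hκ (sq_nonneg n)]
  have hPP : ∀ e, 0 ≤ P e := fun e => hp₀.le.trans (hP₀ e)
  have hPP1 : ∀ e, P e < 1 := fun e => (hP₁ e).trans_lt hp₁
  have hpos : ∀ U, 0 < pw P E L U * om φ A Z U := fun U =>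
    mul_pos ((hPPE V P E L hPP hPP1).1 U)
      ((hPLI V N B φ δ κ n A Z hC hN hNn hκ hκ1).1 U)
  refine ⟨hpos, fun g h hg hh => ?_⟩
  exact fkg_pairs_anti L (fun U => pw P E L U * om φ A Z U) g h (fun S _ => hpos S)
    (fun S hS x hx y hy hxy hxS hyS =>
      hPPW V P E L N B φ δ κ n A Z d k p₀ p₁ hp₀ hp hp₁ hP₀ hP₁ hdeg hdiag hin hC hN hNn hcol
        hpath hn hκ hκc S x y hS hx hy hxy hxS hyS) hg hh

end UN

end MP8622
end

section
set_option autoImplicit false

open Classical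

/-!
MP_8622f1_pr, block UN, CLB: lower bound for the covariances of the spins along walks, for weights
with the lattice condition for pairs.
-/

namespace MP8622

namespace UN

/-- unnormalised covariance of the spins at `x` and `y` for the weight `w` on the subsets of `L` -/
noncomputable def cv {V : Type} (L : Finset V) (w : Finset V → ℝ) (x y : V) : ℝ :=
  (∑ S ∈ L.powerset, chi {x} S * chi {y} S * w S) * (∑ S ∈ L.powerset, w S) -
    (∑ S ∈ L.powerset, chi {x} S * w S) * ∑ S ∈ L.powerset, chi {y} S * w S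

namespace CLBM

variable {V : Type}

theorem chi_nm {z : V} {S : Finset V} (h : z ∉ S) : chi {z} S = 1 := by
  rw [chi, Finset.singleton_inter_of_notMem h, Finset.card_empty, pow_zero]

theorem chi_m {z : V} {S : Finset V} (h : z ∈ S) : chi {z} S = -1 := by
  rw [chi, Finset.singleton_inter_of_mem h, Finset.card_singleton, pow_one]

theorem chi_sq (z : V) (S : Finset V) : chi {z} S * chi {z} S = 1 := by
  by_cases h : z ∈ S
  · rw [chi_m h]; norm_num
  · rw [chi_nm h]; norm_num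

theorem chi_insert {z x : V} (h : x ≠ z) (S : Finset V) : chi {z} (insert x S) = chi {z} S := by
  by_cases hz : z ∈ S
  · rw [chi_m hz, chi_m (Finset.mem_insert_of_mem hz)]
  · rw [chi_nm hz, chi_nm fun h1 => (Finset.mem_insert.1 h1).elim (fun h2 => h h2.symm) hz]

theorem chi_anti (z : V) {S T : Finset V} (h : S ⊆ T) : chi {z} T ≤ chi {z} S := by
  by_cases hz : z ∈ S
  · rw [chi_m hz, chi_m (h hz)]
  · rw [chi_nm hz]
    by_cases hT : z ∈ T
    · rw [chi_m hT]; norm_num
    · rw [chi_nm hT]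

theorem sum_split {L : Finset V} {z : V} (hz : z ∈ L) (F : Finset V → ℝ) :
    ∑ S ∈ L.powerset, F S = ∑ S ∈ (L.erase z).powerset, (F S + F (insert z S)) := by
  have h1 : L = insert z (L.erase z) := (Finset.insert_erase hz).symm
  rw [Finset.sum_add_distrib, ← Finset.sum_powerset_insert (Finset.notMem_erase z L), ← h1]

/-- conditional expectation of the spin at `z` -/
noncomputable def T (w : Finset V → ℝ) (z : V) (S : Finset V) : ℝ :=
  (w (S.erase z) - w (insert z S)) / (w (S.erase z) + w (insert z S))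

theorem sum_T {L : Finset V} {w : Finset V → ℝ} (hpos : ∀ S : Finset V, S ⊆ L → 0 < w S) {z : V}
    (hz : z ∈ L) (f : Finset V → ℝ) (hf : ∀ S, f (insert z S) = f S) :
    ∑ S ∈ L.powerset, f S * T w z S * w S = ∑ S ∈ L.powerset, f S * chi {z} S * w S := by
  rw [sum_split hz, sum_split hz]
  refine Finset.sum_congr rfl fun S hS => ?_
  have hSL := Finset.mem_powerset.1 hS
  have hzS : z ∉ S := fun h => Finset.notMem_erase z L (hSL h)
  have h1 : S ⊆ L := hSL.trans (Finset.erase_subset _ _)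
  have h2 := hpos S h1
  have h3 := hpos (insert z S) (Finset.insert_subset hz h1)
  have h4 : T w z S = (w S - w (insert z S)) / (w S + w (insert z S)) := by
    rw [T, Finset.erase_eq_of_notMem hzS]
  have h5 : T w z (insert z S) = (w S - w (insert z S)) / (w S + w (insert z S)) := by
    rw [T, Finset.erase_insert hzS, Finset.insert_idem]
  rw [h4, h5, hf, chi_nm hzS, chi_m (Finset.mem_insert_self z S)]
  field_simp
  ring

theorem T_anti {L : Finset V} {w : Finset V → ℝ} (hpos : ∀ S : Finset V, S ⊆ L → 0 < w S)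
    (hp : FKGM.Pairs L w) {z : V} (hz : z ∈ L) {S S' : Finset V} (h : S ⊆ S') (hS' : S' ⊆ L) :
    T w z S' ≤ T w z S := by
  have e1 : insert z S = insert z (S.erase z) := by
    ext u
    simp only [Finset.mem_insert, Finset.mem_erase]
    tauto
  have e2 : insert z S' = insert z (S'.erase z) := by
    ext u
    simp only [Finset.mem_insert, Finset.mem_erase]
    tauto
  have h0 : S.erase z ⊆ S'.erase z := Finset.erase_subset_erase _ h
  have h1 : S'.erase z ⊆ L := (Finset.erase_subset _ _).trans hS'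
  have h2 := FKGM.lattice hpos hp (insert z (S.erase z)) (S'.erase z)
    (Finset.insert_subset hz (h0.trans h1)) h1
  have e3 : insert z (S.erase z) ∩ S'.erase z = S.erase z := by
    ext u
    simp only [Finset.mem_insert, Finset.mem_erase, Finset.mem_inter]
    constructor
    · rintro ⟨h3 | h3, h4⟩
      · exact absurd h3 h4.1
      · exact h3
    · exact fun h3 => ⟨Or.inr h3, h3.1, h h3.2⟩
  have e4 : insert z (S.erase z) ∪ S'.erase z = insert z (S'.erase z) := by
    ext u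
    simp only [Finset.mem_insert, Finset.mem_erase, Finset.mem_union]
    constructor
    · rintro ((h3 | h3) | h3)
      · exact Or.inl h3
      · exact Or.inr ⟨h3.1, h h3.2⟩
      · exact Or.inr h3
    · rintro (h3 | h3)
      · exact Or.inl (Or.inl h3)
      · exact Or.inr h3
  rw [e3, e4] at h2
  have pa := hpos (S.erase z) (h0.trans h1)
  have pb := hpos (insert z (S.erase z)) (Finset.insert_subset hz (h0.trans h1))
  have pc := hpos (S'.erase z) h1
  have pd := hpos (insert z (S'.erase z)) (Finset.insert_subset hz h1)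
  rw [T, T, e1, e2, div_le_div_iff₀ (by linarith) (by linarith)]
  nlinarith [h2]

/-- the constant of one step -/
noncomputable def kap (ρ q : ℝ) : ℝ := (1 - q) * (ρ / (1 + ρ)) ^ 2

theorem T_step {L : Finset V} {w : Finset V → ℝ} (hpos : ∀ S : Finset V, S ⊆ L → 0 < w S)
    {ρ q : ℝ} (hρ : 0 < ρ) (hq1 : q ≤ 1) {y z : V} (hy : y ∈ L) (hz : z ∈ L) (hyz : y ≠ z)
    (hfe : ∀ x ∈ L, ∀ S : Finset V, S ⊆ L → x ∉ S →
      ρ * w S ≤ w (insert x S) ∧ ρ * w (insert x S) ≤ w S)
    (hq : ∀ S : Finset V, S ⊆ L → y ∉ S → z ∉ S →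
      w (insert y S) * w (insert z S) ≤ q * (w S * w (insert y (insert z S))))
    {S : Finset V} (hS : S ⊆ L) (hyS : y ∉ S) :
    T w z (insert y S) + 2 * kap ρ q ≤ T w z S := by
  have e1 : insert z S = insert z (S.erase z) := by
    ext u
    simp only [Finset.mem_insert, Finset.mem_erase]
    tauto
  have e2 : (insert y S).erase z = insert y (S.erase z) := by
    rw [Finset.erase_insert_of_ne hyz]
  have e3 : insert z (insert y S) = insert y (insert z (S.erase z)) := by
    rw [Finset.insert_comm, e1]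
  have h0 : S.erase z ⊆ L := (Finset.erase_subset _ _).trans hS
  have hy0 : y ∉ S.erase z := fun h => hyS (Finset.mem_of_mem_erase h)
  have hz0 : z ∉ S.erase z := Finset.notMem_erase z S
  have pa := hpos _ h0
  have pb := hpos _ (Finset.insert_subset hz h0)
  have pc := hpos _ (Finset.insert_subset hy h0)
  have pd := hpos _ (Finset.insert_subset hy (Finset.insert_subset hz h0))
  have h1 := hq _ h0 hy0 hz0
  have h2 := (hfe z hz _ h0 hz0).2
  have hz1 : z ∉ insert y (S.erase z) := fun h =>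
    (Finset.mem_insert.1 h).elim (fun h3 => hyz h3.symm) hz0
  have h3 := (hfe z hz _ (Finset.insert_subset hy h0) hz1).1
  rw [Finset.insert_comm] at h3
  rw [T, T, e2, e3, e1]
  set a := w (S.erase z)
  set b := w (insert z (S.erase z))
  set c := w (insert y (S.erase z))
  set d := w (insert y (insert z (S.erase z)))
  have hab : 0 < a + b := by linarith
  have hcd : 0 < c + d := by linarith
  have h4 : (a - b) / (a + b) - (c - d) / (c + d) =
      2 * (a * d - b * c) / ((a + b) * (c + d)) := by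
    field_simp
    ring
  have h5 : 2 * kap ρ q ≤ 2 * (a * d - b * c) / ((a + b) * (c + d)) := by
    rw [le_div_iff₀ (mul_pos hab hcd)]
    have h6 : ρ * (a + b) ≤ (1 + ρ) * a := by nlinarith
    have h7 : ρ * (c + d) ≤ (1 + ρ) * d := by nlinarith
    have h8 : (ρ / (1 + ρ)) * (a + b) ≤ a := by
      rw [div_mul_eq_mul_div, div_le_iff₀ (by linarith)]
      linarith
    have h9 : (ρ / (1 + ρ)) * (c + d) ≤ d := by
      rw [div_mul_eq_mul_div, div_le_iff₀ (by linarith)]
      linarith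
    have h10 : ((ρ / (1 + ρ)) * (a + b)) * ((ρ / (1 + ρ)) * (c + d)) ≤ a * d :=
      mul_le_mul h8 h9 (by positivity) pa.le
    have h11 : (1 - q) * (((ρ / (1 + ρ)) * (a + b)) * ((ρ / (1 + ρ)) * (c + d))) ≤
        (1 - q) * (a * d) := mul_le_mul_of_nonneg_left h10 (by linarith)
    unfold kap
    nlinarith [h11, h1]
  linarith

/-- one step: the covariance of the spins at `x` and `z` is at least `kap` times the covariance of
the spins at `x` and `y`, if `y`, `z` interact -/
theorem cv_step {L : Finset V} {w : Finset V → ℝ} (hpos : ∀ S : Finset V, S ⊆ L → 0 < w S)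
    (hp : FKGM.Pairs L w) {ρ q : ℝ} (hρ : 0 < ρ) (hq1 : q ≤ 1)
    (hfe : ∀ x ∈ L, ∀ S : Finset V, S ⊆ L → x ∉ S →
      ρ * w S ≤ w (insert x S) ∧ ρ * w (insert x S) ≤ w S)
    {x y z : V} (hy : y ∈ L) (hz : z ∈ L) (hyz : y ≠ z) (hxz : x ≠ z)
    (hq : ∀ S : Finset V, S ⊆ L → y ∉ S → z ∉ S →
      w (insert y S) * w (insert z S) ≤ q * (w S * w (insert y (insert z S)))) :
    kap ρ q * cv L w x y ≤ cv L w x z := by
  have hg : ∀ S S' : Finset V, S ⊆ S' → S' ⊆ L →
      T w z S' - kap ρ q * chi {y} S' ≤ T w z S - kap ρ q * chi {y} S := by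
    intro S S' h hS'
    by_cases h1 : y ∈ S
    · rw [chi_m h1, chi_m (h h1)]
      linarith [T_anti hpos hp hz h hS']
    · by_cases h2 : y ∈ S'
      · rw [chi_nm h1, chi_m h2]
        have h3 := T_step hpos hρ hq1 hy hz hyz hfe hq (h.trans hS') h1
        have h4 := T_anti hpos hp hz (Finset.insert_subset h2 h) hS'
        linarith
      · rw [chi_nm h1, chi_nm h2]
        linarith [T_anti hpos hp hz h hS']
  have hfkg := fkg_pairs_anti L w (fun S => chi {x} S)
    (fun S => T w z S - kap ρ q * chi {y} S) hpos hp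
    (fun S S' h _ => chi_anti x h) hg
  have h1 : ∑ S ∈ L.powerset, (T w z S - kap ρ q * chi {y} S) * w S =
      ∑ S ∈ L.powerset, chi {z} S * w S - kap ρ q * ∑ S ∈ L.powerset, chi {y} S * w S := by
    have h2 := sum_T hpos hz (fun _ => 1) (fun _ => rfl)
    simp only [one_mul] at h2
    rw [← h2, Finset.mul_sum, ← Finset.sum_sub_distrib]
    exact Finset.sum_congr rfl fun S _ => by ring
  have h2 : ∑ S ∈ L.powerset, chi {x} S * (T w z S - kap ρ q * chi {y} S) * w S =
      ∑ S ∈ L.powerset, chi {x} S * chi {z} S * w S -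
        kap ρ q * ∑ S ∈ L.powerset, chi {x} S * chi {y} S * w S := by
    have h3 := sum_T hpos hz (fun S => chi {x} S) (fun S => chi_insert hxz.symm S)
    rw [← h3, Finset.mul_sum, ← Finset.sum_sub_distrib]
    exact Finset.sum_congr rfl fun S _ => by ring
  rw [h1, h2] at hfkg
  unfold cv
  nlinarith [hfkg]

theorem cv_comm (L : Finset V) (w : Finset V → ℝ) (x y : V) : cv L w x y = cv L w y x := by
  unfold cv
  rw [mul_comm (∑ S ∈ L.powerset, chi {x} S * w S)]
  congr 2
  exact Finset.sum_congr rfl fun S _ => by ring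

/-- the variance -/
theorem cv_self {L : Finset V} {w : Finset V → ℝ} (hpos : ∀ S : Finset V, S ⊆ L → 0 < w S)
    {ρ : ℝ} (hρ : 0 < ρ)
    (hfe : ∀ x ∈ L, ∀ S : Finset V, S ⊆ L → x ∉ S →
      ρ * w S ≤ w (insert x S) ∧ ρ * w (insert x S) ≤ w S) {x : V} (hx : x ∈ L) :
    4 * (ρ / (1 + ρ)) ^ 2 * (∑ S ∈ L.powerset, w S) ^ 2 ≤ cv L w x x := by
  set p : ℝ := ∑ S ∈ (L.erase x).powerset, w S with hpdef
  set m : ℝ := ∑ S ∈ (L.erase x).powerset, w (insert x S) with hmdef
  have h1 : ∑ S ∈ L.powerset, w S = p + m := by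
    rw [sum_split hx, Finset.sum_add_distrib]
  have h2 : ∑ S ∈ L.powerset, chi {x} S * w S = p - m := by
    rw [sum_split hx, Finset.sum_add_distrib, sub_eq_add_neg, hmdef, ← Finset.sum_neg_distrib]
    congr 1
    · refine Finset.sum_congr rfl fun S hS => ?_
      rw [chi_nm fun h => Finset.notMem_erase x L (Finset.mem_powerset.1 hS h), one_mul]
    · refine Finset.sum_congr rfl fun S hS => ?_
      rw [chi_m (Finset.mem_insert_self x S), neg_one_mul]
  have h3 : ∑ S ∈ L.powerset, chi {x} S * chi {x} S * w S = p + m := by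
    rw [← h1]
    exact Finset.sum_congr rfl fun S _ => by rw [chi_sq, one_mul]
  have h4 : ρ * p ≤ m := by
    rw [hpdef, hmdef, Finset.mul_sum]
    refine Finset.sum_le_sum fun S hS => ?_
    have h5 := Finset.mem_powerset.1 hS
    exact (hfe x hx S (h5.trans (Finset.erase_subset _ _))
      fun h => Finset.notMem_erase x L (h5 h)).1
  have h5 : ρ * m ≤ p := by
    rw [hpdef, hmdef, Finset.mul_sum]
    refine Finset.sum_le_sum fun S hS => ?_
    have h5 := Finset.mem_powerset.1 hS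
    exact (hfe x hx S (h5.trans (Finset.erase_subset _ _))
      fun h => Finset.notMem_erase x L (h5 h)).2
  have hp0 : 0 ≤ p := Finset.sum_nonneg fun S hS =>
    (hpos S ((Finset.mem_powerset.1 hS).trans (Finset.erase_subset _ _))).le
  have hm0 : 0 ≤ m := Finset.sum_nonneg fun S hS =>
    (hpos _ (Finset.insert_subset hx
      ((Finset.mem_powerset.1 hS).trans (Finset.erase_subset _ _)))).le
  unfold cv
  rw [h1, h2, h3]
  have h6 : (ρ / (1 + ρ)) * (p + m) ≤ m := by
    rw [div_mul_eq_mul_div, div_le_iff₀ (by linarith)]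
    nlinarith
  have h7 : (ρ / (1 + ρ)) * (p + m) ≤ p := by
    rw [div_mul_eq_mul_div, div_le_iff₀ (by linarith)]
    nlinarith
  have h8 : ((ρ / (1 + ρ)) * (p + m)) * ((ρ / (1 + ρ)) * (p + m)) ≤ p * m :=
    mul_le_mul h7 h6 (by positivity) hp0
  nlinarith [h8]

theorem kap_nonneg {ρ q : ℝ} (hq1 : q ≤ 1) : 0 ≤ kap ρ q := by
  unfold kap
  exact mul_nonneg (by linarith) (sq_nonneg _)

theorem kap_le_one {ρ q : ℝ} (hρ : 0 < ρ) (hq0 : 0 ≤ q) (_hq1 : q ≤ 1) : kap ρ q ≤ 1 := by
  unfold kap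
  have h1 : ρ / (1 + ρ) ≤ 1 := by
    rw [div_le_one (by linarith)]
    linarith
  have h0 : 0 ≤ ρ / (1 + ρ) := by positivity
  have h2 : (ρ / (1 + ρ)) ^ 2 ≤ 1 := pow_le_one₀ h0 h1
  nlinarith [sq_nonneg (ρ / (1 + ρ))]

end CLBM

open CLBM in
/-- CLB: lower bound for the covariance along a walk inside `L` -/
theorem cv_walk {V : Type} {G : SimpleGraph V} {L : Finset V} {w : Finset V → ℝ}
    (hpos : ∀ S : Finset V, S ⊆ L → 0 < w S)
    (hp : FKGM.Pairs L w) {ρ q : ℝ} (hρ : 0 < ρ) (hq0 : 0 ≤ q) (hq1 : q ≤ 1)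
    (hfe : ∀ x ∈ L, ∀ S : Finset V, S ⊆ L → x ∉ S →
      ρ * w S ≤ w (insert x S) ∧ ρ * w (insert x S) ≤ w S)
    (hq : ∀ y ∈ L, ∀ z ∈ L, G.Adj y z → ∀ S : Finset V, S ⊆ L → y ∉ S → z ∉ S →
      w (insert y S) * w (insert z S) ≤ q * (w S * w (insert y (insert z S))))
    {x z : V} (p : G.Walk x z) (hsup : ∀ v ∈ p.support, v ∈ L) :
    kap ρ q ^ p.length * (4 * (ρ / (1 + ρ)) ^ 2 * (∑ S ∈ L.powerset, w S) ^ 2) ≤
      cv L w x z := by
  induction p with
  | nil =>
    rw [SimpleGraph.Walk.length_nil, pow_zero, one_mul]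
    exact cv_self hpos hρ hfe (hsup _ (by simp))
  | @cons u v z hadj p ih =>
    have hu : u ∈ L := hsup u (by simp)
    have hv : v ∈ L := hsup v (by simp)
    have ih' := ih fun t ht => hsup t (by simp [ht])
    have hk0 := kap_nonneg (ρ := ρ) hq1
    by_cases hzu : z = u
    · subst hzu
      have h1 := cv_self hpos hρ hfe hu
      refine le_trans ?_ h1
      have h2 : kap ρ q ^ (SimpleGraph.Walk.cons hadj p).length ≤ 1 :=
        pow_le_one₀ hk0 (kap_le_one hρ hq0 hq1)
      have h3 : 0 ≤ 4 * (ρ / (1 + ρ)) ^ 2 * (∑ S ∈ L.powerset, w S) ^ 2 := by positivity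
      nlinarith
    · have h1 : kap ρ q * cv L w z v ≤ cv L w z u :=
        cv_step hpos hp hρ hq1 hfe hv hu hadj.ne' hzu (hq v hv u hu hadj.symm)
      rw [SimpleGraph.Walk.length_cons, pow_succ, cv_comm L w u z]
      calc kap ρ q ^ p.length * kap ρ q *
            (4 * (ρ / (1 + ρ)) ^ 2 * (∑ S ∈ L.powerset, w S) ^ 2)
          = kap ρ q * (kap ρ q ^ p.length *
            (4 * (ρ / (1 + ρ)) ^ 2 * (∑ S ∈ L.powerset, w S) ^ 2)) := by ring
        _ ≤ kap ρ q * cv L w v z := mul_le_mul_of_nonneg_left ih' hk0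
        _ ≤ cv L w z u := by rw [cv_comm L w v z]; exact h1

end UN

end MP8622
end

section
set_option autoImplicit false

open Classical

/-!
MP_8622f1_pr, block UN, PWL: the lattice condition for the law `pw` of the pendant spins, with a
uniform gain for pairs of vertices joined by a short walk.
-/

namespace MP8622

namespace UN

namespace PWLM

open CLBM

variable {V : Type}

/-- the factor of the edge `e` -/
noncomputable def fac (P : Sym2 V → ℝ) (S : Finset V) (e : Sym2 V) : ℝ :=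
  if Mono S e then 1 else 1 - P e

theorem fac_pos {P : Sym2 V → ℝ} (h1 : ∀ e, P e < 1) (S : Finset V) (e : Sym2 V) :
    0 < fac P S e := by
  unfold fac
  split_ifs
  · norm_num
  · linarith [h1 e]

theorem sw_pos {P : Sym2 V → ℝ} (h1 : ∀ e, P e < 1) (E : Finset (Sym2 V)) (S : Finset V) :
    0 < sw P E S := Finset.prod_pos fun e _ => fac_pos h1 S e

theorem fac_insert_of_notMem {P : Sym2 V → ℝ} {S : Finset V} {e : Sym2 V} {x : V} (hx : x ∉ e) :
    fac P (insert x S) e = fac P S e := by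
  have h : Mono (insert x S) e ↔ Mono S e := by
    induction e using Sym2.ind with
    | h a b =>
      rw [mono_mk, mono_mk]
      have ha : a ≠ x := fun h => hx (h ▸ Sym2.mem_mk_left a b)
      have hb : b ≠ x := fun h => hx (h ▸ Sym2.mem_mk_right a b)
      simp only [Finset.mem_insert, ha, hb, false_or]
  unfold fac
  by_cases h1 : Mono S e
  · rw [if_pos h1, if_pos (h.2 h1)]
  · rw [if_neg h1, if_neg fun h2 => h1 (h.1 h2)]

/-- the exact lattice condition for the weight `sw` -/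
theorem fac_pair {P : Sym2 V → ℝ} {S : Finset V} {x y : V} (hxy : x ≠ y) (hx : x ∉ S)
    (hy : y ∉ S) (e : Sym2 V) :
    fac P (insert x S) e * fac P (insert y S) e =
      (if e = s(x, y) then (1 - P e) ^ 2 else 1) * (fac P S e * fac P (insert x (insert y S)) e) := by
  by_cases hxe : x ∈ e
  · by_cases hye : y ∈ e
    · have he : e = s(x, y) := (Sym2.mem_and_mem_iff hxy).1 ⟨hxe, hye⟩
      subst he
      have h1 : ¬ Mono (insert x S) s(x, y) := by
        rw [mono_mk]
        simp [hxy.symm, hy]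
      have h2 : ¬ Mono (insert y S) s(x, y) := by
        rw [mono_mk]
        simp [hxy, hx]
      have h3 : Mono S s(x, y) := by
        rw [mono_mk]
        simp [hx, hy]
      have h4 : Mono (insert x (insert y S)) s(x, y) := by
        rw [mono_mk]
        simp
      unfold fac
      rw [if_neg h1, if_neg h2, if_pos h3, if_pos h4, if_pos rfl]
      ring
    · have he : e ≠ s(x, y) := by
        rintro rfl
        exact hye (Sym2.mem_mk_right x y)
      rw [if_neg he, one_mul, fac_insert_of_notMem hye, Finset.insert_comm,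
        fac_insert_of_notMem hye, mul_comm]
  · have he : e ≠ s(x, y) := by
      rintro rfl
      exact hxe (Sym2.mem_mk_left x y)
    rw [if_neg he, one_mul, fac_insert_of_notMem hxe, fac_insert_of_notMem hxe]

theorem sw_pair {P : Sym2 V → ℝ} (E : Finset (Sym2 V)) {S : Finset V} {x y : V} (hxy : x ≠ y)
    (hx : x ∉ S) (hy : y ∉ S) :
    sw P E (insert x S) * sw P E (insert y S) =
      (if s(x, y) ∈ E then (1 - P s(x, y)) ^ 2 else 1) *
        (sw P E S * sw P E (insert x (insert y S))) := by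
  have h : ∀ T : Finset V, sw P E T = ∏ e ∈ E, fac P T e := fun T => rfl
  rw [h, h, h, h, ← Finset.prod_mul_distrib, ← Finset.prod_mul_distrib]
  have h2 : (if s(x, y) ∈ E then (1 - P s(x, y)) ^ 2 else 1 : ℝ) =
      ∏ e ∈ E, if e = s(x, y) then (1 - P e) ^ 2 else 1 := by
    rw [Finset.prod_ite_eq' E s(x, y) (fun e => (1 - P e) ^ 2)]
  rw [h2, ← Finset.prod_mul_distrib]
  exact Finset.prod_congr rfl fun e _ => fac_pair hxy hx hy e

/-- finite energy of the factors -/
theorem fac_fe {P : Sym2 V → ℝ} (h0 : ∀ e, 0 ≤ P e) {p₁ : ℝ} (h1 : ∀ e, P e ≤ p₁)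
    (hp : p₁ < 1) (S S' : Finset V) (e : Sym2 V) : (1 - p₁) * fac P S e ≤ fac P S' e := by
  unfold fac
  have h2 := h0 e
  have h3 := h1 e
  split_ifs <;> nlinarith

theorem sw_fe {P : Sym2 V → ℝ} (h0 : ∀ e, 0 ≤ P e) {p₁ : ℝ} (h1 : ∀ e, P e ≤ p₁)
    (hp : p₁ < 1) (E : Finset (Sym2 V)) {x : V} {d : ℕ}
    (hd : (E.filter (fun e => x ∈ e)).card ≤ d) (S : Finset V) :
    (1 - p₁) ^ d * sw P E S ≤ sw P E (insert x S) ∧
      (1 - p₁) ^ d * sw P E (insert x S) ≤ sw P E S := by
  have hp0 : 0 ≤ p₁ := (h0 s(x, x)).trans (h1 _)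
  have h2 : (1 - p₁) ^ d ≤ ∏ e ∈ E, if x ∈ e then (1 - p₁) else 1 := by
    rw [Finset.prod_ite, Finset.prod_const, Finset.prod_const_one, mul_one]
    exact pow_le_pow_of_le_one (by linarith) (by linarith) hd
  have hlt : ∀ e, P e < 1 := fun e => (h1 e).trans_lt hp
  have h3 : ∀ T T' : Finset V, (∀ e, x ∉ e → fac P T e = fac P T' e) →
      (1 - p₁) ^ d * sw P E T ≤ sw P E T' := by
    intro T T' hT
    calc (1 - p₁) ^ d * sw P E T ≤ (∏ e ∈ E, if x ∈ e then (1 - p₁) else 1) * sw P E T :=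
          mul_le_mul_of_nonneg_right h2 (sw_pos hlt E T).le
      _ = ∏ e ∈ E, (if x ∈ e then (1 - p₁) else 1) * fac P T e := by
          rw [Finset.prod_mul_distrib]
          rfl
      _ ≤ ∏ e ∈ E, fac P T' e := by
          refine Finset.prod_le_prod (fun e _ => ?_) fun e _ => ?_
          · have := fac_pos hlt T e
            split_ifs
            · exact mul_nonneg (by linarith) this.le
            · linarith
          · split_ifs with hx
            · exact fac_fe h0 h1 hp T T' e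
            · rw [one_mul, hT e hx]
  exact ⟨h3 _ _ fun e he => (fac_insert_of_notMem he).symm,
    h3 _ _ fun e he => fac_insert_of_notMem he⟩

/-- single site factors -/
noncomputable def ss (M : Finset V) (t : V → ℝ) (S : Finset V) : ℝ :=
  ∏ z ∈ M, (1 + t z * chi {z} S)

/-- the weight with bounded fields -/
noncomputable def W (P : Sym2 V → ℝ) (E : Finset (Sym2 V)) (M : Finset V) (t : V → ℝ)
    (S : Finset V) : ℝ := sw P E S * ss M t S

theorem site_bd {t : V → ℝ} (ht : ∀ z, |t z| ≤ 1 / 2) (z : V) (S : Finset V) :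
    1 / 2 ≤ 1 + t z * chi {z} S ∧ 1 + t z * chi {z} S ≤ 3 / 2 := by
  have h := abs_le.1 (ht z)
  by_cases hz : z ∈ S
  · rw [chi_m hz]
    constructor <;> linarith [h.1, h.2]
  · rw [chi_nm hz]
    constructor <;> linarith [h.1, h.2]

theorem ss_pos {M : Finset V} {t : V → ℝ} (ht : ∀ z, |t z| ≤ 1 / 2) (S : Finset V) :
    0 < ss M t S := Finset.prod_pos fun z _ => by linarith [(site_bd ht z S).1]

theorem ss_pair (M : Finset V) (t : V → ℝ) {S : Finset V} {x y : V} (hxy : x ≠ y)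
    (hx : x ∉ S) (hy : y ∉ S) :
    ss M t (insert x S) * ss M t (insert y S) = ss M t S * ss M t (insert x (insert y S)) := by
  unfold ss
  rw [← Finset.prod_mul_distrib, ← Finset.prod_mul_distrib]
  refine Finset.prod_congr rfl fun z _ => ?_
  by_cases hzx : z = x
  · subst hzx
    rw [chi_m (Finset.mem_insert_self z S), chi_insert hxy.symm, chi_nm hx,
      chi_m (Finset.mem_insert_self z (insert y S))]
    ring
  · by_cases hzy : z = y
    · subst hzy
      rw [chi_m (Finset.mem_insert_self z S), chi_insert hxy, chi_nm hy,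
        chi_m (Finset.mem_insert_of_mem (Finset.mem_insert_self z S))]
    · rw [chi_insert (Ne.symm hzx), chi_insert (Ne.symm hzy), chi_insert (Ne.symm hzx),
        chi_insert (Ne.symm hzy)]

theorem ss_fe (M : Finset V) {t : V → ℝ} (ht : ∀ z, |t z| ≤ 1 / 2) (x : V) (S S' : Finset V)
    (h : ∀ z, z ≠ x → chi {z} S = chi {z} S') : 1 / 3 * ss M t S ≤ ss M t S' := by
  by_cases hx : x ∈ M
  · unfold ss
    rw [← Finset.mul_prod_erase M _ hx, ← Finset.mul_prod_erase M _ hx]
    have h1 : ∏ z ∈ M.erase x, (1 + t z * chi {z} S) = ∏ z ∈ M.erase x, (1 + t z * chi {z} S') :=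
      Finset.prod_congr rfl fun z hz => by rw [h z (Finset.ne_of_mem_erase hz)]
    rw [h1, ← mul_assoc]
    refine mul_le_mul_of_nonneg_right ?_ (ss_pos (M := M.erase x) ht S').le
    have h2 := (site_bd ht x S).2
    have h3 := (site_bd ht x S').1
    linarith
  · have h1 : ss M t S = ss M t S' :=
      Finset.prod_congr rfl fun z hz => by rw [h z fun h2 => hx (h2 ▸ hz)]
    have h2 := ss_pos (M := M) ht S'
    rw [h1]
    linarith

theorem W_pos {P : Sym2 V → ℝ} (h1 : ∀ e, P e < 1) (E : Finset (Sym2 V)) (M : Finset V)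
    {t : V → ℝ} (ht : ∀ z, |t z| ≤ 1 / 2) (S : Finset V) : 0 < W P E M t S :=
  mul_pos (sw_pos h1 E S) (ss_pos ht S)

theorem W_pair {P : Sym2 V → ℝ} (E : Finset (Sym2 V)) (M : Finset V) (t : V → ℝ)
    {S : Finset V} {x y : V} (hxy : x ≠ y) (hx : x ∉ S) (hy : y ∉ S) :
    W P E M t (insert x S) * W P E M t (insert y S) =
      (if s(x, y) ∈ E then (1 - P s(x, y)) ^ 2 else 1) *
        (W P E M t S * W P E M t (insert x (insert y S))) := by
  unfold W
  have h1 := sw_pair (P := P) E hxy hx hy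
  have h2 := ss_pair M t hxy hx hy
  calc sw P E (insert x S) * ss M t (insert x S) * (sw P E (insert y S) * ss M t (insert y S))
      = (sw P E (insert x S) * sw P E (insert y S)) *
        (ss M t (insert x S) * ss M t (insert y S)) := by ring
    _ = _ := by rw [h1, h2]; ring

theorem W_fe {P : Sym2 V → ℝ} (h0 : ∀ e, 0 ≤ P e) {p₁ : ℝ} (h1 : ∀ e, P e ≤ p₁)
    (hp : p₁ < 1) (E : Finset (Sym2 V)) (M : Finset V) {t : V → ℝ} (ht : ∀ z, |t z| ≤ 1 / 2)
    {x : V} {d : ℕ} (hd : (E.filter (fun e => x ∈ e)).card ≤ d) (S : Finset V) :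
    (1 - p₁) ^ d / 3 * W P E M t S ≤ W P E M t (insert x S) ∧
      (1 - p₁) ^ d / 3 * W P E M t (insert x S) ≤ W P E M t S := by
  have h2 := sw_fe h0 h1 hp E hd S
  have h3 := ss_fe M ht x S (insert x S) fun z hz => (chi_insert (Ne.symm hz) S).symm
  have h4 := ss_fe M ht x (insert x S) S fun z hz => chi_insert (Ne.symm hz) S
  have hlt : ∀ e, P e < 1 := fun e => (h1 e).trans_lt hp
  have h5 : 0 ≤ (1 - p₁) ^ d := pow_nonneg (by linarith) _
  unfold W
  constructor
  · calc (1 - p₁) ^ d / 3 * (sw P E S * ss M t S)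
        = ((1 - p₁) ^ d * sw P E S) * (1 / 3 * ss M t S) := by ring
      _ ≤ sw P E (insert x S) * ss M t (insert x S) :=
        mul_le_mul h2.1 h3 (mul_nonneg (by norm_num) (ss_pos ht S).le) (sw_pos hlt E _).le
  · calc (1 - p₁) ^ d / 3 * (sw P E (insert x S) * ss M t (insert x S))
        = ((1 - p₁) ^ d * sw P E (insert x S)) * (1 / 3 * ss M t (insert x S)) := by ring
      _ ≤ sw P E S * ss M t S :=
        mul_le_mul h2.2 h4 (mul_nonneg (by norm_num) (ss_pos ht _).le) (sw_pos hlt E _).le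

theorem W_pairs {P : Sym2 V → ℝ} (h0 : ∀ e, 0 ≤ P e) (h1 : ∀ e, P e < 1) (E : Finset (Sym2 V))
    (M : Finset V) {t : V → ℝ} (ht : ∀ z, |t z| ≤ 1 / 2) (L : Finset V) :
    FKGM.Pairs L (W P E M t) := by
  intro S _ x _ y _ hxy hxS hyS
  rw [W_pair E M t hxy hxS hyS]
  have h2 := mul_pos (W_pos h1 E M ht S) (W_pos h1 E M ht (insert x (insert y S)))
  split_ifs
  · have h3 := h0 s(x, y)
    have h4 := h1 s(x, y)
    have h5 : (1 - P s(x, y)) ^ 2 ≤ 1 := by nlinarith
    nlinarith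
  · linarith

/-- the field of the pendant spins -/
noncomputable def fl (U : Finset V) (z : V) : ℝ := 1 / 2 * chi {z} U

theorem fl_bd (U : Finset V) (z : V) : |fl U z| ≤ 1 / 2 := by
  unfold fl
  rw [abs_mul, abs_chi]
  norm_num

/-- the law of the pendant spins in terms of two spins -/
theorem pw_eq (P : Sym2 V → ℝ) (E : Finset (Sym2 V)) {L U U' : Finset V} {x y : V} (hx : x ∈ L)
    (hy : y ∈ L) (hxy : x ≠ y) (h : ∀ z, z ≠ x → z ≠ y → chi {z} U' = chi {z} U) :
    pw P E L U' = ∑ S ∈ L.powerset, W P E ((L.erase x).erase y) (fl U) S +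
      1 / 2 * chi {x} U' * ∑ S ∈ L.powerset, chi {x} S * W P E ((L.erase x).erase y) (fl U) S +
      1 / 2 * chi {y} U' * ∑ S ∈ L.powerset, chi {y} S * W P E ((L.erase x).erase y) (fl U) S +
      1 / 4 * (chi {x} U' * chi {y} U') *
        ∑ S ∈ L.powerset, chi {x} S * chi {y} S * W P E ((L.erase x).erase y) (fl U) S := by
  unfold pw
  rw [Finset.mul_sum, Finset.mul_sum, Finset.mul_sum, ← Finset.sum_add_distrib,
    ← Finset.sum_add_distrib, ← Finset.sum_add_distrib]
  refine Finset.sum_congr rfl fun S _ => ?_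
  have hy' : y ∈ L.erase x := Finset.mem_erase.2 ⟨hxy.symm, hy⟩
  rw [← Finset.mul_prod_erase L _ hx, ← Finset.mul_prod_erase (L.erase x) _ hy']
  have h1 : ∏ z ∈ (L.erase x).erase y, (1 + 1 / 2 * (chi {z} S * chi {z} U')) =
      ss ((L.erase x).erase y) (fl U) S := by
    refine Finset.prod_congr rfl fun z hz => ?_
    rw [h z (Finset.ne_of_mem_erase (Finset.mem_of_mem_erase hz)) (Finset.ne_of_mem_erase hz)]
    unfold fl
    ring
  rw [h1]
  unfold W
  ring

theorem pw_pos {P : Sym2 V → ℝ} (h1 : ∀ e, P e < 1) (E : Finset (Sym2 V)) (L U : Finset V) :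
    0 < pw P E L U := by
  unfold pw
  refine Finset.sum_pos (fun S _ => mul_pos (sw_pos h1 E S) ?_) ⟨∅, Finset.empty_mem_powerset L⟩
  refine Finset.prod_pos fun z _ => ?_
  have h2 : |chi {z} S * chi {z} U| = 1 := by rw [abs_mul, abs_chi, abs_chi, one_mul]
  have h3 := (abs_le.1 h2.le).1
  linarith

/-- the exact pair identity and the bound of the second product -/
theorem pw_pair {P : Sym2 V → ℝ} (h1 : ∀ e, P e < 1) (E : Finset (Sym2 V)) {L U : Finset V}
    {x y : V} (hx : x ∈ L) (hy : y ∈ L) (hxy : x ≠ y) (hxU : x ∉ U) (hyU : y ∉ U) :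
    pw P E L U * pw P E L (insert x (insert y U)) =
        pw P E L (insert x U) * pw P E L (insert y U) +
          cv L (W P E ((L.erase x).erase y) (fl U)) x y ∧
      pw P E L (insert x U) * pw P E L (insert y U) ≤
        25 / 16 * (∑ S ∈ L.powerset, W P E ((L.erase x).erase y) (fl U) S) ^ 2 := by
  have hW : ∀ S, 0 < W P E ((L.erase x).erase y) (fl U) S := fun S => W_pos h1 E _ (fl_bd U) S
  have e0 := pw_eq P E (U := U) (U' := U) hx hy hxy fun z _ _ => rfl
  have e1 := pw_eq P E (U := U) (U' := insert x U) hx hy hxy fun z hz _ =>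
    chi_insert (Ne.symm hz) U
  have e2 := pw_eq P E (U := U) (U' := insert y U) hx hy hxy fun z _ hz =>
    chi_insert (Ne.symm hz) U
  have e3 := pw_eq P E (U := U) (U' := insert x (insert y U)) hx hy hxy fun z hz hz' => by
    rw [chi_insert (Ne.symm hz), chi_insert (Ne.symm hz')]
  rw [chi_nm hxU, chi_nm hyU] at e0
  rw [chi_m (Finset.mem_insert_self x U), chi_insert hxy, chi_nm hyU] at e1
  rw [chi_m (Finset.mem_insert_self y U), chi_insert hxy.symm, chi_nm hxU] at e2
  rw [chi_m (Finset.mem_insert_self x (insert y U)),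
    chi_m (Finset.mem_insert_of_mem (Finset.mem_insert_self y U))] at e3
  rw [e0, e1, e2, e3]
  have hD : |∑ S ∈ L.powerset, chi {x} S * chi {y} S * W P E ((L.erase x).erase y) (fl U) S| ≤
      ∑ S ∈ L.powerset, W P E ((L.erase x).erase y) (fl U) S := by
    refine (Finset.abs_sum_le_sum_abs _ _).trans (Finset.sum_le_sum fun S _ => ?_)
    rw [abs_mul, abs_mul, abs_chi, abs_chi, abs_of_pos (hW S)]
    linarith
  unfold cv
  set A := ∑ S ∈ L.powerset, W P E ((L.erase x).erase y) (fl U) S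
  set B := ∑ S ∈ L.powerset, chi {x} S * W P E ((L.erase x).erase y) (fl U) S
  set C := ∑ S ∈ L.powerset, chi {y} S * W P E ((L.erase x).erase y) (fl U) S
  set D := ∑ S ∈ L.powerset, chi {x} S * chi {y} S * W P E ((L.erase x).erase y) (fl U) S
  have hD' := abs_le.1 hD
  refine ⟨by ring, ?_⟩
  have h2 : (A - D / 4) ^ 2 ≤ 25 / 16 * A ^ 2 := by
    have h3 : |A - D / 4| ≤ 5 / 4 * A := by
      rw [abs_le]
      constructor <;> linarith [hD'.1, hD'.2]
    have h4 := pow_le_pow_left₀ (abs_nonneg _) h3 2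
    rw [sq_abs] at h4
    nlinarith
  nlinarith [sq_nonneg (B / 2 - C / 2)]

end PWLM

open PWLM CLBM in
/-- the lattice condition for the law of the pendant spins -/
theorem pwl0 {V : Type} {P : Sym2 V → ℝ} (h0 : ∀ e, 0 ≤ P e) (h1 : ∀ e, P e < 1)
    (E : Finset (Sym2 V)) {L U : Finset V} {x y : V} (hx : x ∈ L) (hy : y ∈ L) (hxy : x ≠ y)
    (hxU : x ∉ U) (hyU : y ∉ U) :
    pw P E L (insert x U) * pw P E L (insert y U) ≤
      pw P E L U * pw P E L (insert x (insert y U)) := by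
  rw [(pw_pair h1 E hx hy hxy hxU hyU).1]
  have h2 := fkg_pairs_anti L (W P E ((L.erase x).erase y) (fl U)) (fun S => chi {x} S)
    (fun S => chi {y} S) (fun S _ => W_pos h1 E _ (fl_bd U) S)
    (W_pairs h0 h1 E _ (fl_bd U) L) (fun S T h _ => chi_anti x h) (fun S T h _ => chi_anti y h)
  unfold cv
  linarith

/-- the gain for vertices joined by a walk of length at most `l` -/
noncomputable def gn (d l : ℕ) (p₀ p₁ : ℝ) : ℝ :=
  CLBM.kap ((1 - p₁) ^ d / 3) ((1 - p₀) ^ 2) ^ l *
    (((1 - p₁) ^ d / 3) / (1 + (1 - p₁) ^ d / 3)) ^ 2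

theorem gn_pos (d l : ℕ) {p₀ p₁ : ℝ} (hp0 : 0 < p₀) (hp1 : p₁ < 1) (hp01 : p₀ ≤ p₁) :
    0 < gn d l p₀ p₁ := by
  unfold gn CLBM.kap
  have h1 : 0 < (1 - p₁) ^ d / 3 := div_pos (pow_pos (by linarith) _) (by norm_num)
  have h2 : 0 < 1 - (1 - p₀) ^ 2 := by nlinarith
  positivity

theorem gn_le_one (d l : ℕ) {p₀ p₁ : ℝ} (hp0 : 0 < p₀) (hp1 : p₁ < 1) (hp01 : p₀ ≤ p₁) :
    gn d l p₀ p₁ ≤ 1 := by
  have h1 : 0 < (1 - p₁) ^ d / 3 := div_pos (pow_pos (by linarith) _) (by norm_num)
  have hq0 : 0 ≤ (1 - p₀) ^ 2 := sq_nonneg _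
  have hq1 : (1 - p₀) ^ 2 ≤ 1 := by nlinarith
  have h2 : CLBM.kap ((1 - p₁) ^ d / 3) ((1 - p₀) ^ 2) ^ l ≤ 1 :=
    pow_le_one₀ (CLBM.kap_nonneg hq1) (CLBM.kap_le_one h1 hq0 hq1)
  have h3 : ((1 - p₁) ^ d / 3) / (1 + (1 - p₁) ^ d / 3) ≤ 1 := by
    rw [div_le_one (by linarith)]
    linarith
  have h4 : (((1 - p₁) ^ d / 3) / (1 + (1 - p₁) ^ d / 3)) ^ 2 ≤ 1 :=
    pow_le_one₀ (by positivity) h3
  exact mul_le_one₀ h2 (sq_nonneg _) h4

open PWLM CLBM in
/-- PWL: the lattice condition with a uniform gain for vertices joined by a short walk -/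
theorem pwl {V : Type} (G : SimpleGraph V) [G.LocallyFinite] (d l : ℕ) {p₀ p₁ p : ℝ}
    (hp0 : 0 < p₀) (hp1 : p₁ < 1) (h0 : p₀ ≤ p) (h1 : p ≤ p₁)
    (hd : ∀ x, (G.neighborFinset x).card ≤ d) {L U : Finset V} {x y : V} (hxy : x ≠ y)
    (hxU : x ∉ U) (hyU : y ∉ U) (w : G.Walk x y) (hl : w.length ≤ l)
    (hs : ∀ v ∈ w.support, v ∈ L) :
    (1 + gn d l p₀ p₁) * (pw (fun _ => p) (ed0 G L) L (insert x U) *
        pw (fun _ => p) (ed0 G L) L (insert y U)) ≤
      pw (fun _ => p) (ed0 G L) L U * pw (fun _ => p) (ed0 G L) L (insert x (insert y U)) := by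
  have hx : x ∈ L := hs x w.start_mem_support
  have hy : y ∈ L := hs y w.end_mem_support
  have hP0 : ∀ e : Sym2 V, 0 ≤ (fun _ => p : Sym2 V → ℝ) e := fun e => by
    show 0 ≤ p
    linarith
  have hP1 : ∀ e : Sym2 V, (fun _ => p : Sym2 V → ℝ) e < 1 := fun e => by
    show p < 1
    linarith
  have hρ : 0 < (1 - p₁) ^ d / 3 := div_pos (pow_pos (by linarith) _) (by norm_num)
  have hq0 : 0 ≤ (1 - p₀) ^ 2 := sq_nonneg _
  have hq1 : (1 - p₀) ^ 2 ≤ 1 := by nlinarith
  obtain ⟨e1, e2⟩ := pw_pair hP1 (ed0 G L) hx hy hxy hxU hyU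
  have hcard : ∀ z : V, ((ed0 G L).filter (fun e => z ∈ e)).card ≤ d := by
    intro z
    refine le_trans (Finset.card_le_card (t := (G.neighborFinset z).image fun u => s(z, u)) ?_)
      (Finset.card_image_le.trans (hd z))
    intro e he
    obtain ⟨he1, he2⟩ := Finset.mem_filter.1 he
    obtain ⟨u, rfl⟩ := Sym2.mem_iff_exists.1 he2
    rw [mem_ed0_mk] at he1
    refine Finset.mem_image.2 ⟨u, ?_, rfl⟩
    rw [SimpleGraph.mem_neighborFinset]
    exact he1.1
  have hcv := cv_walk (G := G) (L := L)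
    (w := W (fun _ => p) (ed0 G L) ((L.erase x).erase y) (fl U))
    (fun S _ => W_pos hP1 _ _ (fl_bd U) S)
    (W_pairs hP0 hP1 _ _ (fl_bd U) L) hρ hq0 hq1
    (fun z _ S _ _ => W_fe hP0 (p₁ := p₁) (fun _ => h1) hp1 _ _ (fl_bd U) (hcard z) S)
    (fun u hu v hv huv S _ huS hvS => by
      rw [W_pair _ _ _ huv.ne huS hvS]
      have h2 := mul_pos (W_pos hP1 (ed0 G L) ((L.erase x).erase y) (fl_bd U) S)
        (W_pos hP1 (ed0 G L) ((L.erase x).erase y) (fl_bd U) (insert u (insert v S)))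
      have h3 : s(u, v) ∈ ed0 G L := by
        rw [mem_ed0_mk]
        exact ⟨huv, hu, hv⟩
      rw [if_pos h3]
      refine mul_le_mul_of_nonneg_right ?_ h2.le
      exact pow_le_pow_left₀ (by linarith) (by linarith) 2) w hs
  rw [e1, add_mul, one_mul]
  refine add_le_add_right ?_ _
  refine le_trans ?_ hcv
  have h4 : CLBM.kap ((1 - p₁) ^ d / 3) ((1 - p₀) ^ 2) ^ l ≤
      CLBM.kap ((1 - p₁) ^ d / 3) ((1 - p₀) ^ 2) ^ w.length :=
    pow_le_pow_of_le_one (kap_nonneg hq1) (kap_le_one hρ hq0 hq1) hl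
  unfold gn
  set kk := CLBM.kap ((1 - p₁) ^ d / 3) ((1 - p₀) ^ 2)
  set rr := ((1 - p₁) ^ d / 3) / (1 + (1 - p₁) ^ d / 3)
  set AA := ∑ S ∈ L.powerset, W (fun _ => p) (ed0 G L) ((L.erase x).erase y) (fl U) S
  have hkk : 0 ≤ kk ^ l := pow_nonneg (kap_nonneg hq1) _
  calc kk ^ l * rr ^ 2 * (pw (fun _ => p) (ed0 G L) L (insert x U) *
        pw (fun _ => p) (ed0 G L) L (insert y U))
      ≤ kk ^ l * rr ^ 2 * (25 / 16 * AA ^ 2) := mul_le_mul_of_nonneg_left e2 (by positivity)
    _ ≤ kk ^ l * (4 * rr ^ 2 * AA ^ 2) := by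
        have : 0 ≤ kk ^ l * (rr ^ 2 * AA ^ 2) := by positivity
        nlinarith
    _ ≤ kk ^ w.length * (4 * rr ^ 2 * AA ^ 2) := mul_le_mul_of_nonneg_right h4 (by positivity)

end UN

end MP8622
end

section
set_option autoImplicit false

open Classical Filter Topology

/-!
PPE: the pair lattice condition of the noisy copies, exact.
-/

namespace MP8622

namespace UN

open PWLM CLBM in
theorem specPPE : SpecPPE := by
  intro V P E L h0 h1
  refine ⟨fun U => pw_pos h1 E L U, ?_⟩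
  intro U u v _ hu hv huv huU hvU t ht
  obtain ⟨e1, e2⟩ := pw_pair h1 E (U := U) hu hv huv huU hvU
  have hv' : v ∈ L.erase u := Finset.mem_erase.2 ⟨huv.symm, hv⟩
  have hwt : ∀ S, wt P E L t S = W P E ((L.erase u).erase v) (fl U) S := by
    intro S
    unfold wt W
    congr 1
    rw [← Finset.mul_prod_erase L _ hu, ← Finset.mul_prod_erase (L.erase u) _ hv', ht u, ht v,
      if_pos (Or.inl rfl), if_pos (Or.inr rfl), zero_mul, zero_mul, add_zero, one_mul, one_mul]
    refine Finset.prod_congr rfl fun z hz => ?_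
    have h2 : z ≠ v := Finset.ne_of_mem_erase hz
    have h3 : z ≠ u := Finset.ne_of_mem_erase (Finset.mem_of_mem_erase hz)
    rw [ht z, if_neg (by rintro (h | h); exacts [h3 h, h2 h])]
    unfold fl
    ring
  have hA : 0 < ∑ S ∈ L.powerset, W P E ((L.erase u).erase v) (fl U) S :=
    Finset.sum_pos (fun S _ => W_pos h1 E _ (fl_bd U) S) ⟨∅, Finset.empty_mem_powerset L⟩
  have hfkg := fkg_pairs_anti L (W P E ((L.erase u).erase v) (fl U)) (fun S => chi {u} S)
    (fun S => chi {v} S) (fun S _ => W_pos h1 E _ (fl_bd U) S)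
    (W_pairs h0 h1 E _ (fl_bd U) L) (fun S T h _ => chi_anti u h) (fun S T h _ => chi_anti v h)
  have hct : ct P E L t u v * (∑ S ∈ L.powerset, W P E ((L.erase u).erase v) (fl U) S) ^ 2 =
      cv L (W P E ((L.erase u).erase v) (fl U)) u v := by
    unfold ct zt cv
    simp only [hwt, one_mul]
    field_simp
  unfold cv at hct e1
  set A := ∑ S ∈ L.powerset, W P E ((L.erase u).erase v) (fl U) S
  set c := ct P E L t u v
  have hc : 0 ≤ c := by
    have h2 : 0 ≤ c * A ^ 2 := by
      rw [hct]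
      linarith
    exact nonneg_of_mul_nonneg_left h2 (by positivity)
  rw [e1, ← hct]
  nlinarith [mul_le_mul_of_nonneg_left e2 hc, mul_nonneg hc (sq_nonneg A)]

end UN

end MP8622
end
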