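import Pool.Agent.Lib.MP_8622f1_pr.UN.Defs
import Pool.Agent.Lib.MP_8622f1_pr.UN.Spec
import Pool.Agent.Lib.MP_8622f1_pr.UN.INF
import Pool.Agent.Lib.MP_8622f1_pr.UN.PPE
import Pool.Agent.Lib.MP_8622f1_pr.Mtpc

section
set_option autoImplicit false

open Classical Filter Topology

/-!
# S19447, unimodular graphs: the sine channel satisfies `Chn`, invariance (helper31)
-/

namespace MP8622

namespace UN

namespace CHNM

variable {V : Type}

theorem chi_one (x : V) (U : Finset V) : chi {x} U = if x ∈ U then -1 else 1 := by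
  unfold chi
  by_cases h : x ∈ U
  · rw [if_pos h, Finset.inter_eq_left.2 (Finset.singleton_subset_iff.2 h), Finset.card_singleton,
      pow_one]
  · rw [if_neg h, Finset.singleton_inter_of_notMem h, Finset.card_empty, pow_zero]

theorem abs_chi (x : V) (U : Finset V) : |chi {x} U| = 1 := by
  rw [chi_one]
  split_ifs <;> simp

theorem chi_mono (x : V) {S T : Finset V} (h : S ⊆ T) : chi {x} T ≤ chi {x} S := by
  rw [chi_one, chi_one]
  by_cases h1 : x ∈ S
  · rw [if_pos h1, if_pos (h h1)]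
  · rw [if_neg h1]
    split_ifs <;> norm_num

variable {G : SimpleGraph V} {N : V → V → ℝ} {B : V → Finset V} {m : ℕ} {n ν : ℝ}

theorem bs_abs (hK : Ker G N B m n ν) (a : V) (U : Finset V) : |bs N B a U| ≤ n := by
  unfold bs
  calc |∑ x ∈ B a, N a x * chi {x} U| ≤ ∑ x ∈ B a, |N a x * chi {x} U| :=
        Finset.abs_sum_le_sum_abs _ _
    _ = ∑ x ∈ B a, N a x := by
        refine Finset.sum_congr rfl fun x _ => ?_
        rw [abs_mul, abs_chi, mul_one, abs_of_nonneg (hK.nonneg a x)]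
    _ = n := hK.row a

theorem bs_mono (hK : Ker G N B m n ν) (a : V) {S T : Finset V} (h : S ⊆ T) :
    bs N B a T ≤ bs N B a S := by
  unfold bs
  exact Finset.sum_le_sum fun x _ => mul_le_mul_of_nonneg_left (chi_mono x h) (hK.nonneg a x)

theorem bs_loc (a : V) (U : Finset V) : bs N B a U = bs N B a (U ∩ B a) := by
  unfold bs
  refine Finset.sum_congr rfl fun x hx => ?_
  rw [chi_one, chi_one]
  simp only [Finset.mem_inter, hx, and_true]

/-- one more minus spin -/
theorem bs_insert (hK : Ker G N B m n ν) (a x : V) {U : Finset V} (hx : x ∉ U) :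
    bs N B a U = bs N B a (insert x U) + 2 * N a x := by
  have h1 : bs N B a U - bs N B a (insert x U) = ∑ y ∈ B a, if y = x then 2 * N a x else 0 := by
    unfold bs
    rw [← Finset.sum_sub_distrib]
    refine Finset.sum_congr rfl fun y _ => ?_
    rw [chi_one, chi_one]
    by_cases hy : y = x
    · rw [if_pos hy, hy, if_neg hx, if_pos (Finset.mem_insert_self _ _)]
      ring
    · rw [if_neg hy]
      by_cases hyU : y ∈ U
      · rw [if_pos hyU, if_pos (Finset.mem_insert_of_mem hyU), sub_self]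
      · rw [if_neg hyU, if_neg (by
          rw [Finset.mem_insert]
          rintro (h | h)
          · exact hy h
          · exact hyU h), sub_self]
  rw [Finset.sum_ite_eq' (B a) x] at h1
  by_cases hB : x ∈ B a
  · rw [if_pos hB] at h1
    linarith
  · rw [if_neg hB] at h1
    rw [hK.supp a x hB]
    linarith

theorem sin_half_mono {v w : ℝ} (hv : -1 ≤ v) (hvw : v ≤ w) (hw : w ≤ 1) :
    Real.sin v - v / 2 ≤ Real.sin w - w / 2 := by
  have hm : MonotoneOn (fun x : ℝ => Real.sin x - x / 2) (Set.Icc (-1) 1) := by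
    refine monotoneOn_of_deriv_nonneg (convex_Icc _ _) (by fun_prop) (by fun_prop) ?_
    intro x hx
    rw [interior_Icc] at hx
    have h1 : HasDerivAt (fun x : ℝ => Real.sin x - x / 2) (Real.cos x - 1 / 2) x :=
      (Real.hasDerivAt_sin x).sub ((hasDerivAt_id' x).div_const 2)
    rw [h1.deriv]
    have h2 := Real.one_sub_sq_div_two_le_cos (x := x)
    have h3 : x ^ 2 ≤ 1 := by
      rw [sq_le_one_iff_abs_le_one, abs_le]
      exact ⟨hx.1.le, hx.2.le⟩
    linarith
  exact hm ⟨hv, hvw.trans hw⟩ ⟨hv.trans hvw, hw⟩ hvw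

/-- the identity and the bound for one pair -/
theorem lat_core {c z v p q : ℝ} (hc0 : 0 ≤ c) (hz : z = 1 ∨ z = -1) (hp : 0 ≤ p)
    (hq : 0 ≤ q) :
    (1 + z * (c * Real.sin (v + q))) * (1 + z * (c * Real.sin (v + p))) - (c + c ^ 2) * (p * q) ≤
      (1 + z * (c * Real.sin v)) * (1 + z * (c * Real.sin (v + (p + q)))) := by
  have hzz : z * z = 1 := by
    rcases hz with rfl | rfl <;> norm_num
  have e1 : Real.sin v * Real.sin (v + (p + q)) - Real.sin (v + q) * Real.sin (v + p) =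
      - (Real.sin p * Real.sin q) := by
    rw [Real.sin_add v (p + q), Real.sin_add v p, Real.sin_add v q, Real.cos_add p q,
      Real.sin_add p q]
    have h1 := Real.sin_sq_add_cos_sq v
    have h2 : Real.cos v ^ 2 = 1 - Real.sin v ^ 2 := by linarith
    ring_nf
    rw [h2]
    ring
  have e2 : Real.sin v + Real.sin (v + (p + q)) - Real.sin (v + q) - Real.sin (v + p) =
      - 4 * (Real.sin (v + (p + q) / 2) * (Real.sin (p / 2) * Real.sin (q / 2))) := by
    have hp2 : p = 2 * (p / 2) := by ring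
    have hq2 : q = 2 * (q / 2) := by ring
    set a := p / 2 with ha
    set b := q / 2 with hb
    rw [hp2, hq2]
    have h0 : v + (2 * a + 2 * b) / 2 = v + (a + b) := by ring
    rw [h0, Real.sin_add v (2 * a + 2 * b), Real.sin_add v (2 * a), Real.sin_add v (2 * b),
      Real.sin_add v (a + b), Real.cos_add (2 * a) (2 * b), Real.sin_add (2 * a) (2 * b),
      Real.cos_add a b, Real.sin_add a b, Real.sin_two_mul, Real.cos_two_mul, Real.sin_two_mul,
      Real.cos_two_mul]
    have h1 : Real.cos a ^ 2 = 1 - Real.sin a ^ 2 := by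
      linarith [Real.sin_sq_add_cos_sq a]
    have h2 : Real.cos b ^ 2 = 1 - Real.sin b ^ 2 := by
      linarith [Real.sin_sq_add_cos_sq b]
    rw [h1, h2]
    ring
  have b1 : |Real.sin p * Real.sin q| ≤ p * q := by
    rw [abs_mul]
    exact mul_le_mul ((Real.abs_sin_le_abs).trans_eq (abs_of_nonneg hp))
      ((Real.abs_sin_le_abs).trans_eq (abs_of_nonneg hq)) (abs_nonneg _) hp
  have b2 : |Real.sin (v + (p + q) / 2) * (Real.sin (p / 2) * Real.sin (q / 2))| ≤ p * q / 4 := by
    rw [abs_mul, abs_mul]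
    have h1 := Real.abs_sin_le_one (v + (p + q) / 2)
    have h2 : |Real.sin (p / 2)| ≤ p / 2 :=
      (Real.abs_sin_le_abs).trans_eq (abs_of_nonneg (by linarith))
    have h3 : |Real.sin (q / 2)| ≤ q / 2 :=
      (Real.abs_sin_le_abs).trans_eq (abs_of_nonneg (by linarith))
    calc |Real.sin (v + (p + q) / 2)| * (|Real.sin (p / 2)| * |Real.sin (q / 2)|)
        ≤ 1 * (p / 2 * (q / 2)) :=
          mul_le_mul h1 (mul_le_mul h2 h3 (abs_nonneg _) (by linarith))
            (mul_nonneg (abs_nonneg _) (abs_nonneg _)) zero_le_one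
      _ = p * q / 4 := by ring
  have key : (1 + z * (c * Real.sin v)) * (1 + z * (c * Real.sin (v + (p + q)))) -
      (1 + z * (c * Real.sin (v + q))) * (1 + z * (c * Real.sin (v + p))) =
      z * c * (- 4 * (Real.sin (v + (p + q) / 2) * (Real.sin (p / 2) * Real.sin (q / 2)))) -
        c ^ 2 * (Real.sin p * Real.sin q) := by
    rw [← e2]
    have : c ^ 2 * (Real.sin p * Real.sin q) = - ((z * z) * c ^ 2 *
        (Real.sin v * Real.sin (v + (p + q)) - Real.sin (v + q) * Real.sin (v + p))) := by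
      rw [e1, hzz]
      ring
    rw [this]
    ring
  have hpq : 0 ≤ p * q := mul_nonneg hp hq
  have l1 : - (c * (p * q)) ≤
      z * c * (- 4 * (Real.sin (v + (p + q) / 2) * (Real.sin (p / 2) * Real.sin (q / 2)))) := by
    have h4 := abs_le.1 b2
    rcases hz with rfl | rfl
    · nlinarith [h4.1, h4.2]
    · nlinarith [h4.1, h4.2]
  have l2 : c ^ 2 * (Real.sin p * Real.sin q) ≤ c ^ 2 * (p * q) :=
    mul_le_mul_of_nonneg_left (abs_le.1 b1).2 (sq_nonneg c)
  nlinarith [key, l1, l2]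

theorem exp_half_lt : Real.exp (1 / 2) < 1.65 := by
  have h1 : Real.exp (1 / 2) ^ 2 = Real.exp 1 := by
    rw [← Real.exp_nat_mul]
    norm_num
  have h2 := Real.exp_one_lt_d9
  have h3 : 0 < Real.exp (1 / 2) := Real.exp_pos _
  by_contra h
  rw [not_lt] at h
  nlinarith

end CHNM

open CHNM in
/-- the sine channel -/
theorem chn_ph {V : Type} (G : SimpleGraph V) (N : V → V → ℝ) (B : V → Finset V) (m : ℕ)
    (n ν δ : ℝ) (hK : Ker G N B m n ν) (hδ : 0 < δ) (hn : 8 * δ * n ≤ 1) :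
    Chn N B (ph N B (2 * Real.exp (1 / 2) * δ)) δ (100 * δ ^ 2) := by
  set E := Real.exp (1 / 2) with hE
  set c := Real.exp (-(1 / 2)) with hc
  have hE0 : 0 < E := Real.exp_pos _
  have hc0 : 0 < c := Real.exp_pos _
  have hcE : c * E = 1 := by
    rw [hc, hE, ← Real.exp_add]
    norm_num
  have hE1 : E < 1.65 := exp_half_lt
  have hs0 : 0 < 2 * E * δ := by positivity
  have hn0 := hK.npos
  -- |s S| ≤ E / 4 ≤ 1/2
  have hv : ∀ a U, |2 * E * δ * bs N B a U| ≤ E / 4 := by
    intro a U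
    rw [abs_mul, abs_of_pos hs0]
    have h1 := bs_abs hK a U
    calc 2 * E * δ * |bs N B a U| ≤ 2 * E * δ * n := mul_le_mul_of_nonneg_left h1 hs0.le
      _ = E * (8 * δ * n) / 4 := by ring
      _ ≤ E / 4 := by nlinarith
  have hphi : ∀ a U, |ph N B (2 * E * δ) a U| ≤ 1 / 4 := by
    intro a U
    unfold ph
    rw [← hc, abs_mul, abs_of_pos hc0]
    have h1 : |Real.sin (2 * E * δ * bs N B a U)| ≤ E / 4 := (Real.abs_sin_le_abs).trans (hv a U)
    calc c * |Real.sin (2 * E * δ * bs N B a U)| ≤ c * (E / 4) :=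
          mul_le_mul_of_nonneg_left h1 hc0.le
      _ = c * E / 4 := by ring
      _ = 1 / 4 := by rw [hcE]
  refine ⟨fun a U => ?_, fun a U => (hphi a U).trans (by norm_num), fun a S T h => ?_, ?_⟩
  · unfold ph
    rw [← bs_loc]
  · have h1 := bs_mono hK a h
    have e : ∀ U, ph N B (2 * E * δ) a U - δ * bs N B a U =
        c * (Real.sin (2 * E * δ * bs N B a U) - 2 * E * δ * bs N B a U / 2) := by
      intro U
      unfold ph
      rw [← hc]
      have : c * (2 * E * δ * bs N B a U / 2) = (c * E) * (δ * bs N B a U) := by ring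
      rw [mul_sub, this, hcE, one_mul]
    rw [e, e]
    refine mul_le_mul_of_nonneg_left (sin_half_mono ?_ ?_ ?_) hc0.le
    · have := (abs_le.1 (hv a T)).1
      linarith
    · exact mul_le_mul_of_nonneg_left h1 hs0.le
    · have := (abs_le.1 (hv a S)).2
      linarith
  · intro a z hz x y U hxy hx hy
    have hyx : y ∉ insert x U := by
      rw [Finset.mem_insert]
      rintro (h | h)
      · exact hxy h.symm
      · exact hy h
    have hxy' : x ∉ insert y U := by
      rw [Finset.mem_insert]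
      rintro (h | h)
      · exact hxy h
      · exact hx h
    set s := 2 * E * δ with hs
    set v := s * bs N B a (insert x (insert y U)) with hvv
    have e1 : s * bs N B a (insert y U) = v + 2 * s * N a x := by
      rw [bs_insert hK a x hxy', hvv]
      ring
    have e2 : s * bs N B a (insert x U) = v + 2 * s * N a y := by
      rw [bs_insert hK a y hyx, hvv, Finset.insert_comm x y U]
      ring
    have e3 : s * bs N B a U = v + (2 * s * N a x + 2 * s * N a y) := by
      rw [bs_insert hK a x hx, mul_add, e2]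
      ring
    have hNx := hK.nonneg a x
    have hNy := hK.nonneg a y
    have hp : 0 ≤ 2 * s * N a x := by positivity
    have hq : 0 ≤ 2 * s * N a y := by positivity
    have key := lat_core (v := v) hc0.le hz hp hq
    have f1 : ph N B s a (insert y U) = c * Real.sin (v + 2 * s * N a x) := by
      unfold ph
      rw [e1]
    have f2 : ph N B s a (insert x U) = c * Real.sin (v + 2 * s * N a y) := by
      unfold ph
      rw [e2]
    have f3 : ph N B s a U = c * Real.sin (v + (2 * s * N a x + 2 * s * N a y)) := by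
      unfold ph
      rw [e3]
    have f4 : ph N B s a (insert x (insert y U)) = c * Real.sin v := rfl
    rw [← f1, ← f2, ← f3, ← f4] at key
    have g1 : 3 / 4 ≤ 1 + z * ph N B s a (insert x U) := by
      have := abs_le.1 (hphi a (insert x U))
      rcases hz with rfl | rfl <;> linarith [this.1, this.2]
    have g2 : 3 / 4 ≤ 1 + z * ph N B s a (insert y U) := by
      have := abs_le.1 (hphi a (insert y U))
      rcases hz with rfl | rfl <;> linarith [this.1, this.2]
    have g3 : 9 / 16 ≤ (1 + z * ph N B s a (insert x U)) * (1 + z * ph N B s a (insert y U)) := by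
      nlinarith
    have hNN : 0 ≤ N a x * N a y := mul_nonneg hNx hNy
    have g4 : (c + c ^ 2) * (2 * s * N a x * (2 * s * N a y)) =
        16 * (E + 1) * δ ^ 2 * (N a x * N a y) := by
      rw [hs]
      have : (c + c ^ 2) * (2 * (2 * E * δ) * N a x * (2 * (2 * E * δ) * N a y)) =
          16 * ((c * E) * E + (c * E) ^ 2) * δ ^ 2 * (N a x * N a y) := by ring
      rw [this, hcE]
      ring
    rw [g4] at key
    have g5 : 16 * (E + 1) * δ ^ 2 * (N a x * N a y) ≤ 100 * δ ^ 2 * N a x * N a y *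
        ((1 + z * ph N B s a (insert x U)) * (1 + z * ph N B s a (insert y U))) := by
      have h1 : 0 ≤ 100 * δ ^ 2 * N a x * N a y := by positivity
      calc 16 * (E + 1) * δ ^ 2 * (N a x * N a y) ≤ 100 * δ ^ 2 * N a x * N a y * (9 / 16) := by
            have h2 : 0 ≤ δ ^ 2 * (N a x * N a y) := by positivity
            nlinarith
        _ ≤ _ := mul_le_mul_of_nonneg_left g3 h1
    nlinarith [key, g5]

theorem ph_inv {V : Type} (G : SimpleGraph V) (N : V → V → ℝ) (B : V → Finset V) (m : ℕ)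
    (n ν s : ℝ) (hK : Ker G N B m n ν) (g : V ≃ V) (hg : IsAut G g) (a : V) (U : Finset V) :
    ph N B s (g a) (U.image g) = ph N B s a U := by
  have hB : B (g a) = (B a).image g := by
    have key : ∀ (h : V ≃ V), IsAut G h → ∀ b x, x ∈ B b → h x ∈ B (h b) := by
      intro h hh b x hx
      obtain ⟨w, hw⟩ := (hK.mem b x).1 hx
      let f : G →g G := ⟨h, fun {u v} huv => (hh u v).2 huv⟩
      exact (hK.mem _ _).2 ⟨w.map f, by rw [SimpleGraph.Walk.length_map]; exact hw⟩
    ext x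
    rw [Finset.mem_image]
    constructor
    · intro hx
      have hg' : IsAut G g.symm := by
        intro u v
        have := hg (g.symm u) (g.symm v)
        rw [Equiv.apply_symm_apply, Equiv.apply_symm_apply] at this
        exact this.symm
      have h1 := key g.symm hg' _ _ hx
      rw [Equiv.symm_apply_apply] at h1
      exact ⟨g.symm x, h1, Equiv.apply_symm_apply g x⟩
    · rintro ⟨y, hy, rfl⟩
      exact key g hg a y hy
  unfold ph bs
  rw [hB, Finset.sum_image (fun x _ y _ h => g.injective h)]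
  congr 3
  refine Finset.sum_congr rfl fun x _ => ?_
  rw [hK.inv g hg, CHNM.chi_one, CHNM.chi_one]
  have : (g x ∈ U.image g) ↔ x ∈ U := by
    rw [Finset.mem_image]
    constructor
    · rintro ⟨y, hy, h⟩
      rw [← g.injective h]
      exact hy
    · intro h
      exact ⟨x, h, rfl⟩
  simp only [this]

end UN

end MP8622
end

section
set_option autoImplicit false
set_option linter.unusedSectionVars false

open Classical Filter Topology

/-!
# MP_8622f1_pr: the information of the sine channel about the pendant spins (helper92)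
-/

namespace MP8622

namespace UN

namespace CHLM

variable {V : Type}

lemma chi_pm (x : V) (U : Finset V) : chi {x} U = 1 ∨ chi {x} U = -1 := by
  rw [SlM.chi_single]
  split_ifs
  · right; rfl
  · left; rfl

lemma sum_out {A : Finset V} (g : (A → ℝ) → ℝ) :
    ∑ Z : A → Bool, g (fun a => bsg (Z a)) = ∑ Z ∈ A.powerset, g (fun a => chi {a.1} Z) := by
  refine Finset.sum_bij' (fun Z _ => A.filter (fun x => ∃ h : x ∈ A, Z ⟨x, h⟩ = false))
    (fun Z _ => fun a => decide (a.1 ∉ Z)) ?_ ?_ ?_ ?_ ?_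
  · intro Z _
    rw [Finset.mem_powerset]
    exact Finset.filter_subset _ _
  · intro Z _
    exact Finset.mem_univ _
  · intro Z _
    funext a
    by_cases h : Z a = false
    · simp [Finset.mem_filter, h]
    · simp [Finset.mem_filter, h]
  · intro Z hZ
    rw [Finset.mem_powerset] at hZ
    ext x
    simp only [Finset.mem_filter, decide_eq_false_iff_not, not_not]
    constructor
    · rintro ⟨_, _, h⟩; exact h
    · intro h; exact ⟨hZ h, hZ h, h⟩
  · intro Z _
    congr 1
    funext a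
    rw [SlM.chi_single]
    by_cases h : Z a = false
    · simp [Finset.mem_filter, h, bsg]
    · simp [Finset.mem_filter, h, bsg]

lemma ex_pair {P : Sym2 V → ℝ} (h1 : ∀ e, P e ≤ 1) (E : Finset (Sym2 V)) {Λ : Finset V} {x y : V}
    (hx : x ∈ Λ) (hy : y ∈ Λ) : ex P E Λ (fun U => chi {x} U * chi {y} U) = ch P E Λ x y := by
  unfold ch
  by_cases hxy : x = y
  · subst hxy
    rw [if_pos rfl]
    have : (fun U => chi {x} U * chi {x} U) = fun _ : Finset V => (1 : ℝ) := by
      funext U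
      rcases chi_pm x U with h | h <;> rw [h] <;> norm_num
    rw [this, INFM.ex_const h1]
  · rw [if_neg hxy]
    have h2 : (fun U => chi {x} U * chi {y} U) = chi {x, y} := by
      funext U
      have := INFM.chi_insert' (K := {y}) (x := x) (by simpa using hxy) U
      exact this.symm
    have h3 : ({x, y} : Finset V) ⊆ Λ := by
      intro z hz
      rw [Finset.mem_insert, Finset.mem_singleton] at hz
      rcases hz with rfl | rfl
      · exact hx
      · exact hy
    rw [h2, INFM.ex_chi h1 E h3, Finset.card_pair hxy]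
    norm_num

lemma sq_div_scale (a b W : ℝ) (hW : 0 < W) : (a / W) ^ 2 / (b / W) = a ^ 2 / b / W := by
  rcases eq_or_ne b 0 with rfl | hb
  · simp
  · field_simp

lemma exp_bd (u : ℝ) (h0 : 0 ≤ u) (h1 : u ≤ 1) : (Real.exp u - 1) / 4 ≤ u / 2 := by
  have h := Real.abs_exp_sub_one_le (x := u) (by rw [abs_of_nonneg h0]; exact h1)
  rw [abs_of_nonneg h0] at h
  have := (abs_le.1 h).2
  linarith

lemma const_bd (δ ν : ℝ) (h : 100 * δ ^ 2 * ν ^ 2 ≤ 1) :
    (Real.exp (4 * ((2 * Real.exp (1 / 2) * δ) ^ 2 * ν ^ 2)) - 1) / 4 ≤ 22 * δ ^ 2 * ν ^ 2 := by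
  have he : Real.exp (1 / 2) ^ 2 = Real.exp 1 := by
    rw [← Real.exp_nat_mul]
    norm_num
  have h1 : 4 * ((2 * Real.exp (1 / 2) * δ) ^ 2 * ν ^ 2) = 16 * Real.exp 1 * (δ ^ 2 * ν ^ 2) := by
    rw [mul_pow, mul_pow, he]
    ring
  have h2 := Real.exp_one_lt_d9
  have h3 : 0 ≤ δ ^ 2 * ν ^ 2 := by positivity
  have h4 : 16 * Real.exp 1 * (δ ^ 2 * ν ^ 2) ≤ 1 := by nlinarith
  have h5 : 0 ≤ 16 * Real.exp 1 * (δ ^ 2 * ν ^ 2) := by positivity
  rw [h1]
  refine (exp_bd _ h5 h4).trans ?_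
  nlinarith

/-- the second part of CHL -/
theorem l2 (hPST : SpecPST) {G : SimpleGraph V} {N : V → V → ℝ} {B : V → Finset V} {m : ℕ}
    {n ν δ : ℝ} (hK : Ker G N B m n ν) (hδ : 0 < δ) (h100 : 100 * δ ^ 2 * ν ^ 2 ≤ 1)
    (P : Sym2 V → ℝ) (E : Finset (Sym2 V)) (Λ A Y : Finset V) (f : V → ℝ)
    (hP0 : ∀ e, 0 ≤ P e) (hP1 : ∀ e, P e < 1) (hE1 : ∀ e ∈ E, ¬ e.IsDiag)
    (hE2 : ∀ e ∈ E, ∀ z ∈ e, z ∈ Λ) (hA : ∀ a ∈ A, B a ⊆ Λ) (hY : Y ⊆ Λ) (hf : ∀ x, 0 ≤ f x) :
    ∑ x ∈ Y, ∑ y ∈ Y, f x * f y * ch P E Λ x y -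
        22 * δ ^ 2 * ν ^ 2 * ∑ z ∈ Λ, (∑ y ∈ Y, ch P E Λ z y * f y) ^ 2 ≤
      ∑ x ∈ Y, ∑ y ∈ Y, f x * f y *
        QQ (ex P E Λ) (ph N B (2 * Real.exp (1 / 2) * δ)) A x y := by
  set s : ℝ := 2 * Real.exp (1 / 2) * δ with hs
  have hs0 : 0 ≤ s := by positivity
  have hP1' : ∀ e, P e ≤ 1 := fun e => (hP1 e).le
  set W : ℝ := ∑ U ∈ Λ.powerset, pw P E Λ U with hW
  have hWpos : 0 < W := INFM.sum_pw_pos hP1' E Λ
  set φ := ph N B s with hφ
  -- the finite types
  let mu : Λ.powerset → ℝ := fun w => pw P E Λ w.1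
  let sg : Λ.powerset → Λ → ℝ := fun w x => chi {x.1} w.1
  let F : Λ.powerset → ℝ := fun w => ∑ y ∈ Y, f y * chi {y} w.1
  let NN : A → Λ → ℝ := fun a x => N a.1 x.1
  let GG : Λ → ℝ := fun x => ∑ y ∈ Y, ch P E Λ x.1 y * f y
  have hsumU : ∀ g : Finset V → ℝ, ∑ w : Λ.powerset, g w.1 = ∑ U ∈ Λ.powerset, g U := fun g =>
    Finset.sum_coe_sort Λ.powerset g
  have hsumΛ : ∀ g : V → ℝ, ∑ x : Λ, g x.1 = ∑ x ∈ Λ, g x := fun g => Finset.sum_coe_sort Λ g
  have hmuW : ∑ w, mu w = W := hsumU (fun U => pw P E Λ U)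
  have hop : ∀ v : Λ → ℝ, ∑ a, (∑ x, NN a x * v x) ^ 2 ≤ ν ^ 2 * ∑ x, v x ^ 2 := by
    intro v
    set v' : V → ℝ := fun x => if hx : x ∈ Λ then v ⟨x, hx⟩ else 0 with hv'
    have e1 : ∀ x : Λ, v x = v' x.1 := by
      intro x
      simp [hv', x.2]
    have h1 : ∀ a : A, ∑ x, NN a x * v x = ∑ x ∈ B a.1, N a.1 x * v' x := by
      intro a
      have h2 : ∑ x, NN a x * v x = ∑ x ∈ Λ, N a.1 x * v' x := by
        rw [← hsumΛ (fun x => N a.1 x * v' x)]
        refine Finset.sum_congr rfl fun x _ => ?_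
        rw [e1]
      rw [h2]
      refine (Finset.sum_subset (hA a.1 a.2) fun x _ hx => ?_).symm
      rw [hK.supp _ _ hx, zero_mul]
    have h3 : ∑ a : A, (∑ x, NN a x * v x) ^ 2 = ∑ a ∈ A, (∑ x ∈ B a, N a x * v' x) ^ 2 := by
      rw [← Finset.sum_coe_sort A (fun a => (∑ x ∈ B a, N a x * v' x) ^ 2)]
      refine Finset.sum_congr rfl fun a _ => ?_
      rw [h1]
    rw [h3]
    refine (hK.op A v').trans (mul_le_mul_of_nonneg_left ?_ (sq_nonneg ν))
    have h4 : ∑ x : Λ, v x ^ 2 = ∑ x ∈ Λ, v' x ^ 2 := by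
      rw [← hsumΛ (fun x => v' x ^ 2)]
      refine Finset.sum_congr rfl fun x _ => ?_
      rw [e1]
    rw [h4]
    refine Finset.sum_le_sum_of_subset_of_nonneg ?_ fun x _ _ => sq_nonneg _
    intro x hx
    rw [Finset.mem_biUnion] at hx
    obtain ⟨a, ha, hxa⟩ := hx
    exact hA a ha hxa
  have hzero : ∀ y ∈ Λ, ∑ U ∈ Λ.powerset, chi {y} U * pw P E Λ U = 0 := by
    intro y hy
    have h1 := INFM.sum_chi_pw P E (Λ := Λ) (K := {y}) (by simpa using hy)
    have h2 := corr_single_zero hE2 hy (P := P)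
    unfold corr at h2
    rw [div_eq_zero_iff] at h2
    rcases h2 with h2 | h2
    · rw [h1, h2, mul_zero]
    · exact absurd h2 (Z_pos hP1' E Λ).ne'
  have hF0 : ∑ w, mu w * F w = 0 := by
    have h1 : ∑ w, mu w * F w = ∑ U ∈ Λ.powerset, pw P E Λ U * ∑ y ∈ Y, f y * chi {y} U :=
      hsumU (fun U => pw P E Λ U * ∑ y ∈ Y, f y * chi {y} U)
    rw [h1]
    simp only [Finset.mul_sum]
    rw [Finset.sum_comm]
    refine Finset.sum_eq_zero fun y hy => ?_
    have h2 : ∑ U ∈ Λ.powerset, pw P E Λ U * (f y * chi {y} U) =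
        f y * ∑ U ∈ Λ.powerset, chi {y} U * pw P E Λ U := by
      rw [Finset.mul_sum]
      refine Finset.sum_congr rfl fun U _ => ?_
      ring
    rw [h2, hzero y (hY hy), mul_zero]
  have hD : DssH mu sg F GG := by
    intro h x
    set h' : V → ℝ := fun v => if hv : v ∈ Λ then h ⟨v, hv⟩ else 0 with hh'
    set w : Finset V → ℝ := fun U => pw P E Λ U * ∏ v ∈ Λ, Real.exp (h' v * chi {v} U) with hw
    have htm : ∀ g : Finset V → ℝ, tm mu sg h (fun u => g u.1) = ∑ U ∈ Λ.powerset, g U * w U := by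
      intro g
      unfold tm
      rw [← hsumU (fun U => g U * w U)]
      refine Finset.sum_congr rfl fun u _ => ?_
      have h1 : ∑ z, h z * sg u z = ∑ v ∈ Λ, h' v * chi {v} u.1 := by
        rw [← hsumΛ (fun v => h' v * chi {v} u.1)]
        refine Finset.sum_congr rfl fun z _ => ?_
        simp [hh', sg, z.2]
      rw [h1, Real.exp_sum]
      simp only [hw, mu]
      ring
    have e1 : tm mu sg h (fun w => F w * sg w x) =
        ∑ y ∈ Y, f y * ∑ U ∈ Λ.powerset, chi {x.1} U * chi {y} U * w U := by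
      have := htm (fun U => (∑ y ∈ Y, f y * chi {y} U) * chi {x.1} U)
      have h2 : (fun w => F w * sg w x) = fun u : Λ.powerset =>
          (fun U => (∑ y ∈ Y, f y * chi {y} U) * chi {x.1} U) u.1 := rfl
      rw [h2, this]
      simp only [Finset.mul_sum, Finset.sum_mul]
      rw [Finset.sum_comm]
      refine Finset.sum_congr rfl fun y _ => Finset.sum_congr rfl fun U _ => ?_
      ring
    have e2 : tm mu sg h (fun _ => 1) = ∑ U ∈ Λ.powerset, w U := by
      have := htm (fun _ => 1)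
      simpa using this
    have e3 : tm mu sg h F = ∑ y ∈ Y, f y * ∑ U ∈ Λ.powerset, chi {y} U * w U := by
      have := htm (fun U => ∑ y ∈ Y, f y * chi {y} U)
      have h2 : F = fun u : Λ.powerset => (fun U => ∑ y ∈ Y, f y * chi {y} U) u.1 := rfl
      rw [h2, this]
      simp only [Finset.mul_sum, Finset.sum_mul]
      rw [Finset.sum_comm]
      refine Finset.sum_congr rfl fun y _ => Finset.sum_congr rfl fun U _ => ?_
      ring
    have e4 : tm mu sg h (fun w => sg w x) = ∑ U ∈ Λ.powerset, chi {x.1} U * w U :=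
      htm (fun U => chi {x.1} U)
    have hp : ∀ y ∈ Y, _ := fun y hy =>
      hPST V P E Λ h' x.1 y hP0 hP1 hE1 hE2 x.2 (hY hy) w (fun U => rfl)
    have hdiff : tm mu sg h (fun w => F w * sg w x) * tm mu sg h (fun _ => 1) -
        tm mu sg h F * tm mu sg h (fun w => sg w x) =
        ∑ y ∈ Y, f y * ((∑ U ∈ Λ.powerset, chi {x.1} U * chi {y} U * w U) *
          (∑ U ∈ Λ.powerset, w U) - (∑ U ∈ Λ.powerset, chi {x.1} U * w U) *
          (∑ U ∈ Λ.powerset, chi {y} U * w U)) := by
      rw [e1, e2, e3, e4, Finset.sum_mul, Finset.sum_mul, ← Finset.sum_sub_distrib]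
      refine Finset.sum_congr rfl fun y _ => ?_
      ring
    constructor
    · rw [hdiff]
      refine Finset.sum_nonneg fun y hy => mul_nonneg (hf y) ?_
      have := (hp y hy).1
      linarith
    · rw [hdiff, e2, Finset.sum_mul]
      refine Finset.sum_le_sum fun y hy => ?_
      have h5 := mul_le_mul_of_nonneg_left (hp y hy).2 (hf y)
      refine h5.trans (le_of_eq ?_)
      ring
  have hgau := gau mu F (fun w => INFM.pw_nonneg hP1' E Λ w.1) (by rw [hmuW]; exact hWpos) sg
    (fun w x => chi_pm x.1 w.1) NN ν (s ^ 2) hK.nupos (sq_nonneg s) hop hF0 GG hD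
  rw [Real.sqrt_sq hs0, hmuW] at hgau
  have hGG : ∑ x, GG x ^ 2 = ∑ z ∈ Λ, (∑ y ∈ Y, ch P E Λ z y * f y) ^ 2 :=
    hsumΛ (fun z => (∑ y ∈ Y, ch P E Λ z y * f y) ^ 2)
  rw [hGG] at hgau
  -- the channel
  have hom : ∀ (Z : Finset V) (w : Λ.powerset),
      ∏ a : A, (1 + chi {a.1} Z * Real.exp (-1 / 2) *
        Real.sin (s * ∑ x, NN a x * sg w x)) / 2 = om φ A Z w.1 := by
    intro Z w
    unfold om
    rw [← Finset.prod_coe_sort A (fun a => (1 + chi {a} Z * φ a w.1) / 2)]
    refine Finset.prod_congr rfl fun a _ => ?_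
    have h1 : ∑ x, NN a x * sg w x = bs N B a.1 w.1 := by
      unfold bs
      have h2 : ∑ x, NN a x * sg w x = ∑ x ∈ Λ, N a.1 x * chi {x} w.1 :=
        hsumΛ (fun x => N a.1 x * chi {x} w.1)
      rw [h2]
      refine (Finset.sum_subset (hA a.1 a.2) fun x _ hx => ?_).symm
      rw [hK.supp _ _ hx, zero_mul]
    rw [h1, hφ]
    unfold ph
    have h3 : (-1 / 2 : ℝ) = -(1 / 2) := by norm_num
    rw [h3]
    ring
  have hgau2 : ∑ Z ∈ A.powerset,
      (∑ U ∈ Λ.powerset, pw P E Λ U * (∑ y ∈ Y, f y * chi {y} U) * om φ A Z U) ^ 2 /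
        (∑ U ∈ Λ.powerset, pw P E Λ U * om φ A Z U) ≤
      (Real.exp (4 * (s ^ 2 * ν ^ 2)) - 1) / 4 *
        (∑ z ∈ Λ, (∑ y ∈ Y, ch P E Λ z y * f y) ^ 2) * W := by
    refine le_trans (le_of_eq ?_) hgau
    have h1 := sum_out (A := A) (fun c => (∑ w, mu w * F w * ∏ a, (1 + c a * Real.exp (-1 / 2) *
        Real.sin (s * ∑ x, NN a x * sg w x)) / 2) ^ 2 /
      (∑ w, mu w * ∏ a, (1 + c a * Real.exp (-1 / 2) *
        Real.sin (s * ∑ x, NN a x * sg w x)) / 2))
    rw [h1]
    refine Finset.sum_congr rfl fun Z _ => ?_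
    simp only [hom]
    rw [← hsumU (fun U => pw P E Λ U * (∑ y ∈ Y, f y * chi {y} U) * om φ A Z U),
      ← hsumU (fun U => pw P E Λ U * om φ A Z U)]
  -- the expansion of the quadratic form
  have hlin : ∀ g : Finset V → ℝ, ex P E Λ (fun U => (∑ y ∈ Y, f y * chi {y} U) * g U) =
      ∑ y ∈ Y, f y * ex P E Λ (fun U => chi {y} U * g U) := by
    intro g
    rw [← INFM.ex_sum P E Λ Y f (fun y U => chi {y} U * g U)]
    congr 1
    funext U
    rw [Finset.sum_mul]
    refine Finset.sum_congr rfl fun y _ => ?_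
    ring
  have hquad : ∑ x ∈ Y, ∑ y ∈ Y, f x * f y * QQ (ex P E Λ) φ A x y =
      ∑ x ∈ Y, ∑ y ∈ Y, f x * f y * ch P E Λ x y -
        ∑ Z ∈ A.powerset, ex P E Λ (fun U => (∑ y ∈ Y, f y * chi {y} U) * om φ A Z U) ^ 2 /
          ex P E Λ (om φ A Z) := by
    have h1 : ∀ Z, ex P E Λ (fun U => (∑ y ∈ Y, f y * chi {y} U) * om φ A Z U) ^ 2 /
          ex P E Λ (om φ A Z) = ∑ x ∈ Y, ∑ y ∈ Y, f x * f y *
            (ex P E Λ (fun U => chi {x} U * om φ A Z U) *
              ex P E Λ (fun U => chi {y} U * om φ A Z U) / ex P E Λ (om φ A Z)) := by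
      intro Z
      rw [hlin, sq, Finset.sum_mul_sum, Finset.sum_div]
      refine Finset.sum_congr rfl fun x _ => ?_
      rw [Finset.sum_div]
      refine Finset.sum_congr rfl fun y _ => ?_
      ring
    simp only [h1]
    rw [Finset.sum_comm (s := A.powerset) (t := Y), ← Finset.sum_sub_distrib]
    refine Finset.sum_congr rfl fun x hx => ?_
    rw [Finset.sum_comm (s := A.powerset) (t := Y), ← Finset.sum_sub_distrib]
    refine Finset.sum_congr rfl fun y hy => ?_
    unfold QQ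
    rw [ex_pair hP1' E (hY hx) (hY hy), mul_sub, Finset.mul_sum]
  have hexU : ∀ g : Finset V → ℝ, ex P E Λ g = (∑ U ∈ Λ.powerset, g U * pw P E Λ U) / W :=
    fun g => rfl
  have hterm : ∀ Z, ex P E Λ (fun U => (∑ y ∈ Y, f y * chi {y} U) * om φ A Z U) ^ 2 /
      ex P E Λ (om φ A Z) =
      (∑ U ∈ Λ.powerset, pw P E Λ U * (∑ y ∈ Y, f y * chi {y} U) * om φ A Z U) ^ 2 /
        (∑ U ∈ Λ.powerset, pw P E Λ U * om φ A Z U) / W := by
    intro Z
    rw [hexU, hexU, sq_div_scale _ _ W hWpos]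
    have h1 : ∑ U ∈ Λ.powerset, (∑ y ∈ Y, f y * chi {y} U) * om φ A Z U * pw P E Λ U =
        ∑ U ∈ Λ.powerset, pw P E Λ U * (∑ y ∈ Y, f y * chi {y} U) * om φ A Z U :=
      Finset.sum_congr rfl fun U _ => by ring
    have h2 : ∑ U ∈ Λ.powerset, om φ A Z U * pw P E Λ U =
        ∑ U ∈ Λ.powerset, pw P E Λ U * om φ A Z U :=
      Finset.sum_congr rfl fun U _ => by ring
    rw [h1, h2]
  have hinfo : ∑ Z ∈ A.powerset, ex P E Λ (fun U => (∑ y ∈ Y, f y * chi {y} U) * om φ A Z U) ^ 2 /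
      ex P E Λ (om φ A Z) ≤
      22 * δ ^ 2 * ν ^ 2 * ∑ z ∈ Λ, (∑ y ∈ Y, ch P E Λ z y * f y) ^ 2 := by
    simp only [hterm]
    rw [← Finset.sum_div, div_le_iff₀ hWpos]
    refine hgau2.trans ?_
    refine mul_le_mul_of_nonneg_right ?_ hWpos.le
    exact mul_le_mul_of_nonneg_right (const_bd δ ν h100)
      (Finset.sum_nonneg fun z _ => sq_nonneg _)
  rw [hquad]
  linarith

end CHLM

/-- CHL: existence of the channel and the `ℓ²` bound. -/
theorem specCHL (hPST : SpecPST) : SpecCHL := by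
  intro V G N B m n ν δ hK hδ h8 h100
  refine ⟨ph N B (2 * Real.exp (1 / 2) * δ), chn_ph G N B m n ν δ hK hδ h8, ?_, ?_⟩
  · intro g hg a U
    exact ph_inv G N B m n ν _ hK g hg a U
  · intro P E Λ A Y f hP0 hP1 hE1 hE2 hA hY hf
    exact CHLM.l2 hPST hK hδ h100 P E Λ A Y f hP0 hP1 hE1 hE2 hA hY hf

end UN

end MP8622
end
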