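import Pool.Agent.Lib.MP_8622f1_pr.Spec
import Pool.Agent.Lib.MP_8622f1_pr.Sparse
import Pool.Agent.Lib.MP_8622f1_pr.Mtpc
import Pool.Agent.Lib.MP_8622f1_pr.Spec2
import Pool.Agent.Lib.MP_8622f1_pr.Phi
import Pool.Agent.Lib.MP_8622f1_pr.Second
import Pool.Agent.Lib.MP_8622f1_pr.UN.Defs
import Pool.Agent.Lib.MP_8622f1_pr.UN.Spec

section
set_option autoImplicit false
set_option linter.unusedSectionVars false

/-!
Module WALK for MP_8622f1_pr: kernels of the lazy simple random walk on a nonamenable graph.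
-/

open Classical

namespace MP8622

namespace Walk

variable {V : Type} (G : SimpleGraph V) [G.LocallyFinite]

/-- ordered adjacent pairs in `C` -/
noncomputable def adjp (C : Finset V) : Finset (V × V) :=
  (C ×ˢ C).filter (fun p => G.Adj p.1 p.2)

theorem sum_adjp (C : Finset V) (h : V → V → ℝ) :
    ∑ p ∈ adjp G C, h p.1 p.2 = ∑ x ∈ C, ∑ y ∈ C, if G.Adj x y then h x y else 0 := by
  rw [adjp, Finset.sum_filter, Finset.sum_product]

theorem sum_adjp_swap (C : Finset V) (h : V → V → ℝ) :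
    ∑ p ∈ adjp G C, h p.2 p.1 = ∑ p ∈ adjp G C, h p.1 p.2 := by
  rw [sum_adjp G C (fun x y => h y x), sum_adjp, Finset.sum_comm]
  refine Finset.sum_congr rfl fun x _ => Finset.sum_congr rfl fun y _ => ?_
  simp [G.adj_comm]

theorem sum_adjp_left {B C : Finset V} (hBC : B ⊆ C) (hN : ∀ x ∈ B, G.neighborFinset x ⊆ C)
    (h : V → V → ℝ) (h0 : ∀ x y, x ∉ B → h x y = 0) :
    ∑ p ∈ adjp G C, h p.1 p.2 = ∑ x ∈ B, ∑ y ∈ G.neighborFinset x, h x y := by
  rw [sum_adjp, ← Finset.sum_subset hBC]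
  · refine Finset.sum_congr rfl fun x hx => ?_
    rw [← Finset.sum_filter]
    refine Finset.sum_congr ?_ fun _ _ => rfl
    ext y
    simp only [Finset.mem_filter, SimpleGraph.mem_neighborFinset]
    refine ⟨fun h => h.2, fun h => ⟨hN x hx ?_, h⟩⟩
    rwa [SimpleGraph.mem_neighborFinset]
  · intro x _ hx
    simp [h0 x _ hx]

theorem peel {c : ℝ} (hc : ∀ K : Finset V, c * (K.card : ℝ) ≤
    ∑ x ∈ K, ((G.neighborFinset x \ K).card : ℝ)) : ∀ (n : ℕ) (K : Finset V), K.card = n →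
    ∀ g : V → ℝ, (∀ x, 0 ≤ g x) → (∀ x, x ∉ K → g x = 0) →
    c * ∑ x ∈ K, g x ≤ ∑ x ∈ K, ∑ y ∈ G.neighborFinset x, max (g x - g y) 0 := by
  intro n
  induction n with
  | zero =>
    intro K hK g _ _
    rw [Finset.card_eq_zero] at hK
    subst hK
    simp
  | succ n ih =>
    intro K hK g g0 gK
    have hne : K.Nonempty := by
      rw [← Finset.card_pos]
      omega
    obtain ⟨x₀, hx₀, hmin⟩ := Finset.exists_min_image K g hne
    obtain ⟨t, ht⟩ : ∃ t, t = g x₀ := ⟨_, rfl⟩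
    obtain ⟨g', hg'⟩ : ∃ g' : V → ℝ, g' = fun x => if x ∈ K then g x - t else 0 := ⟨_, rfl⟩
    have h1 : ∀ x, x ∈ K → g' x = g x - t := fun x hx => by rw [hg']; simp [hx]
    have h2 : ∀ x, x ∉ K → g' x = 0 := fun x hx => by rw [hg']; simp [hx]
    have h3 : g' x₀ = 0 := by rw [h1 x₀ hx₀, ht, sub_self]
    have h4 : ∀ x, 0 ≤ g' x := by
      intro x
      by_cases hx : x ∈ K
      · rw [h1 x hx, ht]
        linarith [hmin x hx]
      · rw [h2 x hx]
    have h5 := ih (K.erase x₀) (by rw [Finset.card_erase_of_mem hx₀]; omega) g' h4 (by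
      intro x hx
      by_cases hx2 : x = x₀
      · rw [hx2, h3]
      · refine h2 x fun h => hx (Finset.mem_erase.2 ⟨hx2, h⟩))
    have h6 : ∑ x ∈ K.erase x₀, g' x = ∑ x ∈ K, g' x :=
      Finset.sum_erase K h3
    have h7 : ∑ x ∈ K.erase x₀, ∑ y ∈ G.neighborFinset x, max (g' x - g' y) 0 =
        ∑ x ∈ K, ∑ y ∈ G.neighborFinset x, max (g' x - g' y) 0 := by
      refine Finset.sum_erase K ?_
      refine Finset.sum_eq_zero fun y _ => ?_
      rw [h3]
      exact max_eq_right (by linarith [h4 y])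
    rw [h6, h7] at h5
    have h8 : ∀ x ∈ K, ∑ y ∈ G.neighborFinset x, max (g x - g y) 0 =
        ∑ y ∈ G.neighborFinset x, max (g' x - g' y) 0 +
          t * ((G.neighborFinset x \ K).card : ℝ) := by
      intro x hx
      have e1 : ((G.neighborFinset x \ K).card : ℝ) =
          ∑ y ∈ G.neighborFinset x, if y ∉ K then (1 : ℝ) else 0 := by
        rw [← Finset.sum_filter, Finset.sum_const, nsmul_eq_mul, mul_one]
        congr 2
        ext y
        simp
      rw [e1, Finset.mul_sum, ← Finset.sum_add_distrib]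
      refine Finset.sum_congr rfl fun y _ => ?_
      by_cases hy : y ∈ K
      · rw [h1 x hx, h1 y hy]
        simp [hy]
      · rw [gK y hy, h2 y hy, sub_zero, sub_zero, max_eq_left (g0 x), max_eq_left (h4 x), h1 x hx]
        simp [hy]
    rw [Finset.sum_congr rfl h8, Finset.sum_add_distrib, ← Finset.mul_sum]
    have h9 : ∑ x ∈ K, g x = ∑ x ∈ K, g' x + t * (K.card : ℝ) := by
      rw [Finset.sum_congr rfl h1, Finset.sum_sub_distrib, Finset.sum_const, nsmul_eq_mul]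
      ring
    rw [h9]
    have h10 : 0 ≤ t := by rw [ht]; exact g0 x₀
    have h11 := mul_le_mul_of_nonneg_left (hc K) h10
    linarith

/-- the lazy averaging operator -/
noncomputable def op (d : ℕ) : (V → ℝ) →ₗ[ℝ] (V → ℝ) where
  toFun f := fun x => (f x + (∑ y ∈ G.neighborFinset x, f y) / d) / 2
  map_add' f g := by
    funext x
    simp only [Pi.add_apply, Finset.sum_add_distrib]
    ring
  map_smul' r f := by
    funext x
    simp only [Pi.smul_apply, smul_eq_mul, ← Finset.mul_sum, RingHom.id_apply]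
    ring

theorem op_apply (d : ℕ) (f : V → ℝ) (x : V) :
    op G d f x = (f x + (∑ y ∈ G.neighborFinset x, f y) / d) / 2 := rfl

/-- one step neighbourhood -/
noncomputable def nb (B : Finset V) : Finset V := B ∪ B.biUnion (fun x => G.neighborFinset x)

theorem sub_nb (B : Finset V) : B ⊆ nb G B := Finset.subset_union_left

theorem nb_sub (B : Finset V) : ∀ x ∈ B, G.neighborFinset x ⊆ nb G B := fun _ hx =>
  (Finset.subset_biUnion_of_mem (fun x => G.neighborFinset x) hx).trans Finset.subset_union_right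

theorem op_supp (d : ℕ) {B : Finset V} {f : V → ℝ} (hf : ∀ x, x ∉ B → f x = 0) :
    ∀ x, x ∉ nb G B → op G d f x = 0 := by
  intro x hx
  rw [op_apply, hf x fun h => hx (sub_nb G B h), Finset.sum_eq_zero]
  · simp
  · intro y hy
    refine hf y fun h => hx (nb_sub G B y h ?_)
    rw [SimpleGraph.mem_neighborFinset] at hy ⊢
    exact hy.symm

theorem op_nonneg (d : ℕ) {f : V → ℝ} (hf : ∀ x, 0 ≤ f x) : ∀ x, 0 ≤ op G d f x := by
  intro x
  rw [op_apply]
  have h1 := hf x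
  have h2 : 0 ≤ ∑ y ∈ G.neighborFinset x, f y := Finset.sum_nonneg fun y _ => hf y
  positivity

section reg

variable {d : ℕ} (hd : 0 < d) (hreg : ∀ x, (G.neighborFinset x).card = d)

include hd hreg

theorem op_sum {B : Finset V} {f : V → ℝ} (hf : ∀ x, x ∉ B → f x = 0) :
    ∑ x ∈ nb G B, op G d f x = ∑ x ∈ B, f x := by
  have h1 : ∑ p ∈ adjp G (nb G B), f p.1 = d * ∑ x ∈ B, f x := by
    rw [sum_adjp_left G (sub_nb G B) (nb_sub G B) (fun x _ => f x) (fun x _ hx => hf x hx)]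
    rw [Finset.mul_sum]
    refine Finset.sum_congr rfl fun x _ => ?_
    rw [Finset.sum_const, hreg, nsmul_eq_mul]
  have h2 : ∑ x ∈ nb G B, ∑ y ∈ G.neighborFinset x, f y = d * ∑ x ∈ B, f x := by
    rw [← h1, ← sum_adjp_swap G (nb G B) (fun x _ => f x),
      sum_adjp G (nb G B) (fun _ y => f y)]
    refine Finset.sum_congr rfl fun x _ => ?_
    have e1 : ∑ y ∈ nb G B, (if G.Adj x y then f y else 0) =
        ∑ y ∈ (nb G B).filter (fun y => G.Adj x y), f y := by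
      rw [Finset.sum_filter]
    rw [e1]
    symm
    refine Finset.sum_subset ?_ ?_
    · intro y hy
      rw [Finset.mem_filter] at hy
      rw [SimpleGraph.mem_neighborFinset]
      exact hy.2
    · intro y hy hy2
      refine hf y fun h => hy2 ?_
      rw [SimpleGraph.mem_neighborFinset] at hy
      rw [Finset.mem_filter]
      exact ⟨sub_nb G B h, hy⟩
  have h3 : ∑ x ∈ nb G B, f x = ∑ x ∈ B, f x :=
    (Finset.sum_subset (sub_nb G B) fun x _ hx => hf x hx).symm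
  simp_rw [op_apply]
  rw [← Finset.sum_div, Finset.sum_add_distrib, ← Finset.sum_div, h2, h3]
  have : (d : ℝ) ≠ 0 := by positivity
  field_simp
  ring

/-- sums of products -/
theorem W {B : Finset V} {f : V → ℝ} (hf : ∀ x, x ∉ B → f x = 0) :
    (∑ p ∈ adjp G (nb G B), (f p.1 - f p.2) ^ 2 = 2 * (d * ∑ x ∈ B, f x ^ 2) -
      2 * ∑ x ∈ B, ∑ y ∈ G.neighborFinset x, f x * f y) ∧
    (∑ p ∈ adjp G (nb G B), (f p.1 + f p.2) ^ 2 = 2 * (d * ∑ x ∈ B, f x ^ 2) +
      2 * ∑ x ∈ B, ∑ y ∈ G.neighborFinset x, f x * f y) := by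
  have h1 : ∑ p ∈ adjp G (nb G B), f p.1 ^ 2 = d * ∑ x ∈ B, f x ^ 2 := by
    rw [sum_adjp_left G (sub_nb G B) (nb_sub G B) (fun x _ => f x ^ 2)
      (fun x _ hx => by simp only [hf x hx]; norm_num)]
    rw [Finset.mul_sum]
    refine Finset.sum_congr rfl fun x _ => ?_
    rw [Finset.sum_const, hreg, nsmul_eq_mul]
  have h2 : ∑ p ∈ adjp G (nb G B), f p.2 ^ 2 = d * ∑ x ∈ B, f x ^ 2 := by
    rw [← h1, ← sum_adjp_swap G (nb G B) (fun x _ => f x ^ 2)]
  have h3 : ∑ p ∈ adjp G (nb G B), f p.1 * f p.2 =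
      ∑ x ∈ B, ∑ y ∈ G.neighborFinset x, f x * f y :=
    sum_adjp_left G (sub_nb G B) (nb_sub G B) (fun x y => f x * f y)
      (fun x _ hx => by simp only [hf x hx, zero_mul])
  constructor
  · have e : ∀ p : V × V, (f p.1 - f p.2) ^ 2 = f p.1 ^ 2 + f p.2 ^ 2 - 2 * (f p.1 * f p.2) := by
      intro p
      ring
    simp_rw [e]
    rw [Finset.sum_sub_distrib, Finset.sum_add_distrib, ← Finset.mul_sum, h1, h2, h3]
    ring
  · have e : ∀ p : V × V, (f p.1 + f p.2) ^ 2 = f p.1 ^ 2 + f p.2 ^ 2 + 2 * (f p.1 * f p.2) := by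
      intro p
      ring
    simp_rw [e]
    rw [Finset.sum_add_distrib, Finset.sum_add_distrib, ← Finset.mul_sum, h1, h2, h3]
    ring

theorem ip_op {B : Finset V} (f g : V → ℝ) :
    ∑ x ∈ B, f x * op G d g x = (∑ x ∈ B, f x * g x +
      (∑ x ∈ B, ∑ y ∈ G.neighborFinset x, f x * g y) / d) / 2 := by
  simp_rw [op_apply]
  rw [Finset.sum_div, ← Finset.sum_add_distrib, Finset.sum_div]
  refine Finset.sum_congr rfl fun x _ => ?_
  rw [← Finset.mul_sum]
  ring

theorem pos {B : Finset V} {f : V → ℝ} (hf : ∀ x, x ∉ B → f x = 0) :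
    0 ≤ ∑ x ∈ B, f x * op G d f x := by
  rw [ip_op G hd hreg]
  have h := (W G hd hreg hf).2
  have h0 : 0 ≤ ∑ p ∈ adjp G (nb G B), (f p.1 + f p.2) ^ 2 :=
    Finset.sum_nonneg fun p _ => sq_nonneg _
  rw [h] at h0
  have hd' : (0 : ℝ) < d := by exact_mod_cast hd
  have e : ∑ x ∈ B, f x * f x = ∑ x ∈ B, f x ^ 2 :=
    Finset.sum_congr rfl fun x _ => by ring
  rw [e]
  have h2 : 0 ≤ d * ∑ x ∈ B, f x ^ 2 + ∑ x ∈ B, ∑ y ∈ G.neighborFinset x, f x * f y := by
    linarith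
  have h3 : ∑ x ∈ B, f x ^ 2 + (∑ x ∈ B, ∑ y ∈ G.neighborFinset x, f x * f y) / d =
      (d * ∑ x ∈ B, f x ^ 2 + ∑ x ∈ B, ∑ y ∈ G.neighborFinset x, f x * f y) / d := by
    field_simp
  rw [h3]
  positivity

theorem gap {c : ℝ} (hc0 : 0 < c) (hc : ∀ K : Finset V, c * (K.card : ℝ) ≤
    ∑ x ∈ K, ((G.neighborFinset x \ K).card : ℝ)) {B : Finset V} {f : V → ℝ}
    (hf : ∀ x, x ∉ B → f x = 0) :
    ∑ x ∈ B, f x * op G d f x ≤ (1 - c ^ 2 / (4 * d ^ 2)) * ∑ x ∈ B, f x * f x := by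
  rw [ip_op G hd hreg]
  obtain ⟨hD, hQ⟩ := W G hd hreg hf
  have hd' : (0 : ℝ) < d := by exact_mod_cast hd
  have e : ∑ x ∈ B, f x * f x = ∑ x ∈ B, f x ^ 2 :=
    Finset.sum_congr rfl fun x _ => by ring
  rw [e]
  obtain ⟨N, hN⟩ : ∃ N, N = ∑ x ∈ B, f x ^ 2 := ⟨_, rfl⟩
  obtain ⟨a, ha⟩ : ∃ a, a = ∑ x ∈ B, ∑ y ∈ G.neighborFinset x, f x * f y := ⟨_, rfl⟩
  rw [← hN, ← ha] at hD hQ ⊢
  have hN0 : 0 ≤ N := by rw [hN]; exact Finset.sum_nonneg fun x _ => sq_nonneg _
  have hD0 : 0 ≤ ∑ p ∈ adjp G (nb G B), (f p.1 - f p.2) ^ 2 :=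
    Finset.sum_nonneg fun p _ => sq_nonneg _
  have hQ0 : 0 ≤ ∑ p ∈ adjp G (nb G B), (f p.1 + f p.2) ^ 2 :=
    Finset.sum_nonneg fun p _ => sq_nonneg _
  -- peeling
  have h1 := peel G hc B.card B rfl (fun x => f x ^ 2) (fun x => sq_nonneg _)
    (fun x hx => by simp only [hf x hx]; norm_num)
  rw [← hN] at h1
  have h2 := sum_adjp_left G (sub_nb G B) (nb_sub G B) (fun x y => max (f x ^ 2 - f y ^ 2) 0)
    (fun x y hx => by
      simp only [hf x hx]
      exact max_eq_right (by nlinarith [sq_nonneg (f y)]))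
  rw [← h2] at h1
  have h3 := sum_adjp_swap G (nb G B) (fun x y => max (f x ^ 2 - f y ^ 2) 0)
  have h4 : ∑ p ∈ adjp G (nb G B), |f p.1 - f p.2| * |f p.1 + f p.2| =
      2 * ∑ p ∈ adjp G (nb G B), max (f p.1 ^ 2 - f p.2 ^ 2) 0 := by
    have e2 : ∀ p : V × V, |f p.1 - f p.2| * |f p.1 + f p.2| =
        max (f p.1 ^ 2 - f p.2 ^ 2) 0 + max (f p.2 ^ 2 - f p.1 ^ 2) 0 := by
      intro p
      have e3 : (f p.1 - f p.2) * (f p.1 + f p.2) = f p.1 ^ 2 - f p.2 ^ 2 := by ring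
      rw [← abs_mul, e3]
      rcases le_total (f p.1 ^ 2) (f p.2 ^ 2) with h | h
      · rw [abs_of_nonpos (by linarith), max_eq_right (by linarith), max_eq_left (by linarith)]
        ring
      · rw [abs_of_nonneg (by linarith), max_eq_left (by linarith), max_eq_right (by linarith)]
        ring
    simp_rw [e2]
    rw [Finset.sum_add_distrib, h3]
    ring
  have h5 := Finset.sum_mul_sq_le_sq_mul_sq (adjp G (nb G B)) (fun p => |f p.1 - f p.2|)
    (fun p => |f p.1 + f p.2|)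
  simp only [sq_abs] at h5
  rw [h4, hD, hQ] at h5
  rw [hD] at hD0
  rw [hQ] at hQ0
  obtain ⟨S, hS⟩ : ∃ S, S = ∑ p ∈ adjp G (nb G B), max (f p.1 ^ 2 - f p.2 ^ 2) 0 := ⟨_, rfl⟩
  rw [← hS] at h1 h5
  have h6 : (c * N) ^ 2 ≤ (d * N - a) * (2 * d * N) := by
    have h7 : (c * N) ^ 2 ≤ S ^ 2 := by
      have : 0 ≤ c * N := by positivity
      exact pow_le_pow_left₀ this h1 2
    have h8 : S ^ 2 ≤ (d * N - a) * (d * N + a) := by nlinarith
    have h9 : (d * N - a) * (d * N + a) ≤ (d * N - a) * (2 * d * N) :=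
      mul_le_mul_of_nonneg_left (by linarith) (by linarith)
    linarith
  have key : a ≤ d * N - c ^ 2 * N / (2 * d) := by
    rcases hN0.eq_or_lt with h | h
    · rw [← h] at hD0 ⊢
      simp
      linarith
    · have h7 : c ^ 2 * N ≤ 2 * d * (d * N - a) := by
        have h8 : N * (c ^ 2 * N) ≤ N * (2 * d * (d * N - a)) := by nlinarith
        exact le_of_mul_le_mul_left h8 h
      have h9 : c ^ 2 * N / (2 * d) ≤ d * N - a := by
        rw [div_le_iff₀ (by positivity)]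
        linarith
      linarith
  have h10 : a / d ≤ N - c ^ 2 * N / (2 * d ^ 2) := by
    rw [div_le_iff₀ hd']
    have : (N - c ^ 2 * N / (2 * d ^ 2)) * d = d * N - c ^ 2 * N / (2 * d) := by
      field_simp
    linarith
  have h11 : (1 - c ^ 2 / (4 * d ^ 2)) * N = (N + (N - c ^ 2 * N / (2 * d ^ 2))) / 2 := by
    field_simp
    ring
  rw [h11]
  linarith

theorem sym {B : Finset V} {f g : V → ℝ} (hf : ∀ x, x ∉ B → f x = 0)
    (hg : ∀ x, x ∉ B → g x = 0) :
    ∑ x ∈ B, op G d f x * g x = ∑ x ∈ B, f x * op G d g x := by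
  have e1 : ∑ x ∈ B, op G d f x * g x = ∑ x ∈ B, g x * op G d f x :=
    Finset.sum_congr rfl fun x _ => mul_comm _ _
  rw [e1, ip_op G hd hreg, ip_op G hd hreg]
  have h1 := sum_adjp_left G (sub_nb G B) (nb_sub G B) (fun x y => g x * f y)
      (fun x _ hx => by simp only [hg x hx, zero_mul])
  have h2 := sum_adjp_left G (sub_nb G B) (nb_sub G B) (fun x y => f x * g y)
      (fun x _ hx => by simp only [hf x hx, zero_mul])
  have h3 := sum_adjp_swap G (nb G B) (fun x y => f x * g y)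
  have h4 : ∑ p ∈ adjp G (nb G B), g p.1 * f p.2 = ∑ p ∈ adjp G (nb G B), f p.2 * g p.1 :=
    Finset.sum_congr rfl fun x _ => mul_comm _ _
  rw [← h1, ← h2, h4, h3]
  have e2 : ∑ x ∈ B, g x * f x = ∑ x ∈ B, f x * g x :=
    Finset.sum_congr rfl fun x _ => mul_comm _ _
  rw [e2]

theorem contr {ρ : ℝ} (hρ : 0 < ρ) (hgap : ∀ {B : Finset V} {f : V → ℝ},
    (∀ x, x ∉ B → f x = 0) → ∑ x ∈ B, f x * op G d f x ≤ ρ * ∑ x ∈ B, f x * f x)
    {B : Finset V} {h : V → ℝ} (hh : ∀ x, x ∉ B → h x = 0) (hk : ∀ x, x ∉ B → op G d h x = 0) :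
    ∑ x ∈ B, op G d h x * op G d h x ≤ ρ * ∑ x ∈ B, h x * op G d h x := by
  obtain ⟨k, hkdef⟩ : ∃ k, k = op G d h := ⟨_, rfl⟩
  rw [← hkdef] at hk ⊢
  have h1 := pos G hd hreg (B := B) (f := h - ρ⁻¹ • k) (by
    intro x hx
    simp [hh x hx, hk x hx])
  have h2 : ∑ x ∈ B, h x * op G d k x = ∑ x ∈ B, k x * k x := by
    rw [← sym G hd hreg hh hk, hkdef]
  have h3 := hgap hk
  have h4 : ∑ x ∈ B, (h - ρ⁻¹ • k) x * op G d (h - ρ⁻¹ • k) x =
      ∑ x ∈ B, h x * k x - 2 * ρ⁻¹ * ∑ x ∈ B, k x * k x +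
        ρ⁻¹ ^ 2 * ∑ x ∈ B, k x * op G d k x := by
    have e : ∀ x, (h - ρ⁻¹ • k) x * op G d (h - ρ⁻¹ • k) x =
        h x * k x - ρ⁻¹ * (k x * k x) - ρ⁻¹ * (h x * op G d k x) +
          ρ⁻¹ ^ 2 * (k x * op G d k x) := by
      intro x
      rw [map_sub, map_smul, ← hkdef]
      simp only [Pi.sub_apply, Pi.smul_apply, smul_eq_mul]
      ring
    simp_rw [e]
    rw [Finset.sum_add_distrib, Finset.sum_sub_distrib, Finset.sum_sub_distrib, ← Finset.mul_sum,
      ← Finset.mul_sum, ← Finset.mul_sum, h2]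
    ring
  rw [h4] at h1
  obtain ⟨N, hN⟩ : ∃ N, N = ∑ x ∈ B, k x * k x := ⟨_, rfl⟩
  obtain ⟨b, hb⟩ : ∃ b, b = ∑ x ∈ B, h x * k x := ⟨_, rfl⟩
  obtain ⟨e, he⟩ : ∃ e, e = ∑ x ∈ B, k x * op G d k x := ⟨_, rfl⟩
  rw [← hN, ← hb, ← he] at h1
  rw [← hN, ← he] at h3
  rw [← hN, ← hb]
  have h5 : ρ⁻¹ ^ 2 * e ≤ ρ⁻¹ * N := by
    have : ρ⁻¹ ^ 2 * e ≤ ρ⁻¹ ^ 2 * (ρ * N) := mul_le_mul_of_nonneg_left h3 (by positivity)
    have e2 : ρ⁻¹ ^ 2 * (ρ * N) = ρ⁻¹ * N := by field_simp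
    linarith
  have h6 : ρ⁻¹ * N ≤ b := by linarith
  have h7 : ρ * (ρ⁻¹ * N) ≤ ρ * b := mul_le_mul_of_nonneg_left h6 hρ.le
  have h8 : ρ * (ρ⁻¹ * N) = N := by field_simp
  linarith

end reg

/-- iterates -/
noncomputable def it (d n : ℕ) (f : V → ℝ) : V → ℝ := ((op G d) ^ n) f

theorem it_zero (d : ℕ) (f : V → ℝ) : it G d 0 f = f := by simp [it]

theorem it_succ (d n : ℕ) (f : V → ℝ) : it G d (n + 1) f = op G d (it G d n f) := by
  unfold it
  rw [pow_succ', Module.End.mul_apply]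

theorem it_supp (d : ℕ) {f : V → ℝ} {B : Finset V} (hf : ∀ x, x ∉ B → f x = 0) (n : ℕ) :
    ∃ C : Finset V, B ⊆ C ∧ ∀ i ≤ n, ∀ x, x ∉ C → it G d i f x = 0 := by
  induction n with
  | zero =>
    refine ⟨B, subset_rfl, fun i hi x hx => ?_⟩
    rw [Nat.le_zero.1 hi, it_zero]
    exact hf x hx
  | succ n ih =>
    obtain ⟨C, hBC, hC⟩ := ih
    refine ⟨nb G C, hBC.trans (sub_nb G C), fun i hi x hx => ?_⟩
    rcases Nat.lt_or_ge n i with h | h
    · have : i = n + 1 := by omega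
      rw [this, it_succ]
      exact op_supp G d (hC n le_rfl) x hx
    · exact hC i h x fun hh => hx (sub_nb G C hh)

theorem it_nonneg (d : ℕ) {f : V → ℝ} (hf : ∀ x, 0 ≤ f x) (n : ℕ) : ∀ x, 0 ≤ it G d n f x := by
  induction n with
  | zero => rw [it_zero]; exact hf
  | succ n ih => rw [it_succ]; exact op_nonneg G d ih

theorem decay {d : ℕ} (hd : 0 < d) (hreg : ∀ x, (G.neighborFinset x).card = d) {ρ : ℝ}
    (hρ : 0 < ρ) (hgap : ∀ {B : Finset V} {f : V → ℝ},
    (∀ x, x ∉ B → f x = 0) → ∑ x ∈ B, f x * op G d f x ≤ ρ * ∑ x ∈ B, f x * f x)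
    (K : Finset V) (n : ℕ) :
    ∑ x ∈ K, it G d (n + 1) (fun z => if z ∈ K then 1 else 0) x ≤
      ρ * ∑ x ∈ K, it G d n (fun z => if z ∈ K then 1 else 0) x := by
  obtain ⟨f, hfdef⟩ : ∃ f : V → ℝ, f = fun z => if z ∈ K then 1 else 0 := ⟨_, rfl⟩
  rw [← hfdef]
  have hf0 : ∀ x, x ∉ K → f x = 0 := fun x hx => by rw [hfdef]; simp [hx]
  have hf1 : ∀ x, x ∈ K → f x = 1 := fun x hx => by rw [hfdef]; simp [hx]
  obtain ⟨B, hKB, hB⟩ := it_supp G d hf0 (n + 2)
  have hip : ∀ m, ∑ x ∈ K, it G d m f x = ∑ x ∈ B, it G d 0 f x * it G d m f x := by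
    intro m
    rw [it_zero, ← Finset.sum_subset hKB fun x _ hx => by rw [hf0 x hx, zero_mul]]
    refine Finset.sum_congr rfl fun x hx => ?_
    rw [hf1 x hx, one_mul]
  have hmove : ∀ i j, i + j ≤ n + 1 → ∑ x ∈ B, it G d i f x * it G d j f x =
      ∑ x ∈ B, it G d 0 f x * it G d (i + j) f x := by
    intro i
    induction i with
    | zero => intro j _; rw [Nat.zero_add]
    | succ i ih =>
      intro j hij
      have h1 := sym G hd hreg (hB i (by omega)) (hB j (by omega))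
      rw [← it_succ, ← it_succ] at h1
      rw [h1, ih (j + 1) (by omega)]
      have : i + 1 + j = i + (j + 1) := by omega
      rw [this]
  rw [hip, hip]
  rcases Nat.even_or_odd' n with ⟨m, hm | hm⟩
  · rw [show n + 1 = m + (m + 1) by omega, show n = m + m by omega,
      ← hmove m (m + 1) (by omega), ← hmove m m (by omega), it_succ]
    exact hgap (hB m (by omega))
  · rw [show n + 1 = (m + 1) + (m + 1) by omega, show n = m + (m + 1) by omega,
      ← hmove (m + 1) (m + 1) (by omega), ← hmove m (m + 1) (by omega), it_succ]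
    refine contr G hd hreg hρ hgap (hB m (by omega)) ?_
    rw [← it_succ]
    exact hB (m + 1) (by omega)

theorem op_aut (d : ℕ) {g : V ≃ V} (hg : IsAut G g) (f : V → ℝ) :
    op G d (fun x => f (g x)) = fun x => op G d f (g x) := by
  funext x
  rw [op_apply, op_apply]
  congr 2
  congr 1
  refine Finset.sum_bij (fun y _ => g y) ?_ ?_ ?_ ?_
  · intro y hy
    rw [SimpleGraph.mem_neighborFinset] at hy ⊢
    exact (hg x y).2 hy
  · intro a _ b _ h
    exact g.injective h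
  · intro b hb
    refine ⟨g.symm b, ?_, g.apply_symm_apply b⟩
    rw [SimpleGraph.mem_neighborFinset] at hb ⊢
    rw [← hg, g.apply_symm_apply]
    exact hb
  · intro a _
    rfl

theorem it_aut (d : ℕ) {g : V ≃ V} (hg : IsAut G g) (f : V → ℝ) (n : ℕ) :
    it G d n (fun x => f (g x)) = fun x => it G d n f (g x) := by
  induction n with
  | zero => simp [it_zero]
  | succ n ih => rw [it_succ, ih, op_aut G d hg, it_succ]

end Walk

open Walk in
theorem specWalk : SpecWalk := by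
  intro V G _ d hd hreg c hc0 hc
  have hd' : (0 : ℝ) < d := by exact_mod_cast hd
  obtain ⟨ρ, hρ⟩ : ∃ ρ : ℝ, ρ = max (1 - c ^ 2 / (4 * d ^ 2)) (1 / 2) := ⟨_, rfl⟩
  have hρ0 : 0 < ρ := by
    rw [hρ]
    exact lt_of_lt_of_le (by norm_num) (le_max_right _ _)
  have hρ1 : ρ < 1 := by
    rw [hρ]
    refine max_lt ?_ (by norm_num)
    have : 0 < c ^ 2 / (4 * (d : ℝ) ^ 2) := by positivity
    linarith
  have hgap : ∀ {B : Finset V} {f : V → ℝ}, (∀ x, x ∉ B → f x = 0) →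
      ∑ x ∈ B, f x * op G d f x ≤ ρ * ∑ x ∈ B, f x * f x := by
    intro B f hf
    refine (gap G hd hreg hc0 hc hf).trans ?_
    refine mul_le_mul_of_nonneg_right ?_ (Finset.sum_nonneg fun x _ => mul_self_nonneg _)
    rw [hρ]
    exact le_max_left _ _
  have hnn : ∀ n x z, 0 ≤ it G d n (fun w => if w = x then 1 else 0) z := by
    intro n x z
    refine it_nonneg G d (fun w => ?_) n z
    split_ifs <;> norm_num
  refine ⟨Real.toNNReal ρ, ?_, fun n x z =>
    Real.toNNReal (it G d n (fun w => if w = x then 1 else 0) z), ?_, ?_, ?_, ?_⟩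
  · exact Real.toNNReal_lt_one.2 hρ1
  · intro n g hg x z
    have h := it_aut G d hg (fun w => if w = g x then (1 : ℝ) else 0) n
    have h2 := congrFun h z
    simp only [g.injective.eq_iff] at h2
    simp only
    rw [← h2]
  · intro n x
    have key : ∃ B : Finset V, (∀ z, z ∉ B → it G d n (fun w => if w = x then 1 else 0) z = 0) ∧
        ∑ z ∈ B, it G d n (fun w => if w = x then 1 else 0) z = 1 := by
      induction n with
      | zero =>
        refine ⟨{x}, fun z hz => ?_, ?_⟩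
        · rw [it_zero]
          rw [Finset.mem_singleton] at hz
          simp [hz]
        · simp [it_zero]
      | succ n ih =>
        obtain ⟨B, hB1, hB2⟩ := ih
        refine ⟨nb G B, fun z hz => ?_, ?_⟩
        · rw [it_succ]
          exact op_supp G d hB1 z hz
        · rw [it_succ, op_sum G hd hreg hB1, hB2]
    obtain ⟨B, hB1, hB2⟩ := key
    refine ⟨B, fun z hz => ?_, ?_⟩
    · simp only
      rw [hB1 z hz, Real.toNNReal_zero]
    · simp only
      rw [← Real.toNNReal_sum_of_nonneg fun z _ => hnn n x z, hB2, Real.toNNReal_one]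
  · intro n K
    have h0 : ∀ n, ∑ z ∈ K, it G d n (fun z => if z ∈ K then 1 else 0) z ≤
        ρ ^ n * (K.card : ℝ) := by
      intro n
      induction n with
      | zero => simp [it_zero]
      | succ n ih =>
        refine (decay G hd hreg hρ0 hgap K n).trans ?_
        rw [pow_succ', mul_assoc]
        exact mul_le_mul_of_nonneg_left ih hρ0.le
    rw [← NNReal.coe_le_coe]
    rw [NNReal.coe_sum, NNReal.coe_mul, NNReal.coe_pow]
    simp only [NNReal.coe_sum, Real.coe_toNNReal _ (hnn _ _ _), Real.coe_toNNReal _ hρ0.le,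
      NNReal.coe_natCast]
    refine le_trans (le_of_eq ?_) (h0 n)
    rw [Finset.sum_comm]
    refine Finset.sum_congr rfl fun z _ => ?_
    have e : (fun z => if z ∈ K then (1 : ℝ) else 0) =
        ∑ x ∈ K, fun w => if w = x then (1 : ℝ) else 0 := by
      funext w
      simp [Finset.sum_apply]
    rw [e]
    unfold it
    rw [map_sum, Finset.sum_apply]
  · intro x z hz
    by_contra hcon
    rw [not_or] at hcon
    refine hz ?_
    have e : it G d 1 (fun w => if w = x then (1 : ℝ) else 0) =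
        op G d (fun w => if w = x then (1 : ℝ) else 0) := by
      have := it_succ G d 0 (fun w => if w = x then (1 : ℝ) else 0)
      rw [it_zero] at this
      exact this
    simp only
    rw [e, op_apply, Finset.sum_eq_zero]
    · simp [hcon.1]
    · intro y hy
      rw [SimpleGraph.mem_neighborFinset] at hy
      have : y ≠ x := by
        rintro rfl
        exact hcon.2 hy.symm
      simp [this]

end MP8622
end

section
set_option autoImplicit false

open Classical Filter Topology MeasureTheory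

/-!
Assembly for MP_8622f1_pr.
-/

namespace MP8622

theorem specPhi' : SpecPhi := specPhi specHolley specES specLim

/-- On a unimodular nonamenable graph the magnetisation is positive at low temperature. -/
theorem exists_pos_mag
    (Γ V : Type) [Group Γ] [MulAction Γ V] [Countable V]
    (G : SimpleGraph V) [G.LocallyFinite]
    (haut : ∀ (γ : Γ) (x y : V), G.Adj (γ • x) (γ • y) ↔ G.Adj x y)
    (htr : ∀ x y : V, ∃ γ : Γ, γ • x = y) (hmtp : MTP Γ V)
    (c : ℝ) (hc : 0 < c)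
    (hiso : ∀ K : Finset V, c * (K.card : ℝ) ≤ ∑ x ∈ K, ((G.neighborFinset x \ K).card : ℝ))
    (o : V) : ∃ β : ℝ, 0 < β ∧ 0 < tp G β {o} := by
  obtain ⟨ρ, hρ, q, hq1, hq2, hA⟩ :=
    kernels specPhi' specWalk specMtpc Γ V G haut htr hmtp c hc hiso o
  obtain ⟨β, hβ, hm⟩ := large G o ρ hρ q hq1 hq2 hA
  refine ⟨β, ?_, hm⟩
  rcases hβ.lt_or_eq with h | h
  · exact h
  · rw [← h, tp_zero] at hm
    exact absurd hm (lt_irrefl _)

/-- The main theorem, in terms of `tf` and `tp`: the infimum of the set of `β` at which the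
free and plus two point functions differ is the critical point. -/
theorem main_tf_tp
    (Γ V : Type) [Group Γ] [MulAction Γ V] [Countable V] [Infinite V]
    (G : SimpleGraph V) [G.LocallyFinite] (hconn : G.Connected)
    (haut : ∀ (γ : Γ) (x y : V), G.Adj (γ • x) (γ • y) ↔ G.Adj x y)
    (htr : ∀ x y : V, ∃ γ : Γ, γ • x = y) (hmtp : MTP Γ V)
    (c : ℝ) (hc : 0 < c)
    (hiso : ∀ K : Finset V, c * (K.card : ℝ) ≤ ∑ x ∈ K, ((G.neighborFinset x \ K).card : ℝ))
    (o : V) (ε₀ : ℝ) (hε₀ : 0 < ε₀)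
    (hsp : ∀ μ : Measure (V → Prop), IsProbabilityMeasure μ →
      (∀ γ : Γ, μ.map (fun C x => C (γ⁻¹ • x)) = μ) →
      (∀ᵐ C ∂μ, (∃ x, C x) ∧ ∀ x y, C x → C y →
        Relation.ReflTransGen (fun a b => G.Adj a b ∧ C a ∧ C b) x y) →
      ENNReal.ofReal ε₀ < μ {C | C o})
    (b : ℝ) (hb : sInf {β : ℝ | 0 < β ∧ 0 < tp G β {o}} < b) :
    ∃ β : ℝ, sInf {β : ℝ | 0 < β ∧ 0 < tp G β {o}} ≤ β ∧ 0 < β ∧ β < b ∧
      ∃ x y : V, x ≠ y ∧ tf G β {x, y} ≠ tp G β {x, y} := by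
  have hset : {β : ℝ | 0 ≤ β ∧ 0 < tp G β {o}} = {β : ℝ | 0 < β ∧ 0 < tp G β {o}} := by
    ext β
    constructor
    · rintro ⟨h1, h2⟩
      refine ⟨?_, h2⟩
      rcases h1.lt_or_eq with h | h
      · exact h
      · rw [← h, tp_zero] at h2
        exact absurd h2 (lt_irrefl _)
    · rintro ⟨h1, h2⟩
      exact ⟨h1.le, h2⟩
  have htr' : ∀ x y : V, ∃ g : V ≃ V, IsAut G g ∧ g x = y := fun x y => by
    obtain ⟨γ, hγ⟩ := htr x y
    exact ⟨MulAction.toPerm γ, fun x y => haut γ x y, hγ⟩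
  have hex : ∃ β : ℝ, 0 < β ∧ β < b ∧ ∃ x y : V, x ≠ y ∧ tf G β {x, y} ≠ tp G β {x, y} := by
    by_contra hcon
    push Not at hcon
    obtain ⟨μ, h1, h2, h3, h4⟩ := sparse specPhi' specWalk specMtpc specSecond specFar Γ V G hconn
      haut htr hmtp c hc hiso o b (by rw [hset]; exact hb)
      (fun β hβ hβb x y hxy => hcon β hβ hβb x y hxy) ε₀ hε₀
    exact absurd (h4 o) (not_le.2 (hsp μ h1 h2 h3))
  obtain ⟨β, hβ, hβb, x, y, hxy, hne⟩ := hex
  refine ⟨β, ?_, hβ, hβb, x, y, hxy, hne⟩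
  by_contra hlt
  push Not at hlt
  have hz : tp G β {o} = 0 := by
    by_contra hm
    have h1 : 0 < tp G β {o} := lt_of_le_of_ne (tp_nonneg G hβ.le _) (Ne.symm hm)
    have hbdd : BddBelow {β : ℝ | 0 < β ∧ 0 < tp G β {o}} := ⟨0, fun β' hβ' => hβ'.1.le⟩
    have hmem : β ∈ {β : ℝ | 0 < β ∧ 0 < tp G β {o}} := ⟨hβ, h1⟩
    exact absurd (csInf_le hbdd hmem) (not_le.2 hlt)
  have hz' : ∀ z : V, tp G β {z} = 0 := by
    intro z
    obtain ⟨g, hg, rfl⟩ := htr' o z
    have h1 := tp_map G hg β {o}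
    rw [Finset.map_singleton, hz] at h1
    exact h1
  exact hne (tf_eq_tp_of_zero G hβ.le hxy (hz' x) (hz' y))

/-- From a bound on the expected degree of invariant random connected graphs to a bound on the
density of invariant random connected sets. -/
theorem density_of_degree (hCostG : SpecCostG)
    (Γ V : Type) [Group Γ] [MulAction Γ V] [Countable V]
    (G : SimpleGraph V) [G.LocallyFinite] (hconn : G.Connected)
    (haut : ∀ (γ : Γ) (x y : V), G.Adj (γ • x) (γ • y) ↔ G.Adj x y)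
    (hmtp : MTP Γ V) (o : V) (k : ENNReal) (hk : 2 < k)
    (hcost : ∀ ν : Measure (V → V → Prop), IsProbabilityMeasure ν →
      (∀ γ : Γ, ν.map (fun r x y => r (γ⁻¹ • x) (γ⁻¹ • y)) = ν) →
      (∀ᵐ r ∂ν, (SimpleGraph.fromRel r).Connected) →
      k ≤ ∑' g, ν {r | (SimpleGraph.fromRel r).Adj o g}) :
    ∃ ε₀ : ℝ, 0 < ε₀ ∧ ∀ μ : Measure (V → Prop), IsProbabilityMeasure μ →
      (∀ γ : Γ, μ.map (fun C x => C (γ⁻¹ • x)) = μ) →
      (∀ᵐ C ∂μ, (∃ x, C x) ∧ ∀ x y, C x → C y →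
        Relation.ReflTransGen (fun a b => G.Adj a b ∧ C a ∧ C b) x y) →
      ENNReal.ofReal ε₀ < μ {C | C o} := by
  have h2top : (2 : ENNReal) ≠ ⊤ := ENNReal.ofNat_ne_top
  obtain ⟨k', hk'1, hk'2⟩ := exists_between hk
  have hk'top : k' ≠ ⊤ := ne_top_of_lt hk'2
  have hk'r : 2 < k'.toReal := by
    have := (ENNReal.toReal_lt_toReal h2top hk'top).2 hk'1
    simpa using this
  set d : ℝ := ((G.neighborFinset o).card : ℝ) with hd
  have hd0 : 0 ≤ d := Nat.cast_nonneg _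
  refine ⟨(k'.toReal - 2) / (d + 1), div_pos (by linarith) (by linarith),
    fun μ h1 h2 h3 => ?_⟩
  by_contra hle
  push Not at hle
  obtain ⟨ν, n1, n2, n3, n4⟩ := hCostG Γ V G haut hmtp hconn μ h1 h2 h3
  have h4 : (2 : ENNReal) + ((G.neighborFinset o).card : ENNReal) * μ {C | C o} ≤ k' := by
    have h5 : ((G.neighborFinset o).card : ENNReal) * μ {C | C o} ≤
        ENNReal.ofReal (k'.toReal - 2) := by
      calc ((G.neighborFinset o).card : ENNReal) * μ {C | C o}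
          ≤ ENNReal.ofReal d * ENNReal.ofReal ((k'.toReal - 2) / (d + 1)) := by
            refine mul_le_mul' (le_of_eq ?_) hle
            rw [hd, ENNReal.ofReal_natCast]
        _ = ENNReal.ofReal (d * ((k'.toReal - 2) / (d + 1))) := by
            rw [ENNReal.ofReal_mul hd0]
        _ ≤ ENNReal.ofReal (k'.toReal - 2) := by
            refine ENNReal.ofReal_le_ofReal ?_
            rw [mul_div_assoc', div_le_iff₀ (by linarith)]
            nlinarith
    calc (2 : ENNReal) + ((G.neighborFinset o).card : ENNReal) * μ {C | C o}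
        ≤ 2 + ENNReal.ofReal (k'.toReal - 2) := by gcongr
      _ = ENNReal.ofReal 2 + ENNReal.ofReal (k'.toReal - 2) := by
          rw [ENNReal.ofReal_ofNat]
      _ = ENNReal.ofReal (2 + (k'.toReal - 2)) := by
          rw [ENNReal.ofReal_add (by norm_num) (by linarith)]
      _ = k' := by
          rw [add_sub_cancel, ENNReal.ofReal_toReal hk'top]
  have h6 := (hcost ν n1 n2 n3).trans ((n4 o).trans h4)
  exact absurd h6 (not_le.2 hk'2)

end MP8622
end

section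
set_option autoImplicit false

open Classical Filter Topology MeasureTheory

/-!
Main theorem for MP_8622f1_pr.
-/

namespace MP8622

/-- `μ` is the law of a `Γ`-invariant random connected graph with vertex set `V`: the random graph
is `SimpleGraph.fromRel r`, where the random relation `r` on `V` has law `μ`. -/
structure InvariantConnected (Γ V : Type) [Group Γ] [MulAction Γ V]
    (μ : Measure (V → V → Prop)) : Prop where
  prob : IsProbabilityMeasure μ
  invariant : ∀ γ : Γ, μ.map (fun r x y => r (γ⁻¹ • x) (γ⁻¹ • y)) = μ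
  connected : ∀ᵐ r ∂μ, (SimpleGraph.fromRel r).Connected

/-- The cost of the action of `Γ` on `V`: half the infimum of the expected degree of the vertex `o`
over all `Γ`-invariant random connected graphs with vertex set `V`. For `V = Γ` (with the action
by left multiplication) and `o = 1` this is the cost of the group `Γ`. -/
noncomputable def cost (Γ : Type) {V : Type} [Group Γ] [MulAction Γ V] (o : V) : ENNReal :=
  (⨅ μ : {μ : Measure (V → V → Prop) // InvariantConnected Γ V μ},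
    ∑' y, (μ : Measure (V → V → Prop)) {r | (SimpleGraph.fromRel r).Adj o y}) / 2

theorem infinite_of_nonamenable {V : Type} (G : SimpleGraph V) [G.LocallyFinite] [Nonempty V]
    {c : ℝ} (hc : 0 < c)
    (hiso : ∀ K : Finset V, c * (K.card : ℝ) ≤ ∑ x ∈ K, ((G.neighborFinset x \ K).card : ℝ)) :
    Infinite V := by
  by_contra hfin
  rw [not_infinite_iff_finite] at hfin
  have := Fintype.ofFinite V
  have h := hiso Finset.univ
  have h0 : ∑ x ∈ (Finset.univ : Finset V), ((G.neighborFinset x \ Finset.univ).card : ℝ) = 0 := by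
    refine Finset.sum_eq_zero fun x _ => ?_
    have : G.neighborFinset x \ Finset.univ = ∅ := by
      rw [Finset.sdiff_eq_empty_iff_subset]
      exact Finset.subset_univ _
    rw [this]
    simp
  rw [h0] at h
  have h1 : 0 < (Finset.univ : Finset V).card := Finset.card_pos.2 Finset.univ_nonempty
  have h2 : (0 : ℝ) < ((Finset.univ : Finset V).card : ℝ) := by exact_mod_cast h1
  nlinarith

theorem main (hUni : SpecUni) (hOrb : SpecOrb) (hCostG : SpecCostG)
    (V : Type) (G : SimpleGraph V) [G.LocallyFinite] (hconn : G.Connected)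
    (hna : ∃ c : ℝ, 0 < c ∧ ∀ S : Finset V,
        c * (S.card : ℝ) ≤ ∑ x ∈ S, ((G.neighborFinset x \ S).card : ℝ))
    (Γ : Type) [Group Γ] [MulAction Γ V]
    (haut : ∀ (γ : Γ) (x y : V), G.Adj (γ • x) (γ • y) ↔ G.Adj x y)
    (htr : ∀ x y : V, ∃ γ : Γ, γ • x = y)
    (huni : ∀ x y : V, (MulAction.orbit (MulAction.stabilizer Γ x) y).ncard =
      (MulAction.orbit (MulAction.stabilizer Γ y) x).ncard)
    (o : V) (hcost : 1 < cost Γ o)
    (σ : ℝ → Finset V → Finset V → V → ℝ)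
    (hσ : ∀ (h : ℝ) (Λ S : Finset V) (x : V),
          σ h Λ S x = if x ∈ Λ then (if x ∈ S then (1 : ℝ) else -1) else h)
    (E : ℝ → Finset V → Finset V → ℝ)
    (hE : ∀ (h : ℝ) (Λ S : Finset V),
          E h Λ S = ∑ x ∈ Λ, ∑ y ∈ G.neighborFinset x,
            (if y ∈ Λ then (1 / 2 : ℝ) else 1) * σ h Λ S x * σ h Λ S y)
    (C : ℝ → ℝ → Finset V → Finset V → ℝ)
    (hC : ∀ (β h : ℝ) (A Λ : Finset V),
          C β h A Λ =
            (∑ S ∈ Λ.powerset, (∏ x ∈ A, σ h Λ S x) * Real.exp (β * E h Λ S)) /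
              ∑ S ∈ Λ.powerset, Real.exp (β * E h Λ S)) :
    (∃ β : ℝ, 0 < β ∧ ∃ p : ℝ, 0 < p ∧
      Tendsto (fun Λ : Finset V => C β 1 {o} Λ) atTop (𝓝 p)) ∧
    ∀ b : ℝ, sInf {β : ℝ | 0 < β ∧ ∃ p : ℝ, 0 < p ∧
        Tendsto (fun Λ : Finset V => C β 1 {o} Λ) atTop (𝓝 p)} < b →
      ∃ β : ℝ, 0 < β ∧ sInf {β : ℝ | 0 < β ∧ ∃ p : ℝ, 0 < p ∧
          Tendsto (fun Λ : Finset V => C β 1 {o} Λ) atTop (𝓝 p)} ≤ β ∧ β < b ∧
        ∃ A : Finset V, ∃ a p m : ℝ,
          Tendsto (fun Λ : Finset V => C β 0 A Λ) atTop (𝓝 a) ∧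
          Tendsto (fun Λ : Finset V => C β 1 A Λ) atTop (𝓝 p) ∧
          Tendsto (fun Λ : Finset V => C β (-1) A Λ) atTop (𝓝 m) ∧
          a ≠ (p + m) / 2 := by
  obtain ⟨c, hc, hiso⟩ := hna
  have : Nonempty V := ⟨o⟩
  have : Infinite V := infinite_of_nonamenable G hc hiso
  obtain ⟨hcount, horb⟩ := hOrb Γ V G hconn haut
  have := hcount
  have hmtp : MTP Γ V := hUni Γ V htr horb huni
  obtain ⟨hl0, hl1, hlm⟩ := specLink V G σ hσ E hE C hC
  have hset : {β : ℝ | 0 < β ∧ ∃ p : ℝ, 0 < p ∧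
      Tendsto (fun Λ : Finset V => C β 1 {o} Λ) atTop (𝓝 p)} =
      {β : ℝ | 0 < β ∧ 0 < tp G β {o}} := by
    ext β
    constructor
    · rintro ⟨hβ, p, hp, hlim⟩
      refine ⟨hβ, ?_⟩
      simp only [hl1] at hlim
      rwa [tendsto_nhds_unique (tendsto_Tp G hβ.le {o}) hlim]
    · rintro ⟨hβ, hm⟩
      refine ⟨hβ, _, hm, ?_⟩
      simp only [hl1]
      exact tendsto_Tp G hβ.le {o}
  rw [hset]
  constructor
  · obtain ⟨β, hβ, hm⟩ := exists_pos_mag Γ V G haut htr hmtp c hc hiso o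
    refine ⟨β, hβ, _, hm, ?_⟩
    simp only [hl1]
    exact tendsto_Tp G hβ.le {o}
  · intro b hb
    have h2k : 2 < (⨅ μ : {μ : Measure (V → V → Prop) // InvariantConnected Γ V μ},
        ∑' y, (μ : Measure (V → V → Prop)) {r | (SimpleGraph.fromRel r).Adj o y}) := by
      have h1 := hcost
      unfold cost at h1
      rw [ENNReal.lt_div_iff_mul_lt (Or.inl two_ne_zero) (Or.inl ENNReal.ofNat_ne_top),
        one_mul] at h1
      exact h1
    obtain ⟨ε₀, hε₀, hsp⟩ := density_of_degree hCostG Γ V G hconn haut hmtp o _ h2k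
      (fun ν n1 n2 n3 => iInf_le (fun μ : {μ : Measure (V → V → Prop) // InvariantConnected Γ V μ} =>
        ∑' y, (μ : Measure (V → V → Prop)) {r | (SimpleGraph.fromRel r).Adj o y})
        ⟨ν, ⟨n1, n2, n3⟩⟩)
    obtain ⟨β, hβ1, hβ2, hβ3, x, y, hxy, hne⟩ :=
      main_tf_tp Γ V G hconn haut htr hmtp c hc hiso o ε₀ hε₀ hsp b hb
    refine ⟨β, hβ2, hβ1, hβ3, {x, y}, tf G β {x, y}, tp G β {x, y}, tp G β {x, y}, ?_, ?_, ?_, ?_⟩
    · refine (tendsto_Tf G hβ2.le {x, y}).congr' ?_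
      filter_upwards [eventually_ge_atTop ({x, y} : Finset V)] with Λ hΛ
      exact (hl0 β {x, y} Λ hΛ).symm
    · simp only [hl1]
      exact tendsto_Tp G hβ2.le {x, y}
    · simp only [hlm, Finset.card_pair hxy]
      norm_num
      exact tendsto_Tp G hβ2.le {x, y}
    · intro h
      apply hne
      rw [h]
      ring

end MP8622
end

section
set_option autoImplicit false
set_option linter.unusedSectionVars false

open Classical

/-!
MP_8622f1_pr, unimodular case: KER, the block kernel (powers of the lazy random walk).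
-/

namespace MP8622

namespace UN

namespace KERM

open Walk

variable {V : Type} (G : SimpleGraph V) [G.LocallyFinite]

/-- the ball of radius `m` -/
noncomputable def ball : ℕ → V → Finset V
  | 0, a => {a}
  | (m + 1), a => nb G (ball m a)

theorem mem_nb {B : Finset V} {x : V} : x ∈ nb G B ↔ x ∈ B ∨ ∃ y ∈ B, G.Adj y x := by
  unfold nb
  simp only [Finset.mem_union, Finset.mem_biUnion, SimpleGraph.mem_neighborFinset]

theorem self_mem (m : ℕ) (a : V) : a ∈ ball G m a := by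
  induction m with
  | zero => exact Finset.mem_singleton_self a
  | succ m ih => exact sub_nb G _ ih

theorem mem_ball (m : ℕ) (a x : V) : x ∈ ball G m a ↔ ∃ w : G.Walk a x, w.length ≤ m := by
  induction m generalizing x with
  | zero =>
    constructor
    · intro h
      have : x = a := by simpa [ball] using h
      subst this
      exact ⟨SimpleGraph.Walk.nil, le_rfl⟩
    · rintro ⟨w, hw⟩
      have h0 : w.length = 0 := Nat.le_zero.1 hw
      have := SimpleGraph.Walk.eq_of_length_eq_zero h0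
      subst this
      exact self_mem G 0 a
  | succ m ih =>
    show x ∈ nb G (ball G m a) ↔ _
    rw [mem_nb]
    constructor
    · rintro (h | ⟨y, hy, hyx⟩)
      · obtain ⟨w, hw⟩ := (ih x).1 h
        exact ⟨w, by omega⟩
      · obtain ⟨w, hw⟩ := (ih y).1 hy
        refine ⟨w.concat hyx, ?_⟩
        rw [SimpleGraph.Walk.length_concat]
        omega
    · rintro ⟨w, hw⟩
      obtain ⟨r, hr⟩ : ∃ r : G.Walk x a, r.length ≤ m + 1 := ⟨w.reverse, by
        rw [SimpleGraph.Walk.length_reverse]; exact hw⟩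
      cases r with
      | nil => exact Or.inl (self_mem G m _)
      | cons h p =>
        rename_i y
        right
        refine ⟨y, (ih y).2 ⟨p.reverse, ?_⟩, h.symm⟩
        rw [SimpleGraph.Walk.length_reverse]
        rw [SimpleGraph.Walk.length_cons] at hr
        omega

/-- the indicator of `a` -/
noncomputable def del (a : V) : V → ℝ := fun w => if w = a then 1 else 0

theorem it_del_supp (d m : ℕ) (a : V) : ∀ x, x ∉ ball G m a → it G d m (del a) x = 0 := by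
  induction m with
  | zero =>
    intro x hx
    rw [it_zero]
    have : x ≠ a := by simpa [ball] using hx
    simp [del, this]
  | succ m ih =>
    rw [it_succ]
    exact op_supp G d ih

theorem it_del_sum {d : ℕ} (hd : 0 < d) (hreg : ∀ x, (G.neighborFinset x).card = d) (m : ℕ)
    (a : V) : ∑ x ∈ ball G m a, it G d m (del a) x = 1 := by
  induction m with
  | zero => simp [ball, it_zero, del]
  | succ m ih =>
    rw [it_succ]
    show ∑ x ∈ nb G (ball G m a), _ = 1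
    rw [op_sum G hd hreg (it_del_supp G d m a), ih]

/-- iterates are symmetric -/
theorem it_sym {d : ℕ} (hd : 0 < d) (hreg : ∀ x, (G.neighborFinset x).card = d) (m : ℕ)
    {B₀ : Finset V} {f g : V → ℝ} (hf : ∀ x, x ∉ B₀ → f x = 0) (hg : ∀ x, x ∉ B₀ → g x = 0) :
    ∃ B : Finset V, B₀ ⊆ B ∧ (∀ i ≤ m, ∀ x, x ∉ B → it G d i f x = 0) ∧
      (∀ i ≤ m, ∀ x, x ∉ B → it G d i g x = 0) ∧
      ∑ x ∈ B, it G d m f x * g x = ∑ x ∈ B, f x * it G d m g x := by
  obtain ⟨B1, h1, h1'⟩ := it_supp G d hf m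
  obtain ⟨B2, h2, h2'⟩ := it_supp G d hg m
  refine ⟨B1 ∪ B2, h1.trans Finset.subset_union_left,
    fun i hi x hx => h1' i hi x fun h => hx (Finset.mem_union_left _ h),
    fun i hi x hx => h2' i hi x fun h => hx (Finset.mem_union_right _ h), ?_⟩
  have hmove : ∀ j i, i + j ≤ m → ∑ x ∈ B1 ∪ B2, it G d (i + j) f x * g x =
      ∑ x ∈ B1 ∪ B2, it G d i f x * it G d j g x := by
    intro j
    induction j with
    | zero => intro i _; rw [it_zero]; rfl
    | succ j ih =>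
      intro i hij
      have e1 := ih (i + 1) (by omega)
      rw [show i + 1 + j = i + (j + 1) by omega] at e1
      rw [e1, it_succ, it_succ]
      exact sym G hd hreg (fun x hx => h1' i (by omega) x fun h => hx (Finset.mem_union_left _ h))
        (fun x hx => h2' j (by omega) x fun h => hx (Finset.mem_union_right _ h))
  have := hmove m 0 (by omega)
  rw [Nat.zero_add, it_zero] at this
  exact this

theorem it_del_symm {d : ℕ} (hd : 0 < d) (hreg : ∀ x, (G.neighborFinset x).card = d) (m : ℕ)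
    (a b : V) : it G d m (del a) b = it G d m (del b) a := by
  obtain ⟨B, hB, h1, h2, h3⟩ := it_sym G hd hreg m (B₀ := {a, b}) (f := del a) (g := del b)
    (fun x hx => by
      have : x ≠ a := by rintro rfl; exact hx (by simp)
      simp [del, this])
    (fun x hx => by
      have : x ≠ b := by rintro rfl; exact hx (by simp)
      simp [del, this])
  have ha : a ∈ B := hB (by simp)
  have hb : b ∈ B := hB (by simp)
  have e1 : ∑ x ∈ B, it G d m (del a) x * del b x = it G d m (del a) b := by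
    rw [Finset.sum_eq_single b]
    · simp [del]
    · intro x _ hx; simp [del, hx]
    · intro h; exact absurd hb h
  have e2 : ∑ x ∈ B, del a x * it G d m (del b) x = it G d m (del b) a := by
    rw [Finset.sum_eq_single a]
    · simp [del]
    · intro x _ hx; simp [del, hx]
    · intro h; exact absurd ha h
  rw [← e1, h3, e2]

/-- `(P^m h)(a) = ∑_x N a x h x` for `h` supported in `W`. -/
theorem it_apply {d : ℕ} (hd : 0 < d) (hreg : ∀ x, (G.neighborFinset x).card = d) (m : ℕ)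
    {W : Finset V} {h : V → ℝ} (hh : ∀ x, x ∉ W → h x = 0) (a : V) (C : Finset V)
    (hC : ∀ x, x ∉ C → it G d m (del a) x = 0 ∨ h x = 0) :
    it G d m h a = ∑ x ∈ C, it G d m (del a) x * h x := by
  obtain ⟨B, hB, h1, h2, h3⟩ := it_sym G hd hreg m (B₀ := insert a W) (f := del a) (g := h)
    (fun x hx => by
      have : x ≠ a := by rintro rfl; exact hx (by simp)
      simp [del, this])
    (fun x hx => hh x fun hxW => hx (Finset.mem_insert_of_mem hxW))
  have ha : a ∈ B := hB (by simp)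
  have e2 : ∑ x ∈ B, del a x * it G d m h x = it G d m h a := by
    rw [Finset.sum_eq_single a]
    · simp [del]
    · intro x _ hx; simp [del, hx]
    · intro h; exact absurd ha h
  rw [← e2, ← h3]
  have s1 : ∑ x ∈ B, it G d m (del a) x * h x = ∑ x ∈ B ∪ C, it G d m (del a) x * h x := by
    refine Finset.sum_subset Finset.subset_union_left fun x _ hx => ?_
    rw [h1 m le_rfl x hx, zero_mul]
  have s2 : ∑ x ∈ C, it G d m (del a) x * h x = ∑ x ∈ B ∪ C, it G d m (del a) x * h x := by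
    refine Finset.sum_subset Finset.subset_union_right fun x _ hx => ?_
    rcases hC x hx with h | h <;> rw [h] <;> ring
  rw [s1, s2]

/-- contraction in `ℓ²` -/
theorem it_contr {d : ℕ} (hd : 0 < d) (hreg : ∀ x, (G.neighborFinset x).card = d) {ρ : ℝ}
    (hρ : 0 < ρ) (hgap : ∀ {B : Finset V} {f : V → ℝ},
    (∀ x, x ∉ B → f x = 0) → ∑ x ∈ B, f x * op G d f x ≤ ρ * ∑ x ∈ B, f x * f x) (m : ℕ)
    {W : Finset V} {h : V → ℝ} (hh : ∀ x, x ∉ W → h x = 0) (C : Finset V) :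
    ∑ x ∈ C, it G d m h x ^ 2 ≤ (ρ ^ m) ^ 2 * ∑ x ∈ W, h x ^ 2 := by
  obtain ⟨B, hB, hB'⟩ := it_supp G d hh m
  have key : ∀ i ≤ m, ∑ x ∈ B, it G d i h x ^ 2 ≤ (ρ ^ i) ^ 2 * ∑ x ∈ B, h x ^ 2 := by
    intro i
    induction i with
    | zero => intro _; simp [it_zero]
    | succ i ih =>
      intro hi
      have h1 := ih (by omega)
      have hs1 := hB' i (by omega)
      have hs2 : ∀ x, x ∉ B → op G d (it G d i h) x = 0 := by
        intro x hx; rw [← it_succ]; exact hB' (i + 1) hi x hx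
      have c1 := contr G hd hreg hρ hgap hs1 hs2
      have c2 := hgap hs1
      have e : ∑ x ∈ B, it G d (i + 1) h x ^ 2 =
          ∑ x ∈ B, op G d (it G d i h) x * op G d (it G d i h) x := by
        refine Finset.sum_congr rfl fun x _ => ?_
        rw [it_succ]; ring
      have e' : ∑ x ∈ B, it G d i h x * it G d i h x = ∑ x ∈ B, it G d i h x ^ 2 :=
        Finset.sum_congr rfl fun x _ => by ring
      rw [e]
      rw [e'] at c2
      calc ∑ x ∈ B, op G d (it G d i h) x * op G d (it G d i h) x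
          ≤ ρ * ∑ x ∈ B, it G d i h x * op G d (it G d i h) x := c1
        _ ≤ ρ * (ρ * ∑ x ∈ B, it G d i h x ^ 2) := mul_le_mul_of_nonneg_left c2 hρ.le
        _ ≤ ρ * (ρ * ((ρ ^ i) ^ 2 * ∑ x ∈ B, h x ^ 2)) :=
            mul_le_mul_of_nonneg_left (mul_le_mul_of_nonneg_left h1 hρ.le) hρ.le
        _ = (ρ ^ (i + 1)) ^ 2 * ∑ x ∈ B, h x ^ 2 := by ring
  have e1 : ∑ x ∈ W, h x ^ 2 = ∑ x ∈ B, h x ^ 2 :=
    Finset.sum_subset hB fun x _ hx => by rw [hh x hx]; ring
  rw [e1]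
  refine le_trans ?_ (key m le_rfl)
  have e2 : ∑ x ∈ B, it G d m h x ^ 2 = ∑ x ∈ B ∪ C, it G d m h x ^ 2 :=
    Finset.sum_subset Finset.subset_union_left fun x _ hx => by rw [hB' m le_rfl x hx]; ring
  rw [e2]
  exact Finset.sum_le_sum_of_subset_of_nonneg Finset.subset_union_right
    fun x _ _ => sq_nonneg _

end KERM

open Walk KERM in
/-- the block kernel: powers of the lazy random walk; `n = 1`, `ν` as small as we want. -/
theorem ker {V : Type} (G : SimpleGraph V) [G.LocallyFinite] {d : ℕ} (hd : 0 < d)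
    (hreg : ∀ x, (G.neighborFinset x).card = d) {c : ℝ} (hc0 : 0 < c)
    (hc : ∀ K : Finset V, c * (K.card : ℝ) ≤ ∑ x ∈ K, ((G.neighborFinset x \ K).card : ℝ))
    {ε : ℝ} (hε : 0 < ε) :
    ∃ (N : V → V → ℝ) (B : V → Finset V) (m : ℕ) (ν : ℝ), Ker G N B m 1 ν ∧ ν ≤ ε ∧ ν ≤ 1 := by
  have hd' : (0 : ℝ) < d := by exact_mod_cast hd
  obtain ⟨ρ, hρ⟩ : ∃ ρ : ℝ, ρ = max (1 - c ^ 2 / (4 * d ^ 2)) (1 / 2) := ⟨_, rfl⟩
  have hρ0 : 0 < ρ := by
    rw [hρ]
    exact lt_of_lt_of_le (by norm_num) (le_max_right _ _)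
  have hρ1 : ρ < 1 := by
    rw [hρ]
    refine max_lt ?_ (by norm_num)
    have : 0 < c ^ 2 / (4 * (d : ℝ) ^ 2) := by positivity
    linarith
  have hgap : ∀ {B : Finset V} {f : V → ℝ}, (∀ x, x ∉ B → f x = 0) →
      ∑ x ∈ B, f x * op G d f x ≤ ρ * ∑ x ∈ B, f x * f x := by
    intro B f hf
    refine (gap G hd hreg hc0 hc hf).trans ?_
    refine mul_le_mul_of_nonneg_right ?_ (Finset.sum_nonneg fun x _ => mul_self_nonneg _)
    rw [hρ]
    exact le_max_left _ _
  obtain ⟨m, hm⟩ := exists_pow_lt_of_lt_one hε hρ1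
  refine ⟨fun a x => it G d m (del a) x, ball G m, m, ρ ^ m, ?_, hm.le, pow_le_one₀ hρ0.le hρ1.le⟩
  refine
    { nonneg := fun a x => it_nonneg G d (fun w => by unfold del; split_ifs <;> norm_num) m x
      symm := fun a x => it_del_symm G hd hreg m a x
      supp := fun a x hx => it_del_supp G d m a x hx
      row := fun a => it_del_sum G hd hreg m a
      self := fun a => self_mem G m a
      mem := fun a x => mem_ball G m a x
      inv := ?_
      npos := one_pos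
      nupos := pow_pos hρ0 m
      op := ?_ }
  · intro g hg a x
    have h := it_aut G d hg (del (g a)) m
    have h2 := congrFun h x
    rw [← h2]
    have : (fun x => del (g a) (g x)) = del a := by
      funext w
      unfold del
      simp only [g.injective.eq_iff]
    rw [this]
  · intro A v
    obtain ⟨W, hW⟩ : ∃ W, W = A.biUnion (ball G m) := ⟨_, rfl⟩
    obtain ⟨h, hh⟩ : ∃ h : V → ℝ, h = fun x => if x ∈ W then v x else 0 := ⟨_, rfl⟩
    have hh0 : ∀ x, x ∉ W → h x = 0 := fun x hx => by rw [hh]; simp [hx]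
    have hh1 : ∀ x, x ∈ W → h x = v x := fun x hx => by rw [hh]; simp [hx]
    have h1 := it_contr G hd hreg hρ0 hgap m hh0 A
    rw [← hW]
    have e1 : ∑ x ∈ W, v x ^ 2 = ∑ x ∈ W, h x ^ 2 :=
      Finset.sum_congr rfl fun x hx => by rw [hh1 x hx]
    rw [e1]
    refine le_trans (le_of_eq ?_) h1
    refine Finset.sum_congr rfl fun a ha => ?_
    rw [it_apply G hd hreg m hh0 a (ball G m a)
      (fun x hx => Or.inl (it_del_supp G d m a x hx))]
    congr 1
    refine Finset.sum_congr rfl fun x hx => ?_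
    rw [hh1 x (by rw [hW]; exact Finset.mem_biUnion.2 ⟨a, ha, hx⟩)]

end UN

end MP8622
end

section
set_option autoImplicit false

open Classical Filter Topology

/-!
MP_8622f1_pr, unimodular case: KEY, theorem U.
-/

namespace MP8622

namespace UN

namespace KEYM

variable {V : Type}

/-- bound for the quadratic form of `M` on nonnegative functions -/
def Bd (Λ : Finset V) (M : V → V → ℝ) (κ : ℝ) : Prop :=
  ∀ f : V → ℝ, (∀ x, 0 ≤ f x) →
    ∑ x ∈ Λ, ∑ y ∈ Λ, f x * f y * M x y ≤ κ * ∑ x ∈ Λ, f x ^ 2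

/-- positive semidefinite nonnegative kernels: the bound of the quadratic form on nonnegative
functions bounds the operator. -/
theorem cs {Λ : Finset V} {M : V → V → ℝ} (hsym : ∀ x y, M x y = M y x)
    (hnn : ∀ x y, 0 ≤ M x y)
    (hpsd : ∀ g : V → ℝ, 0 ≤ ∑ x ∈ Λ, ∑ y ∈ Λ, g x * g y * M x y) {κ : ℝ} (hκ0 : 0 < κ)
    (hκ : Bd Λ M κ) (f : V → ℝ) (hf : ∀ x, 0 ≤ f x) :
    ∑ z ∈ Λ, (∑ y ∈ Λ, M z y * f y) ^ 2 ≤ κ ^ 2 * ∑ y ∈ Λ, f y ^ 2 := by
  obtain ⟨h, hh⟩ : ∃ h : V → ℝ, h = fun z => ∑ y ∈ Λ, M z y * f y := ⟨_, rfl⟩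
  have hh' : ∀ z, ∑ y ∈ Λ, M z y * f y = h z := fun z => by rw [hh]
  have h0 : ∀ z, 0 ≤ h z := fun z => by
    rw [← hh']; exact Finset.sum_nonneg fun y _ => mul_nonneg (hnn z y) (hf y)
  simp_rw [hh']
  obtain ⟨H, hH⟩ : ∃ H, H = ∑ z ∈ Λ, h z ^ 2 := ⟨_, rfl⟩
  obtain ⟨F, hF⟩ : ∃ F, F = ∑ z ∈ Λ, f z ^ 2 := ⟨_, rfl⟩
  rw [← hH, ← hF]
  have q1 := hκ h h0
  have q2 := hκ f hf
  rw [← hH] at q1
  rw [← hF] at q2
  have b1 : ∑ x ∈ Λ, ∑ y ∈ Λ, h x * f y * M x y = H := by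
    rw [hH]
    refine Finset.sum_congr rfl fun x _ => ?_
    have e : ∑ y ∈ Λ, h x * f y * M x y = h x * ∑ y ∈ Λ, M x y * f y := by
      rw [Finset.mul_sum]; exact Finset.sum_congr rfl fun y _ => by ring
    rw [e, hh' x]; ring
  have b2 : ∑ x ∈ Λ, ∑ y ∈ Λ, f x * h y * M x y = H := by
    rw [← b1, Finset.sum_comm]
    refine Finset.sum_congr rfl fun x _ => Finset.sum_congr rfl fun y _ => ?_
    rw [hsym y x]; ring
  have q3 := hpsd (fun x => h x - κ * f x)
  have e3 : ∑ x ∈ Λ, ∑ y ∈ Λ, (h x - κ * f x) * (h y - κ * f y) * M x y =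
      ∑ x ∈ Λ, ∑ y ∈ Λ, h x * h y * M x y - κ * (∑ x ∈ Λ, ∑ y ∈ Λ, h x * f y * M x y)
        - κ * (∑ x ∈ Λ, ∑ y ∈ Λ, f x * h y * M x y)
        + κ ^ 2 * ∑ x ∈ Λ, ∑ y ∈ Λ, f x * f y * M x y := by
    rw [Finset.mul_sum, Finset.mul_sum, Finset.mul_sum, ← Finset.sum_sub_distrib,
      ← Finset.sum_sub_distrib, ← Finset.sum_add_distrib]
    refine Finset.sum_congr rfl fun x _ => ?_
    rw [Finset.mul_sum, Finset.mul_sum, Finset.mul_sum, ← Finset.sum_sub_distrib,
      ← Finset.sum_sub_distrib, ← Finset.sum_add_distrib]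
    exact Finset.sum_congr rfl fun y _ => by ring
  rw [e3, b1, b2] at q3
  have q4 : κ ^ 2 * ∑ x ∈ Λ, ∑ y ∈ Λ, f x * f y * M x y ≤ κ ^ 2 * (κ * F) :=
    mul_le_mul_of_nonneg_left q2 (sq_nonneg κ)
  have q5 : κ * H ≤ κ * (κ ^ 2 * F) := by nlinarith
  exact le_of_mul_le_mul_left q5 hκ0

theorem pair_eq {x y : V} (h : x ≠ y) : symmDiff ({x} : Finset V) {y} = {x, y} := by
  ext z
  simp only [Finset.mem_symmDiff, Finset.mem_singleton, Finset.mem_insert]
  constructor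
  · rintro (⟨h1, _⟩ | ⟨h1, _⟩)
    · exact Or.inl h1
    · exact Or.inr h1
  · rintro (rfl | rfl)
    · exact Or.inl ⟨rfl, h⟩
    · exact Or.inr ⟨rfl, fun h2 => h h2.symm⟩

theorem ch_eq {P : Sym2 V → ℝ} (h1 : ∀ e, P e ≤ 1) (E : Finset (Sym2 V)) (Λ : Finset V)
    (x y : V) : ch P E Λ x y =
      3 / 4 * (if x = y then 1 else 0) + 1 / 4 * corr P E Λ (symmDiff {x} {y}) := by
  unfold ch
  split_ifs with h
  · subst h
    rw [symmDiff_self, Finset.bot_eq_empty, corr_empty h1]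
    norm_num
  · rw [pair_eq h]; ring

theorem ch_nonneg {P : Sym2 V → ℝ} (h0 : ∀ e, 0 ≤ P e) (h1 : ∀ e, P e ≤ 1)
    (E : Finset (Sym2 V)) (Λ : Finset V) (x y : V) : 0 ≤ ch P E Λ x y := by
  unfold ch
  split_ifs
  · exact zero_le_one
  · have := corr_nonneg (E := E) (Λ := Λ) h0 h1 {x, y}
    positivity

theorem ch_symm (P : Sym2 V → ℝ) (E : Finset (Sym2 V)) (Λ : Finset V) (x y : V) :
    ch P E Λ x y = ch P E Λ y x := by
  unfold ch
  by_cases h : x = y
  · rw [if_pos h, if_pos h.symm]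
  · rw [if_neg h, if_neg fun h' => h h'.symm, Finset.pair_comm]

theorem ch_psd {P : Sym2 V → ℝ} (h1 : ∀ e, P e ≤ 1) (E : Finset (Sym2 V)) (Λ : Finset V)
    (g : V → ℝ) : 0 ≤ ∑ x ∈ Λ, ∑ y ∈ Λ, g x * g y * ch P E Λ x y := by
  have hZ := Z_pos h1 E Λ
  have e : ∑ x ∈ Λ, ∑ y ∈ Λ, g x * g y * ch P E Λ x y =
      3 / 4 * ∑ x ∈ Λ, g x ^ 2 + 1 / 4 * ((∑ S ∈ Λ.powerset, (∑ x ∈ Λ, g x * chi {x} S) ^ 2 *
        sw P E S) / ∑ S ∈ Λ.powerset, sw P E S) := by
    have e1 : ∑ x ∈ Λ, ∑ y ∈ Λ, g x * g y * ch P E Λ x y =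
        ∑ x ∈ Λ, ∑ y ∈ Λ, (3 / 4 * (if x = y then g x * g y else 0)) +
        ∑ x ∈ Λ, ∑ y ∈ Λ, (1 / 4 * (g x * g y * corr P E Λ (symmDiff {x} {y}))) := by
      rw [← Finset.sum_add_distrib]
      refine Finset.sum_congr rfl fun x _ => ?_
      rw [← Finset.sum_add_distrib]
      refine Finset.sum_congr rfl fun y _ => ?_
      rw [ch_eq h1]
      split_ifs <;> ring
    have e2 : ∑ x ∈ Λ, ∑ y ∈ Λ, (3 / 4 * (if x = y then g x * g y else 0)) =
        3 / 4 * ∑ x ∈ Λ, g x ^ 2 := by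
      rw [Finset.mul_sum]
      refine Finset.sum_congr rfl fun x hx => ?_
      rw [← Finset.mul_sum, Finset.sum_ite_eq, if_pos hx]
      ring
    have e3 : ∑ x ∈ Λ, ∑ y ∈ Λ, (1 / 4 * (g x * g y * corr P E Λ (symmDiff {x} {y}))) =
        1 / 4 * ((∑ S ∈ Λ.powerset, (∑ x ∈ Λ, g x * chi {x} S) ^ 2 * sw P E S) /
          ∑ S ∈ Λ.powerset, sw P E S) := by
      have e4 : ∀ x y : V, 1 / 4 * (g x * g y * corr P E Λ (symmDiff {x} {y})) =
          (∑ S ∈ Λ.powerset, g x * g y * (chi {x} S * chi {y} S) * sw P E S) *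
            (1 / 4 * (∑ S ∈ Λ.powerset, sw P E S)⁻¹) := by
        intro x y
        unfold corr
        have : ∑ S ∈ Λ.powerset, g x * g y * (chi {x} S * chi {y} S) * sw P E S =
            g x * g y * ∑ S ∈ Λ.powerset, chi (symmDiff {x} {y}) S * sw P E S := by
          rw [Finset.mul_sum]
          refine Finset.sum_congr rfl fun S _ => ?_
          rw [chi_symmDiff_left]; ring
        rw [this, div_eq_mul_inv]; ring
      simp_rw [e4]
      simp_rw [← Finset.sum_mul]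
      have e5 : ∑ x ∈ Λ, ∑ y ∈ Λ, ∑ S ∈ Λ.powerset,
          g x * g y * (chi {x} S * chi {y} S) * sw P E S =
          ∑ S ∈ Λ.powerset, (∑ x ∈ Λ, g x * chi {x} S) ^ 2 * sw P E S := by
        have e6 : ∀ x ∈ Λ, ∑ y ∈ Λ, ∑ S ∈ Λ.powerset,
            g x * g y * (chi {x} S * chi {y} S) * sw P E S =
            ∑ S ∈ Λ.powerset, ∑ y ∈ Λ, g x * g y * (chi {x} S * chi {y} S) * sw P E S :=
          fun x _ => Finset.sum_comm
        rw [Finset.sum_congr rfl e6, Finset.sum_comm]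
        refine Finset.sum_congr rfl fun S _ => ?_
        rw [sq, Finset.sum_mul_sum, Finset.sum_mul]
        refine Finset.sum_congr rfl fun x _ => ?_
        rw [Finset.sum_mul]
        exact Finset.sum_congr rfl fun y _ => by ring
      rw [e5, div_eq_mul_inv]; ring
    rw [e1, e2, e3]
  rw [e]
  have p1 : 0 ≤ ∑ x ∈ Λ, g x ^ 2 := Finset.sum_nonneg fun x _ => sq_nonneg _
  have p2 : 0 ≤ (∑ S ∈ Λ.powerset, (∑ x ∈ Λ, g x * chi {x} S) ^ 2 * sw P E S) /
      ∑ S ∈ Λ.powerset, sw P E S :=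
    div_nonneg (Finset.sum_nonneg fun S _ => mul_nonneg (sq_nonneg _) (sw_nonneg h1 E S)) hZ.le
  linarith

/-- symmetric nonnegative kernel with row sums at most `κ`: Schur -/
theorem schur_row {Λ : Finset V} {M : V → V → ℝ} (hsym : ∀ x y, M x y = M y x)
    (hnn : ∀ x y, 0 ≤ M x y) {κ : ℝ} (hrow : ∀ x ∈ Λ, ∑ y ∈ Λ, M x y ≤ κ) : Bd Λ M κ := by
  intro f hf
  have h1 : ∑ x ∈ Λ, ∑ y ∈ Λ, f x * f y * M x y ≤
      ∑ x ∈ Λ, ∑ y ∈ Λ, (f x ^ 2 / 2 * M x y + f y ^ 2 / 2 * M x y) := by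
    refine Finset.sum_le_sum fun x _ => Finset.sum_le_sum fun y _ => ?_
    have : f x * f y ≤ f x ^ 2 / 2 + f y ^ 2 / 2 := by nlinarith [sq_nonneg (f x - f y)]
    calc f x * f y * M x y ≤ (f x ^ 2 / 2 + f y ^ 2 / 2) * M x y :=
          mul_le_mul_of_nonneg_right this (hnn x y)
      _ = _ := by ring
  have h2 : ∑ x ∈ Λ, ∑ y ∈ Λ, (f x ^ 2 / 2 * M x y + f y ^ 2 / 2 * M x y) =
      ∑ x ∈ Λ, f x ^ 2 * ∑ y ∈ Λ, M x y := by
    have a1 : ∑ x ∈ Λ, ∑ y ∈ Λ, (f x ^ 2 / 2 * M x y + f y ^ 2 / 2 * M x y) =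
        ∑ x ∈ Λ, ∑ y ∈ Λ, f x ^ 2 / 2 * M x y + ∑ x ∈ Λ, ∑ y ∈ Λ, f y ^ 2 / 2 * M x y := by
      rw [← Finset.sum_add_distrib]
      exact Finset.sum_congr rfl fun x _ => Finset.sum_add_distrib
    have a2 : ∑ x ∈ Λ, ∑ y ∈ Λ, f y ^ 2 / 2 * M x y = ∑ x ∈ Λ, ∑ y ∈ Λ, f x ^ 2 / 2 * M x y := by
      rw [Finset.sum_comm]
      refine Finset.sum_congr rfl fun x _ => Finset.sum_congr rfl fun y _ => ?_
      rw [hsym y x]
    rw [a1, a2, ← Finset.sum_add_distrib]
    refine Finset.sum_congr rfl fun x _ => ?_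
    rw [← Finset.sum_add_distrib, Finset.mul_sum]
    exact Finset.sum_congr rfl fun y _ => by ring
  rw [h2] at h1
  refine h1.trans ?_
  rw [Finset.mul_sum]
  refine Finset.sum_le_sum fun x hx => ?_
  rw [mul_comm κ]
  exact mul_le_mul_of_nonneg_left (hrow x hx) (sq_nonneg _)

/-- the `if` form: functions supported in `Y` -/
theorem sum_res {Λ Y : Finset V} (hY : Y ⊆ Λ) (f : V → ℝ) (M : V → V → ℝ) :
    ∑ x ∈ Λ, ∑ y ∈ Λ, (if x ∈ Y then f x else 0) * (if y ∈ Y then f y else 0) * M x y =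
      ∑ x ∈ Y, ∑ y ∈ Y, f x * f y * M x y := by
  rw [← Finset.sum_subset hY]
  · refine Finset.sum_congr rfl fun x hx => ?_
    rw [← Finset.sum_subset hY]
    · refine Finset.sum_congr rfl fun y hy => ?_
      rw [if_pos hx, if_pos hy]
    · intro y _ hy
      rw [if_neg hy]; ring
  · intro x _ hx
    refine Finset.sum_eq_zero fun y _ => ?_
    rw [if_neg hx]; ring

theorem sum_res1 {Λ Y : Finset V} (hY : Y ⊆ Λ) (f : V → ℝ) (g : V → ℝ) :
    ∑ y ∈ Λ, g y * (if y ∈ Y then f y else 0) = ∑ y ∈ Y, g y * f y := by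
  rw [← Finset.sum_subset hY]
  · exact Finset.sum_congr rfl fun y hy => by rw [if_pos hy]
  · intro y _ hy
    rw [if_neg hy]; ring

theorem sum_res2 {Λ Y : Finset V} (hY : Y ⊆ Λ) (f : V → ℝ) :
    ∑ y ∈ Λ, (if y ∈ Y then f y else 0) ^ 2 = ∑ y ∈ Y, f y ^ 2 := by
  rw [← Finset.sum_subset hY]
  · exact Finset.sum_congr rfl fun y hy => by rw [if_pos hy]
  · intro y _ hy
    rw [if_neg hy]; ring

theorem QQ_symm (e : (Finset V → ℝ) → ℝ) (φ : V → Finset V → ℝ) (A : Finset V) (x y : V) :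
    QQ e φ A x y = QQ e φ A y x := by
  unfold QQ
  congr 1
  · congr 1
    funext U
    exact mul_comm _ _
  · refine Finset.sum_congr rfl fun Z _ => ?_
    rw [mul_comm (e fun U => chi {x} U * om φ A Z U)]

/-- degrees of a transitive graph -/
theorem degree_eq {Γ : Type} [Group Γ] [MulAction Γ V] (G : SimpleGraph V) [G.LocallyFinite]
    (haut : ∀ (γ : Γ) (x y : V), G.Adj (γ • x) (γ • y) ↔ G.Adj x y)
    (htr : ∀ x y : V, ∃ γ : Γ, γ • x = y) (o x : V) :
    (G.neighborFinset x).card = (G.neighborFinset o).card := by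
  obtain ⟨γ, rfl⟩ := htr o x
  symm
  refine Finset.card_bij (fun y _ => γ • y) ?_ ?_ ?_
  · intro y hy
    rw [SimpleGraph.mem_neighborFinset] at hy ⊢
    exact (haut γ o y).2 hy
  · intro a _ b _ h
    exact smul_left_cancel γ h
  · intro b hb
    refine ⟨γ⁻¹ • b, ?_, smul_inv_smul γ b⟩
    rw [SimpleGraph.mem_neighborFinset] at hb ⊢
    rw [← haut γ, smul_inv_smul]
    exact hb

end KEYM

open KEYM in
theorem specKEY (hPOS : SpecPOS) (hINF : SpecINF) (hCHL : SpecCHL) : SpecKEY := by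
  intro Γ V _ _ G _ hconn haut htr hM c hc0 hc b₀ b₁ hb₀ hb₁
  obtain ⟨o⟩ : Nonempty V := hconn.nonempty
  obtain ⟨d, hd⟩ : ∃ d, d = (G.neighborFinset o).card := ⟨_, rfl⟩
  have hreg : ∀ x, (G.neighborFinset x).card = d := fun x => by
    rw [hd]; exact degree_eq G haut htr o x
  have hdpos : 0 < d := by
    have h1 := hc {o}
    rw [Finset.card_singleton, Finset.sum_singleton] at h1
    have h2 : ((G.neighborFinset o \ {o}).card : ℝ) ≤ d := by
      rw [hd]
      exact_mod_cast Finset.card_le_card Finset.sdiff_subset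
    have h3 : (0 : ℝ) < d := by
      have : c * ((1 : ℕ) : ℝ) = c := by norm_num
      rw [this] at h1
      linarith
    exact_mod_cast h3
  obtain ⟨N, B, m, ν, hK, hν, -⟩ := ker G hdpos hreg hc0 hc (ε := 1 / 40) (by norm_num)
  have hν0 : 0 < ν := hK.nupos
  obtain ⟨K₀, hK₀, hpos⟩ := hPOS d m b₀ b₁ 1 hb₀ hb₁
  obtain ⟨C₀, hC₀⟩ : ∃ C₀ : ℝ, C₀ = 2 / (ν ^ 2 * K₀) + 1 / ν ^ 2 + 2 := ⟨_, rfl⟩
  have t1 : 0 < 2 / (ν ^ 2 * K₀) := by positivity
  have t2 : 0 < 1 / ν ^ 2 := by positivity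
  have hC₀p : 0 < C₀ := by rw [hC₀]; linarith
  refine ⟨16 * C₀ ^ 2, by positivity, ?_⟩
  intro β hβ0 hβ1 ⟨X, hX⟩
  have hβ : 0 < β := lt_of_lt_of_le hb₀ hβ0
  have hp0 : ∀ e : Sym2 V, 0 ≤ (fun _ : Sym2 V => pr β) e := fun _ => pr_nonneg hβ.le
  have hp1 : ∀ e : Sym2 V, (fun _ : Sym2 V => pr β) e ≤ 1 := fun _ => pr_le_one β
  have hp2 : ∀ e : Sym2 V, (fun _ : Sym2 V => pr β) e < 1 := fun _ => by
    show pr β < 1
    unfold pr
    linarith [Real.exp_pos (-2 * β)]
  have hdiag : ∀ Λ : Finset V, ∀ e ∈ ed0 G Λ, ¬ e.IsDiag := by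
    intro Λ e he
    induction e using Sym2.ind with
    | _ a b =>
      rw [mem_ed0_mk] at he
      rw [Sym2.mk_isDiag_iff]
      exact he.1.ne
  have hin : ∀ Λ : Finset V, ∀ e ∈ ed0 G Λ, ∀ z ∈ e, z ∈ Λ := fun Λ e he => ((mem_ed0 G).1 he).2
  -- the kernel
  obtain ⟨M, hMdef⟩ : ∃ M : Finset V → V → V → ℝ, M = fun Λ => ch (fun _ => pr β) (ed0 G Λ) Λ :=
    ⟨_, rfl⟩
  have hM' : ∀ Λ x y, M Λ x y = ch (fun _ => pr β) (ed0 G Λ) Λ x y := fun Λ x y => by rw [hMdef]
  have Mnn : ∀ Λ x y, 0 ≤ M Λ x y := fun Λ x y => by rw [hM']; exact ch_nonneg hp0 hp1 _ _ x y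
  have Msym : ∀ Λ x y, M Λ x y = M Λ y x := fun Λ x y => by rw [hM', hM']; exact ch_symm _ _ _ x y
  have Mpsd : ∀ (Λ : Finset V) (g : V → ℝ), 0 ≤ ∑ x ∈ Λ, ∑ y ∈ Λ, g x * g y * M Λ x y := by
    intro Λ g
    simp_rw [hM']
    exact ch_psd hp1 _ _ g
  have Mmono : ∀ Λ Λ' : Finset V, Λ ⊆ Λ' → ∀ x ∈ Λ, ∀ y ∈ Λ, M Λ x y ≤ M Λ' x y := by
    intro Λ Λ' h x hx y hy
    rw [hM', hM']
    unfold ch
    split_ifs with hxy
    · exact le_rfl
    · have h2 : Tf G β Λ {x, y} ≤ Tf G β Λ' {x, y} := Tf_mono G hβ.le (by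
        intro z hz
        rw [Finset.mem_insert, Finset.mem_singleton] at hz
        rcases hz with rfl | rfl
        · exact hx
        · exact hy) h
      unfold Tf at h2
      linarith
  have Mtau : ∀ Λ : Finset V, ∀ x y, tau G (pr β) Λ x y ≤ 4 * M Λ x y := by
    intro Λ x y
    rw [hM', ch_eq hp1]
    unfold tau
    split_ifs with h1 h2
    · have := corr_nonneg (E := ed0 G Λ) (Λ := Λ) hp0 hp1 (symmDiff {x} {y})
      linarith
    · linarith
    · have := corr_nonneg (E := ed0 G Λ) (Λ := Λ) hp0 hp1 (symmDiff {x} {y})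
      linarith
    · have := corr_nonneg (E := ed0 G Λ) (Λ := Λ) hp0 hp1 (symmDiff {x} {y})
      linarith
  have hX0 : 0 ≤ X := by
    have := hX ∅ o
    rwa [Finset.sum_empty] at this
  -- one step
  have step : ∀ κ : ℝ, C₀ ≤ κ → (∀ Λ : Finset V, Bd Λ (M Λ) κ) →
      ∀ Λ : Finset V, Bd Λ (M Λ) (3 / 4 * κ) := by
    intro κ hκ hBd Λ₀ f hf
    by_contra hcon
    rw [not_le] at hcon
    have hκ0 : 0 < κ := lt_of_lt_of_le hC₀p hκ
    obtain ⟨F, hF⟩ : ∃ F, F = ∑ x ∈ Λ₀, f x ^ 2 := ⟨_, rfl⟩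
    rw [← hF] at hcon
    have hF0 : 0 < F := by
      rcases (show 0 ≤ F by rw [hF]; exact Finset.sum_nonneg fun x _ => sq_nonneg _).eq_or_lt
        with h | h
      · exfalso
        have hz : ∀ x ∈ Λ₀, f x = 0 := by
          intro x hx
          have h2 := (Finset.sum_eq_zero_iff_of_nonneg fun x _ => sq_nonneg (f x)).1
            (hF.symm.trans h.symm) x hx
          exact pow_eq_zero_iff (two_ne_zero) |>.1 h2
        have : ∑ x ∈ Λ₀, ∑ y ∈ Λ₀, f x * f y * M Λ₀ x y = 0 :=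
          Finset.sum_eq_zero fun x hx => Finset.sum_eq_zero fun y _ => by rw [hz x hx]; ring
        rw [this, ← h] at hcon
        linarith
      · exact h
    -- the strength of the channel
    obtain ⟨δ, hδ⟩ : ∃ δ, δ = Real.sqrt (1 / (88 * ν ^ 2 * κ)) := ⟨_, rfl⟩
    have hδ2 : δ ^ 2 = 1 / (88 * ν ^ 2 * κ) := by
      rw [hδ, Real.sq_sqrt (by positivity)]
    have hδ0 : 0 < δ := by rw [hδ]; exact Real.sqrt_pos.2 (by positivity)
    have e1 : 100 * δ ^ 2 ≤ K₀ := by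
      have h1 : 2 / (ν ^ 2 * K₀) ≤ κ := by rw [hC₀] at hκ; linarith
      rw [hδ2, mul_one_div, div_le_iff₀ (by positivity)]
      rw [div_le_iff₀ (by positivity)] at h1
      nlinarith
    have e2 : 8 * δ * 1 ≤ 1 := by
      have h1 : 1 / ν ^ 2 ≤ κ := by rw [hC₀] at hκ; linarith
      rw [div_le_iff₀ (by positivity)] at h1
      have h2 : (8 * δ) ^ 2 ≤ 1 := by
        have : (8 * δ) ^ 2 = 64 * δ ^ 2 := by ring
        rw [this, hδ2, mul_one_div, div_le_iff₀ (by positivity)]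
        nlinarith
      nlinarith
    have e3 : 100 * δ ^ 2 * ν ^ 2 ≤ 1 := by
      have h1 : 2 ≤ κ := by rw [hC₀] at hκ; linarith
      have h2 : 100 * δ ^ 2 * ν ^ 2 = 100 / (88 * κ) := by
        rw [hδ2]; field_simp
      rw [h2, div_le_iff₀ (by positivity)]
      linarith
    obtain ⟨φ, hφ, hφinv, hφ2⟩ := hCHL V G N B m 1 ν δ hK hδ0 e2 e3
    have hFKG : ∀ Λ A : Finset V, (∀ a ∈ A, B a ⊆ Λ) → ∀ Z : Finset V, ∀ f g : Finset V → ℝ,
        (∀ S T, S ⊆ T → T ⊆ Λ → f T ≤ f S) → (∀ S T, S ⊆ T → T ⊆ Λ → g T ≤ g S) →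
        eL G β Λ (fun U => f U * om φ A Z U) * eL G β Λ (fun U => g U * om φ A Z U) ≤
          eL G β Λ (fun U => f U * g U * om φ A Z U) * eL G β Λ (om φ A Z) :=
      fun Λ A hA Z f g hf hg => hpos V G N B ν φ δ (100 * δ ^ 2) β (fun x => (hreg x).le) hK hφ
        (by positivity) e1 hβ0 hβ1 Λ A hA Z f g hf hg
    obtain ⟨Q, hQ, hlim⟩ := hINF Γ V G haut β N B m 1 ν φ δ (100 * δ ^ 2) X hβ hK hφ hδ0 hφinv
      hFKG hX
    have hQsym : ∀ A x y, Q A x y = Q A y x := by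
      intro A x y
      refine tendsto_nhds_unique (hlim A x y) ?_
      have := hlim A y x
      simp_rw [QQ_symm _ φ A y x] at this
      exact this
    obtain ⟨A, hA⟩ := schur hQ hM htr one_pos (by positivity) hQsym Λ₀ f (κ * F / 10)
      (by positivity)
    have hA1 := hA A subset_rfl
    rw [← hF] at hA1
    -- the lower bound
    have hlow : κ * F / 2 ≤ ∑ x ∈ Λ₀, ∑ y ∈ Λ₀, f x * f y * Q A x y := by
      have ht : Tendsto (fun Λ : Finset V => ∑ x ∈ Λ₀, ∑ y ∈ Λ₀, f x * f y *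
          QQ (eL G β Λ) φ A x y) atTop (𝓝 (∑ x ∈ Λ₀, ∑ y ∈ Λ₀, f x * f y * Q A x y)) :=
        tendsto_finsetSum _ fun x _ => tendsto_finsetSum _ fun y _ => (hlim A x y).const_mul _
      refine ge_of_tendsto ht ?_
      filter_upwards [eventually_ge_atTop (Λ₀ ∪ A.biUnion B)] with Λ hΛ
      have hΛ₀ : Λ₀ ⊆ Λ := Finset.subset_union_left.trans hΛ
      have hAB : ∀ a ∈ A, B a ⊆ Λ := fun a ha =>
        (Finset.subset_biUnion_of_mem B ha).trans (Finset.subset_union_right.trans hΛ)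
      have h1 := hφ2 (fun _ => pr β) (ed0 G Λ) Λ A Λ₀ f hp0 hp2 (hdiag Λ) (hin Λ) hAB hΛ₀ hf
      have h2 : ∑ z ∈ Λ, (∑ y ∈ Λ₀, ch (fun _ => pr β) (ed0 G Λ) Λ z y * f y) ^ 2 ≤ κ ^ 2 * F := by
        have h3 := cs (Msym Λ) (Mnn Λ) (Mpsd Λ) hκ0 (hBd Λ) (fun y => if y ∈ Λ₀ then f y else 0)
          (fun y => by split_ifs; exacts [hf y, le_rfl])
        simp only [sum_res1 hΛ₀ f (M Λ _), sum_res2 hΛ₀ f] at h3
        rw [← hF] at h3
        simp_rw [hM'] at h3
        exact h3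
      have h4 : ∑ x ∈ Λ₀, ∑ y ∈ Λ₀, f x * f y * M Λ₀ x y ≤
          ∑ x ∈ Λ₀, ∑ y ∈ Λ₀, f x * f y * ch (fun _ => pr β) (ed0 G Λ) Λ x y := by
        refine Finset.sum_le_sum fun x hx => Finset.sum_le_sum fun y hy => ?_
        rw [← hM']
        exact mul_le_mul_of_nonneg_left (Mmono Λ₀ Λ hΛ₀ x hx y hy) (mul_nonneg (hf x) (hf y))
      have h5 : 22 * δ ^ 2 * ν ^ 2 *
          ∑ z ∈ Λ, (∑ y ∈ Λ₀, ch (fun _ => pr β) (ed0 G Λ) Λ z y * f y) ^ 2 ≤ κ * F / 4 := by
        refine (mul_le_mul_of_nonneg_left h2 (by positivity)).trans (le_of_eq ?_)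
        rw [hδ2]; field_simp; ring
      have h6 : eL G β Λ = ex (fun _ => pr β) (ed0 G Λ) Λ := rfl
      rw [h6]
      linarith
    have e4 : 4 / (δ ^ 2 * 1 ^ 2) * F ≤ 352 / 1600 * κ * F := by
      refine mul_le_mul_of_nonneg_right ?_ hF0.le
      have : 4 / (δ ^ 2 * 1 ^ 2) = 352 * ν ^ 2 * κ := by
        rw [hδ2]; field_simp; ring
      rw [this]
      have h7 : ν ^ 2 ≤ 1 / 1600 := by nlinarith
      nlinarith
    have e5 : 0 < κ * F := mul_pos hκ0 hF0
    nlinarith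
  -- iteration
  have base : ∀ Λ : Finset V, Bd Λ (M Λ) (1 + X) := by
    intro Λ
    refine schur_row (Msym Λ) (Mnn Λ) fun x hx => ?_
    have h1 : ∀ y ∈ Λ, M Λ x y ≤ (if x = y then 1 else 0) + tau G (pr β) Λ x y := by
      intro y hy
      have ht : tau G (pr β) Λ x y = corr (fun _ => pr β) (ed0 G Λ) Λ (symmDiff {x} {y}) := by
        unfold tau
        exact if_pos ⟨hx, hy⟩
      rw [hM', ch_eq hp1, ht]
      have := corr_nonneg (E := ed0 G Λ) (Λ := Λ) hp0 hp1 (symmDiff {x} {y})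
      split_ifs <;> linarith
    refine (Finset.sum_le_sum h1).trans ?_
    rw [Finset.sum_add_distrib, Finset.sum_ite_eq, if_pos hx]
    linarith [hX Λ x]
  have Bd_mono : ∀ (Λ : Finset V) (κ κ' : ℝ), κ ≤ κ' → Bd Λ (M Λ) κ → Bd Λ (M Λ) κ' := by
    intro Λ κ κ' h hB f hf
    exact (hB f hf).trans (mul_le_mul_of_nonneg_right h (Finset.sum_nonneg fun x _ => sq_nonneg _))
  have iter : ∀ k : ℕ, ∀ Λ : Finset V, Bd Λ (M Λ) (max C₀ ((3 / 4) ^ k * (1 + X))) := by
    intro k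
    induction k with
    | zero =>
      intro Λ
      refine Bd_mono Λ _ _ ?_ (base Λ)
      rw [pow_zero, one_mul]
      exact le_max_right _ _
    | succ k ih =>
      intro Λ
      rcases le_total ((3 / 4 : ℝ) ^ k * (1 + X)) C₀ with h | h
      · have := ih Λ
        rw [max_eq_left h] at this
        exact Bd_mono Λ _ _ (le_max_left _ _) this
      · rw [max_eq_right h] at ih
        refine Bd_mono Λ _ _ ?_ (step _ h ih Λ)
        refine le_trans (le_of_eq ?_) (le_max_right _ _)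
        ring
  have fin : ∀ Λ : Finset V, Bd Λ (M Λ) C₀ := by
    intro Λ
    obtain ⟨k, hk⟩ := exists_pow_lt_of_lt_one (show 0 < C₀ / (1 + X) by positivity)
      (show (3 / 4 : ℝ) < 1 by norm_num)
    have := iter k Λ
    rw [max_eq_left] at this
    · exact this
    · rw [lt_div_iff₀ (by linarith)] at hk
      exact hk.le
  -- the operator bound
  intro Λ U W v hv
  simp only [Real.rpow_two]
  obtain ⟨f, hfdef⟩ : ∃ f : V → ℝ, f = fun y => if y ∈ W then v y else 0 := ⟨_, rfl⟩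
  have hf : ∀ y, 0 ≤ f y := fun y => by rw [hfdef]; dsimp only; split_ifs; exacts [hv y, le_rfl]
  have h1 := cs (Msym Λ) (Mnn Λ) (Mpsd Λ) hC₀p (fin Λ) f hf
  have h2 : ∑ y ∈ Λ, f y ^ 2 ≤ ∑ y ∈ W, v y ^ 2 := by
    have e1 : ∑ y ∈ Λ, f y ^ 2 = ∑ y ∈ Λ ∩ W, v y ^ 2 := by
      rw [← Finset.filter_mem_eq_inter, Finset.sum_filter]
      refine Finset.sum_congr rfl fun y _ => ?_
      rw [hfdef]
      dsimp only
      split_ifs <;> norm_num
    rw [e1]
    exact Finset.sum_le_sum_of_subset_of_nonneg Finset.inter_subset_right fun y _ _ => sq_nonneg _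
  have h3 : ∀ x, 0 ≤ ∑ y ∈ W, tau G (pr β) Λ x y * v y ∧
      ∑ y ∈ W, tau G (pr β) Λ x y * v y ≤ 4 * ∑ y ∈ Λ, M Λ x y * f y := by
    intro x
    have tnn : ∀ y, 0 ≤ tau G (pr β) Λ x y := by
      intro y
      unfold tau
      split_ifs
      · exact corr_nonneg hp0 hp1 _
      · exact le_rfl
    refine ⟨Finset.sum_nonneg fun y _ => mul_nonneg (tnn y) (hv y), ?_⟩
    have e1 : ∑ y ∈ W, tau G (pr β) Λ x y * v y = ∑ y ∈ W ∩ Λ, tau G (pr β) Λ x y * v y := by
      symm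
      refine Finset.sum_subset Finset.inter_subset_left fun y hy hy2 => ?_
      have : y ∉ Λ := fun h => hy2 (Finset.mem_inter.2 ⟨hy, h⟩)
      unfold tau
      rw [if_neg fun h => this h.2, zero_mul]
    rw [e1, Finset.mul_sum]
    have e2 : ∑ y ∈ W ∩ Λ, tau G (pr β) Λ x y * v y ≤ ∑ y ∈ W ∩ Λ, 4 * (M Λ x y * f y) := by
      refine Finset.sum_le_sum fun y hy => ?_
      rw [Finset.mem_inter] at hy
      have : f y = v y := by rw [hfdef]; dsimp only; rw [if_pos hy.1]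
      rw [this, ← mul_assoc]
      exact mul_le_mul_of_nonneg_right (Mtau Λ x y) (hv y)
    refine e2.trans (Finset.sum_le_sum_of_subset_of_nonneg Finset.inter_subset_right
      fun y _ _ => ?_)
    have := mul_nonneg (Mnn Λ x y) (hf y)
    linarith
  have h4 : ∑ x ∈ U, (∑ y ∈ W, tau G (pr β) Λ x y * v y) ^ 2 ≤
      ∑ x ∈ Λ, (4 * ∑ y ∈ Λ, M Λ x y * f y) ^ 2 := by
    have e1 : ∑ x ∈ U, (∑ y ∈ W, tau G (pr β) Λ x y * v y) ^ 2 =
        ∑ x ∈ U ∩ Λ, (∑ y ∈ W, tau G (pr β) Λ x y * v y) ^ 2 := by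
      symm
      refine Finset.sum_subset Finset.inter_subset_left fun x hx hx2 => ?_
      have hxΛ : x ∉ Λ := fun h => hx2 (Finset.mem_inter.2 ⟨hx, h⟩)
      have : ∑ y ∈ W, tau G (pr β) Λ x y * v y = 0 := by
        refine Finset.sum_eq_zero fun y _ => ?_
        unfold tau
        rw [if_neg fun h => hxΛ h.1, zero_mul]
      rw [this]; ring
    rw [e1]
    refine (Finset.sum_le_sum fun x _ => pow_le_pow_left₀ (h3 x).1 (h3 x).2 2).trans
      (Finset.sum_le_sum_of_subset_of_nonneg Finset.inter_subset_right fun x _ _ => sq_nonneg _)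
  have h5 : ∑ x ∈ Λ, (4 * ∑ y ∈ Λ, M Λ x y * f y) ^ 2 =
      16 * ∑ x ∈ Λ, (∑ y ∈ Λ, M Λ x y * f y) ^ 2 := by
    rw [Finset.mul_sum]
    exact Finset.sum_congr rfl fun x _ => by ring
  rw [h5] at h4
  have h6 : C₀ ^ 2 * ∑ y ∈ Λ, f y ^ 2 ≤ C₀ ^ 2 * ∑ y ∈ W, v y ^ 2 :=
    mul_le_mul_of_nonneg_left h2 (sq_nonneg _)
  nlinarith

end UN

end MP8622
end
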