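import Pool.Agent.Lib.MP_8622f1_pr.RP.Spec
import Pool.Agent.Lib.MP_8622f1_pr.NU.FLD
import Pool.Agent.Lib.MP_8622f1_pr.NU.SpecL
import Pool.Agent.Lib.MP_8622f1_pr.RP.END
import Pool.Agent.Lib.MP_8622f1_pr.RP.PSS
import Pool.Agent.Lib.MP_8622f1_pr.UN.Spec
import Pool.Agent.Lib.MP_8622f1_pr.Uni
import Pool.Agent.Lib.MP_8622f1_pr.UN.KEY

section
set_option autoImplicit false

open Classical Filter Topology

/-!
Generalised Simon-Lieb inequality for two coupling constants, by induction on the number of edges.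
-/

namespace MP8622

namespace RP

namespace GSLM

variable {V : Type}

theorem t_mono {p p' : ℝ} (h0 : 0 ≤ p) (h : p ≤ p') (h1 : p' ≤ 1) :
    0 ≤ p' / (2 - p') - p / (2 - p) := by
  have : p / (2 - p) ≤ p' / (2 - p') :=
    div_le_div₀ (h0.trans h) h (by linarith) (by linarith)
  linarith

/-- right side of the inequality -/
noncomputable def rhs (P P' : Sym2 V → ℝ) (E F G : Finset (Sym2 V)) (Λ : Finset V) (x y : V) : ℝ :=
  ∑ u ∈ Λ, ∑ v ∈ Λ, if s(u, v) ∈ E then
    (P' s(u, v) / (2 - P' s(u, v)) - P s(u, v) / (2 - P s(u, v))) *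
      c2 P F Λ x u * c2 P' G Λ v y else 0

theorem main {P P' : Sym2 V → ℝ} (h0 : ∀ e, 0 ≤ P e) (hP : ∀ e, P e ≤ P' e)
    (h1' : ∀ e, P' e ≤ 1) {Λ : Finset V} (n : ℕ) :
    ∀ E : Finset (Sym2 V), E.card = n → (∀ e ∈ E, ¬ e.IsDiag) → (∀ e ∈ E, ∀ z ∈ e, z ∈ Λ) →
      ∀ x ∈ Λ, ∀ y ∈ Λ, c2 P' E Λ x y ≤ c2 P E Λ x y + rhs P P' E E E Λ x y := by
  have h0' : ∀ e, 0 ≤ P' e := fun e => (h0 e).trans (hP e)
  have h1 : ∀ e, P e ≤ 1 := fun e => (hP e).trans (h1' e)
  have hD : ∀ e, 0 ≤ P' e / (2 - P' e) - P e / (2 - P e) := fun e =>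
    t_mono (h0 e) (hP e) (h1' e)
  have hnn : ∀ (F : Finset (Sym2 V)) (a b : V), 0 ≤ c2 P F Λ a b := fun F a b =>
    corr_nonneg h0 h1 _
  have hnn' : ∀ (F : Finset (Sym2 V)) (a b : V), 0 ≤ c2 P' F Λ a b := fun F a b =>
    corr_nonneg h0' h1' _
  have hrhs : ∀ (E F G : Finset (Sym2 V)) (a b : V), 0 ≤ rhs P P' E F G Λ a b := by
    intro E F G a b
    refine Finset.sum_nonneg fun u _ => Finset.sum_nonneg fun v _ => ?_
    split_ifs
    · exact mul_nonneg (mul_nonneg (hD _) (hnn _ _ _)) (hnn' _ _ _)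
    · exact le_rfl
  have hPP : ∀ (F : Finset (Sym2 V)) (a b : V), c2 P F Λ a b ≤ c2 P' F Λ a b := by
    intro F a b
    exact corr_mono h0 hP h1' (Finset.Subset.refl Λ) _
  induction n using Nat.strong_induction_on with
  | _ n ih =>
    intro E hcard hdiag hW x hx y hy
    by_cases hex : ∃ e ∈ E, x ∈ e
    · obtain ⟨e, heE, hxe⟩ := hex
      obtain ⟨v, rfl⟩ := Sym2.mem_iff_exists.1 hxe
      have hxv : x ≠ v := fun h => hdiag _ heE (by rw [h]; exact Sym2.mk_isDiag_iff.2 rfl)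
      have hvΛ : v ∈ Λ := hW _ heE v (Sym2.mem_mk_right x v)
      set E' := E.erase s(x, v) with hE'
      have hne : s(x, v) ∉ E' := Finset.notMem_erase _ _
      have hins : insert s(x, v) E' = E := Finset.insert_erase heE
      have hsub : E' ⊆ E := Finset.erase_subset _ _
      have hlt : E'.card < n := by rw [← hcard]; exact Finset.card_erase_lt_of_mem heE
      have IH := ih E'.card hlt E' rfl (fun e he => hdiag e (hsub he))
        (fun e he => hW e (hsub he))
      have hsd : ∀ w : V, symmDiff (symmDiff {x} {w}) (symmDiff {x} {v}) =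
          symmDiff {v} ({w} : Finset V) := by
        intro w
        rw [symmDiff_comm ({x} : Finset V) {w}, symmDiff_assoc, symmDiff_symmDiff_cancel_left,
          symmDiff_comm]
      obtain ⟨t, ht⟩ : ∃ t, t = P s(x, v) / (2 - P s(x, v)) := ⟨_, rfl⟩
      obtain ⟨t', ht'⟩ : ∃ t, t = P' s(x, v) / (2 - P' s(x, v)) := ⟨_, rfl⟩
      have ht0 : 0 ≤ t := by rw [ht]; exact SlM.t_nonneg h0 h1 _
      have htt : 0 ≤ t' - t := by rw [ht, ht']; exact hD _
      have hden : 1 ≤ 1 + t * c2 P E' Λ x v := by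
        have := mul_nonneg ht0 (hnn E' x v)
        linarith
      have hden' : 1 + t * c2 P E' Λ x v ≤ 1 + t' * c2 P' E' Λ x v := by
        have := mul_le_mul (show t ≤ t' by linarith) (hPP E' x v) (hnn E' x v) (by linarith)
        linarith
      have hL : ∀ w : V, c2 P E' Λ x w + t * c2 P E' Λ v w =
          c2 P E Λ x w * (1 + t * c2 P E' Λ x v) := by
        intro w
        unfold c2
        rw [← hins, SlM.corr_insert h1 hne, hsd, ← ht]
        exact (div_mul_cancel₀ _ (by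
          have : 0 < 1 + t * c2 P E' Λ x v := by linarith
          exact this.ne')).symm
      have hL' : ∀ w : V, c2 P' E' Λ x w + t' * c2 P' E' Λ v w =
          c2 P' E Λ x w * (1 + t' * c2 P' E' Λ x v) := by
        intro w
        unfold c2
        rw [← hins, SlM.corr_insert h1' hne, hsd, ← ht']
        exact (div_mul_cancel₀ _ (by
          have : 0 < 1 + t' * c2 P' E' Λ x v := by linarith
          exact this.ne')).symm
      have hcm : ∀ a b, c2 P' E' Λ a b ≤ c2 P' E Λ a b := fun a b =>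
        SlM.corr_mono_edges h0' h1' hsub Λ _
      -- the main estimate
      have hsum : rhs P P' E' E' E' Λ x y + t * rhs P P' E' E' E' Λ v y =
          rhs P P' E' E E' Λ x y * (1 + t * c2 P E' Λ x v) := by
        unfold rhs
        rw [Finset.mul_sum, ← Finset.sum_add_distrib, Finset.sum_mul]
        refine Finset.sum_congr rfl fun u _ => ?_
        rw [Finset.mul_sum, ← Finset.sum_add_distrib, Finset.sum_mul]
        refine Finset.sum_congr rfl fun w _ => ?_
        split_ifs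
        · have := hL u
          linear_combination ((P' s(u, w) / (2 - P' s(u, w)) - P s(u, w) / (2 - P s(u, w))) *
            c2 P' E' Λ w y) * this
        · ring
      have key : c2 P' E' Λ x y + t' * c2 P' E' Λ v y ≤
          (c2 P E Λ x y + rhs P P' E' E E' Λ x y) * (1 + t * c2 P E' Λ x v) +
            (t' - t) * c2 P' E' Λ v y := by
        have g1 := IH x hx y hy
        have g2 := mul_le_mul_of_nonneg_left (IH v hvΛ y hy) ht0
        have g3 := hL y
        rw [add_mul, ← hsum, ← g3]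
        linarith
      rw [hL' y] at key
      have hpos : 0 < 1 + t' * c2 P' E' Λ x v := by linarith
      have h5 : (c2 P E Λ x y + rhs P P' E' E E' Λ x y) * (1 + t * c2 P E' Λ x v) +
          (t' - t) * c2 P' E' Λ v y ≤
          (c2 P E Λ x y + rhs P P' E' E E' Λ x y + (t' - t) * c2 P' E' Λ v y) *
            (1 + t' * c2 P' E' Λ x v) := by
        have g1 : 0 ≤ c2 P E Λ x y + rhs P P' E' E E' Λ x y :=
          add_nonneg (hnn _ _ _) (hrhs _ _ _ _ _)
        have g2 := mul_le_mul_of_nonneg_left hden' g1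
        have g3 : 0 ≤ (t' - t) * c2 P' E' Λ v y := mul_nonneg htt (hnn' _ _ _)
        have g4 : (t' - t) * c2 P' E' Λ v y ≤ (t' - t) * c2 P' E' Λ v y *
            (1 + t' * c2 P' E' Λ x v) := le_mul_of_one_le_right g3 (by linarith)
        rw [add_mul]
        linarith
      have h6 : c2 P' E Λ x y ≤ c2 P E Λ x y + rhs P P' E' E E' Λ x y +
          (t' - t) * c2 P' E' Λ v y := le_of_mul_le_mul_right (key.trans h5) hpos
      refine h6.trans ?_
      rw [add_assoc]
      refine add_le_add le_rfl ?_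
      have h4 : (t' - t) * c2 P' E' Λ v y = ∑ u ∈ Λ, ∑ w ∈ Λ,
          if u = x then (if w = v then (t' - t) * c2 P' E' Λ v y else 0) else 0 := by
        have h5 : ∀ u ∈ Λ, (∑ w ∈ Λ,
          if u = x then (if w = v then (t' - t) * c2 P' E' Λ v y else 0) else 0) =
            if u = x then (t' - t) * c2 P' E' Λ v y else 0 := by
          intro u _
          split_ifs
          · rw [Finset.sum_ite_eq', if_pos hvΛ]
          · simp
        rw [Finset.sum_congr rfl h5, Finset.sum_ite_eq', if_pos hx]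
      rw [h4]
      unfold rhs
      rw [← Finset.sum_add_distrib]
      refine Finset.sum_le_sum fun u hu => ?_
      rw [← Finset.sum_add_distrib]
      refine Finset.sum_le_sum fun w hw => ?_
      by_cases h9 : u = x ∧ w = v
      · obtain ⟨rfl, rfl⟩ := h9
        have h10 : c2 P E Λ u u = 1 := by
          unfold c2
          rw [SlM.symmDiff_self_empty, corr_empty h1]
        rw [if_neg hne, if_pos rfl, if_pos rfl, if_pos heE, zero_add, h10, mul_one, ← ht, ← ht']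
        exact mul_le_mul_of_nonneg_left (hcm _ _) htt
      · have h10 : (if u = x then (if w = v then (t' - t) * c2 P' E' Λ v y else 0)
            else 0) = 0 := by
          split_ifs with h11 h12
          · exact absurd ⟨h11, h12⟩ h9
          · rfl
          · rfl
        rw [h10, add_zero]
        by_cases h11 : s(u, w) ∈ E'
        · rw [if_pos h11, if_pos (hsub h11)]
          exact mul_le_mul_of_nonneg_left (hcm _ _) (mul_nonneg (hD _) (hnn _ _ _))
        · rw [if_neg h11]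
          split_ifs
          · exact mul_nonneg (mul_nonneg (hD _) (hnn _ _ _)) (hnn' _ _ _)
          · exact le_rfl
    · push Not at hex
      by_cases hxy : x = y
      · subst hxy
        have e1 : c2 P E Λ x x = 1 := by
          unfold c2
          rw [SlM.symmDiff_self_empty, corr_empty h1]
        have e2 : c2 P' E Λ x x = 1 := by
          unfold c2
          rw [SlM.symmDiff_self_empty, corr_empty h1']
        rw [e1, e2]
        have := hrhs E E E x x
        linarith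
      · have h2 : x ∈ symmDiff ({x} : Finset V) {y} := by
          rw [Finset.mem_symmDiff]
          exact Or.inl ⟨Finset.mem_singleton_self x, fun h => hxy (Finset.mem_singleton.1 h)⟩
        have e2 : c2 P' E Λ x y = 0 := SlM.corr_zero hx h2 hex
        rw [e2]
        exact add_nonneg (hnn _ _ _) (hrhs _ _ _ _ _)

end GSLM

theorem specGSL : SpecGSL := by
  intro V P P' E Λ h0 hP h1 hdiag hW x hx y hy
  exact GSLM.main h0 hP h1 E.card E rfl hdiag hW x hx y hy

end RP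

end MP8622
end

section
set_option autoImplicit false

open Classical Filter Topology

namespace MP8622

namespace NU

namespace NUNM

open IsfM

variable {V : Type} (G : SimpleGraph V) [G.LocallyFinite]

/-- vertices joined by a path of length at most `n` inside a large finite set -/
theorem path_bound {p : ℝ} (h0 : 0 ≤ p) (h1 : p ≤ 1) {x y : V} (w : G.Walk x y) :
    ∀ Λ : Finset V, (∀ z ∈ w.support, z ∈ Λ) → (p / (2 - p)) ^ w.length ≤ tau G p Λ x y := by
  induction w with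
  | nil =>
    intro Λ hΛ
    rename_i u
    have hu : u ∈ Λ := hΛ u (by simp)
    rw [tau_eq G hu hu, SlM.symmDiff_self_empty, corr_empty (fun _ => h1)]
    simp
  | cons hadj w ih =>
    intro Λ hΛ
    rename_i u v y'
    have hu : u ∈ Λ := hΛ u (by simp)
    have hv : v ∈ Λ := hΛ v (by simp)
    have h2 := ih Λ (fun z hz => hΛ z (by
      rw [SimpleGraph.Walk.support_cons]
      exact List.mem_cons_of_mem _ hz))
    have h3 := mem_edge G h0 h1 hu hv hadj
    rw [SimpleGraph.Walk.length_cons, pow_succ']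
    refine (mul_le_mul h3 h2 (pow_nonneg (t_nonneg h0 h1) _) (tau_nonneg G h0 h1 _ _ _)).trans ?_
    exact tau_mul G h0 h1 Λ u v y'

/-- no uniform bound up to `p = 1` -/
theorem not_uniform [Infinite V] (hconn : G.Connected) (B : ℝ)
    (h : ∀ p : ℝ, 0 ≤ p → p < 1 → ∀ Λ : Finset V, AHP.OB 2 (tau G p Λ) B) : False := by
  obtain ⟨o⟩ := hconn.nonempty
  obtain ⟨n, hn⟩ := exists_nat_gt (4 * B)
  obtain ⟨U, -, hcard⟩ := (Set.infinite_univ (α := V)).exists_subset_card_eq n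
  have hw : ∀ x : V, ∃ w : G.Walk x o, True := fun x => ⟨(hconn.preconnected x o).some, trivial⟩
  choose w _ using hw
  set N : ℕ := ∑ x ∈ U, (w x).length with hN
  have hlen : ∀ x ∈ U, (w x).length ≤ N := fun x hx =>
    Finset.single_le_sum (f := fun x => (w x).length) (fun _ _ => Nat.zero_le _) hx
  -- choose p with th p ^ N ≥ 1/2
  have hcont : Tendsto (fun p : ℝ => (p / (2 - p)) ^ N) (𝓝[<] 1) (𝓝 1) := by
    have h1 : ContinuousAt (fun p : ℝ => (p / (2 - p)) ^ N) 1 := by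
      refine ContinuousAt.pow (ContinuousAt.div continuousAt_id (by fun_prop) (by norm_num)) N
    have h2 : ((1 : ℝ) / (2 - 1)) ^ N = 1 := by norm_num
    have h3 : Tendsto (fun p : ℝ => (p / (2 - p)) ^ N) (𝓝 1) (𝓝 (((1 : ℝ) / (2 - 1)) ^ N)) :=
      h1.tendsto
    rw [h2] at h3
    exact h3.mono_left nhdsWithin_le_nhds
  have hev : ∀ᶠ p : ℝ in 𝓝[<] 1, 1 / 2 < (p / (2 - p)) ^ N :=
    hcont.eventually_const_lt (by norm_num)
  have hev2 : ∀ᶠ p : ℝ in 𝓝[<] 1, 0 < p ∧ p < 1 := by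
    have h1 : ∀ᶠ p : ℝ in 𝓝 1, 0 < p := lt_mem_nhds (by norm_num)
    filter_upwards [nhdsWithin_le_nhds h1, self_mem_nhdsWithin] with p h2 h3
    exact ⟨h2, h3⟩
  obtain ⟨p, hp1, hp0, hp2⟩ := (hev.and hev2).exists
  set Λ : Finset V := U.biUnion (fun x => (w x).support.toFinset) with hΛ
  have hb := h p hp0.le hp2 Λ U {o} (fun _ => 1) (fun _ => zero_le_one)
  simp only [Finset.sum_singleton, mul_one, Real.rpow_two] at hb
  have h4 : ∀ x ∈ U, (1 / 4 : ℝ) ≤ tau G p Λ x o ^ 2 := by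
    intro x hx
    have h5 := path_bound G hp0.le hp2.le (w x) Λ (fun z hz => by
      rw [hΛ, Finset.mem_biUnion]
      exact ⟨x, hx, List.mem_toFinset.2 hz⟩)
    have h6 : (p / (2 - p)) ^ N ≤ (p / (2 - p)) ^ (w x).length :=
      pow_le_pow_of_le_one (t_nonneg hp0.le hp2.le) (t_le_one hp2.le) (hlen x hx)
    have h7 : 1 / 2 < tau G p Λ x o := hp1.trans_le (h6.trans h5)
    nlinarith
  have h8 := Finset.sum_le_sum h4
  rw [Finset.sum_const, hcard, nsmul_eq_mul] at h8
  linarith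

end NUNM

open NUNM IsfM in
/-- final statement -/
theorem specNUN (hHGT : SpecHGT) (hUNI : SpecUNI) : SpecNUN := by
  intro Γ V _ _ G _ hconn haut htra hnon o σ hσ E hE C hC
  obtain ⟨x₀, y₀, hxy⟩ := hnon
  obtain ⟨h, τ, hHT⟩ := hHGT Γ V G hconn haut htra ⟨x₀, y₀, hxy⟩
  have htr : ∀ x y : V, ∃ g : V ≃ V, IsAut G g ∧ g x = y := by
    intro x y
    obtain ⟨γ, hγ⟩ := htra x y
    exact ⟨MulAction.toPerm γ, fun a b => haut γ a b, hγ⟩
  -- heights are unbounded, so `V` is infinite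
  have hinf : Infinite V := by
    by_contra hfin
    rw [not_infinite_iff_finite] at hfin
    have : Nonempty V := ⟨o⟩
    obtain ⟨x, hx⟩ := Finite.exists_max h
    obtain ⟨y, -, hy⟩ := hHT.up x
    have := hx y
    have := hHT.pos
    linarith
  have hsub : ∀ β β' : ℝ, 0 ≤ β → β < β' → tp G β' {o} = 0 →
      ∃ B : ℝ, ∀ (Λ : Finset V) (x : V), ∑ z ∈ Λ, tau G (pr β) Λ x z ≤ B :=
    fun β β' h1 h2 h3 => RP.specSHA V G htr o β β' h1 h2 h3
  have hprlt : ∀ {a b : ℝ}, pr a < pr b → a < b := by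
    intro a b hab
    by_contra hcon
    have := AhM.pr_mono (not_lt.1 hcon)
    linarith
  obtain ⟨S, hS⟩ : ∃ S : Set ℝ, S = {β : ℝ | 0 < β ∧ 0 < tp G β {o}} := ⟨_, rfl⟩
  have hmem : ∀ β : ℝ, β ∈ S ↔ 0 < β ∧ 0 < tp G β {o} := by
    intro β
    rw [hS]
    rfl
  have hfin : ∃ β : ℝ, 0 < β ∧ 0 < tp G β {o} := by
    by_contra hcon
    push Not at hcon
    obtain ⟨B, hB, hOB⟩ := hUNI Γ V G h τ hHT hconn 1 one_pos le_rfl (fun p hp0 hp1 => by
      obtain ⟨b, hb, rfl⟩ := AhM.exists_pr hp0 hp1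
      exact hsub b (b + 1) hb.le (by linarith)
        (le_antisymm (hcon _ (by linarith)) (tp_nonneg G (by linarith) _)))
    exact not_uniform G hconn B hOB
  have hne : S.Nonempty := by
    obtain ⟨β, hβ⟩ := hfin
    exact ⟨β, (hmem β).2 hβ⟩
  have hbdd : BddBelow S := ⟨0, fun β hβ => ((hmem β).1 hβ).1.le⟩
  have hOPB : ∀ b₀ : ℝ, 0 < b₀ → ∃ B : ℝ, 0 < B ∧ ∀ (β β' : ℝ), b₀ ≤ β → β < β' →
      tp G β' {o} = 0 → ∀ Λ : Finset V, AHP.OB 2 (tau G (pr β) Λ) B := by
    intro b₀ hb₀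
    have hle : ∀ β' : ℝ, 0 < β' → tp G β' {o} = 0 → β' ≤ sInf S := by
      intro β' hβ' h0
      refine le_csInf hne fun b hb => ?_
      by_contra hlt
      push Not at hlt
      have h1 := (hmem b).1 hb
      have h2 := RP.FINM.tp_mono_beta G h1.1.le hlt.le {o}
      linarith [h1.2]
    by_cases hpos : 0 < sInf S
    · have hpc0 : 0 < pr (sInf S) := by
        have h1 := AhM.pr_lt hpos
        have h2 : pr 0 = 0 := by simp [pr]
        linarith
      obtain ⟨B, hB, hOB⟩ := hUNI Γ V G h τ hHT hconn (pr (sInf S)) hpc0 (pr_le_one _)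
        (fun p hp0 hp1 => by
          obtain ⟨b, hb, rfl⟩ := AhM.exists_pr hp0 (hp1.trans_le (pr_le_one _))
          have hb1 : b < sInf S := hprlt hp1
          refine hsub b ((b + sInf S) / 2) hb.le (by linarith) ?_
          by_contra h0
          have h1 : (b + sInf S) / 2 ∈ S := (hmem _).2 ⟨by linarith,
            lt_of_le_of_ne (tp_nonneg G (by linarith) _) (Ne.symm h0)⟩
          have h2 := csInf_le hbdd h1
          linarith)
      refine ⟨B, hB, fun β β' h1 h2 h3 Λ => hOB (pr β) (pr_nonneg (by linarith)) ?_ Λ⟩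
      exact AhM.pr_lt (h2.trans_le (hle β' (by linarith) h3))
    · refine ⟨1, one_pos, fun β β' h1 h2 h3 Λ => ?_⟩
      have := hle β' (by linarith) h3
      linarith
  obtain ⟨βc, b, B, hβc, hb, hlow, hup, hOB⟩ := RP.FINM.core G htr o hfin hOPB
    (RP.specPSS RP.specGSL)
  exact RP.ENDM.concl G htr o βc b B hβc hb hlow hup hOB σ hσ E hE C hC

end NU

end MP8622
end

section
set_option autoImplicit false

open Classical Filter Topology

/-!
# MP_8622f1_pr: the ending (helper66)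

`SpecKEY` (uniform `ℓ²` bound below the critical point, unimodular case) and the nonunimodular case
(`NU.SpecNUN`) give the frozen statement S19447.
-/

namespace MP8622

namespace UN

/-- the final statement in the unimodular case -/
def SpecUNUN : Prop :=
  ∀ (Γ V : Type) [Group Γ] [MulAction Γ V] (G : SimpleGraph V) [G.LocallyFinite], G.Connected →
    (∀ (γ : Γ) (x y : V), G.Adj (γ • x) (γ • y) ↔ G.Adj x y) → (∀ x y : V, ∃ γ : Γ, γ • x = y) →
    MTP Γ V →
    (∃ c : ℝ, 0 < c ∧ ∀ S : Finset V,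
        c * (S.card : ℝ) ≤ ∑ x ∈ S, ((G.neighborFinset x \ S).card : ℝ)) →
    ∀ (o : V) (σ : ℝ → Finset V → Finset V → V → ℝ),
      (∀ (h : ℝ) (Λ S : Finset V) (x : V),
          σ h Λ S x = if x ∈ Λ then (if x ∈ S then (1 : ℝ) else -1) else h) →
    ∀ E : ℝ → Finset V → Finset V → ℝ,
      (∀ (h : ℝ) (Λ S : Finset V),
          E h Λ S = ∑ x ∈ Λ, ∑ y ∈ G.neighborFinset x,
            (if y ∈ Λ then (1 / 2 : ℝ) else 1) * σ h Λ S x * σ h Λ S y) →
    ∀ C : ℝ → ℝ → Finset V → Finset V → ℝ,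
      (∀ (β h : ℝ) (A Λ : Finset V),
          C β h A Λ =
            (∑ S ∈ Λ.powerset, (∏ x ∈ A, σ h Λ S x) * Real.exp (β * E h Λ S)) /
              ∑ S ∈ Λ.powerset, Real.exp (β * E h Λ S)) →
    (∃ β : ℝ, 0 < β ∧ ∃ p : ℝ, 0 < p ∧
      Tendsto (fun Λ : Finset V => C β 1 {o} Λ) atTop (𝓝 p)) ∧
    ∃ ε : ℝ, 0 < ε ∧ ∀ β : ℝ,
      sInf {β : ℝ | 0 < β ∧ ∃ p : ℝ, 0 < p ∧
        Tendsto (fun Λ : Finset V => C β 1 {o} Λ) atTop (𝓝 p)} < β →
      β < sInf {β : ℝ | 0 < β ∧ ∃ p : ℝ, 0 < p ∧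
        Tendsto (fun Λ : Finset V => C β 1 {o} Λ) atTop (𝓝 p)} + ε →
      (∃ τ : V → V → ℝ, (∀ x, τ x x = 1) ∧
        (∀ x y, x ≠ y → Tendsto (fun Λ : Finset V => C β 0 {x, y} Λ) atTop (𝓝 (τ x y))) ∧
        ∃ B : ℝ, ∀ (S R : Finset V) (f : V → ℝ),
          ∑ x ∈ R, (∑ y ∈ S, τ x y * f y) ^ 2 ≤ B * ∑ y ∈ S, f y ^ 2) ∧
      ∃ A : Finset V, ∃ a p m : ℝ,
        Tendsto (fun Λ : Finset V => C β 0 A Λ) atTop (𝓝 a) ∧
        Tendsto (fun Λ : Finset V => C β 1 A Λ) atTop (𝓝 p) ∧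
        Tendsto (fun Λ : Finset V => C β (-1) A Λ) atTop (𝓝 m) ∧
        a ≠ (p + m) / 2

theorem specUNUN (hKEY : SpecKEY) : SpecUNUN := by
  intro Γ V _ _ G _ hconn haut htra hM hexp o σ hσ E hE C hC
  have htr : ∀ x y : V, ∃ g : V ≃ V, IsAut G g ∧ g x = y := by
    intro x y
    obtain ⟨γ, hγ⟩ := htra x y
    exact ⟨MulAction.toPerm γ, fun a b => haut γ a b, hγ⟩
  -- `V` is infinite
  have hinf : Infinite V := by
    by_contra hfin
    rw [not_infinite_iff_finite] at hfin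
    have := Fintype.ofFinite V
    obtain ⟨c, hc, h⟩ := hexp
    have h1 := h Finset.univ
    have h2 : 0 < (Finset.univ : Finset V).card := Finset.card_pos.2 ⟨o, Finset.mem_univ o⟩
    have h3 : (0 : ℝ) < ((Finset.univ : Finset V).card : ℝ) := by exact_mod_cast h2
    have h4 : ∑ x ∈ (Finset.univ : Finset V), ((G.neighborFinset x \ Finset.univ).card : ℝ) = 0 :=
      Finset.sum_eq_zero fun x _ => by
        rw [Finset.sdiff_eq_empty_iff_subset.2 (Finset.subset_univ _)]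
        simp
    rw [h4] at h1
    have := mul_pos hc h3
    linarith
  have hcount := (specOrb Γ V G hconn haut).1
  obtain ⟨c, hc, hiso⟩ := hexp
  obtain ⟨β₁, hβ₁, hm₁⟩ := exists_pos_mag Γ V G haut htra hM c hc hiso o
  have hOPB : ∀ b₀ : ℝ, 0 < b₀ → ∃ B : ℝ, 0 < B ∧ ∀ (β β' : ℝ), b₀ ≤ β → β < β' →
      tp G β' {o} = 0 → ∀ Λ : Finset V, AHP.OB 2 (tau G (pr β) Λ) B := by
    intro b₀ hb₀
    obtain ⟨B, hB, h⟩ := hKEY Γ V G hconn haut htra hM c hc hiso b₀ (max b₀ β₁) hb₀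
      (le_max_left _ _)
    refine ⟨B, hB, fun β β' h1 h2 h3 Λ => h β h1 ?_ ?_ Λ⟩
    · by_contra hlt
      push Not at hlt
      have h4 : β₁ ≤ β' := (le_max_right _ _).trans (hlt.le.trans h2.le)
      have h5 := RP.FINM.tp_mono_beta G hβ₁.le h4 {o}
      linarith
    · exact RP.specSHA V G htr o β β' (hb₀.le.trans h1) h2 h3
  obtain ⟨βc, b, B, hβc, hb, hlow, hup, hOB⟩ := RP.FINM.core G htr o ⟨β₁, hβ₁, hm₁⟩ hOPB
    (RP.specPSS RP.specGSL)
  exact RP.ENDM.concl G htr o βc b B hβc hb hlow hup hOB σ hσ E hE C hC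

/-- the frozen statement S19447 -/
theorem final (hKEY : SpecKEY) (hNUN : NU.SpecNUN) :
    ∀ (V : Type) (G : SimpleGraph V) [G.LocallyFinite],
    G.Connected →
    (∀ x y : V, ∃ φ : G ≃g G, φ x = y) →
    (∃ c : ℝ, 0 < c ∧ ∀ S : Finset V,
        c * (S.card : ℝ) ≤ ∑ x ∈ S, ((G.neighborFinset x \ S).card : ℝ)) →
    ∀ σ : ℝ → Finset V → Finset V → V → ℝ,
      (∀ (h : ℝ) (Λ S : Finset V) (x : V),
          σ h Λ S x = if x ∈ Λ then (if x ∈ S then (1 : ℝ) else -1) else h) →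
    ∀ E : ℝ → Finset V → Finset V → ℝ,
      (∀ (h : ℝ) (Λ S : Finset V),
          E h Λ S = ∑ x ∈ Λ, ∑ y ∈ G.neighborFinset x,
            (if y ∈ Λ then (1 / 2 : ℝ) else 1) * σ h Λ S x * σ h Λ S y) →
    ∀ C : ℝ → ℝ → Finset V → Finset V → ℝ,
      (∀ (β h : ℝ) (A Λ : Finset V),
          C β h A Λ =
            (∑ S ∈ Λ.powerset, (∏ x ∈ A, σ h Λ S x) * Real.exp (β * E h Λ S)) /
              ∑ S ∈ Λ.powerset, Real.exp (β * E h Λ S)) →
    ∃ β : ℝ, 0 < β ∧ ∃ A : Finset V, ∃ a p m : ℝ,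
      Tendsto (fun Λ : Finset V => C β 0 A Λ) atTop (𝓝 a) ∧
      Tendsto (fun Λ : Finset V => C β 1 A Λ) atTop (𝓝 p) ∧
      Tendsto (fun Λ : Finset V => C β (-1) A Λ) atTop (𝓝 m) ∧
      a ≠ (p + m) / 2 := by
  intro V G _ hconn htr hexp σ hσ E hE C hC
  obtain ⟨o⟩ := hconn.nonempty
  have haut : ∀ (γ : G ≃g G) (x y : V), G.Adj (γ • x) (γ • y) ↔ G.Adj x y := by
    intro γ x y
    exact γ.map_adj_iff
  have htr' : ∀ x y : V, ∃ γ : G ≃g G, γ • x = y := htr
  have hpos : ∀ S : Set ℝ, S ⊆ Set.Ioi 0 → 0 ≤ sInf S := fun S hS =>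
    Real.sInf_nonneg fun x hx => (hS hx).le
  have key : ∀ (Q : ℝ → Prop), (∃ β : ℝ, 0 < β ∧ ∃ p : ℝ, 0 < p ∧
      Tendsto (fun Λ : Finset V => C β 1 {o} Λ) atTop (𝓝 p)) ∧
      (∃ ε : ℝ, 0 < ε ∧ ∀ β : ℝ,
      sInf {β : ℝ | 0 < β ∧ ∃ p : ℝ, 0 < p ∧
        Tendsto (fun Λ : Finset V => C β 1 {o} Λ) atTop (𝓝 p)} < β →
      β < sInf {β : ℝ | 0 < β ∧ ∃ p : ℝ, 0 < p ∧
        Tendsto (fun Λ : Finset V => C β 1 {o} Λ) atTop (𝓝 p)} + ε → Q β) →
      ∃ β : ℝ, 0 < β ∧ Q β := by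
    rintro Q ⟨-, ε, hε, h⟩
    set s : ℝ := sInf {β : ℝ | 0 < β ∧ ∃ p : ℝ, 0 < p ∧
        Tendsto (fun Λ : Finset V => C β 1 {o} Λ) atTop (𝓝 p)} with hs
    have hs0 : 0 ≤ s := hpos _ fun x hx => hx.1
    exact ⟨s + ε / 2, by linarith, h _ (by linarith) (by linarith)⟩
  by_cases huni : ∀ x y : V, (MulAction.orbit (MulAction.stabilizer (G ≃g G) x) y).ncard =
      (MulAction.orbit (MulAction.stabilizer (G ≃g G) y) x).ncard
  · have hM : MTP (G ≃g G) V := specUni (G ≃g G) V htr'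
      (specOrb (G ≃g G) V G hconn haut).2 huni
    obtain ⟨h1, ε, hε, h2⟩ := specUNUN hKEY (G ≃g G) V G hconn haut htr' hM hexp o σ hσ E hE C hC
    obtain ⟨β, hβ, -, h3⟩ := key _ ⟨h1, ε, hε, h2⟩
    exact ⟨β, hβ, h3⟩
  · push Not at huni
    obtain ⟨h1, ε, hε, h2⟩ := hNUN (G ≃g G) V G hconn haut htr' huni o σ hσ E hE C hC
    obtain ⟨β, hβ, -, h3⟩ := key _ ⟨h1, ε, hε, h2⟩
    exact ⟨β, hβ, h3⟩

end UN

end MP8622
end
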