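import Pool.Agent.Lib.MP_8622f1_pr.NU.SpecF
import Pool.Agent.Lib.MP_8622f1_pr.NU.QBD
import Pool.Agent.Lib.MP_8622f1_pr.NU.FLD
import Pool.Agent.Lib.MP_8622f1_pr.NU.QUA
import Pool.Agent.Lib.MP_8622f1_pr.NU.VRM
import Pool.Agent.Lib.MP_8622f1_pr.NU.VRC
import Pool.Agent.Lib.MP_8622f1_pr.NU.PSI
import Pool.Agent.Lib.MP_8622f1_pr.NU.UNI
import Pool.Agent.Lib.MP_8622f1_pr.NU.RAT
import Pool.Agent.Lib.MP_8622f1_pr.NU.UBD
import Pool.Agent.Lib.MP_8622f1_pr.UN.FIN

section
set_option autoImplicit false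

open Classical Filter Topology

/-!
ZON: correlations of a system with opening probabilities `0` and `1` are `0` or `1`.
-/

namespace MP8622

namespace NU

namespace ZONM

variable {V : Type}

/-- only the set of edges with `P e = 1` has a nonzero Bernoulli weight -/
theorem bw_zero {P : Sym2 V → ℝ} {E : Finset (Sym2 V)} (h : ∀ e ∈ E, P e = 0 ∨ P e = 1)
    {ω : Finset (Sym2 V)} (hω : ω ∈ E.powerset) (hne : ω ≠ E.filter (fun e => P e = 1)) :
    bw P E ω = 0 := by
  rw [Finset.mem_powerset] at hω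
  unfold bw
  by_cases h1 : ∃ e ∈ ω, P e = 0
  · obtain ⟨e, he, h0⟩ := h1
    rw [Finset.prod_eq_zero he h0, zero_mul]
  · by_cases h2 : ∃ e ∈ E \ ω, P e = 1
    · obtain ⟨e, he, h3⟩ := h2
      rw [Finset.prod_eq_zero (f := fun e => 1 - P e) he (by rw [h3, sub_self]), mul_zero]
    · exfalso
      apply hne
      ext e
      rw [Finset.mem_filter]
      constructor
      · intro he
        refine ⟨hω he, ?_⟩
        rcases h e (hω he) with h3 | h3
        · exact absurd ⟨e, he, h3⟩ h1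
        · exact h3
      · rintro ⟨heE, hP⟩
        by_contra hn
        exact h2 ⟨e, Finset.mem_sdiff.2 ⟨heE, hn⟩, hP⟩

end ZONM

theorem specZON : SpecZON := by
  intro V P E Λ A h
  have hmem : E.filter (fun e => P e = 1) ∈ E.powerset :=
    Finset.mem_powerset.2 (Finset.filter_subset _ _)
  have key : ∀ g : Finset (Sym2 V) → ℝ, ∑ ω ∈ E.powerset, g ω * fw P E Λ ω =
      g (E.filter (fun e => P e = 1)) * fw P E Λ (E.filter (fun e => P e = 1)) := by
    intro g
    refine Finset.sum_eq_single_of_mem _ hmem fun ω hω hne => ?_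
    rw [fw_eq, ZONM.bw_zero h hω hne, zero_mul, mul_zero]
  have key1 := key (fun _ => 1)
  simp only [one_mul] at key1
  rw [corr_eq, key, key1]
  by_cases h0 : fw P E Λ (E.filter (fun e => P e = 1)) = 0
  · left
    rw [h0, div_zero]
  · rw [mul_div_assoc, div_self h0, mul_one]
    unfold ind
    split_ifs
    · exact Or.inr rfl
    · exact Or.inl rfl

end NU

end MP8622
end

section
set_option autoImplicit false

/-!
# MP_8622f1_pr: the nonunimodular case without hypotheses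
(the same chain as in `Results/MP_8622f1_pr/Nonunimodular.lean`; used by the frozen statement)
-/

namespace MP8622

namespace UN

theorem nun : NU.SpecNUN := by
  have hMOD : NU.SpecMOD := NU.specMOD
  have hMTT : NU.SpecMTT := NU.specMTT
  have hHGT : NU.SpecHGT := NU.specHGT hMOD hMTT
  have hITA : NU.SpecITA := NU.specITA
  have hMTI : NU.SpecMTI := NU.specMTI hITA
  have hFCH : NU.SpecFCH := NU.specFCH hMTI hITA
  have hEMP : NU.SpecEMP := NU.specEMP
  have hGHS : NU.SpecGHS := NU.specGHS hEMP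
  have hFLD : NU.SpecFLD := NU.specFLD
  have hCTP : NU.SpecCTP := NU.specCTP
  have hSBM : NU.SpecSBM := NU.specSBM hGHS hFLD hCTP
  have hMIX : NU.SpecMIX := NU.specMIX
  have hZON : NU.SpecZON := NU.specZON
  have hONE : NU.SpecONE := NU.specONE
  have hSMU : NU.SpecSMU := NU.specSMU hSBM hMIX hZON hONE
  have hISM : NU.SpecISM := NU.specISM hSMU
  have hIMA : NU.SpecIMA := NU.specIMA
  have hIMU : NU.SpecIMU := NU.specIMU
  have hALP : NU.SpecALP := NU.specALP hISM hIMA hIMU hFCH hITA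
  have hFLP : NU.SpecFLP := NU.specFLP
  have hVRM : NU.SpecVRM := NU.specVRM hGHS hFLD hFLP hCTP
  have hMRC : NU.SpecMRC := NU.specMRC hVRM
  have hIMR : NU.SpecIMR := NU.specIMR hMRC
  have hLPD : NU.SpecLPD := NU.specLPD hIMR hIMA
  have hTHB : NU.SpecTHB := NU.specTHB hLPD hMTI hIMA hITA
  have hVRC : NU.SpecVRC := NU.specVRC hMRC hFLP
  have hITR : NU.SpecITR := NU.specITR hVRC
  have hHPD : NU.SpecHPD := NU.specHPD hITR hITA
  have hPSH : NU.SpecPSH := NU.specPSH hITA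
  have hDWN : NU.SpecDWN := NU.specDWN hMTI hPSH
  have hFSU : NU.SpecFSU := NU.specFSU hITA hHPD hDWN hMTI
  have hQBD : NU.SpecQBD := NU.specQBD hITA hFSU
  have hIFA : NU.SpecIFA := NU.specIFA
  have hWIR : NU.SpecWIR := NU.specWIR
  have hFKM : NU.SpecFKM := NU.specFKM
  have hEXP : NU.SpecEXP := NU.specEXP hMIX hWIR hFKM
  have hMUB : NU.SpecMUB := NU.specMUB
  have hQUA : NU.SpecQUA := NU.specQUA hEXP hVRC hMUB
  have hIFQ : NU.SpecIFQ := NU.specIFQ hQUA
  have hRAT : NU.SpecRAT := NU.specRAT hFCH hTHB hQBD hIFA hIFQ hITA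
  have hCMB : NU.SpecCMB := NU.specCMB hFLP
  have hCMP : NU.SpecCMP := NU.specCMP hCMB hMIX
  have hPSI : NU.SpecPSI := NU.specPSI hEXP hVRC hQUA hFLP
  have hCHG : NU.SpecCHG := NU.specCHG
  have hIDC : NU.SpecIDC := NU.specIDC hCMP hPSI hCHG
  have hDCL : NU.SpecDCL := NU.specDCL hIDC hIMU hFSU hITA hIFA
  have hETA : NU.SpecETA := NU.specETA hITA hIFQ hQBD
  have hETB : NU.SpecETB := NU.specETB hIFQ hQBD hITA
  have hUBD : NU.SpecUBD := NU.specUBD hITA hHPD hDWN
  have hBOO : NU.SpecBOO := NU.specBOO hFCH hALP hRAT hDCL hETA hETB hUBD hTHB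
  have hSCT : NU.SpecSCT := NU.specSCT hFSU hITA
  have hUNI : NU.SpecUNI := NU.specUNI hBOO hSCT
  exact NU.specNUN hHGT hUNI

end UN

end MP8622
end

section
set_option autoImplicit false

/-!
# MP_8622f1_pr: the uniform bound in the nonunimodular case without hypotheses
(the same chain as in `UN/NUA.lean`)
-/

namespace MP8622

namespace UN

theorem uni : NU.SpecHGT ∧ NU.SpecUNI := by
  have hMOD : NU.SpecMOD := NU.specMOD
  have hMTT : NU.SpecMTT := NU.specMTT
  have hHGT : NU.SpecHGT := NU.specHGT hMOD hMTT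
  have hITA : NU.SpecITA := NU.specITA
  have hMTI : NU.SpecMTI := NU.specMTI hITA
  have hFCH : NU.SpecFCH := NU.specFCH hMTI hITA
  have hEMP : NU.SpecEMP := NU.specEMP
  have hGHS : NU.SpecGHS := NU.specGHS hEMP
  have hFLD : NU.SpecFLD := NU.specFLD
  have hCTP : NU.SpecCTP := NU.specCTP
  have hSBM : NU.SpecSBM := NU.specSBM hGHS hFLD hCTP
  have hMIX : NU.SpecMIX := NU.specMIX
  have hZON : NU.SpecZON := NU.specZON
  have hONE : NU.SpecONE := NU.specONE
  have hSMU : NU.SpecSMU := NU.specSMU hSBM hMIX hZON hONE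
  have hISM : NU.SpecISM := NU.specISM hSMU
  have hIMA : NU.SpecIMA := NU.specIMA
  have hIMU : NU.SpecIMU := NU.specIMU
  have hALP : NU.SpecALP := NU.specALP hISM hIMA hIMU hFCH hITA
  have hFLP : NU.SpecFLP := NU.specFLP
  have hVRM : NU.SpecVRM := NU.specVRM hGHS hFLD hFLP hCTP
  have hMRC : NU.SpecMRC := NU.specMRC hVRM
  have hIMR : NU.SpecIMR := NU.specIMR hMRC
  have hLPD : NU.SpecLPD := NU.specLPD hIMR hIMA
  have hTHB : NU.SpecTHB := NU.specTHB hLPD hMTI hIMA hITA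
  have hVRC : NU.SpecVRC := NU.specVRC hMRC hFLP
  have hITR : NU.SpecITR := NU.specITR hVRC
  have hHPD : NU.SpecHPD := NU.specHPD hITR hITA
  have hPSH : NU.SpecPSH := NU.specPSH hITA
  have hDWN : NU.SpecDWN := NU.specDWN hMTI hPSH
  have hFSU : NU.SpecFSU := NU.specFSU hITA hHPD hDWN hMTI
  have hQBD : NU.SpecQBD := NU.specQBD hITA hFSU
  have hIFA : NU.SpecIFA := NU.specIFA
  have hWIR : NU.SpecWIR := NU.specWIR
  have hFKM : NU.SpecFKM := NU.specFKM
  have hEXP : NU.SpecEXP := NU.specEXP hMIX hWIR hFKM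
  have hMUB : NU.SpecMUB := NU.specMUB
  have hQUA : NU.SpecQUA := NU.specQUA hEXP hVRC hMUB
  have hIFQ : NU.SpecIFQ := NU.specIFQ hQUA
  have hRAT : NU.SpecRAT := NU.specRAT hFCH hTHB hQBD hIFA hIFQ hITA
  have hCMB : NU.SpecCMB := NU.specCMB hFLP
  have hCMP : NU.SpecCMP := NU.specCMP hCMB hMIX
  have hPSI : NU.SpecPSI := NU.specPSI hEXP hVRC hQUA hFLP
  have hCHG : NU.SpecCHG := NU.specCHG
  have hIDC : NU.SpecIDC := NU.specIDC hCMP hPSI hCHG
  have hDCL : NU.SpecDCL := NU.specDCL hIDC hIMU hFSU hITA hIFA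
  have hETA : NU.SpecETA := NU.specETA hITA hIFQ hQBD
  have hETB : NU.SpecETB := NU.specETB hIFQ hQBD hITA
  have hUBD : NU.SpecUBD := NU.specUBD hITA hHPD hDWN
  have hBOO : NU.SpecBOO := NU.specBOO hFCH hALP hRAT hDCL hETA hETB hUBD hTHB
  have hSCT : NU.SpecSCT := NU.specSCT hFSU hITA
  have hUNI : NU.SpecUNI := NU.specUNI hBOO hSCT
  exact ⟨hHGT, hUNI⟩

end UN

end MP8622
end
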