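import Pool.Agent.Lib.MP_8622f1_pr.UN.SpecP

section
set_option autoImplicit false

open Classical Filter Topology

/-!
MP_8622f1_pr, block P, module PBX: the box instance (helper46).
-/

namespace MP8622

namespace UN

namespace PBXM

variable {V : Type}

/-- the edges of `ed0 G L` at `x` -/
theorem deg_le (G : SimpleGraph V) [G.LocallyFinite] {d : ℕ}
    (hd : ∀ x, (G.neighborFinset x).card ≤ d) (L : Finset V) (x : V) :
    ((ed0 G L).filter (fun e => x ∈ e)).card ≤ d := by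
  refine le_trans ?_ (hd x)
  refine le_trans (Finset.card_le_card ?_)
    (Finset.card_image_le (s := G.neighborFinset x) (f := fun y => s(x, y)))
  intro e he
  rw [Finset.mem_filter] at he
  obtain ⟨he, hx⟩ := he
  obtain ⟨y, rfl⟩ := Sym2.mem_iff_exists.1 hx
  rw [mem_ed0_mk] at he
  rw [Finset.mem_image]
  exact ⟨y, by rw [SimpleGraph.mem_neighborFinset]; exact he.1, rfl⟩

/-- walks inside `L` -/
theorem pth_of_walk (G : SimpleGraph V) [G.LocallyFinite] (L : Finset V) :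
    ∀ {u v : V} (w : G.Walk u v), (∀ z ∈ w.support, z ∈ L) → Pth (ed0 G L) w.length u v := by
  intro u v w
  induction w with
  | nil => intro _; exact rfl
  | @cons u v' v h p ih =>
    intro hs
    rw [SimpleGraph.Walk.length_cons]
    refine ⟨v', ?_, ih fun z hz => hs z ?_⟩
    · rw [mem_ed0_mk]
      refine ⟨h, hs u (by simp), hs v' ?_⟩
      rw [SimpleGraph.Walk.support_cons]
      exact List.mem_cons_of_mem _ p.start_mem_support
    · rw [SimpleGraph.Walk.support_cons]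
      exact List.mem_cons_of_mem _ hz

/-- two vertices of the same block are joined inside the block -/
theorem blk {G : SimpleGraph V} [G.LocallyFinite] {N : V → V → ℝ} {B : V → Finset V} {m : ℕ}
    {n ν : ℝ} (hK : Ker G N B m n ν) {L : Finset V} {a u v : V} (ha : B a ⊆ L)
    (hu : N a u ≠ 0) (hv : N a v ≠ 0) : ∃ j ≤ 2 * m, Pth (ed0 G L) j u v := by
  have hu' : u ∈ B a := by by_contra h; exact hu (hK.supp a u h)
  have hv' : v ∈ B a := by by_contra h; exact hv (hK.supp a v h)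
  obtain ⟨p, hp⟩ := (hK.mem a u).1 hu'
  obtain ⟨q, hq⟩ := (hK.mem a v).1 hv'
  have hsup : ∀ {x : V} (r : G.Walk a x), r.length ≤ m → ∀ z ∈ r.support, z ∈ L := by
    intro x r hr z hz
    refine ha ((hK.mem a z).2 ⟨r.takeUntil z hz, ?_⟩)
    exact (r.length_takeUntil_le_length hz).trans hr
  refine ⟨(p.reverse.append q).length, ?_, pth_of_walk G L (p.reverse.append q) ?_⟩
  · rw [SimpleGraph.Walk.length_append, SimpleGraph.Walk.length_reverse]
    omega
  · intro z hz
    rw [SimpleGraph.Walk.mem_support_append_iff] at hz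
    rcases hz with hz | hz
    · rw [SimpleGraph.Walk.support_reverse, List.mem_reverse] at hz
      exact hsup p hp z hz
    · exact hsup q hq z hz

theorem N_le {G : SimpleGraph V} {N : V → V → ℝ} {B : V → Finset V} {m : ℕ}
    {n ν : ℝ} (hK : Ker G N B m n ν) (a x : V) : N a x ≤ n := by
  by_cases h : x ∈ B a
  · rw [← hK.row a]
    exact Finset.single_le_sum (f := fun y => N a y) (fun y _ => hK.nonneg a y) h
  · rw [hK.supp a x h]; exact hK.npos.le

theorem col_le {G : SimpleGraph V} {N : V → V → ℝ} {B : V → Finset V} {m : ℕ}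
    {n ν : ℝ} (hK : Ker G N B m n ν) (A : Finset V) (x : V) : ∑ a ∈ A, N a x ≤ n := by
  have h1 : ∑ a ∈ A, N a x = ∑ a ∈ A.filter (fun a => a ∈ B x), N x a := by
    rw [Finset.sum_filter]
    refine Finset.sum_congr rfl fun a _ => ?_
    split_ifs with h
    · exact hK.symm a x
    · rw [hK.symm a x, hK.supp x a h]
  rw [h1, ← hK.row x]
  refine Finset.sum_le_sum_of_subset_of_nonneg ?_ fun y _ _ => hK.nonneg x y
  intro a ha
  exact (Finset.mem_filter.1 ha).2

end PBXM

open PBXM in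
theorem specPBX (hPOA : SpecPOA) : SpecPBX := by
  intro d m n p₀ p₁ hp₀ hp₀₁ hp₁ hn
  have hcc : 0 < cc d p₀ p₁ := by
    unfold cc
    have : 0 < 1 - p₁ := by linarith
    positivity
  refine ⟨cc d p₀ p₁ ^ (2 * m) / (4 * n ^ 2), by positivity, ?_⟩
  intro V G _ N B ν φ δ κ p L A Z hd hK hC hκ0 hκ hp0 hp1 hA
  have hκ4 : 4 * (κ * n ^ 2) ≤ cc d p₀ p₁ ^ (2 * m) := by
    rw [le_div_iff₀ (by positivity)] at hκ
    linarith
  exact hPOA V (fun _ => p) (ed0 G L) L N B φ δ κ n A Z d (2 * m) p₀ p₁ hp₀ hp₀₁ hp₁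
    (fun _ => hp0) (fun _ => hp1) (deg_le G hd L)
    (fun e he => by
      induction e using Sym2.ind with
      | _ x y =>
        rw [mem_ed0_mk] at he
        rw [Sym2.mk_isDiag_iff]
        exact he.1.ne)
    (fun e he => ((mem_ed0 G).1 he).2) hC hK.nonneg (N_le hK) (col_le hK A)
    (fun a ha u v hu hv => blk hK (hA a ha) hu hv) hn hκ0 hκ4

end UN

end MP8622
end

section
set_option autoImplicit false

/-!
# S19447, block P, module PCH (helper88): lower bound for covariances along paths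
-/

open Classical

namespace MP8622

namespace UN

namespace PCHM

theorem cc_pos {d : ℕ} {p₀ p₁ : ℝ} (h0 : 0 < p₀) (h1 : p₁ < 1) : 0 < cc d p₀ p₁ := by
  unfold cc
  have : 0 < 1 - p₁ := by linarith
  positivity

theorem cc_le_one {d : ℕ} {p₀ p₁ : ℝ} (h0 : 0 < p₀) (h01 : p₀ ≤ p₁) (h1 : p₁ < 1) :
    cc d p₀ p₁ ≤ 1 := by
  unfold cc
  have a1 : 0 ≤ (1 - p₁) ^ d := pow_nonneg (by linarith) d
  have a2 : (1 - p₁) ^ d ≤ 1 := pow_le_one₀ (by linarith) (by linarith)
  have a3 : ((1 - p₁) ^ d / 3) ^ 4 ≤ 1 := pow_le_one₀ (by positivity) (by linarith)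
  have a4 : 0 ≤ ((1 - p₁) ^ d / 3) ^ 4 := by positivity
  have a5 : p₀ * ((1 - p₁) ^ d / 3) ^ 4 ≤ 1 * 1 :=
    mul_le_mul (by linarith) a3 a4 (by norm_num)
  linarith

end PCHM

open PCHM in
theorem specPCH (hPON : SpecPON) (hPNB : SpecPNB) : SpecPCH := by
  intro V P E L t d k p₀ p₁ h0 h01 h1 hP0 hP1 ht hdeg hdiag hin u hu v hv huv hpath
  have hc0 : 0 < cc d p₀ p₁ := cc_pos h0 h1
  have hc1 : cc d p₀ p₁ ≤ 1 := cc_le_one h0 h01 h1
  refine ⟨hc0, hc1, ?_⟩
  have hPnn : ∀ e, 0 ≤ P e := fun e => h0.le.trans (hP0 e)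
  have hPlt : ∀ e, P e < 1 := fun e => (hP1 e).trans_lt h1
  have ht1 : ∀ x, |t x| ≤ 1 := fun x => (ht x).trans (by norm_num)
  have key : ∀ j : ℕ, ∀ u ∈ L, u ≠ v → Pth E j u v → cc d p₀ p₁ ^ j ≤ ct P E L t u v := by
    intro j
    induction j with
    | zero =>
      intro u _ huv h
      exact absurd h huv
    | succ j ih =>
      intro u hu huv h
      obtain ⟨w, hw, hwv⟩ := h
      have hwL : w ∈ L := hin _ hw w (Sym2.mem_mk_right u w)
      have huw : u ≠ w := by
        intro e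
        have := hdiag _ hw
        rw [e] at this
        exact this (Sym2.mk_isDiag_iff.2 rfl)
      have hn := hPNB V P E L t d p₀ p₁ h0 h01 h1 hP0 hP1 ht hdeg u hu w hwL huw hw
      by_cases hwe : w = v
      · rw [hwe] at hn
        refine le_trans ?_ hn
        rw [pow_succ]
        calc cc d p₀ p₁ ^ j * cc d p₀ p₁ ≤ 1 * cc d p₀ p₁ :=
              mul_le_mul_of_nonneg_right (pow_le_one₀ hc0.le hc1) hc0.le
          _ = cc d p₀ p₁ := one_mul _
      · have h2 := ih w hwL hwe hwv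
        have h3 := hPON V P E L t hPnn hPlt ht1 u hu v hv w hwL
        refine le_trans ?_ h3
        rw [pow_succ, mul_comm]
        exact mul_le_mul hn h2 (pow_nonneg hc0.le j) (hc0.le.trans hn)
  obtain ⟨j, hj, hjp⟩ := hpath
  exact (pow_le_pow_of_le_one hc0.le hc1 hj).trans (key j u hu huv hjp)

end UN

end MP8622
end

section
set_option autoImplicit false

open Classical

/-!
# Block P, module PFK: FKG and positivity for the weights with bounded fields (helper50)
-/

namespace MP8622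

namespace UN

namespace PFKM

variable {V : Type}

theorem chi_s (x : V) (S : Finset V) : chi {x} S = if x ∈ S then (-1 : ℝ) else 1 := by
  rw [chi_eq_prod, Finset.prod_singleton]

theorem fac_nonneg {t : V → ℝ} (ht : ∀ x, |t x| ≤ 1) (x : V) (S : Finset V) :
    0 ≤ 1 + t x * chi {x} S := by
  rw [chi_s]
  have := abs_le.1 (ht x)
  split_ifs <;> linarith [this.1, this.2]

theorem wt_nonneg {P : Sym2 V → ℝ} (h1 : ∀ e, P e ≤ 1) {t : V → ℝ} (ht : ∀ x, |t x| ≤ 1)
    (E : Finset (Sym2 V)) (L S : Finset V) : 0 ≤ wt P E L t S :=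
  mul_nonneg (sw_nonneg h1 E S) (Finset.prod_nonneg fun x _ => fac_nonneg ht x S)

theorem fac_mul (a : ℝ) (x : V) (S T : Finset V) :
    (1 + a * chi {x} S) * (1 + a * chi {x} T) =
      (1 + a * chi {x} (S ∩ T)) * (1 + a * chi {x} (S ∪ T)) := by
  simp only [chi_s, Finset.mem_inter, Finset.mem_union]
  by_cases h1 : x ∈ S <;> by_cases h2 : x ∈ T <;>
    simp only [h1, h2, and_self, or_self, and_true, or_true, and_false, or_false, if_true,
      if_false] <;> ring

theorem wt_mul_le {P : Sym2 V → ℝ} (h0 : ∀ e, 0 ≤ P e) (h1 : ∀ e, P e ≤ 1) {t : V → ℝ}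
    (ht : ∀ x, |t x| ≤ 1) (E : Finset (Sym2 V)) (L S T : Finset V) :
    wt P E L t S * wt P E L t T ≤ wt P E L t (S ∩ T) * wt P E L t (S ∪ T) := by
  unfold wt
  have e : (∏ x ∈ L, (1 + t x * chi {x} S)) * (∏ x ∈ L, (1 + t x * chi {x} T)) =
      (∏ x ∈ L, (1 + t x * chi {x} (S ∩ T))) * ∏ x ∈ L, (1 + t x * chi {x} (S ∪ T)) := by
    rw [← Finset.prod_mul_distrib, ← Finset.prod_mul_distrib]
    exact Finset.prod_congr rfl fun x _ => fac_mul (t x) x S T
  have h := sw_mul_le h0 h1 E S T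
  calc sw P E S * (∏ x ∈ L, (1 + t x * chi {x} S)) * (sw P E T * ∏ x ∈ L, (1 + t x * chi {x} T))
      = (sw P E S * sw P E T) *
        ((∏ x ∈ L, (1 + t x * chi {x} S)) * (∏ x ∈ L, (1 + t x * chi {x} T))) := by ring
    _ ≤ (sw P E (S ∩ T) * sw P E (S ∪ T)) *
        ((∏ x ∈ L, (1 + t x * chi {x} S)) * (∏ x ∈ L, (1 + t x * chi {x} T))) :=
        mul_le_mul_of_nonneg_right h (mul_nonneg
          (Finset.prod_nonneg fun x _ => fac_nonneg ht x S)
          (Finset.prod_nonneg fun x _ => fac_nonneg ht x T))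
    _ = _ := by rw [e]; ring

theorem sw_pos {P : Sym2 V → ℝ} (h1 : ∀ e, P e < 1) (E : Finset (Sym2 V)) (S : Finset V) :
    0 < sw P E S := by
  unfold sw
  refine Finset.prod_pos fun e _ => ?_
  have := h1 e
  split_ifs <;> linarith

theorem zt_pos {P : Sym2 V → ℝ} (h1 : ∀ e, P e < 1) {t : V → ℝ} (ht : ∀ x, |t x| ≤ 1)
    (E : Finset (Sym2 V)) (L : Finset V) : 0 < zt P E L t (fun _ => 1) := by
  unfold zt
  have h1' : ∀ e, P e ≤ 1 := fun e => (h1 e).le
  refine Finset.sum_pos' (fun S _ => by rw [one_mul]; exact wt_nonneg h1' ht E L S)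
    ⟨L.filter (fun x => t x < 0), Finset.mem_powerset.2 (Finset.filter_subset _ _), ?_⟩
  rw [one_mul]
  refine mul_pos (sw_pos h1 E _) (Finset.prod_pos fun x hx => ?_)
  rw [chi_s]
  by_cases hc : t x < 0
  · rw [if_pos (Finset.mem_filter.2 ⟨hx, hc⟩)]; linarith
  · have hn : x ∉ L.filter (fun x => t x < 0) := fun h => hc (Finset.mem_filter.1 h).2
    rw [if_neg hn]; push Not at hc; linarith

theorem fkg {P : Sym2 V → ℝ} (h0 : ∀ e, 0 ≤ P e) (h1 : ∀ e, P e ≤ 1) {t : V → ℝ}
    (ht : ∀ x, |t x| ≤ 1) (E : Finset (Sym2 V)) (L : Finset V) (g h : Finset V → ℝ)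
    (hg : ∀ S, 0 ≤ g S) (hh : ∀ S, 0 ≤ h S) (hga : ∀ S T, S ⊆ T → T ⊆ L → g T ≤ g S)
    (hha : ∀ S T, S ⊆ T → T ⊆ L → h T ≤ h S) :
    zt P E L t g * zt P E L t h ≤ zt P E L t (fun S => g S * h S) * zt P E L t (fun _ => 1) := by
  unfold zt
  have w0 : ∀ S, 0 ≤ wt P E L t S := fun S => wt_nonneg h1 ht E L S
  have := Finset.four_functions_theorem (f₁ := fun S => g S * wt P E L t S)
    (f₂ := fun S => h S * wt P E L t S) (f₃ := fun S => g S * h S * wt P E L t S)
    (f₄ := fun S => 1 * wt P E L t S) L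
    (fun S => mul_nonneg (hg S) (w0 S))
    (fun S => mul_nonneg (hh S) (w0 S))
    (fun S => mul_nonneg (mul_nonneg (hg S) (hh S)) (w0 S))
    (fun S => mul_nonneg zero_le_one (w0 S)) ?_
    (Finset.Subset.refl L.powerset) (Finset.Subset.refl L.powerset)
  · rwa [Finset.powerset_infs_powerset_self, Finset.powerset_sups_powerset_self] at this
  · intro S hS T hT
    show g S * wt P E L t S * (h T * wt P E L t T) ≤
      g (S ∩ T) * h (S ∩ T) * wt P E L t (S ∩ T) * (1 * wt P E L t (S ∪ T))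
    have e1 : g S ≤ g (S ∩ T) := hga _ _ Finset.inter_subset_left hS
    have e2 : h T ≤ h (S ∩ T) := hha _ _ Finset.inter_subset_right hT
    have e3 := wt_mul_le h0 h1 ht E L S T
    calc g S * wt P E L t S * (h T * wt P E L t T) =
        (g S * h T) * (wt P E L t S * wt P E L t T) := by ring
      _ ≤ (g (S ∩ T) * h (S ∩ T)) * (wt P E L t (S ∩ T) * wt P E L t (S ∪ T)) :=
          mul_le_mul (mul_le_mul e1 e2 (hh T) (hg _)) e3
            (mul_nonneg (w0 S) (w0 T)) (mul_nonneg (hg _) (hh _))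
      _ = _ := by ring

theorem zt_add (P : Sym2 V → ℝ) (E : Finset (Sym2 V)) (L : Finset V) (t : V → ℝ)
    (f g : Finset V → ℝ) : zt P E L t (fun S => f S + g S) = zt P E L t f + zt P E L t g := by
  unfold zt
  rw [← Finset.sum_add_distrib]
  exact Finset.sum_congr rfl fun S _ => by ring

theorem zt_sub (P : Sym2 V → ℝ) (E : Finset (Sym2 V)) (L : Finset V) (t : V → ℝ)
    (f g : Finset V → ℝ) : zt P E L t (fun S => f S - g S) = zt P E L t f - zt P E L t g := by
  unfold zt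
  rw [← Finset.sum_sub_distrib]
  exact Finset.sum_congr rfl fun S _ => by ring

theorem zt_mono {P : Sym2 V → ℝ} (h1 : ∀ e, P e ≤ 1) {t : V → ℝ} (ht : ∀ x, |t x| ≤ 1)
    (E : Finset (Sym2 V)) (L : Finset V) {f g : Finset V → ℝ} (hfg : ∀ S, f S ≤ g S) :
    zt P E L t f ≤ zt P E L t g :=
  Finset.sum_le_sum fun S _ => mul_le_mul_of_nonneg_right (hfg S) (wt_nonneg h1 ht E L S)

theorem chi_anti (x : V) {S T : Finset V} (h : S ⊆ T) : chi {x} T ≤ chi {x} S := by
  rw [chi_s, chi_s]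
  by_cases h1 : x ∈ S
  · rw [if_pos (h h1), if_pos h1]
  · rw [if_neg h1]
    split_ifs <;> norm_num

theorem chi_cases (x : V) (S : Finset V) : chi {x} S = -1 ∨ chi {x} S = 1 := by
  rw [chi_s]
  split_ifs
  · exact Or.inl rfl
  · exact Or.inr rfl

theorem ct_nonneg {P : Sym2 V → ℝ} (h0 : ∀ e, 0 ≤ P e) (h1 : ∀ e, P e < 1) {t : V → ℝ}
    (ht : ∀ x, |t x| ≤ 1) (E : Finset (Sym2 V)) (L : Finset V) (x y : V) :
    0 ≤ ct P E L t x y := by
  have h1' : ∀ e, P e ≤ 1 := fun e => (h1 e).le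
  have hZ := zt_pos h1 ht E L
  have key := fkg h0 h1' ht E L (fun S => 1 + chi {x} S) (fun S => 1 + chi {y} S)
    (fun S => by rcases chi_cases x S with h | h <;> rw [h] <;> norm_num)
    (fun S => by rcases chi_cases y S with h | h <;> rw [h] <;> norm_num)
    (fun S T hST _ => by linarith [chi_anti x hST])
    (fun S T hST _ => by linarith [chi_anti y hST])
  have e1 : zt P E L t (fun S => 1 + chi {x} S) =
      zt P E L t (fun _ => 1) + zt P E L t (fun S => chi {x} S) := zt_add P E L t _ _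
  have e2 : zt P E L t (fun S => 1 + chi {y} S) =
      zt P E L t (fun _ => 1) + zt P E L t (fun S => chi {y} S) := zt_add P E L t _ _
  have e3 : zt P E L t (fun S => (1 + chi {x} S) * (1 + chi {y} S)) =
      zt P E L t (fun _ => 1) + zt P E L t (fun S => chi {x} S) + zt P E L t (fun S => chi {y} S)
        + zt P E L t (fun S => chi {x} S * chi {y} S) := by
    rw [← zt_add, ← zt_add, ← zt_add]
    exact congrArg _ (funext fun S => by ring)
  rw [e1, e2, e3] at key
  unfold ct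
  rw [div_mul_div_comm, sub_nonneg, div_le_div_iff₀ (mul_pos hZ hZ) hZ]
  nlinarith [key, hZ]

theorem ct_le_one {P : Sym2 V → ℝ} (h1 : ∀ e, P e < 1) {t : V → ℝ}
    (ht : ∀ x, |t x| ≤ 1) (E : Finset (Sym2 V)) (L : Finset V) (x y : V) :
    ct P E L t x y ≤ 1 := by
  have h1' : ∀ e, P e ≤ 1 := fun e => (h1 e).le
  have hZ := zt_pos h1 ht E L
  have k1 : zt P E L t (fun S => chi {x} S) - zt P E L t (fun S => chi {y} S) ≤
      zt P E L t (fun _ => 1) - zt P E L t (fun S => chi {x} S * chi {y} S) := by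
    rw [← zt_sub, ← zt_sub]
    refine zt_mono h1' ht E L fun S => ?_
    rcases chi_cases x S with h | h <;> rcases chi_cases y S with h' | h' <;> rw [h, h'] <;>
      norm_num
  have k2 : zt P E L t (fun S => chi {y} S) - zt P E L t (fun S => chi {x} S) ≤
      zt P E L t (fun _ => 1) - zt P E L t (fun S => chi {x} S * chi {y} S) := by
    rw [← zt_sub, ← zt_sub]
    refine zt_mono h1' ht E L fun S => ?_
    rcases chi_cases x S with h | h <;> rcases chi_cases y S with h' | h' <;> rw [h, h'] <;>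
      norm_num
  have k3 : 0 ≤ zt P E L t (fun _ => 1) + zt P E L t (fun S => chi {x} S * chi {y} S) := by
    rw [← zt_add]
    refine Finset.sum_nonneg fun S _ => mul_nonneg ?_ (wt_nonneg h1' ht E L S)
    show 0 ≤ 1 + chi {x} S * chi {y} S
    rcases chi_cases x S with h | h <;> rcases chi_cases y S with h' | h' <;> rw [h, h'] <;>
      norm_num
  unfold ct
  set Z := zt P E L t (fun _ => 1)
  set X := zt P E L t (fun S => chi {x} S)
  set Y := zt P E L t (fun S => chi {y} S)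
  set W := zt P E L t (fun S => chi {x} S * chi {y} S)
  have eX : X = X / Z * Z := by field_simp
  have eY : Y = Y / Z * Z := by field_simp
  have eW : W = W / Z * Z := by field_simp
  set a := X / Z
  set b := Y / Z
  set c := W / Z
  have j1 : a - b ≤ 1 - c := by
    have : (a - b) * Z ≤ (1 - c) * Z := by linarith
    exact le_of_mul_le_mul_right this hZ
  have j2 : b - a ≤ 1 - c := by
    have : (b - a) * Z ≤ (1 - c) * Z := by linarith
    exact le_of_mul_le_mul_right this hZ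
  have j3 : 0 ≤ 1 + c := by
    have : 0 * Z ≤ (1 + c) * Z := by linarith
    exact le_of_mul_le_mul_right this hZ
  nlinarith [mul_nonneg (by linarith : (0:ℝ) ≤ 1 - c - (a - b))
    (by linarith : (0:ℝ) ≤ 1 - c + (a - b)), sq_nonneg a, sq_nonneg b,
    mul_nonneg (by linarith : (0:ℝ) ≤ 1 - c) j3]

end PFKM

theorem specPFK : SpecPFK := by
  intro V P E L t h0 h1 ht
  have h1' : ∀ e, P e ≤ 1 := fun e => (h1 e).le
  refine ⟨PFKM.wt_nonneg h1' ht E L, PFKM.zt_pos h1 ht E L, ?_, fun x _ y _ =>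
    ⟨PFKM.ct_nonneg h0 h1 ht E L x y, PFKM.ct_le_one h1 ht E L x y⟩⟩
  intro g h hg hh hga hha
  exact PFKM.fkg h0 h1' ht E L g h hg hh hga hha

end UN

end MP8622
end

section
set_option autoImplicit false

open Classical Filter Topology

/-!
# PLI: the pair lattice condition of the likelihood (helper43)
-/

namespace MP8622

namespace UN

namespace PLIM

theorem chi_sg {V : Type} (x : V) (Z : Finset V) : chi {x} Z = 1 ∨ chi {x} Z = -1 := by
  unfold chi
  exact neg_one_pow_eq_or ℝ _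

theorem prod_ge {ι : Type} (A : Finset ι) (x : ι → ℝ) (h0 : ∀ a ∈ A, 0 ≤ x a)
    (h1 : ∀ a ∈ A, x a ≤ 1) : 1 - ∑ a ∈ A, x a ≤ ∏ a ∈ A, (1 - x a) ∧
      0 ≤ ∏ a ∈ A, (1 - x a) ∧ ∏ a ∈ A, (1 - x a) ≤ 1 := by
  induction A using Finset.induction_on with
  | empty => simp
  | insert a A ha ih =>
    obtain ⟨i1, i2, i3⟩ := ih (fun b hb => h0 b (Finset.mem_insert_of_mem hb))
      fun b hb => h1 b (Finset.mem_insert_of_mem hb)
    have k0 := h0 a (Finset.mem_insert_self a A)
    have k1 := h1 a (Finset.mem_insert_self a A)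
    rw [Finset.sum_insert ha, Finset.prod_insert ha]
    refine ⟨by nlinarith, mul_nonneg (by linarith) i2, by nlinarith⟩

end PLIM

open PLIM in
theorem specPLI : SpecPLI := by
  intro V N B φ δ κ n A Z hC hN hn hκ hκn
  have hfac : ∀ (a : V) (U : Finset V), 0 < (1 + chi {a} Z * φ a U) / 2 := by
    intro a U
    have := abs_le.mp (hC.bnd a U)
    rcases chi_sg a Z with h | h <;> rw [h] <;> linarith
  refine ⟨fun U => Finset.prod_pos fun a _ => hfac a U, fun U u v huv hu hv => ?_⟩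
  have hx0 : ∀ a ∈ A, 0 ≤ κ * (N a u * N a v) := fun a _ =>
    mul_nonneg hκ (mul_nonneg (hN a u) (hN a v))
  have hx1 : ∀ a ∈ A, κ * (N a u * N a v) ≤ 1 := by
    intro a _
    have h1 : N a u * N a v ≤ n ^ 2 := by
      have := mul_le_mul (hn a u) (hn a v) (hN a v) ((hN a u).trans (hn a u))
      nlinarith
    calc κ * (N a u * N a v) ≤ κ * n ^ 2 := mul_le_mul_of_nonneg_left h1 hκ
      _ ≤ 1 := hκn
  obtain ⟨k1, k2, k3⟩ := prod_ge A (fun a => κ * (N a u * N a v)) hx0 hx1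
  have hP : 0 < om φ A Z (insert u U) * om φ A Z (insert v U) :=
    mul_pos (Finset.prod_pos fun a _ => hfac a _) (Finset.prod_pos fun a _ => hfac a _)
  calc (1 - κ * ∑ a ∈ A, N a u * N a v) * (om φ A Z (insert u U) * om φ A Z (insert v U))
      ≤ (∏ a ∈ A, (1 - κ * (N a u * N a v))) *
          (om φ A Z (insert u U) * om φ A Z (insert v U)) := by
        refine mul_le_mul_of_nonneg_right ?_ hP.le
        rw [Finset.mul_sum]
        exact k1
    _ = ∏ a ∈ A, ((1 - κ * (N a u * N a v)) * (((1 + chi {a} Z * φ a (insert u U)) / 2) *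
          ((1 + chi {a} Z * φ a (insert v U)) / 2))) := by
        unfold om
        rw [← Finset.prod_mul_distrib, ← Finset.prod_mul_distrib]
    _ ≤ ∏ a ∈ A, (((1 + chi {a} Z * φ a U) / 2) *
          ((1 + chi {a} Z * φ a (insert u (insert v U))) / 2)) := by
        refine Finset.prod_le_prod (fun a ha => ?_) fun a ha => ?_
        · exact mul_nonneg (by linarith [hx1 a ha]) (mul_pos (hfac a _) (hfac a _)).le
        · have := hC.lat a (chi {a} Z) (chi_sg a Z) u v U huv hu hv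
          nlinarith
    _ = om φ A Z U * om φ A Z (insert u (insert v U)) := by
        unfold om
        rw [← Finset.prod_mul_distrib]

end UN

end MP8622
end

section
set_option autoImplicit false

open Classical Filter Topology

/-!
MP_8622f1_pr, block P, module PNB: lower bound for the covariance of neighbours (helper46).
-/

namespace MP8622

namespace UN

namespace PNBM

variable {V : Type}

theorem chi_one (x : V) (S : Finset V) : chi {x} S = if x ∈ S then (-1 : ℝ) else 1 := by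
  rw [chi_eq_prod, Finset.prod_singleton]

/-- indicator of the class `s_u = α`, `s_w = β` -/
noncomputable def clsf (u w : V) (α β : ℝ) (S : Finset V) : ℝ :=
  (1 + α * chi {u} S) * (1 + β * chi {w} S) / 4

theorem zt_clsf (P : Sym2 V → ℝ) (E : Finset (Sym2 V)) (L : Finset V) (t : V → ℝ) (u w : V)
    (α β : ℝ) : zt P E L t (clsf u w α β) =
      (zt P E L t (fun _ => 1) + α * zt P E L t (fun S => chi {u} S) +
        β * zt P E L t (fun S => chi {w} S) +
        α * β * zt P E L t (fun S => chi {u} S * chi {w} S)) / 4 := by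
  unfold zt clsf
  rw [Finset.mul_sum, Finset.mul_sum, Finset.mul_sum, ← Finset.sum_add_distrib,
    ← Finset.sum_add_distrib, ← Finset.sum_add_distrib, Finset.sum_div]
  refine Finset.sum_congr rfl fun S _ => ?_
  ring

/-- flipping one spin -/
theorem sw_flip {P : Sym2 V → ℝ} {E : Finset (Sym2 V)} {d : ℕ} {p₁ : ℝ} (h0 : ∀ e, 0 ≤ P e)
    (h1 : ∀ e, P e ≤ p₁) (hp0 : 0 ≤ p₁) (hp : p₁ < 1) (x : V)
    (hd : (E.filter (fun e => x ∈ e)).card ≤ d) (S : Finset V) :
    (1 - p₁) ^ d * sw P E S ≤ sw P E (symmDiff S {x}) := by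
  have hle1 : ∀ e, P e ≤ 1 := fun e => (h1 e).trans hp.le
  have hq0 : 0 ≤ 1 - p₁ := by linarith
  have hstep : ∏ e ∈ E, ((if x ∈ e then (1 - p₁) else 1) * (if Mono S e then 1 else 1 - P e)) ≤
      ∏ e ∈ E, (if Mono (symmDiff S {x}) e then 1 else 1 - P e) := by
    refine Finset.prod_le_prod ?_ ?_
    · intro e _
      refine mul_nonneg ?_ ?_
      · split_ifs <;> linarith
      · split_ifs <;> linarith [hle1 e]
    · intro e _
      by_cases hx : x ∈ e
      · rw [if_pos hx]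
        have a1 : (if Mono S e then (1 : ℝ) else 1 - P e) ≤ 1 := by
          split_ifs <;> linarith [h0 e]
        have a2 : (1 - p₁) ≤ (if Mono (symmDiff S {x}) e then (1 : ℝ) else 1 - P e) := by
          split_ifs <;> linarith [h0 e, h1 e]
        calc (1 - p₁) * (if Mono S e then (1 : ℝ) else 1 - P e) ≤ (1 - p₁) * 1 :=
              mul_le_mul_of_nonneg_left a1 hq0
          _ ≤ _ := by rw [mul_one]; exact a2
      · rw [if_neg hx, one_mul]
        have : Mono (symmDiff S {x}) e ↔ Mono S e := by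
          unfold Mono
          refine forall₂_congr fun a ha => forall₂_congr fun c hc => ?_
          have ha' : a ≠ x := by rintro rfl; exact hx ha
          have hc' : c ≠ x := by rintro rfl; exact hx hc
          simp [Finset.mem_symmDiff, ha', hc']
        simp only [this]
        exact le_rfl
  rw [Finset.prod_mul_distrib] at hstep
  have hcard : ∏ e ∈ E, (if x ∈ e then (1 - p₁) else (1 : ℝ)) =
      (1 - p₁) ^ (E.filter (fun e => x ∈ e)).card := by
    rw [Finset.prod_ite, Finset.prod_const, Finset.prod_const_one, mul_one]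
  rw [hcard] at hstep
  refine le_trans ?_ hstep
  exact mul_le_mul_of_nonneg_right (pow_le_pow_of_le_one hq0 (by linarith) hd)
    (sw_nonneg hle1 E S)

theorem chi_flip_self (x : V) (S : Finset V) : chi {x} (symmDiff S {x}) = - chi {x} S := by
  rw [chi_one, chi_one]
  by_cases h : x ∈ S <;> simp [Finset.mem_symmDiff, h]

theorem chi_flip_ne {x y : V} (h : y ≠ x) (S : Finset V) :
    chi {y} (symmDiff S {x}) = chi {y} S := by
  rw [chi_one, chi_one]
  simp [Finset.mem_symmDiff, h]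

theorem field_flip {L : Finset V} {t : V → ℝ} (ht : ∀ x, |t x| ≤ 1 / 2) (x : V) (S : Finset V) :
    1 / 3 * ∏ y ∈ L, (1 + t y * chi {y} S) ≤ ∏ y ∈ L, (1 + t y * chi {y} (symmDiff S {x})) := by
  have hf : ∀ (y : V) (T : Finset V), 1 / 2 ≤ 1 + t y * chi {y} T ∧
      1 + t y * chi {y} T ≤ 3 / 2 := by
    intro y T
    have h := abs_le.1 (ht y)
    rw [chi_one]
    split_ifs <;> constructor <;> linarith [h.1, h.2]
  have hpos : ∀ (M T : Finset V), 0 < ∏ y ∈ M, (1 + t y * chi {y} T) := by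
    intro M T
    exact Finset.prod_pos fun y _ => by linarith [(hf y T).1]
  by_cases hx : x ∈ L
  · rw [← Finset.mul_prod_erase L _ hx, ← Finset.mul_prod_erase L _ hx]
    have he : ∏ y ∈ L.erase x, (1 + t y * chi {y} (symmDiff S {x})) =
        ∏ y ∈ L.erase x, (1 + t y * chi {y} S) := by
      refine Finset.prod_congr rfl fun y hy => ?_
      rw [chi_flip_ne (Finset.ne_of_mem_erase hy)]
    rw [he, ← mul_assoc]
    refine mul_le_mul_of_nonneg_right ?_ (hpos _ _).le
    linarith [(hf x S).2, (hf x (symmDiff S {x})).1]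
  · have he : ∏ y ∈ L, (1 + t y * chi {y} (symmDiff S {x})) =
        ∏ y ∈ L, (1 + t y * chi {y} S) := by
      refine Finset.prod_congr rfl fun y hy => ?_
      rw [chi_flip_ne (by rintro rfl; exact hx hy)]
    rw [he]
    linarith [hpos L S]

theorem wt_flip {P : Sym2 V → ℝ} {E : Finset (Sym2 V)} {L : Finset V} {t : V → ℝ} {d : ℕ}
    {p₁ : ℝ} (h0 : ∀ e, 0 ≤ P e) (h1 : ∀ e, P e ≤ p₁) (hp0 : 0 ≤ p₁) (hp : p₁ < 1)
    (ht : ∀ x, |t x| ≤ 1 / 2) (x : V) (hd : (E.filter (fun e => x ∈ e)).card ≤ d)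
    (S : Finset V) :
    (1 - p₁) ^ d / 3 * wt P E L t S ≤ wt P E L t (symmDiff S {x}) := by
  unfold wt
  have a1 := sw_flip h0 h1 hp0 hp x hd S
  have a2 := field_flip (L := L) ht x S
  have hle1 : ∀ e, P e ≤ 1 := fun e => (h1 e).trans hp.le
  have hpos : 0 ≤ ∏ y ∈ L, (1 + t y * chi {y} S) := by
    refine Finset.prod_nonneg fun y _ => ?_
    have h := abs_le.1 (ht y)
    rw [chi_one]
    split_ifs <;> linarith [h.1, h.2]
  calc (1 - p₁) ^ d / 3 * (sw P E S * ∏ y ∈ L, (1 + t y * chi {y} S)) =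
      ((1 - p₁) ^ d * sw P E S) * (1 / 3 * ∏ y ∈ L, (1 + t y * chi {y} S)) := by ring
    _ ≤ _ := mul_le_mul a1 a2 (mul_nonneg (by norm_num) hpos) (sw_nonneg hle1 E _)

theorem clsf_nonneg (u w : V) {α β : ℝ} (hα : α = 1 ∨ α = -1) (hβ : β = 1 ∨ β = -1)
    (S : Finset V) : 0 ≤ clsf u w α β S := by
  unfold clsf
  rw [chi_one, chi_one]
  rcases hα with rfl | rfl <;> rcases hβ with rfl | rfl <;> split_ifs <;> norm_num

theorem zt_flip (P : Sym2 V → ℝ) (E : Finset (Sym2 V)) (L : Finset V) (t : V → ℝ) (x : V)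
    (hx : x ∈ L) (f : Finset V → ℝ) : zt P E L t f =
      ∑ S ∈ L.powerset, f (symmDiff S {x}) * wt P E L t (symmDiff S {x}) := by
  unfold zt
  symm
  have hsub : ∀ S ∈ L.powerset, symmDiff S {x} ∈ L.powerset := by
    intro S hS
    rw [Finset.mem_powerset] at hS ⊢
    intro y hy
    rw [Finset.mem_symmDiff] at hy
    rcases hy with h | h
    · exact hS h.1
    · rw [Finset.mem_singleton.1 h.1]; exact hx
  refine Finset.sum_bij' (fun S _ => symmDiff S {x}) (fun S _ => symmDiff S {x}) hsub hsub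
    ?_ ?_ ?_
  · intro S _; simp
  · intro S _; simp
  · intro S _; rfl

/-- flipping a spin in the classes -/
theorem cls_flip {P : Sym2 V → ℝ} {E : Finset (Sym2 V)} {L : Finset V} {t : V → ℝ} {d : ℕ}
    {p₁ : ℝ} (h0 : ∀ e, 0 ≤ P e) (h1 : ∀ e, P e ≤ p₁) (hp0 : 0 ≤ p₁) (hp : p₁ < 1)
    (ht : ∀ x, |t x| ≤ 1 / 2) {x : V} (hd : (E.filter (fun e => x ∈ e)).card ≤ d) (hx : x ∈ L)
    {f g : Finset V → ℝ} (hg : ∀ S, 0 ≤ g S) (hfg : ∀ S, f (symmDiff S {x}) = g S) :
    (1 - p₁) ^ d / 3 * zt P E L t g ≤ zt P E L t f := by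
  rw [zt_flip P E L t x hx f]
  unfold zt
  rw [Finset.mul_sum]
  refine Finset.sum_le_sum fun S _ => ?_
  rw [hfg]
  have := mul_le_mul_of_nonneg_left (wt_flip h0 h1 hp0 hp ht x hd S (L := L)) (hg S)
  linarith

theorem sq1 {r a b : ℝ} (hr0 : 0 ≤ r) (hr1 : r ≤ 1) (ha : 0 ≤ a) (h : r * a ≤ b) :
    r ^ 2 * a ≤ b := by
  have h1 : r * (r * a) ≤ 1 * (r * a) := mul_le_mul_of_nonneg_right hr1 (mul_nonneg hr0 ha)
  have h2 : r ^ 2 * a = r * (r * a) := by ring
  rw [h2]; linarith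

theorem sq2 {r a b c : ℝ} (hr0 : 0 ≤ r) (h : r * a ≤ b) (h' : r * b ≤ c) : r ^ 2 * a ≤ c := by
  have h1 : r * (r * a) ≤ r * b := mul_le_mul_of_nonneg_left h hr0
  have h2 : r ^ 2 * a = r * (r * a) := by ring
  rw [h2]; linarith

theorem sq0 {r a : ℝ} (hr0 : 0 ≤ r) (hr1 : r ≤ 1) (ha : 0 ≤ a) : r ^ 2 * a ≤ a := by
  have h1 : r ^ 2 ≤ 1 := pow_le_one₀ hr0 hr1
  calc r ^ 2 * a ≤ 1 * a := mul_le_mul_of_nonneg_right h1 ha
    _ = a := one_mul a

/-- the covariance in terms of the four classes -/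
theorem cov_eq {a1 b2 b3 a4 Z X Y W : ℝ} (hZ : 0 < Z)
    (y1 : (Z + 1 * X + 1 * Y + 1 * 1 * W) / 4 = a1)
    (y2 : (Z + 1 * X + -1 * Y + 1 * -1 * W) / 4 = b2)
    (y3 : (Z + -1 * X + 1 * Y + -1 * 1 * W) / 4 = b3)
    (y4 : (Z + -1 * X + -1 * Y + -1 * -1 * W) / 4 = a4) :
    Z = a1 + b2 + b3 + a4 ∧ W / Z - X / Z * (Y / Z) = 4 * (a1 * a4 - b2 * b3) / Z ^ 2 := by
  have eZ : Z = a1 + b2 + b3 + a4 := by linarith
  have hX : X = a1 + b2 - b3 - a4 := by linarith
  have hY : Y = a1 - b2 + b3 - a4 := by linarith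
  have hW : W = a1 - b2 - b3 + a4 := by linarith
  refine ⟨eZ, ?_⟩
  have hne : Z ≠ 0 := hZ.ne'
  have h1 : W / Z - X / Z * (Y / Z) = (W * Z - X * Y) / Z ^ 2 := by
    field_simp
  rw [h1]
  congr 1
  rw [hX, hY, hW, eZ]
  ring

theorem alg {r q p₀ a1 a2 a3 a4 Z X Y W Z' X' Y' W' : ℝ} (hr0 : 0 < r) (hr1 : r ≤ 1)
    (hq0 : 0 ≤ q) (hq1 : q ≤ 1) (hp₀ : 0 < p₀) (hp : p₀ ≤ 1 - q) (hZ : 0 < Z) (hZ' : 0 < Z')
    (n1 : 0 ≤ a1) (n2 : 0 ≤ a2) (n3 : 0 ≤ a3) (n4 : 0 ≤ a4)
    (f1 : r * a3 ≤ a1) (f2 : r * a2 ≤ a1) (f3 : r * a4 ≤ a2) (_f4 : r * a4 ≤ a3)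
    (f5 : r * a2 ≤ a4) (f6 : r * a3 ≤ a4) (f7 : r * a1 ≤ a2) (_f8 : r * a1 ≤ a3)
    (z1 : (Z' + 1 * X' + 1 * Y' + 1 * 1 * W') / 4 = a1)
    (z2 : (Z' + 1 * X' + -1 * Y' + 1 * -1 * W') / 4 = a2)
    (z3 : (Z' + -1 * X' + 1 * Y' + -1 * 1 * W') / 4 = a3)
    (z4 : (Z' + -1 * X' + -1 * Y' + -1 * -1 * W') / 4 = a4)
    (y1 : (Z + 1 * X + 1 * Y + 1 * 1 * W) / 4 = a1)
    (y2 : (Z + 1 * X + -1 * Y + 1 * -1 * W) / 4 = q * a2)
    (y3 : (Z + -1 * X + 1 * Y + -1 * 1 * W) / 4 = q * a3)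
    (y4 : (Z + -1 * X + -1 * Y + -1 * -1 * W) / 4 = a4)
    (hct : 0 ≤ W' / Z' - X' / Z' * (Y' / Z')) :
    p₀ * r ^ 4 / 8 ≤ W / Z - X / Z * (Y / Z) := by
  obtain ⟨eZ', hcov'⟩ := cov_eq hZ' z1 z2 z3 z4
  obtain ⟨eZ, hcov⟩ := cov_eq hZ y1 y2 y3 y4
  rw [hcov'] at hct
  have hkey : a2 * a3 ≤ a1 * a4 := by
    by_contra hcon
    push Not at hcon
    have : 4 * (a1 * a4 - a2 * a3) / Z' ^ 2 < 0 :=
      div_neg_of_neg_of_pos (by linarith) (by positivity)
    linarith
  have hZZ : Z ≤ Z' := by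
    have h1 := mul_le_mul_of_nonneg_right hq1 n2
    have h2 := mul_le_mul_of_nonneg_right hq1 n3
    rw [eZ, eZ']
    linarith
  -- each of the classes a1, a4 has at least r² / 4 of the weight
  have g1 : r ^ 2 * Z' ≤ 4 * a1 := by
    have b1 := sq0 hr0.le hr1 n1
    have b2 := sq1 hr0.le hr1 n2 f2
    have b3 := sq1 hr0.le hr1 n3 f1
    have b4 := sq2 hr0.le f3 f2
    rw [eZ']; linarith
  have g4 : r ^ 2 * Z' ≤ 4 * a4 := by
    have b1 := sq0 hr0.le hr1 n4
    have b2 := sq1 hr0.le hr1 n2 f5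
    have b3 := sq1 hr0.le hr1 n3 f6
    have b4 := sq2 hr0.le f7 f5
    rw [eZ']; linarith
  have g14 : (r ^ 2 * Z') ^ 2 ≤ 16 * (a1 * a4) := by
    have h1 := mul_le_mul g1 g4 (by positivity) (by linarith)
    calc (r ^ 2 * Z') ^ 2 = r ^ 2 * Z' * (r ^ 2 * Z') := by ring
      _ ≤ _ := h1
      _ = _ := by ring
  have n14 : 0 ≤ a1 * a4 := mul_nonneg n1 n4
  have hdiff : (1 - q) * (a1 * a4) ≤ a1 * a4 - q * a2 * (q * a3) := by
    have c1 : q ^ 2 * (a2 * a3) ≤ q ^ 2 * (a1 * a4) :=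
      mul_le_mul_of_nonneg_left hkey (by positivity)
    have hqq : q ^ 2 ≤ q := by
      have := mul_le_mul_of_nonneg_left hq1 hq0
      rw [pow_two]; linarith
    have c2 : q ^ 2 * (a1 * a4) ≤ q * (a1 * a4) := mul_le_mul_of_nonneg_right hqq n14
    have c3 : q * a2 * (q * a3) = q ^ 2 * (a2 * a3) := by ring
    rw [c3]; linarith
  rw [hcov, le_div_iff₀ (by positivity)]
  have hZ2 : Z ^ 2 ≤ Z' ^ 2 := pow_le_pow_left₀ hZ.le hZZ 2
  calc p₀ * r ^ 4 / 8 * Z ^ 2 ≤ p₀ * r ^ 4 / 8 * Z' ^ 2 :=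
        mul_le_mul_of_nonneg_left hZ2 (by positivity)
    _ = p₀ / 8 * (r ^ 2 * Z') ^ 2 := by ring
    _ ≤ p₀ / 8 * (16 * (a1 * a4)) := mul_le_mul_of_nonneg_left g14 (by positivity)
    _ = 2 * (p₀ * (a1 * a4)) := by ring
    _ ≤ 4 * ((1 - q) * (a1 * a4)) := by
        have h5 : p₀ * (a1 * a4) ≤ (1 - q) * (a1 * a4) :=
          mul_le_mul_of_nonneg_right hp n14
        have h6 : 0 ≤ (1 - q) * (a1 * a4) := mul_nonneg (by linarith) n14
        linarith
    _ ≤ _ := by linarith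

end PNBM

open PNBM in
theorem specPNB (hPFK : SpecPFK) : SpecPNB := by
  intro V P E L t d p₀ p₁ hp₀ hp₀₁ hp₁ hP0 hP1 ht hd u hu w hw huw he
  have hPn : ∀ e, 0 ≤ P e := fun e => hp₀.le.trans (hP0 e)
  have hPlt : ∀ e, P e < 1 := fun e => (hP1 e).trans_lt hp₁
  have hp1n : 0 ≤ p₁ := hp₀.le.trans hp₀₁
  have ht1 : ∀ x, |t x| ≤ 1 := fun x => (ht x).trans (by norm_num)
  set e : Sym2 V := s(u, w) with hedef
  set E' := E.erase e with hE'
  have hd' : ∀ x, (E'.filter (fun e => x ∈ e)).card ≤ d := fun x =>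
    (Finset.card_le_card (Finset.filter_subset_filter _ (Finset.erase_subset _ _))).trans (hd x)
  obtain ⟨-, hZ', -, hct'⟩ := hPFK V P E' L t hPn hPlt ht1
  obtain ⟨-, hZ, -, -⟩ := hPFK V P E L t hPn hPlt ht1
  have hct := (hct' u hu w hw).1
  set r : ℝ := (1 - p₁) ^ d / 3 with hr
  have hr0 : 0 < r := by rw [hr]; exact div_pos (pow_pos (by linarith) _) (by norm_num)
  have hr1 : r ≤ 1 := by
    rw [hr]
    have : (1 - p₁) ^ d ≤ 1 := pow_le_one₀ (by linarith) (by linarith)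
    linarith
  set q : ℝ := 1 - P e with hq
  have hq0 : 0 ≤ q := by rw [hq]; linarith [hPlt e]
  have hq1 : q ≤ 1 := by rw [hq]; linarith [hPn e]
  -- the classes
  set A : ℝ → ℝ → ℝ := fun α β => zt P E' L t (clsf u w α β) with hA
  have hwt : ∀ S, wt P E L t S = (if Mono S e then 1 else q) * wt P E' L t S := by
    intro S
    unfold wt sw
    rw [hE', ← Finset.mul_prod_erase E _ he]
    ring
  have hB1 : ∀ α : ℝ, α = 1 ∨ α = -1 → zt P E L t (clsf u w α α) = A α α := by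
    intro α hα
    rw [hA]
    unfold zt
    refine Finset.sum_congr rfl fun S _ => ?_
    rw [hwt]
    by_cases hm : Mono S e
    · rw [if_pos hm, one_mul]
    · have : clsf u w α α S = 0 := by
        rw [hedef, mono_mk] at hm
        unfold clsf
        rw [chi_one, chi_one]
        rcases hα with rfl | rfl <;> by_cases h1 : u ∈ S <;> by_cases h2 : w ∈ S <;>
          simp [h1, h2] at hm ⊢
      rw [this, zero_mul, zero_mul]
  have hB2 : ∀ α : ℝ, α = 1 ∨ α = -1 → zt P E L t (clsf u w α (-α)) = q * A α (-α) := by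
    intro α hα
    rw [hA]
    unfold zt
    rw [Finset.mul_sum]
    refine Finset.sum_congr rfl fun S _ => ?_
    rw [hwt]
    by_cases hm : Mono S e
    · have : clsf u w α (-α) S = 0 := by
        rw [hedef, mono_mk] at hm
        unfold clsf
        rw [chi_one, chi_one]
        rcases hα with rfl | rfl <;> by_cases h1 : u ∈ S <;> by_cases h2 : w ∈ S <;>
          simp [h1, h2] at hm ⊢
      rw [this, zero_mul, zero_mul, mul_zero]
    · rw [if_neg hm]; ring
  -- flips
  have hF1 : ∀ α β : ℝ, (α = 1 ∨ α = -1) → (β = 1 ∨ β = -1) → r * A (-α) β ≤ A α β := by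
    intro α β hα hβ
    refine cls_flip hPn hP1 hp1n hp₁ ht (hd' u) hu
      (clsf_nonneg u w (by rcases hα with h | h <;> simp [h]) hβ) ?_
    intro S
    unfold clsf
    rw [chi_flip_self, chi_flip_ne huw.symm]
    ring
  have hF2 : ∀ α β : ℝ, (α = 1 ∨ α = -1) → (β = 1 ∨ β = -1) → r * A α (-β) ≤ A α β := by
    intro α β hα hβ
    refine cls_flip hPn hP1 hp1n hp₁ ht (hd' w) hw
      (clsf_nonneg u w hα (by rcases hβ with h | h <;> simp [h])) ?_
    intro S
    unfold clsf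
    rw [chi_flip_self, chi_flip_ne huw]
    ring
  have hone : (1 : ℝ) = 1 ∨ (1 : ℝ) = -1 := Or.inl rfl
  have hmone : (-1 : ℝ) = 1 ∨ (-1 : ℝ) = -1 := Or.inr rfl
  have hAn : ∀ α β : ℝ, (α = 1 ∨ α = -1) → (β = 1 ∨ β = -1) → 0 ≤ A α β := by
    intro α β hα hβ
    have hw0 := (hPFK V P E' L t hPn hPlt ht1).1
    exact Finset.sum_nonneg fun S _ => mul_nonneg (clsf_nonneg u w hα hβ S) (hw0 S)
  have f1 := hF1 1 1 hone hone
  have f2 := hF2 1 1 hone hone
  have f3 := hF1 1 (-1) hone hmone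
  have f4 := hF2 (-1) 1 hmone hone
  have f5 := hF1 (-1) (-1) hmone hmone
  have f6 := hF2 (-1) (-1) hmone hmone
  have f7 := hF2 1 (-1) hone hmone
  have f8 := hF1 (-1) 1 hmone hone
  simp only [neg_neg] at f5 f6 f7 f8
  have n1 := hAn 1 1 hone hone
  have n2 := hAn 1 (-1) hone hmone
  have n3 := hAn (-1) 1 hmone hone
  have n4 := hAn (-1) (-1) hmone hmone
  have z1 := zt_clsf P E' L t u w 1 1
  have z2 := zt_clsf P E' L t u w 1 (-1)
  have z3 := zt_clsf P E' L t u w (-1) 1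
  have z4 := zt_clsf P E' L t u w (-1) (-1)
  have y1 := zt_clsf P E L t u w 1 1
  have y2 := zt_clsf P E L t u w 1 (-1)
  have y3 := zt_clsf P E L t u w (-1) 1
  have y4 := zt_clsf P E L t u w (-1) (-1)
  rw [hB1 1 hone] at y1
  rw [hB2 1 hone] at y2
  have e3 := hB2 (-1) hmone
  rw [neg_neg] at e3
  rw [e3] at y3
  rw [hB1 (-1) hmone] at y4
  change A 1 1 = _ at z1
  change A 1 (-1) = _ at z2
  change A (-1) 1 = _ at z3
  change A (-1) (-1) = _ at z4
  unfold ct at hct ⊢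
  have hPe : P e = 1 - q := by rw [hq]; ring
  refine alg hr0 hr1 hq0 hq1 hp₀ (hPe ▸ hP0 e) hZ hZ' n1 n2 n3 n4 f1 f2 f3 f4 f5 f6 f7 f8
    z1.symm z2.symm z3.symm z4.symm y1.symm y2.symm y3.symm y4.symm hct

end UN

end MP8622
end

section
set_option autoImplicit false

open Classical

/-!
# Block P, module PON: conditioning on one spin (helper50)
-/

namespace MP8622

namespace UN

namespace PONM

variable {V : Type}

theorem chi_s (x : V) (S : Finset V) : chi {x} S = if x ∈ S then (-1 : ℝ) else 1 := by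
  rw [chi_eq_prod, Finset.prod_singleton]

theorem wt_split (P : Sym2 V → ℝ) (E : Finset (Sym2 V)) (L : Finset V) (t : V → ℝ) {w : V}
    (hw : w ∈ L) (S : Finset V) :
    wt P E L t S = (1 + t w * chi {w} S) *
      (sw P E S * ∏ x ∈ L.erase w, (1 + t x * chi {x} S)) := by
  unfold wt
  rw [← Finset.mul_prod_erase L (fun x => 1 + t x * chi {x} S) hw]
  ring

theorem wt_update (P : Sym2 V → ℝ) (E : Finset (Sym2 V)) (L : Finset V) (t : V → ℝ) {w : V}
    (hw : w ∈ L) (a : ℝ) (S : Finset V) :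
    wt P E L (Function.update t w a) S = (1 + a * chi {w} S) *
      (sw P E S * ∏ x ∈ L.erase w, (1 + t x * chi {x} S)) := by
  rw [wt_split P E L _ hw S, Function.update_self]
  congr 2
  refine Finset.prod_congr rfl fun x hx => ?_
  rw [Function.update_of_ne (Finset.ne_of_mem_erase hx)]

theorem zt_split (P : Sym2 V → ℝ) (E : Finset (Sym2 V)) (L : Finset V) (t : V → ℝ) {w : V}
    (hw : w ∈ L) (f : Finset V → ℝ) :
    zt P E L t f = (1 + t w) / 2 * zt P E L (Function.update t w 1) f +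
      (1 - t w) / 2 * zt P E L (Function.update t w (-1)) f := by
  unfold zt
  rw [Finset.mul_sum, Finset.mul_sum, ← Finset.sum_add_distrib]
  refine Finset.sum_congr rfl fun S _ => ?_
  rw [wt_update P E L t hw, wt_update P E L t hw, wt_split P E L t hw]
  ring

theorem wt_plus (P : Sym2 V → ℝ) (E : Finset (Sym2 V)) (L : Finset V) (t : V → ℝ) {w : V}
    (hw : w ∈ L) (S : Finset V) :
    chi {w} S * wt P E L (Function.update t w 1) S = wt P E L (Function.update t w 1) S := by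
  rw [wt_update P E L t hw, chi_s]
  split_ifs <;> ring

theorem wt_minus (P : Sym2 V → ℝ) (E : Finset (Sym2 V)) (L : Finset V) (t : V → ℝ) {w : V}
    (hw : w ∈ L) (S : Finset V) :
    chi {w} S * wt P E L (Function.update t w (-1)) S =
      -wt P E L (Function.update t w (-1)) S := by
  rw [wt_update P E L t hw, chi_s]
  split_ifs <;> ring

theorem zt_plus (P : Sym2 V → ℝ) (E : Finset (Sym2 V)) (L : Finset V) (t : V → ℝ) {w : V}
    (hw : w ∈ L) (f : Finset V → ℝ) :
    zt P E L (Function.update t w 1) (fun S => f S * chi {w} S) =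
      zt P E L (Function.update t w 1) f := by
  unfold zt
  refine Finset.sum_congr rfl fun S _ => ?_
  rw [mul_assoc, wt_plus P E L t hw]

theorem zt_minus (P : Sym2 V → ℝ) (E : Finset (Sym2 V)) (L : Finset V) (t : V → ℝ) {w : V}
    (hw : w ∈ L) (f : Finset V → ℝ) :
    zt P E L (Function.update t w (-1)) (fun S => f S * chi {w} S) =
      -zt P E L (Function.update t w (-1)) f := by
  unfold zt
  rw [← Finset.sum_neg_distrib]
  refine Finset.sum_congr rfl fun S _ => ?_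
  rw [mul_assoc, wt_minus P E L t hw]
  ring

/-- the algebra -/
theorem alg (α β Zp Zm Up Um Vp Vm Cp Cm : ℝ) (hα : 0 ≤ α) (hβ : 0 ≤ β) (hZp : 0 < Zp)
    (hZm : 0 < Zm) (hZ : 0 < α * Zp + β * Zm) (hcp : 0 ≤ Cp / Zp - Up / Zp * (Vp / Zp))
    (hcm : 0 ≤ Cm / Zm - Um / Zm * (Vm / Zm))
    (h1 : 0 ≤ (α * Up - β * Um) / (α * Zp + β * Zm) - (α * Up + β * Um) / (α * Zp + β * Zm) *
      ((α * Zp - β * Zm) / (α * Zp + β * Zm)))
    (h2 : 0 ≤ (α * Vp - β * Vm) / (α * Zp + β * Zm) - (α * Zp - β * Zm) / (α * Zp + β * Zm) *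
      ((α * Vp + β * Vm) / (α * Zp + β * Zm))) :
    ((α * Up - β * Um) / (α * Zp + β * Zm) - (α * Up + β * Um) / (α * Zp + β * Zm) *
      ((α * Zp - β * Zm) / (α * Zp + β * Zm))) *
    ((α * Vp - β * Vm) / (α * Zp + β * Zm) - (α * Zp - β * Zm) / (α * Zp + β * Zm) *
      ((α * Vp + β * Vm) / (α * Zp + β * Zm))) ≤
    (α * Cp + β * Cm) / (α * Zp + β * Zm) - (α * Up + β * Um) / (α * Zp + β * Zm) *
      ((α * Vp + β * Vm) / (α * Zp + β * Zm)) := by
  set Z := α * Zp + β * Zm with hZdef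
  set p := α * Zp / Z with hp
  set q := β * Zm / Z with hq
  have hp0 : 0 ≤ p := by positivity
  have hq0 : 0 ≤ q := by positivity
  have hpq : p + q = 1 := by
    rw [hp, hq, ← add_div, ← hZdef, div_self hZ.ne']
  set up := Up / Zp with hup
  set um := Um / Zm with hum
  set vp := Vp / Zp with hvp
  set vm := Vm / Zm with hvm
  set cp := Cp / Zp with hcp'
  set cm := Cm / Zm with hcm'
  have e1 : (α * Up - β * Um) / Z = p * up - q * um := by
    rw [hp, hq, hup, hum]; field_simp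
  have e2 : (α * Up + β * Um) / Z = p * up + q * um := by
    rw [hp, hq, hup, hum]; field_simp
  have e3 : (α * Vp - β * Vm) / Z = p * vp - q * vm := by
    rw [hp, hq, hvp, hvm]; field_simp
  have e4 : (α * Vp + β * Vm) / Z = p * vp + q * vm := by
    rw [hp, hq, hvp, hvm]; field_simp
  have e5 : (α * Cp + β * Cm) / Z = p * cp + q * cm := by
    rw [hp, hq, hcp', hcm']; field_simp
  have e6 : (α * Zp - β * Zm) / Z = p - q := by
    rw [hp, hq]; field_simp
  rw [e1, e2, e6] at h1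
  rw [e3, e4, e6] at h2
  rw [e1, e2, e3, e4, e5, e6]
  have hq' : q = 1 - p := by linarith
  have f1 : p * up - q * um - (p * up + q * um) * (p - q) = 2 * (p * q) * (up - um) := by
    rw [hq']; ring
  have f2 : p * vp - q * vm - (p - q) * (p * vp + q * vm) = 2 * (p * q) * (vp - vm) := by
    rw [hq']; ring
  have f3 : p * cp + q * cm - (p * up + q * um) * (p * vp + q * vm) =
      p * (cp - up * vp) + q * (cm - um * vm) + p * q * ((up - um) * (vp - vm)) := by
    rw [hq']; ring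
  rw [f1] at h1
  rw [f2] at h2
  rw [f1, f2, f3]
  have g1 : 0 ≤ p * (cp - up * vp) := mul_nonneg hp0 hcp
  have g2 : 0 ≤ q * (cm - um * vm) := mul_nonneg hq0 hcm
  rcases (mul_nonneg hp0 hq0).eq_or_lt with h0 | h0
  · rw [← h0]
    linarith
  · have ha : 0 ≤ up - um := by
      by_contra hc
      push Not at hc
      nlinarith
    have hb : 0 ≤ vp - vm := by
      by_contra hc
      push Not at hc
      nlinarith
    have h4 : 4 * (p * q) ≤ 1 := by rw [hq']; nlinarith [sq_nonneg (2 * p - 1)]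
    have hab := mul_nonneg ha hb
    have : 2 * (p * q) * (up - um) * (2 * (p * q) * (vp - vm)) =
        (p * q * ((up - um) * (vp - vm))) * (4 * (p * q)) := by ring
    rw [this]
    nlinarith [mul_nonneg h0.le hab]

end PONM

theorem specPON (hPFK : SpecPFK) : SpecPON := by
  intro V P E L t h0 h1 ht u hu v hv w hw
  have htp : ∀ x, |Function.update t w 1 x| ≤ 1 := by
    intro x
    by_cases hx : x = w
    · subst hx; rw [Function.update_self]; norm_num
    · rw [Function.update_of_ne hx]; exact ht x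
  have htm : ∀ x, |Function.update t w (-1) x| ≤ 1 := by
    intro x
    by_cases hx : x = w
    · subst hx; rw [Function.update_self]; norm_num
    · rw [Function.update_of_ne hx]; exact ht x
  obtain ⟨_, hZ, _, hc⟩ := hPFK V P E L t h0 h1 ht
  obtain ⟨_, hZp, _, hcp⟩ := hPFK V P E L _ h0 h1 htp
  obtain ⟨_, hZm, _, hcm⟩ := hPFK V P E L _ h0 h1 htm
  have hα : 0 ≤ (1 + t w) / 2 := by have := abs_le.1 (ht w); linarith [this.1]
  have hβ : 0 ≤ (1 - t w) / 2 := by have := abs_le.1 (ht w); linarith [this.2]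
  have c1 := (hc u hu w hw).1
  have c2 := (hc w hw v hv).1
  have cp := (hcp u hu v hv).1
  have cm := (hcm u hu v hv).1
  unfold ct at c1 c2 cp cm ⊢
  have s0 := PONM.zt_split P E L t hw (fun _ => 1)
  have su := PONM.zt_split P E L t hw (fun S => chi {u} S)
  have sv := PONM.zt_split P E L t hw (fun S => chi {v} S)
  have suv := PONM.zt_split P E L t hw (fun S => chi {u} S * chi {v} S)
  have sw0 := PONM.zt_split P E L t hw (fun S => chi {w} S)
  have suw := PONM.zt_split P E L t hw (fun S => chi {u} S * chi {w} S)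
  have swv := PONM.zt_split P E L t hw (fun S => chi {w} S * chi {v} S)
  have ew : (fun S : Finset V => chi {w} S) = fun S => (fun _ => (1:ℝ)) S * chi {w} S := by
    funext S; ring
  have ewv : (fun S : Finset V => chi {w} S * chi {v} S) =
      fun S => (fun S => chi {v} S) S * chi {w} S := by
    funext S; ring
  have rw1 : zt P E L (Function.update t w 1) (fun S => chi {w} S) =
      zt P E L (Function.update t w 1) (fun _ => 1) := by
    rw [ew]; exact PONM.zt_plus P E L t hw _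
  have rw2 : zt P E L (Function.update t w (-1)) (fun S => chi {w} S) =
      -zt P E L (Function.update t w (-1)) (fun _ => 1) := by
    rw [ew]; exact PONM.zt_minus P E L t hw _
  have ru1 := PONM.zt_plus P E L t hw (fun S => chi {u} S)
  have ru2 := PONM.zt_minus P E L t hw (fun S => chi {u} S)
  have rv1 : zt P E L (Function.update t w 1) (fun S => chi {w} S * chi {v} S) =
      zt P E L (Function.update t w 1) (fun S => chi {v} S) := by
    rw [ewv]; exact PONM.zt_plus P E L t hw _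
  have rv2 : zt P E L (Function.update t w (-1)) (fun S => chi {w} S * chi {v} S) =
      -zt P E L (Function.update t w (-1)) (fun S => chi {v} S) := by
    rw [ewv]; exact PONM.zt_minus P E L t hw _
  rw [rw1, rw2, mul_neg, ← sub_eq_add_neg] at sw0
  rw [ru1, ru2, mul_neg, ← sub_eq_add_neg] at suw
  rw [rv1, rv2, mul_neg, ← sub_eq_add_neg] at swv
  rw [s0] at hZ
  rw [s0, su, sw0, suw] at c1
  rw [s0, sv, sw0, swv] at c2
  rw [s0, su, sv, suv, sw0, suw, swv]
  exact PONM.alg _ _ _ _ _ _ _ _ _ _ hα hβ hZp hZm hZ cp cm c1 c2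

end UN

end MP8622
end

section
set_option autoImplicit false

open Classical Filter Topology

/-!
# PPW: the pair lattice condition of the posterior weight (helper43)
-/

namespace MP8622

namespace UN

namespace PPWM

theorem chi_sg {V : Type} (x : V) (Z : Finset V) : |chi {x} Z| = 1 := by
  unfold chi
  rcases neg_one_pow_eq_or ℝ ({x} ∩ Z).card with h | h <;> rw [h] <;> norm_num

end PPWM

open PPWM in
theorem specPPW (hPCH : SpecPCH) (hPFK : SpecPFK) (hPPE : SpecPPE) (hPLI : SpecPLI) : SpecPPW := by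
  intro V P E L N B φ δ κ n A Z d k p₀ p₁ hp0 hp01 hp1 hP0 hP1 hdeg hdiag hEL hC hN hNn hNs hpth hn
    hκ hκn U u v hU hu hv huv huU hvU
  have hP0' : ∀ e, 0 ≤ P e := fun e => hp0.le.trans (hP0 e)
  have hP1' : ∀ e, P e < 1 := fun e => (hP1 e).trans_lt hp1
  obtain ⟨hpw, hppe⟩ := hPPE V P E L hP0' hP1'
  set t : V → ℝ := fun x => if x = u ∨ x = v then 0 else chi {x} U / 2 with ht
  have ht2 : ∀ x, |t x| ≤ 1 / 2 := by
    intro x
    rw [ht]
    simp only
    split_ifs
    · simp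
    · rw [abs_div, chi_sg]
      norm_num
  have ht1 : ∀ x, |t x| ≤ 1 := fun x => (ht2 x).trans (by norm_num)
  have hE := hppe U u v hU hu hv huv huU hvU t fun x => rfl
  obtain ⟨-, -, -, hct⟩ := hPFK V P E L t hP0' hP1' ht1
  obtain ⟨hc0, hc1⟩ := hct u hu v hv
  -- positive lower bound of cc ^ k
  have hcc : 0 ≤ cc d p₀ p₁ ∧ cc d p₀ p₁ ≤ 1 := by
    unfold cc
    have h1 : 0 ≤ (1 - p₁) ^ d / 3 := div_nonneg (pow_nonneg (by linarith) _) (by norm_num)
    have h2 : (1 - p₁) ^ d / 3 ≤ 1 := by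
      have := pow_le_one₀ (n := d) (by linarith : 0 ≤ 1 - p₁) (by linarith)
      linarith
    have h3 : ((1 - p₁) ^ d / 3) ^ 4 ≤ 1 := pow_le_one₀ h1 h2
    have h4 : 0 ≤ ((1 - p₁) ^ d / 3) ^ 4 := pow_nonneg h1 _
    constructor
    · positivity
    · nlinarith
  have hck : cc d p₀ p₁ ^ k ≤ 1 := pow_le_one₀ hcc.1 hcc.2
  have hck0 : 0 ≤ cc d p₀ p₁ ^ k := pow_nonneg hcc.1 _
  obtain ⟨hom, hpli⟩ := hPLI V N B φ δ κ n A Z hC hN hNn hκ (by linarith)
  have hL := hpli U u v huv huU hvU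
  have hpu := hpw (insert u U)
  have hpv := hpw (insert v U)
  have hp := hpw U
  have hpuv := hpw (insert u (insert v U))
  have hou := hom (insert u U)
  have hov := hom (insert v U)
  have ho := hom U
  have houv := hom (insert u (insert v U))
  -- the constant
  have hS : 0 ≤ ∑ a ∈ A, N a u * N a v :=
    Finset.sum_nonneg fun a _ => mul_nonneg (hN a u) (hN a v)
  have hSn : ∑ a ∈ A, N a u * N a v ≤ n ^ 2 := by
    calc ∑ a ∈ A, N a u * N a v ≤ ∑ a ∈ A, n * N a v :=
          Finset.sum_le_sum fun a _ => mul_le_mul_of_nonneg_right (hNn a u) (hN a v)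
      _ = n * ∑ a ∈ A, N a v := by rw [Finset.mul_sum]
      _ ≤ n * n := mul_le_mul_of_nonneg_left (hNs v) hn.le
      _ = n ^ 2 := by ring
  have hx : κ * ∑ a ∈ A, N a u * N a v ≤ 1 / 4 := by
    calc κ * ∑ a ∈ A, N a u * N a v ≤ κ * n ^ 2 := mul_le_mul_of_nonneg_left hSn hκ
      _ ≤ 1 / 4 := by linarith
  have key : 1 ≤ (1 + ct P E L t u v / 2) * (1 - κ * ∑ a ∈ A, N a u * N a v) := by
    by_cases h0 : ∑ a ∈ A, N a u * N a v = 0
    · rw [h0]
      nlinarith
    · obtain ⟨a, ha, hne⟩ := Finset.exists_ne_zero_of_sum_ne_zero h0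
      have hau : N a u ≠ 0 := left_ne_zero_of_mul hne
      have hav : N a v ≠ 0 := right_ne_zero_of_mul hne
      obtain ⟨-, -, hlow⟩ := hPCH V P E L t d k p₀ p₁ hp0 hp01 hp1 hP0 hP1 ht2 hdeg hdiag hEL u hu
        v hv huv (hpth a ha u v hau hav)
      have hy : κ * ∑ a ∈ A, N a u * N a v ≤ cc d p₀ p₁ ^ k / 4 := by
        calc κ * ∑ a ∈ A, N a u * N a v ≤ κ * n ^ 2 := mul_le_mul_of_nonneg_left hSn hκ
          _ ≤ cc d p₀ p₁ ^ k / 4 := by linarith
      have hx0 : 0 ≤ κ * ∑ a ∈ A, N a u * N a v := mul_nonneg hκ hS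
      set c := cc d p₀ p₁ ^ k
      set w := ct P E L t u v
      set s := κ * ∑ a ∈ A, N a u * N a v
      nlinarith [mul_nonneg hx0 hc0]
  set a1 := pw P E L (insert u U)
  set a2 := pw P E L (insert v U)
  set a3 := pw P E L U
  set a4 := pw P E L (insert u (insert v U))
  set b1 := om φ A Z (insert u U)
  set b2 := om φ A Z (insert v U)
  set b3 := om φ A Z U
  set b4 := om φ A Z (insert u (insert v U))
  set c1 := 1 + ct P E L t u v / 2
  set c2 := 1 - κ * ∑ a ∈ A, N a u * N a v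
  have hc2 : 0 ≤ c2 := by
    change 0 ≤ 1 - κ * ∑ a ∈ A, N a u * N a v
    linarith
  have hc1' : 0 ≤ c1 := by
    change 0 ≤ 1 + ct P E L t u v / 2
    linarith
  calc a1 * b1 * (a2 * b2) ≤ (c1 * c2) * (a1 * b1 * (a2 * b2)) := by
        have : 0 ≤ a1 * b1 * (a2 * b2) := by positivity
        nlinarith
    _ = (c1 * (a1 * a2)) * (c2 * (b1 * b2)) := by ring
    _ ≤ (a3 * a4) * (b3 * b4) := by
        refine mul_le_mul hE hL (mul_nonneg hc2 (by positivity)) (by positivity)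
    _ = a3 * b3 * (a4 * b4) := by ring

end UN

end MP8622
end
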