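import Pool.Agent.Lib.MP_8622f1_pr.UN.Spec

set_option autoImplicit false

open Classical Filter Topology

/-!
# PST: posterior of the pendant spins with site fields (from DSS)
-/

namespace MP8622

namespace UN

namespace PSTM

variable {V : Type}

lemma chi_sing (v : V) (U : Finset V) : chi {v} U = if v ∈ U then -1 else 1 := by
  unfold chi
  by_cases h : v ∈ U
  · rw [if_pos h, Finset.singleton_inter_of_mem h]; simp
  · rw [if_neg h, Finset.singleton_inter_of_notMem h]; simp

lemma chi_cases (v : V) (U : Finset V) : chi {v} U = 1 ∨ chi {v} U = -1 := by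
  rw [chi_sing]
  by_cases h : v ∈ U
  · right; rw [if_pos h]
  · left; rw [if_neg h]

lemma sum_prod (Λ : Finset V) (F : V → ℝ → ℝ) :
    ∑ U ∈ Λ.powerset, ∏ v ∈ Λ, F v (chi {v} U) = ∏ v ∈ Λ, (F v (-1) + F v 1) := by
  rw [Finset.prod_add]
  refine Finset.sum_congr rfl fun U hU => ?_
  rw [Finset.mem_powerset] at hU
  rw [← Finset.prod_sdiff hU, mul_comm]
  congr 1
  · refine Finset.prod_congr rfl fun v hv => ?_
    rw [chi_sing, if_pos hv]
  · refine Finset.prod_congr rfl fun v hv => ?_
    rw [chi_sing, if_neg (Finset.mem_sdiff.1 hv).2]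

lemma sum_U (P : Sym2 V → ℝ) (E : Finset (Sym2 V)) (Λ : Finset V) (h : V → ℝ)
    (T : V → ℝ → ℝ) :
    ∑ U ∈ Λ.powerset, (∏ v ∈ Λ, T v (chi {v} U)) *
        (pw P E Λ U * ∏ v ∈ Λ, Real.exp (h v * chi {v} U)) =
      ∑ S ∈ Λ.powerset, sw P E S * ∏ v ∈ Λ,
        (T v (-1) * (1 + 1 / 2 * (chi {v} S * (-1))) * Real.exp (h v * (-1)) +
          T v 1 * (1 + 1 / 2 * (chi {v} S * 1)) * Real.exp (h v * 1)) := by
  have h1 : ∀ U ∈ Λ.powerset, (∏ v ∈ Λ, T v (chi {v} U)) *
        (pw P E Λ U * ∏ v ∈ Λ, Real.exp (h v * chi {v} U)) =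
      ∑ S ∈ Λ.powerset, sw P E S * ∏ v ∈ Λ, (T v (chi {v} U) *
        (1 + 1 / 2 * (chi {v} S * chi {v} U)) * Real.exp (h v * chi {v} U)) := by
    intro U _
    unfold pw
    rw [Finset.sum_mul, Finset.mul_sum]
    refine Finset.sum_congr rfl fun S _ => ?_
    rw [Finset.prod_mul_distrib, Finset.prod_mul_distrib]
    ring
  rw [Finset.sum_congr rfl h1, Finset.sum_comm]
  refine Finset.sum_congr rfl fun S _ => ?_
  rw [← Finset.mul_sum]
  congr 1
  exact sum_prod Λ (fun v u => T v u * (1 + 1 / 2 * (chi {v} S * u)) * Real.exp (h v * u))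

/-- the weight after summation over the pendant -/
noncomputable def a (h s : ℝ) : ℝ :=
  (1 + 1 / 2 * (s * (-1))) * Real.exp (h * (-1)) + (1 + 1 / 2 * (s * 1)) * Real.exp (h * 1)

/-- the same with the pendant spin -/
noncomputable def b (h s : ℝ) : ℝ :=
  -((1 + 1 / 2 * (s * (-1))) * Real.exp (h * (-1))) + (1 + 1 / 2 * (s * 1)) * Real.exp (h * 1)

lemma a_pos (h : ℝ) : 0 < a h 1 ∧ 0 < a h (-1) := by
  have h1 := Real.exp_pos (h * (-1))
  have h2 := Real.exp_pos (h * 1)
  unfold a
  constructor <;> nlinarith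

/-- half of the difference of the conditional means -/
noncomputable def k (h : ℝ) : ℝ := (b h 1 / a h 1 - b h (-1) / a h (-1)) / 2

/-- half of the sum of the conditional means -/
noncomputable def m (h : ℝ) : ℝ := (b h 1 / a h 1 + b h (-1) / a h (-1)) / 2

/-- effective field on the spin -/
noncomputable def be (h : ℝ) : ℝ := (Real.log (a h 1) - Real.log (a h (-1))) / 2

/-- effective constant -/
noncomputable def co (h : ℝ) : ℝ := Real.exp ((Real.log (a h 1) + Real.log (a h (-1))) / 2)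

lemma co_pos (h : ℝ) : 0 < co h := Real.exp_pos _

lemma a_eq (h s : ℝ) (hs : s = 1 ∨ s = -1) : a h s = co h * Real.exp (be h * s) := by
  obtain ⟨h1, h2⟩ := a_pos h
  unfold co be
  rw [← Real.exp_add]
  rcases hs with rfl | rfl
  · have : (Real.log (a h 1) + Real.log (a h (-1))) / 2 +
        (Real.log (a h 1) - Real.log (a h (-1))) / 2 * 1 = Real.log (a h 1) := by ring
    rw [this, Real.exp_log h1]
  · have : (Real.log (a h 1) + Real.log (a h (-1))) / 2 +
        (Real.log (a h 1) - Real.log (a h (-1))) / 2 * (-1) = Real.log (a h (-1)) := by ring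
    rw [this, Real.exp_log h2]

lemma b_eq (h s : ℝ) (hs : s = 1 ∨ s = -1) : b h s = (m h + k h * s) * a h s := by
  obtain ⟨h1, h2⟩ := a_pos h
  unfold m k
  rcases hs with rfl | rfl
  · have : (b h 1 / a h 1 + b h (-1) / a h (-1)) / 2 +
        (b h 1 / a h 1 - b h (-1) / a h (-1)) / 2 * 1 = b h 1 / a h 1 := by ring
    rw [this, div_mul_cancel₀ _ h1.ne']
  · have : (b h 1 / a h 1 + b h (-1) / a h (-1)) / 2 +
        (b h 1 / a h 1 - b h (-1) / a h (-1)) / 2 * (-1) = b h (-1) / a h (-1) := by ring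
    rw [this, div_mul_cancel₀ _ h2.ne']

lemma k_bd (h : ℝ) : 0 ≤ k h ∧ k h ≤ 1 / 2 := by
  obtain ⟨h1, h2⟩ := a_pos h
  have e1 := Real.exp_pos (h * (-1))
  have e2 := Real.exp_pos (h * 1)
  have e3 : Real.exp (h * (-1)) * Real.exp (h * 1) = 1 := by
    rw [← Real.exp_add]; simp
  have hk : k h = (b h 1 * a h (-1) - a h 1 * b h (-1)) / (2 * (a h 1 * a h (-1))) := by
    unfold k
    rw [div_sub_div _ _ h1.ne' h2.ne', div_div]
    congr 1
    ring
  have hnum : b h 1 * a h (-1) - a h 1 * b h (-1) = 4 := by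
    unfold a b
    linear_combination (4 : ℝ) * e3
  have hden : 4 ≤ a h 1 * a h (-1) := by
    unfold a
    nlinarith [sq_nonneg (Real.exp (h * (-1)) - Real.exp (h * 1))]
  rw [hk, hnum]
  constructor
  · positivity
  · rw [div_le_div_iff₀ (by positivity) (by norm_num)]
    linarith

/-- sum with one or two marked pendants -/
lemma sum_wf (P : Sym2 V → ℝ) (E : Finset (Sym2 V)) (Λ : Finset V) (h : V → ℝ)
    (T : V → ℝ → ℝ) (r : V → ℝ → ℝ)
    (hT : ∀ v s, s = 1 ∨ s = -1 →
      T v (-1) * (1 + 1 / 2 * (s * (-1))) * Real.exp (h v * (-1)) +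
          T v 1 * (1 + 1 / 2 * (s * 1)) * Real.exp (h v * 1) = r v s * a (h v) s) :
    ∑ U ∈ Λ.powerset, (∏ v ∈ Λ, T v (chi {v} U)) *
        (pw P E Λ U * ∏ v ∈ Λ, Real.exp (h v * chi {v} U)) =
      (∏ v ∈ Λ, co (h v)) * ∑ S ∈ Λ.powerset, (∏ v ∈ Λ, r v (chi {v} S)) *
        NU.wf P E Λ (fun v => be (h v)) S := by
  rw [sum_U, Finset.mul_sum]
  refine Finset.sum_congr rfl fun S _ => ?_
  have h1 : ∏ v ∈ Λ, (T v (-1) * (1 + 1 / 2 * (chi {v} S * (-1))) * Real.exp (h v * (-1)) +
          T v 1 * (1 + 1 / 2 * (chi {v} S * 1)) * Real.exp (h v * 1)) =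
      ∏ v ∈ Λ, (r v (chi {v} S) * (co (h v) * Real.exp (be (h v) * chi {v} S))) := by
    refine Finset.prod_congr rfl fun v _ => ?_
    rw [hT v _ (chi_cases v S), a_eq _ _ (chi_cases v S)]
  rw [h1, Finset.prod_mul_distrib, Finset.prod_mul_distrib]
  unfold NU.wf
  ring

end PSTM

open PSTM in
theorem specPST (hDSS : SpecDSS) : SpecPST := by
  intro V P E Λ h x y hP0 hP1 hE hEΛ hx hy w hw
  set c : ℝ := ∏ v ∈ Λ, co (h v) with hc
  have hcpos : 0 < c := Finset.prod_pos fun v _ => co_pos _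
  set W : Finset V → ℝ := NU.wf P E Λ (fun v => be (h v)) with hW
  have hswpos : ∀ S, 0 < W S := by
    intro S
    rw [hW]
    unfold NU.wf sw
    refine mul_pos (Finset.prod_pos fun e _ => ?_) (Finset.prod_pos fun v _ => Real.exp_pos _)
    by_cases hm : Mono S e
    · rw [if_pos hm]; exact one_pos
    · rw [if_neg hm]; linarith [hP1 e]
  set Z : ℝ := ∑ S ∈ Λ.powerset, W S with hZ
  have hZpos : 0 < Z :=
    Finset.sum_pos (fun S _ => hswpos S) ⟨∅, Finset.empty_mem_powerset _⟩
  -- the sum of the weights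
  have hD : ∑ U ∈ Λ.powerset, w U = c * Z := by
    have h1 := sum_wf P E Λ h (fun _ _ => 1) (fun _ _ => 1) (by
      intro v s _; unfold a; ring)
    simp only [Finset.prod_const_one, one_mul] at h1
    rw [← h1]
    exact Finset.sum_congr rfl fun U _ => hw U
  -- one marked pendant
  have hX : ∀ z ∈ Λ, ∑ U ∈ Λ.powerset, chi {z} U * w U =
      c * (m (h z) * Z + k (h z) * ∑ S ∈ Λ.powerset, chi {z} S * W S) := by
    intro z hz
    have h1 := sum_wf P E Λ h (fun v u => if v = z then u else 1)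
      (fun v s => if v = z then m (h v) + k (h v) * s else 1) (by
      intro v s hs
      by_cases hv : v = z
      · simp only [if_pos hv]
        have := b_eq (h v) s hs
        rw [← this]
        unfold b; ring
      · simp only [if_neg hv]
        unfold a; ring)
    have h2 : ∀ U ∈ Λ.powerset, chi {z} U * w U =
        (∏ v ∈ Λ, if v = z then chi {v} U else 1) *
        (pw P E Λ U * ∏ v ∈ Λ, Real.exp (h v * chi {v} U)) := by
      intro U _
      rw [hw U, Finset.prod_ite_eq' Λ z, if_pos hz]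
    rw [Finset.sum_congr rfl h2, h1]
    congr 1
    rw [hZ, Finset.mul_sum, Finset.mul_sum, ← Finset.sum_add_distrib]
    refine Finset.sum_congr rfl fun S _ => ?_
    rw [Finset.prod_ite_eq' Λ z, if_pos hz]
    ring
  by_cases hxy : x = y
  · subst hxy
    have h1 : ∀ U : Finset V, chi {x} U * chi {x} U = 1 := by
      intro U
      rcases chi_cases x U with h1 | h1 <;> rw [h1] <;> norm_num
    have hwpos : ∀ U ∈ Λ.powerset, 0 ≤ w U := by
      intro U _
      rw [hw U]
      refine mul_nonneg (Finset.sum_nonneg fun S _ => mul_nonneg ?_ ?_)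
        (Finset.prod_nonneg fun v _ => (Real.exp_pos _).le)
      · unfold sw
        refine Finset.prod_nonneg fun e _ => ?_
        by_cases hm : Mono S e
        · rw [if_pos hm]; exact zero_le_one
        · rw [if_neg hm]; linarith [hP1 e]
      · refine Finset.prod_nonneg fun v _ => ?_
        rcases chi_cases v S with h2 | h2 <;> rcases chi_cases v U with h3 | h3 <;>
          rw [h2, h3] <;> norm_num
    have h2 : ∑ U ∈ Λ.powerset, chi {x} U * chi {x} U * w U = ∑ U ∈ Λ.powerset, w U :=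
      Finset.sum_congr rfl fun U _ => by rw [h1 U, one_mul]
    have h3 : |∑ U ∈ Λ.powerset, chi {x} U * w U| ≤ ∑ U ∈ Λ.powerset, w U := by
      refine (Finset.abs_sum_le_sum_abs _ _).trans (Finset.sum_le_sum fun U hU => ?_)
      rw [abs_mul, abs_of_nonneg (hwpos U hU)]
      rcases chi_cases x U with h4 | h4 <;> rw [h4] <;> simp
    have h4 := abs_le.1 h3
    have hch : ch P E Λ x x = 1 := by unfold ch; rw [if_pos rfl]
    rw [h2, hch]
    constructor
    · nlinarith [h4.1, h4.2]
    · nlinarith [mul_self_nonneg (∑ U ∈ Λ.powerset, chi {x} U * w U)]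
  · have hXY : ∑ U ∈ Λ.powerset, chi {x} U * chi {y} U * w U =
        c * (m (h x) * m (h y) * Z + m (h x) * k (h y) * ∑ S ∈ Λ.powerset, chi {y} S * W S +
          m (h y) * k (h x) * ∑ S ∈ Λ.powerset, chi {x} S * W S +
          k (h x) * k (h y) * ∑ S ∈ Λ.powerset, chi {x} S * chi {y} S * W S) := by
      have h1 := sum_wf P E Λ h
        (fun v u => (if v = x then u else 1) * (if v = y then u else 1))
        (fun v s => (if v = x then m (h v) + k (h v) * s else 1) *
          (if v = y then m (h v) + k (h v) * s else 1)) (by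
        intro v s hs
        have hb := b_eq (h v) s hs
        unfold b at hb
        by_cases hv : v = x
        · have hv' : v ≠ y := fun hv' => hxy (hv.symm.trans hv')
          simp only [if_pos hv, if_neg hv']
          linear_combination hb
        · by_cases hv' : v = y
          · simp only [if_neg hv, if_pos hv']
            linear_combination hb
          · simp only [if_neg hv, if_neg hv']
            unfold a; ring)
      have h2 : ∀ U ∈ Λ.powerset, chi {x} U * chi {y} U * w U =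
          (∏ v ∈ Λ, (if v = x then chi {v} U else 1) * (if v = y then chi {v} U else 1)) *
          (pw P E Λ U * ∏ v ∈ Λ, Real.exp (h v * chi {v} U)) := by
        intro U _
        rw [hw U, Finset.prod_mul_distrib, Finset.prod_ite_eq' Λ x, if_pos hx,
          Finset.prod_ite_eq' Λ y, if_pos hy]
      rw [Finset.sum_congr rfl h2, h1]
      congr 1
      rw [hZ, Finset.mul_sum, Finset.mul_sum, Finset.mul_sum, Finset.mul_sum,
        ← Finset.sum_add_distrib, ← Finset.sum_add_distrib, ← Finset.sum_add_distrib]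
      refine Finset.sum_congr rfl fun S _ => ?_
      rw [Finset.prod_mul_distrib, Finset.prod_ite_eq' Λ x, if_pos hx,
        Finset.prod_ite_eq' Λ y, if_pos hy]
      ring
    obtain ⟨d1, d2⟩ := hDSS V P E Λ (fun v => be (h v)) x y hP0 hP1 hE hEΛ hx hy hxy
    rw [← hW, ← hZ] at d1 d2
    rw [hD, hX x hx, hX y hy, hXY]
    have hch : ch P E Λ x y = 1 / 4 * corr P E Λ {x, y} := by unfold ch; rw [if_neg hxy]
    rw [hch]
    set Mx := ∑ S ∈ Λ.powerset, chi {x} S * W S
    set My := ∑ S ∈ Λ.powerset, chi {y} S * W S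
    set Mxy := ∑ S ∈ Λ.powerset, chi {x} S * chi {y} S * W S
    obtain ⟨kx0, kx1⟩ := k_bd (h x)
    obtain ⟨ky0, ky1⟩ := k_bd (h y)
    have hid : c * (m (h x) * m (h y) * Z + m (h x) * k (h y) * My + m (h y) * k (h x) * Mx +
          k (h x) * k (h y) * Mxy) * (c * Z) -
        c * (m (h x) * Z + k (h x) * Mx) * (c * (m (h y) * Z + k (h y) * My)) =
        c ^ 2 * (k (h x) * k (h y)) * (Mxy * Z - Mx * My) := by ring
    have ht : 0 ≤ Mxy * Z - Mx * My := by linarith
    have hkk0 : 0 ≤ k (h x) * k (h y) := mul_nonneg kx0 ky0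
    have hkk1 : k (h x) * k (h y) ≤ 1 / 4 := by nlinarith
    have hc2 : 0 < c ^ 2 := by positivity
    constructor
    · have : 0 ≤ c ^ 2 * (k (h x) * k (h y)) * (Mxy * Z - Mx * My) := by positivity
      linarith
    · rw [hid]
      have h5 : c ^ 2 * (k (h x) * k (h y)) * (Mxy * Z - Mx * My) ≤
          c ^ 2 * (1 / 4) * (Mxy * Z - Mx * My) := by
        apply mul_le_mul_of_nonneg_right _ ht
        exact mul_le_mul_of_nonneg_left hkk1 hc2.le
      have h6 : c ^ 2 * (1 / 4) * (Mxy * Z - Mx * My) ≤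
          c ^ 2 * (1 / 4) * (corr P E Λ {x, y} * Z ^ 2) :=
        mul_le_mul_of_nonneg_left d2 (by positivity)
      calc _ ≤ c ^ 2 * (1 / 4) * (corr P E Λ {x, y} * Z ^ 2) := h5.trans h6
        _ = 1 / 4 * corr P E Λ {x, y} * (c * Z) ^ 2 := by ring

end UN

end MP8622
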