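import Pool.Agent.Lib.MP_8622f1_pr.UN.SpecP
import Pool.Agent.Lib.MP_8622f1_pr.UN.Spec
import Pool.Agent.Lib.MP_8622f1_pr.DS.BRG
import Pool.Agent.Lib.MP_8622f1_pr.DS.TRF
import Pool.Agent.Lib.MP_8622f1_pr.UN.CAL
import Pool.Agent.Lib.MP_8622f1_pr.UN.CHL
import Pool.Agent.Lib.MP_8622f1_pr.UN.INF
import Pool.Agent.Lib.MP_8622f1_pr.UN.KEY
import Pool.Agent.Lib.MP_8622f1_pr.UN.PPW
import Pool.Agent.Lib.MP_8622f1_pr.UN.PPE
import Pool.Agent.Lib.MP_8622f1_pr.UN.PST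
import Pool.Agent.Lib.MP_8622f1_pr.UN.FIN
import Pool.Agent.Lib.MP_8622f1_pr.UN.NUB

section
set_option autoImplicit false

open Classical Filter Topology

/-!
POS: positivity of the posterior law of the pendant spins, top level statement.
-/

namespace MP8622

namespace UN

theorem specPOS (hPBX : SpecPBX) : SpecPOS := by
  intro d m b₀ b₁ n hb₀ hb
  by_cases hn : 0 < n
  · have h0 : 0 < pr b₀ := by
      unfold pr
      have : Real.exp (-2 * b₀) < 1 := by
        rw [← Real.exp_zero]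
        exact Real.exp_lt_exp.2 (by linarith)
      linarith
    have h1 : pr b₁ < 1 := by
      unfold pr
      linarith [Real.exp_pos (-2 * b₁)]
    have hmono : ∀ a b : ℝ, a ≤ b → pr a ≤ pr b := by
      intro a b hab
      unfold pr
      have : Real.exp (-2 * b) ≤ Real.exp (-2 * a) := Real.exp_le_exp.2 (by linarith)
      linarith
    obtain ⟨κ₀, hκ₀, H⟩ := hPBX d m n (pr b₀) (pr b₁) h0 (hmono _ _ hb) h1 hn
    refine ⟨κ₀, hκ₀, ?_⟩
    intro V G _ N B ν φ δ K β hdeg hker hchn hK hKK hβ₀ hβ₁ Λ A hA Z f g hf hg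
    obtain ⟨-, h2⟩ := H V G N B ν φ δ K (pr β) Λ A Z hdeg hker hchn hK hKK (hmono _ _ hβ₀)
      (hmono _ _ hβ₁) hA
    have h3 := h2 f g hf hg
    unfold eL ex
    have e1 : ∀ q : Finset V → ℝ,
        ∑ U ∈ Λ.powerset, q U * om φ A Z U * pw (fun _ => pr β) (ed0 G Λ) Λ U =
          ∑ U ∈ Λ.powerset, q U * (pw (fun _ => pr β) (ed0 G Λ) Λ U * om φ A Z U) := fun q =>
      Finset.sum_congr rfl fun U _ => by ring
    have e2 : ∑ U ∈ Λ.powerset, om φ A Z U * pw (fun _ => pr β) (ed0 G Λ) Λ U =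
          ∑ U ∈ Λ.powerset, pw (fun _ => pr β) (ed0 G Λ) Λ U * om φ A Z U :=
      Finset.sum_congr rfl fun U _ => by ring
    rw [e1 f, e1 g, e1 (fun U => f U * g U), e2, div_mul_div_comm, div_mul_div_comm]
    exact div_le_div_of_nonneg_right h3 (mul_self_nonneg _)
  · exact ⟨1, one_pos, fun V G _ N B ν φ δ K β _ hker => absurd hker.npos hn⟩

end UN

end MP8622
end

section
set_option autoImplicit false

/-!
# MP_8622f1_pr, frozen S19447: all modules of the unimodular case (helper66)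
-/

namespace MP8622

/-- Ding-Song-Sun inequality -/
theorem DS.all : UN.SpecDSS := by
  have hELF : DS.SpecELF := DS.specELF
  have hSOC : DS.SpecSOC := DS.specSOC
  have hQCV : DS.SpecQCV := DS.specQCV
  have hCMO : DS.SpecCMO := DS.specCMO hELF
  have hCMI : DS.SpecCMI := DS.specCMI hELF
  have hCCR : DS.SpecCCR := DS.specCCR hELF hSOC
  have hCAL : DS.SpecCAL := DS.specCAL hELF hQCV hCMO hCMI hCCR
  have hNAP : DS.SpecNAP := DS.specNAP
  have hMON : DS.SpecMON := DS.specMON hNAP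
  have hREC : DS.SpecREC := DS.specREC
  have hLRC : DS.SpecLRC := DS.specLRC hREC
  have hDUP : DS.SpecDUP := DS.specDUP hREC
  have hGKM : DS.SpecGKM := DS.specGKM hDUP hMON
  have hPRA : DS.SpecPRA := DS.specPRA hLRC
  have hPRO : DS.SpecPRO := DS.specPRO hGKM
  have hONE : DS.SpecONE := DS.specONE hPRA hPRO hCAL
  have hCLM : DS.SpecCLM := DS.specCLM hONE
  have hCLC : DS.SpecCLC := DS.specCLC hCLM
  have hCVU : DS.SpecCVU := DS.specCVU hCLC hREC hMON
  have hTRF : DS.SpecTRF := DS.specTRF hCVU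
  have hFKC : DS.SpecFKC := DS.specFKC
  exact DS.specDSS hTRF hFKC

/-- the uniform bound -/
theorem UN.key : UN.SpecKEY := by
  have hDSS : UN.SpecDSS := DS.all
  have hPST : UN.SpecPST := UN.specPST hDSS
  have hCHL : UN.SpecCHL := UN.specCHL hPST
  have hCAL : UN.SpecCAL := UN.specCAL
  have hINF : UN.SpecINF := UN.specINF hCAL
  have hPFK : UN.SpecPFK := UN.specPFK
  have hPON : UN.SpecPON := UN.specPON hPFK
  have hPNB : UN.SpecPNB := UN.specPNB hPFK
  have hPCH : UN.SpecPCH := UN.specPCH hPON hPNB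
  have hPPE : UN.SpecPPE := UN.specPPE
  have hPLI : UN.SpecPLI := UN.specPLI
  have hPPW : UN.SpecPPW := UN.specPPW hPCH hPFK hPPE hPLI
  have hPOA : UN.SpecPOA := UN.specPOA hPPW hPPE hPLI
  have hPBX : UN.SpecPBX := UN.specPBX hPOA
  have hPOS : UN.SpecPOS := UN.specPOS hPBX
  exact UN.specKEY hPOS hINF hCHL

end MP8622
end

section
set_option autoImplicit false

open Classical Filter Topology

/-!
# MP_8622f1_pr: the strong form for all nonamenable transitive graphs (helper66)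
-/

namespace MP8622

namespace UN

namespace STRM

variable {V : Type} (G : SimpleGraph V) [G.LocallyFinite]

open NU NU.NUNM IsfM in
/-- core, nonunimodular case -/
theorem coreN (Γ : Type) [Group Γ] [MulAction Γ V] (hconn : G.Connected)
    (haut : ∀ (γ : Γ) (x y : V), G.Adj (γ • x) (γ • y) ↔ G.Adj x y)
    (htra : ∀ x y : V, ∃ γ : Γ, γ • x = y)
    (hnon : ∃ x y : V, (MulAction.orbit (MulAction.stabilizer Γ x) y).ncard ≠
      (MulAction.orbit (MulAction.stabilizer Γ y) x).ncard) (o : V) :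
    ∃ βc b B : ℝ, 0 < βc ∧ βc < b ∧
      (∀ β : ℝ, 0 < β → β < βc → tp G β {o} = 0) ∧
      (∀ β : ℝ, βc < β → 0 < tp G β {o}) ∧
      ∀ β : ℝ, 0 ≤ β → β ≤ b → ∀ Λ : Finset V, AHP.OB 2 (tau G (pr β) Λ) B := by
  obtain ⟨hHGT, hUNI⟩ := uni
  obtain ⟨x₀, y₀, hxy⟩ := hnon
  obtain ⟨h, τ, hHT⟩ := hHGT Γ V G hconn haut htra ⟨x₀, y₀, hxy⟩
  have htr : ∀ x y : V, ∃ g : V ≃ V, IsAut G g ∧ g x = y := by
    intro x y
    obtain ⟨γ, hγ⟩ := htra x y
    exact ⟨MulAction.toPerm γ, fun a b => haut γ a b, hγ⟩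
  -- heights are unbounded, so `V` is infinite
  have hinf : Infinite V := by
    by_contra hfin
    rw [not_infinite_iff_finite] at hfin
    have : Nonempty V := ⟨o⟩
    obtain ⟨x, hx⟩ := Finite.exists_max h
    obtain ⟨y, -, hy⟩ := hHT.up x
    have := hx y
    have := hHT.pos
    linarith
  have hsub : ∀ β β' : ℝ, 0 ≤ β → β < β' → tp G β' {o} = 0 →
      ∃ B : ℝ, ∀ (Λ : Finset V) (x : V), ∑ z ∈ Λ, tau G (pr β) Λ x z ≤ B :=
    fun β β' h1 h2 h3 => RP.specSHA V G htr o β β' h1 h2 h3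
  have hprlt : ∀ {a b : ℝ}, pr a < pr b → a < b := by
    intro a b hab
    by_contra hcon
    have := AhM.pr_mono (not_lt.1 hcon)
    linarith
  obtain ⟨S, hS⟩ : ∃ S : Set ℝ, S = {β : ℝ | 0 < β ∧ 0 < tp G β {o}} := ⟨_, rfl⟩
  have hmem : ∀ β : ℝ, β ∈ S ↔ 0 < β ∧ 0 < tp G β {o} := by
    intro β
    rw [hS]
    rfl
  have hfin : ∃ β : ℝ, 0 < β ∧ 0 < tp G β {o} := by
    by_contra hcon
    push Not at hcon
    obtain ⟨B, hB, hOB⟩ := hUNI Γ V G h τ hHT hconn 1 one_pos le_rfl (fun p hp0 hp1 => by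
      obtain ⟨b, hb, rfl⟩ := AhM.exists_pr hp0 hp1
      exact hsub b (b + 1) hb.le (by linarith)
        (le_antisymm (hcon _ (by linarith)) (tp_nonneg G (by linarith) _)))
    exact not_uniform G hconn B hOB
  have hne : S.Nonempty := by
    obtain ⟨β, hβ⟩ := hfin
    exact ⟨β, (hmem β).2 hβ⟩
  have hbdd : BddBelow S := ⟨0, fun β hβ => ((hmem β).1 hβ).1.le⟩
  have hOPB : ∀ b₀ : ℝ, 0 < b₀ → ∃ B : ℝ, 0 < B ∧ ∀ (β β' : ℝ), b₀ ≤ β → β < β' →
      tp G β' {o} = 0 → ∀ Λ : Finset V, AHP.OB 2 (tau G (pr β) Λ) B := by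
    intro b₀ hb₀
    have hle : ∀ β' : ℝ, 0 < β' → tp G β' {o} = 0 → β' ≤ sInf S := by
      intro β' hβ' h0
      refine le_csInf hne fun b hb => ?_
      by_contra hlt
      push Not at hlt
      have h1 := (hmem b).1 hb
      have h2 := RP.FINM.tp_mono_beta G h1.1.le hlt.le {o}
      linarith [h1.2]
    by_cases hpos : 0 < sInf S
    · have hpc0 : 0 < pr (sInf S) := by
        have h1 := AhM.pr_lt hpos
        have h2 : pr 0 = 0 := by simp [pr]
        linarith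
      obtain ⟨B, hB, hOB⟩ := hUNI Γ V G h τ hHT hconn (pr (sInf S)) hpc0 (pr_le_one _)
        (fun p hp0 hp1 => by
          obtain ⟨b, hb, rfl⟩ := AhM.exists_pr hp0 (hp1.trans_le (pr_le_one _))
          have hb1 : b < sInf S := hprlt hp1
          refine hsub b ((b + sInf S) / 2) hb.le (by linarith) ?_
          by_contra h0
          have h1 : (b + sInf S) / 2 ∈ S := (hmem _).2 ⟨by linarith,
            lt_of_le_of_ne (tp_nonneg G (by linarith) _) (Ne.symm h0)⟩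
          have h2 := csInf_le hbdd h1
          linarith)
      refine ⟨B, hB, fun β β' h1 h2 h3 Λ => hOB (pr β) (pr_nonneg (by linarith)) ?_ Λ⟩
      exact AhM.pr_lt (h2.trans_le (hle β' (by linarith) h3))
    · refine ⟨1, one_pos, fun β β' h1 h2 h3 Λ => ?_⟩
      have := hle β' (by linarith) h3
      linarith
  exact RP.FINM.core G htr o hfin hOPB (RP.specPSS RP.specGSL)

/-- core, unimodular case -/
theorem coreU (Γ : Type) [Group Γ] [MulAction Γ V] (hconn : G.Connected)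
    (haut : ∀ (γ : Γ) (x y : V), G.Adj (γ • x) (γ • y) ↔ G.Adj x y)
    (htra : ∀ x y : V, ∃ γ : Γ, γ • x = y) (hM : MTP Γ V)
    (hexp : ∃ c : ℝ, 0 < c ∧ ∀ S : Finset V,
        c * (S.card : ℝ) ≤ ∑ x ∈ S, ((G.neighborFinset x \ S).card : ℝ)) (o : V) :
    ∃ βc b B : ℝ, 0 < βc ∧ βc < b ∧
      (∀ β : ℝ, 0 < β → β < βc → tp G β {o} = 0) ∧
      (∀ β : ℝ, βc < β → 0 < tp G β {o}) ∧
      ∀ β : ℝ, 0 ≤ β → β ≤ b → ∀ Λ : Finset V, AHP.OB 2 (tau G (pr β) Λ) B := by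
  have hKEY := key
  have htr : ∀ x y : V, ∃ g : V ≃ V, IsAut G g ∧ g x = y := by
    intro x y
    obtain ⟨γ, hγ⟩ := htra x y
    exact ⟨MulAction.toPerm γ, fun a b => haut γ a b, hγ⟩
  -- `V` is infinite
  have hinf : Infinite V := by
    by_contra hfin
    rw [not_infinite_iff_finite] at hfin
    have := Fintype.ofFinite V
    obtain ⟨c, hc, h⟩ := hexp
    have h1 := h Finset.univ
    have h2 : 0 < (Finset.univ : Finset V).card := Finset.card_pos.2 ⟨o, Finset.mem_univ o⟩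
    have h3 : (0 : ℝ) < ((Finset.univ : Finset V).card : ℝ) := by exact_mod_cast h2
    have h4 : ∑ x ∈ (Finset.univ : Finset V), ((G.neighborFinset x \ Finset.univ).card : ℝ) = 0 :=
      Finset.sum_eq_zero fun x _ => by
        rw [Finset.sdiff_eq_empty_iff_subset.2 (Finset.subset_univ _)]
        simp
    rw [h4] at h1
    have := mul_pos hc h3
    linarith
  have hcount := (specOrb Γ V G hconn haut).1
  obtain ⟨c, hc, hiso⟩ := hexp
  obtain ⟨β₁, hβ₁, hm₁⟩ := exists_pos_mag Γ V G haut htra hM c hc hiso o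
  have hOPB : ∀ b₀ : ℝ, 0 < b₀ → ∃ B : ℝ, 0 < B ∧ ∀ (β β' : ℝ), b₀ ≤ β → β < β' →
      tp G β' {o} = 0 → ∀ Λ : Finset V, AHP.OB 2 (tau G (pr β) Λ) B := by
    intro b₀ hb₀
    obtain ⟨B, hB, h⟩ := hKEY Γ V G hconn haut htra hM c hc hiso b₀ (max b₀ β₁) hb₀
      (le_max_left _ _)
    refine ⟨B, hB, fun β β' h1 h2 h3 Λ => h β h1 ?_ ?_ Λ⟩
    · by_contra hlt
      push Not at hlt
      have h4 : β₁ ≤ β' := (le_max_right _ _).trans (hlt.le.trans h2.le)
      have h5 := RP.FINM.tp_mono_beta G hβ₁.le h4 {o}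
      linarith
    · exact RP.specSHA V G htr o β β' (hb₀.le.trans h1) h2 h3
  exact RP.FINM.core G htr o ⟨β₁, hβ₁, hm₁⟩ hOPB (RP.specPSS RP.specGSL)

/-- core, all nonamenable transitive graphs -/
theorem coreA (hconn : G.Connected) (htr : ∀ x y : V, ∃ φ : G ≃g G, φ x = y)
    (hexp : ∃ c : ℝ, 0 < c ∧ ∀ S : Finset V,
        c * (S.card : ℝ) ≤ ∑ x ∈ S, ((G.neighborFinset x \ S).card : ℝ)) (o : V) :
    ∃ βc b B : ℝ, 0 < βc ∧ βc < b ∧
      (∀ β : ℝ, 0 < β → β < βc → tp G β {o} = 0) ∧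
      (∀ β : ℝ, βc < β → 0 < tp G β {o}) ∧
      ∀ β : ℝ, 0 ≤ β → β ≤ b → ∀ Λ : Finset V, AHP.OB 2 (tau G (pr β) Λ) B := by
  have haut : ∀ (γ : G ≃g G) (x y : V), G.Adj (γ • x) (γ • y) ↔ G.Adj x y := by
    intro γ x y
    exact γ.map_adj_iff
  have htr' : ∀ x y : V, ∃ γ : G ≃g G, γ • x = y := htr
  by_cases huni : ∀ x y : V, (MulAction.orbit (MulAction.stabilizer (G ≃g G) x) y).ncard =
      (MulAction.orbit (MulAction.stabilizer (G ≃g G) y) x).ncard
  · exact coreU G (G ≃g G) hconn haut htr' (specUni (G ≃g G) V htr'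
      (specOrb (G ≃g G) V G hconn haut).2 huni) hexp o
  · push Not at huni
    exact coreN G (G ≃g G) hconn haut htr' huni o

open IsfM RP RP.ENDM in
/-- the final statement for a general graph, uniform version -/
theorem concl' [Infinite V]
    (htr : ∀ x y : V, ∃ g : V ≃ V, IsAut G g ∧ g x = y) (o : V)
    (βc b B : ℝ) (hβc : 0 < βc) (hb : βc < b)
    (hlow : ∀ β : ℝ, 0 < β → β < βc → tp G β {o} = 0)
    (hup : ∀ β : ℝ, βc < β → 0 < tp G β {o})
    (hOB : ∀ β : ℝ, 0 ≤ β → β ≤ b → ∀ Λ : Finset V, AHP.OB 2 (tau G (pr β) Λ) B)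
    (σ : ℝ → Finset V → Finset V → V → ℝ)
    (hσ : ∀ (h : ℝ) (Λ S : Finset V) (x : V),
          σ h Λ S x = if x ∈ Λ then (if x ∈ S then (1 : ℝ) else -1) else h)
    (E : ℝ → Finset V → Finset V → ℝ)
    (hE : ∀ (h : ℝ) (Λ S : Finset V),
          E h Λ S = ∑ x ∈ Λ, ∑ y ∈ G.neighborFinset x,
            (if y ∈ Λ then (1 / 2 : ℝ) else 1) * σ h Λ S x * σ h Λ S y)
    (C : ℝ → ℝ → Finset V → Finset V → ℝ)
    (hC : ∀ (β h : ℝ) (A Λ : Finset V),
          C β h A Λ =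
            (∑ S ∈ Λ.powerset, (∏ x ∈ A, σ h Λ S x) * Real.exp (β * E h Λ S)) /
              ∑ S ∈ Λ.powerset, Real.exp (β * E h Λ S)) :
    ∃ βc ε B : ℝ, 0 < βc ∧ 0 < ε ∧
      (∀ β : ℝ, 0 < β → β < βc → Tendsto (fun Λ : Finset V => C β 1 {o} Λ) atTop (𝓝 0)) ∧
      (∀ β : ℝ, βc < β → ∃ p : ℝ, 0 < p ∧
        Tendsto (fun Λ : Finset V => C β 1 {o} Λ) atTop (𝓝 p)) ∧
      ∀ β : ℝ, 0 < β → β < βc + ε →
        (∃ τ : V → V → ℝ, (∀ x, τ x x = 1) ∧
          (∀ x y, x ≠ y → Tendsto (fun Λ : Finset V => C β 0 {x, y} Λ) atTop (𝓝 (τ x y))) ∧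
          ∀ (S R : Finset V) (f : V → ℝ),
            ∑ x ∈ R, (∑ y ∈ S, τ x y * f y) ^ 2 ≤ B * ∑ y ∈ S, f y ^ 2) ∧
        (βc < β → ∃ A : Finset V, ∃ a p m : ℝ,
          Tendsto (fun Λ : Finset V => C β 0 A Λ) atTop (𝓝 a) ∧
          Tendsto (fun Λ : Finset V => C β 1 A Λ) atTop (𝓝 p) ∧
          Tendsto (fun Λ : Finset V => C β (-1) A Λ) atTop (𝓝 m) ∧
          a ≠ (p + m) / 2) := by
  obtain ⟨hl0, hl1, hlm⟩ := specLink V G σ hσ E hE C hC
  have h1 : ∀ β : ℝ, 0 < β → β < βc → Tendsto (fun Λ : Finset V => C β 1 {o} Λ) atTop (𝓝 0) := by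
    intro β hβ hβ2
    simp only [hl1]
    have := tendsto_Tp G hβ.le {o}
    rwa [hlow β hβ hβ2] at this
  have h2 : ∀ β : ℝ, βc < β → ∃ p : ℝ, 0 < p ∧
      Tendsto (fun Λ : Finset V => C β 1 {o} Λ) atTop (𝓝 p) := by
    intro β hβ
    refine ⟨_, hup β hβ, ?_⟩
    simp only [hl1]
    exact tendsto_Tp G (hβc.le.trans hβ.le) {o}
  refine ⟨βc, b - βc, B, hβc, by linarith, h1, h2, fun β hβ0 hβ2 => ?_⟩
  have hβb : β ≤ b := by linarith
  have hob : AHP.OB 2 (fun x y => tf G β (symmDiff {x} {y})) B :=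
    AhM.ob_tf G one_lt_two hβ0.le fun Λ => hOB β hβ0.le hβb Λ
  refine ⟨⟨fun x y => if x = y then 1 else tf G β {x, y}, fun x => if_pos rfl, ?_, ?_⟩, ?_⟩
  · intro x y hxy
    simp only [if_neg hxy]
    refine (tendsto_Tf G hβ0.le {x, y}).congr' ?_
    filter_upwards [eventually_ge_atTop ({x, y} : Finset V)] with Λ hΛ
    exact (hl0 β {x, y} Λ hΛ).symm
  · intro S R f
    have hτ : ∀ x y : V, (if x = y then (1 : ℝ) else tf G β {x, y}) =
        tf G β (symmDiff {x} {y}) := by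
      intro x y
      by_cases hxy : x = y
      · rw [if_pos hxy, hxy]
        exact (FINM.T2_self G β y).symm
      · rw [if_neg hxy, IsFinM.symmDiff_pair hxy]
    have h3 := hob R S (fun y => |f y|) fun y => abs_nonneg _
    simp only [Real.rpow_two, sq_abs] at h3
    refine le_trans (Finset.sum_le_sum fun x _ => ?_) h3
    simp only [hτ]
    rw [← sq_abs (∑ y ∈ S, tf G β (symmDiff {x} {y}) * f y)]
    refine pow_le_pow_left₀ (abs_nonneg _) ?_ 2
    refine (Finset.abs_sum_le_sum_abs _ _).trans (Finset.sum_le_sum fun y _ => ?_)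
    rw [abs_mul, abs_of_nonneg (tf_nonneg G hβ0.le _)]
  · intro hβ
    have hm := hup β hβ
    obtain ⟨x, hx, hlt'⟩ := AhM.exists_small G hob o (m := tp G β {o} ^ 2) (by positivity)
    have h4 := sq_le_tp G hβ0.le htr hx o
    refine ⟨{x, o}, tf G β {x, o}, tp G β {x, o}, tp G β {x, o}, ?_, ?_, ?_, ?_⟩
    · refine (tendsto_Tf G hβ0.le {x, o}).congr' ?_
      filter_upwards [eventually_ge_atTop ({x, o} : Finset V)] with Λ hΛ
      exact (hl0 β {x, o} Λ hΛ).symm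
    · simp only [hl1]
      exact tendsto_Tp G hβ0.le {x, o}
    · simp only [hlm, Finset.card_pair hx]
      norm_num
      exact tendsto_Tp G hβ0.le {x, o}
    · intro h5
      have h6 : (tp G β {x, o} + tp G β {x, o}) / 2 = tp G β {x, o} := by ring
      rw [h6] at h5
      linarith


end STRM

end UN

end MP8622
end
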